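import Pool.Agent.Helper826.Jia.WD

set_option autoImplicit false

namespace Jia
open Finset Filter
open scoped symmDiff

open Finset Filter
open scoped symmDiff

theorem w2_tops_unf (nb : ℕ → Finset ℕ) (n : ℕ) : ∀ R k x w : ℕ, (unf nb n R k x w).tops = [w]
  | 0, _, _, _ => by simp [unf, BT.tops]
  | _ + 1, 0, _, _ => by simp [unf, BT.tops]
  | _ + 1, _ + 1, _, _ => by simp [unf, BT.tops]

theorem w2_tops_bq (d : ℕ) : ∀ l : List (BT ℕ), l ≠ [] → (bq d l).tops = l.flatMap BT.tops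
  | [], h => absurd rfl h
  | [t], _ => by simp [bq]
  | t :: u :: l, _ => by
    rw [bq, BT.tops, w2_tops_bq d (u :: l) (by simp), List.flatMap_cons (x := t)]

theorem w2_labels_bq (d : ℕ) : ∀ l : List (BT ℕ), l ≠ [] → (bq d l).labels = l.flatMap BT.labels
  | [], h => absurd rfl h
  | [t], _ => by simp [bq]
  | t :: u :: l, _ => by
    rw [bq, BT.labels, w2_labels_bq d (u :: l) (by simp), List.flatMap_cons (x := t)]

theorem w2_nodes_bq (d : ℕ) : ∀ l : List (BT ℕ), l ≠ [] → (bq d l).nodes = l.flatMap BT.nodes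
  | [], h => absurd rfl h
  | [t], _ => by simp [bq]
  | t :: u :: l, _ => by
    rw [bq, BT.nodes, w2_nodes_bq d (u :: l) (by simp), List.flatMap_cons (x := t)]

theorem w2_outs_bq (d p : ℕ) : ∀ l : List (BT ℕ), l ≠ [] → (bq d l).outs p = l.flatMap (BT.outs p)
  | [], h => absurd rfl h
  | [t], _ => by simp [bq]
  | t :: u :: l, _ => by
    rw [bq, BT.outs, w2_outs_bq d p (u :: l) (by simp), List.flatMap_cons (x := t)]

theorem w2_full_bq (K : Finset (Sym2 ℕ)) (d p : ℕ) : ∀ l : List (BT ℕ), l ≠ [] →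
    ((bq d l).Full K p ↔ ∀ t ∈ l, t.Full K p)
  | [], h => absurd rfl h
  | [t], _ => by simp [bq]
  | t :: u :: l, _ => by
    rw [bq, BT.Full, w2_full_bq K d p (u :: l) (by simp)]
    simp only [List.mem_cons, forall_eq_or_imp]

theorem w2_ne {nb : ℕ → Finset ℕ} {x w : ℕ} (h : 2 ≤ (nb w).card) :
    ((nb w).erase x).Nonempty := by
  rw [← card_pos]
  have := pred_card_le_card_erase (s := nb w) (a := x)
  omega

theorem w2_len {nb : ℕ → Finset ℕ} {f : ℕ → BT ℕ} {p x w M : ℕ} (hne : ((nb w).erase x).Nonempty)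
    (hf : ∀ y ∈ (nb w).erase x, ((f y).outs p).length ≤ M) :
    ((bq w (((nb w).erase x).toList.map f)).outs p).length ≤ ((nb w).erase x).card * M := by
  rw [w2_outs_bq _ _ _ (by
    intro h
    rw [List.map_eq_nil_iff, toList_eq_nil] at h
    exact hne.ne_empty h), List.length_flatMap, List.map_map]
  refine (List.sum_le_card_nsmul _ M ?_).trans ?_
  · intro z hz
    rw [List.mem_map] at hz
    obtain ⟨y, hy, rfl⟩ := hz
    exact hf y (mem_toList.1 hy)
  · rw [List.length_map, length_toList, smul_eq_mul]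

theorem w2_outs_unf {nb : ℕ → Finset ℕ} {D : ℕ} (hD : ∀ x, (nb x).card ≤ D)
    (h2 : ∀ x, (nb x).Nonempty → 2 ≤ (nb x).card)
    (hsymm : ∀ x y, y ∈ nb x → x ∈ nb y) (n : ℕ) : ∀ R k x w p : ℕ, w ∈ nb x →
    comp nb R k x w → ((unf nb n R k x w).outs p).length ≤ D ^ k
  | 0, k, x, w, p, _, hc => by
    rw [comp] at hc
    subst hc
    simp [unf, BT.outs]
  | R + 1, 0, x, w, p, _, _ => by simp [unf, BT.outs]
  | R + 1, k + 1, x, w, p, hw, hc => by
    rw [comp] at hc
    rw [unf, BT.outs]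
    have hx : x ∈ nb w := hsymm x w hw
    have hne := w2_ne (x := x) (h2 w ⟨x, hx⟩)
    have ih := fun y (hy : y ∈ (nb w).erase x) =>
      w2_outs_unf hD h2 hsymm n R (if 2 ≤ ((nb w).erase x).card then k else k + 1) w y w
        (mem_of_mem_erase hy) (hc y hy)
    refine (w2_len hne ih).trans ?_
    have hcard : ((nb w).erase x).card ≤ D := (card_le_card (erase_subset _ _)).trans (hD w)
    split_ifs with h
    · rw [pow_succ']
      exact Nat.mul_le_mul_right _ hcard
    · have h1 : ((nb w).erase x).card ≤ 1 := by omega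
      calc ((nb w).erase x).card * D ^ (k + 1) ≤ 1 * D ^ (k + 1) := Nat.mul_le_mul_right _ h1
        _ = _ := one_mul _

theorem root_outs {nb : ℕ → Finset ℕ} {D : ℕ} (hD : ∀ x, (nb x).card ≤ D)
    (h2 : ∀ x, (nb x).Nonempty → 2 ≤ (nb x).card)
    (hsymm : ∀ x y, y ∈ nb x → x ∈ nb y) {n R k c o : ℕ} (hc : 3 ≤ (nb c).card) (ho : o ∈ nb c)
    (hcomp : ∀ y ∈ (nb c).erase o, comp nb R k c y) :
    ((rootb nb n R k c o).outs c).length ≤ D ^ (k + 1) := by
  rw [rootb]
  have hne := w2_ne (nb := nb) (x := o) (w := c) (by omega)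
  refine (w2_len hne (fun y hy => w2_outs_unf hD h2 hsymm n R k c y c (mem_of_mem_erase hy)
    (hcomp y hy))).trans ?_
  rw [pow_succ']
  exact Nat.mul_le_mul_right _ ((card_le_card (erase_subset _ _)).trans (hD c))

theorem w2_tops {nb : ℕ → Finset ℕ} {n R k x w : ℕ} (hne : ((nb w).erase x).Nonempty) :
    ∀ y, y ∈ (bq w (((nb w).erase x).toList.map (fun y => unf nb n R k w y))).tops ↔
      y ∈ (nb w).erase x := by
  intro y
  rw [w2_tops_bq _ _ (by
    intro h
    rw [List.map_eq_nil_iff, toList_eq_nil] at h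
    exact hne.ne_empty h), List.mem_flatMap]
  constructor
  · rintro ⟨t, ht, hy⟩
    rw [List.mem_map] at ht
    obtain ⟨z, hz, rfl⟩ := ht
    rw [w2_tops_unf, List.mem_singleton] at hy
    rw [hy]
    exact mem_toList.1 hz
  · intro hy
    refine ⟨unf nb n R k w y, List.mem_map.2 ⟨y, mem_toList.2 hy, rfl⟩, ?_⟩
    rw [w2_tops_unf]
    exact List.mem_singleton.2 rfl

theorem root_tops {nb : ℕ → Finset ℕ} {n R k c o : ℕ} (hc : 3 ≤ (nb c).card) :
    ∀ y, y ∈ (rootb nb n R k c o).tops ↔ y ∈ (nb c).erase o := by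
  rw [rootb]
  exact w2_tops (w2_ne (by omega))

theorem w2_full_unf {nb : ℕ → Finset ℕ} (h2 : ∀ x, (nb x).Nonempty → 2 ≤ (nb x).card)
    (hsymm : ∀ x y, y ∈ nb x → x ∈ nb y) (n : ℕ) (K : Finset (Sym2 ℕ)) : ∀ R k x w : ℕ,
    w ∈ nb x → (∀ y ∈ (unf nb n R k x w).nodes, ∀ z, s(y, z) ∈ K ↔ z ∈ nb y) →
    (unf nb n R k x w).Full K x
  | 0, k, x, w, _, _ => by simp [unf, BT.Full]
  | R + 1, 0, x, w, _, _ => by simp [unf, BT.Full]
  | R + 1, k + 1, x, w, hw, hK => by
    have hx : x ∈ nb w := hsymm x w hw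
    have hne := w2_ne (x := x) (h2 w ⟨x, hx⟩)
    rw [unf, BT.Full]
    rw [unf, BT.nodes] at hK
    have hlist : (((nb w).erase x).toList.map
        (fun y => unf nb n R (if 2 ≤ ((nb w).erase x).card then k else k + 1) w y)) ≠ [] := by
      intro h
      rw [List.map_eq_nil_iff, toList_eq_nil] at h
      exact hne.ne_empty h
    constructor
    · intro y
      rw [hK w List.mem_cons_self, w2_tops hne, mem_erase]
      constructor
      · intro hy
        by_cases h : y = x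
        · left; exact h
        · right; exact ⟨h, hy⟩
      · rintro (h | h)
        · rw [h]; exact hx
        · exact h.2
    · rw [w2_full_bq _ _ _ _ hlist]
      intro t ht
      have ht' := ht
      rw [List.mem_map] at ht
      obtain ⟨y, hy, rfl⟩ := ht
      apply w2_full_unf h2 hsymm n K R _ w y (mem_of_mem_erase (mem_toList.1 hy))
      intro z hz
      apply hK
      apply List.mem_cons_of_mem
      rw [w2_nodes_bq _ _ hlist, List.mem_flatMap]
      exact ⟨_, ht', hz⟩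

theorem root_full {nb : ℕ → Finset ℕ} (h2 : ∀ x, (nb x).Nonempty → 2 ≤ (nb x).card)
    (hsymm : ∀ x y, y ∈ nb x → x ∈ nb y) {n R k c o : ℕ} (hc : 3 ≤ (nb c).card)
    {K : Finset (Sym2 ℕ)}
    (hK : ∀ y ∈ (rootb nb n R k c o).nodes, ∀ z, s(y, z) ∈ K ↔ z ∈ nb y) :
    (rootb nb n R k c o).Full K c := by
  have hne := w2_ne (nb := nb) (x := o) (w := c) (by omega)
  rw [rootb] at hK ⊢
  have hlist : (((nb c).erase o).toList.map (fun y => unf nb n R k c y)) ≠ [] := by
    intro h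
    rw [List.map_eq_nil_iff, toList_eq_nil] at h
    exact hne.ne_empty h
  rw [w2_full_bq _ _ _ _ hlist]
  intro t ht
  have ht' := ht
  rw [List.mem_map] at ht
  obtain ⟨y, hy, rfl⟩ := ht
  apply w2_full_unf h2 hsymm n K R _ c y (mem_of_mem_erase (mem_toList.1 hy))
  intro z hz
  apply hK
  rw [w2_nodes_bq _ _ hlist, List.mem_flatMap]
  exact ⟨_, ht', hz⟩

theorem w2_outs_mem_unf {nb : ℕ → Finset ℕ} (h2 : ∀ x, (nb x).Nonempty → 2 ≤ (nb x).card)
    (hsymm : ∀ x y, y ∈ nb x → x ∈ nb y) (n : ℕ) : ∀ R k x w : ℕ, w ∈ nb x →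
    ∀ q ∈ (unf nb n R k x w).outs x, q.2 ∈ nb q.1 ∧
      (q.1 = x ∨ q.1 ∈ (unf nb n R k x w).nodes) ∧ q.2 ∈ (unf nb n R k x w).labels
  | 0, k, x, w, hw, q, hq => by
    simp only [unf, BT.outs, List.mem_singleton] at hq
    subst hq
    simp [unf, BT.labels, hw]
  | R + 1, 0, x, w, hw, q, hq => by
    simp only [unf, BT.outs, List.mem_singleton] at hq
    subst hq
    simp [unf, BT.labels, hw]
  | R + 1, k + 1, x, w, hw, q, hq => by
    have hx : x ∈ nb w := hsymm x w hw
    have hne := w2_ne (x := x) (h2 w ⟨x, hx⟩)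
    have hlist : (((nb w).erase x).toList.map
        (fun y => unf nb n R (if 2 ≤ ((nb w).erase x).card then k else k + 1) w y)) ≠ [] := by
      intro h
      rw [List.map_eq_nil_iff, toList_eq_nil] at h
      exact hne.ne_empty h
    rw [unf, BT.outs, w2_outs_bq _ _ _ hlist, List.mem_flatMap] at hq
    obtain ⟨t, ht, hqt⟩ := hq
    have ht' := ht
    rw [List.mem_map] at ht
    obtain ⟨y, hy, rfl⟩ := ht
    obtain ⟨h3, h4, h5⟩ := w2_outs_mem_unf h2 hsymm n R _ w y (mem_of_mem_erase (mem_toList.1 hy))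
      q hqt
    refine ⟨h3, Or.inr ?_, ?_⟩
    · rw [unf, BT.nodes, w2_nodes_bq _ _ hlist, List.mem_cons, List.mem_flatMap]
      rcases h4 with h4 | h4
      · left; exact h4
      · right; exact ⟨_, ht', h4⟩
    · rw [unf, BT.labels, w2_labels_bq _ _ hlist, List.mem_cons, List.mem_flatMap]
      right; exact ⟨_, ht', h5⟩

/-- outer edges are edges, owners are nodes or the root, out-labels are labels -/
theorem root_outs_mem {nb : ℕ → Finset ℕ} (h2 : ∀ x, (nb x).Nonempty → 2 ≤ (nb x).card)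
    (hsymm : ∀ x y, y ∈ nb x → x ∈ nb y) {n R k c o : ℕ} (hc : 3 ≤ (nb c).card) :
    ∀ q ∈ (rootb nb n R k c o).outs c, q.2 ∈ nb q.1 ∧ (q.1 = c ∨ q.1 ∈ (rootb nb n R k c o).nodes) ∧
      q.2 ∈ (rootb nb n R k c o).labels := by
  have hne := w2_ne (nb := nb) (x := o) (w := c) (by omega)
  have hlist : (((nb c).erase o).toList.map (fun y => unf nb n R k c y)) ≠ [] := by
    intro h
    rw [List.map_eq_nil_iff, toList_eq_nil] at h
    exact hne.ne_empty h
  rw [rootb]
  intro q hq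
  rw [w2_outs_bq _ _ _ hlist, List.mem_flatMap] at hq
  obtain ⟨t, ht, hqt⟩ := hq
  have ht' := ht
  rw [List.mem_map] at ht
  obtain ⟨y, hy, rfl⟩ := ht
  obtain ⟨h3, h4, h5⟩ := w2_outs_mem_unf h2 hsymm n R _ c y (mem_of_mem_erase (mem_toList.1 hy))
    q hqt
  refine ⟨h3, ?_, ?_⟩
  · rw [w2_nodes_bq _ _ hlist, List.mem_flatMap]
    rcases h4 with h4 | h4
    · left; exact h4
    · right; exact ⟨_, ht', h4⟩
  · rw [w2_labels_bq _ _ hlist, List.mem_flatMap]
    exact ⟨_, ht', h5⟩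

end Jia
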