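import Pool.Agent.Helper826.Jia.WD

set_option autoImplicit false

namespace Jia
open Finset Filter
open scoped symmDiff

theorem sq_pos_le (n : ℕ) : 0 < sq n ∧ sq n ≤ 1 := by
  induction n with
  | zero => simp [sq]
  | succ n ih =>
    simp only [sq]
    constructor <;> nlinarith [ih.1, ih.2]

theorem sq_pos (n : ℕ) : 0 < sq n := (sq_pos_le n).1

theorem sq_le_one (n : ℕ) : sq n ≤ 1 := (sq_pos_le n).2

theorem sq_anti : Antitone sq := by
  apply antitone_nat_of_succ_le
  intro n
  simp only [sq]
  nlinarith [sq_nonneg (sq n)]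

theorem sq_tendsto : Tendsto sq atTop (nhds 0) := by
  have hb : BddBelow (Set.range sq) := ⟨0, by rintro _ ⟨n, rfl⟩; exact (sq_pos n).le⟩
  have h := tendsto_atTop_ciInf sq_anti hb
  set l := ⨅ n, sq n with hl
  have h1 : Tendsto (fun n => sq (n + 1)) atTop (nhds l) := h.comp (tendsto_add_atTop_nat 1)
  have h2 : Tendsto (fun n => sq (n + 1)) atTop (nhds (l - l ^ 2 / 2)) := by
    have : (fun n => sq (n + 1)) = fun n => sq n - (sq n) ^ 2 / 2 := by
      funext n; simp only [sq]
    rw [this]
    exact h.sub ((h.pow 2).div_const 2)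
  have h3 := tendsto_nhds_unique h1 h2
  have h4 : l = 0 := by
    have : l ^ 2 = 0 := by linarith
    exact pow_eq_zero_iff (two_ne_zero) |>.1 this
  rw [h4] at h
  exact h

/-- choice of the depths -/
theorem depths (D : ℕ) (ε : ℝ) (hε : 0 < ε) :
    ∃ h n : ℕ, sq h + (D : ℝ) * (1 + Bq D h) * sq n ≤ ε := by
  have h1 : ∀ᶠ n in atTop, sq n < ε / 2 := by
    have := sq_tendsto.eventually (gt_mem_nhds (show (0 : ℝ) < ε / 2 by linarith))
    exact this
  obtain ⟨h, hh⟩ := h1.exists
  have h2 : Tendsto (fun n => (D : ℝ) * (1 + Bq D h) * sq n) atTop (nhds 0) := by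
    have := sq_tendsto.const_mul ((D : ℝ) * (1 + Bq D h))
    simpa using this
  obtain ⟨n, hn⟩ := (h2.eventually (gt_mem_nhds (show (0 : ℝ) < ε / 2 by linarith))).exists
  exact ⟨h, n, by linarith⟩

theorem labels_bq (d : ℕ) : ∀ l : List (BT ℕ), ∀ t ∈ l, ∀ y ∈ t.labels, y ∈ (bq d l).labels
  | [], t, ht, _, _ => by simp at ht
  | [t], t', ht, y, hy => by
    rw [List.mem_singleton] at ht
    subst ht
    exact hy
  | t :: u :: l, t', ht, y, hy => by
    rw [List.mem_cons] at ht
    show y ∈ t.labels ++ (bq d (u :: l)).labels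
    rw [List.mem_append]
    rcases ht with rfl | ht
    · exact Or.inl hy
    · exact Or.inr (labels_bq d (u :: l) t' ht y hy)

theorem tops_bq (d : ℕ) : ∀ l : List (BT ℕ), l ≠ [] → (∀ t ∈ l, t.tops.length = 1) →
    (bq d l).tops.length = l.length
  | [], h, _ => absurd rfl h
  | [t], _, h => by
    show t.tops.length = 1
    exact h t (by simp)
  | t :: u :: l, _, h => by
    show (t.tops ++ (bq d (u :: l)).tops).length = _
    rw [List.length_append, h t (by simp),
      tops_bq d (u :: l) (by simp) (fun s hs => h s (List.mem_cons_of_mem _ hs))]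
    simp only [List.length_cons]
    omega

theorem rho_bq (d : ℕ) {r : ℝ} (hr0 : 0 ≤ r) (hr1 : r ≤ 1) : ∀ l : List (BT ℕ), l ≠ [] →
    (∀ t ∈ l, 0 ≤ rho t ∧ rho t ≤ r) →
    0 ≤ rho (bq d l) ∧ rho (bq d l) ≤ 1 - (1 - r) ^ l.length
  | [], h, _ => absurd rfl h
  | [t], _, h => by
    show 0 ≤ rho t ∧ rho t ≤ _
    have := h t (by simp)
    refine ⟨this.1, ?_⟩
    simpa using this.2
  | t :: u :: l, _, h => by
    have ih := rho_bq d hr0 hr1 (u :: l) (by simp) (fun s hs => h s (List.mem_cons_of_mem _ hs))
    have ht := h t (by simp)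
    have e : rho (bq d (t :: u :: l)) = rho t + rho (bq d (u :: l)) - rho t * rho (bq d (u :: l)) := rfl
    have hp : 0 ≤ (1 - r) ^ (u :: l).length := pow_nonneg (by linarith) _
    have hT1 : rho (bq d (u :: l)) ≤ 1 := by linarith [ih.2]
    rw [e]
    constructor
    · nlinarith [ih.1, ht.1, ht.2]
    · have e2 : (t :: u :: l).length = (u :: l).length + 1 := rfl
      rw [e2, pow_succ]
      set P := (1 - r) ^ (u :: l).length
      set T := rho (bq d (u :: l))
      have h1 : P * (1 - r) ≤ (1 - T) * (1 - rho t) := by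
        apply mul_le_mul
        · linarith [ih.2]
        · linarith [ht.2]
        · linarith
        · linarith
      nlinarith [h1]

theorem pow_bound {r : ℝ} (hr0 : 0 ≤ r) (hr1 : r ≤ 1) : ∀ m : ℕ, 2 ≤ m →
    (1 - (1 - r) ^ m) / 2 ^ (m - 1) ≤ r - r ^ 2 / 2 := by
  intro m hm
  induction m, hm using Nat.le_induction with
  | base => norm_num; nlinarith
  | succ m hm ih =>
    refine le_trans ?_ ih
    obtain ⟨k, rfl⟩ : ∃ k, m = k + 1 := ⟨m - 1, by omega⟩
    simp only [Nat.add_sub_cancel]
    rw [div_le_div_iff₀ (by positivity) (by positivity)]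
    set q := 1 - r with hq
    have hq0 : 0 ≤ q := by linarith
    have hq1 : q ≤ 1 := by linarith
    have hqk : q ^ k ≤ 1 := pow_le_one₀ hq0 hq1
    have hqk0 : 0 ≤ q ^ k := pow_nonneg hq0 k
    have key : q ^ (k + 1) * (2 - q) ≤ 1 := by
      have : q * (2 - q) ≤ 1 := by nlinarith [sq_nonneg (1 - q)]
      have h0 : 0 ≤ q * (2 - q) := mul_nonneg hq0 (by linarith)
      calc q ^ (k + 1) * (2 - q) = q ^ k * (q * (2 - q)) := by ring
        _ ≤ 1 * 1 := mul_le_mul hqk this h0 zero_le_one
        _ = 1 := by ring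
    have e1 : (1 - q ^ (k + 1 + 1)) * 2 ^ k ≤ (1 - q ^ (k + 1)) * 2 * 2 ^ k := by
      apply mul_le_mul_of_nonneg_right _ (by positivity)
      have : q ^ (k + 1 + 1) = q ^ (k + 1) * q := pow_succ _ _
      rw [this]
      nlinarith [key]
    calc (1 - q ^ (k + 1 + 1)) * 2 ^ k ≤ (1 - q ^ (k + 1)) * 2 * 2 ^ k := e1
      _ = (1 - q ^ (k + 1)) * 2 ^ (k + 1) := by ring

theorem val_bq (S : Finset ℕ) (f : Bool) (d : ℕ) {v : ℝ} (hv0 : 0 ≤ v) (hv1 : v ≤ 1) :
    ∀ l : List (BT ℕ), l ≠ [] →
    (∀ t ∈ l, ∃ a, val S f t = some a ∧ 0 ≤ a ∧ a ≤ v) →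
    ∃ a, val S f (bq d l) = some a ∧ 0 ≤ a ∧ a ≤ 1 ∧ (f = true → a ≤ v) ∧
      (l.length = 1 → a ≤ v) ∧ (f = true → 2 ≤ l.length → a ≤ v - v ^ 2 / 2)
  | [], h, _ => absurd rfl h
  | [t], _, h => by
    obtain ⟨a, ha, h0, h1⟩ := h t (by simp)
    exact ⟨a, ha, h0, by linarith, fun _ => h1, fun _ => h1, fun _ h2 => by simp at h2⟩
  | t :: u :: l, _, h => by
    obtain ⟨b, hb, hb0, hb1, hbv, -, -⟩ :=
      val_bq S f d hv0 hv1 (u :: l) (by simp) (fun s hs => h s (List.mem_cons_of_mem _ hs))
    obtain ⟨a, ha, ha0, ha1⟩ := h t (by simp)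
    have e : val S f (bq d (t :: u :: l)) = some (FF f a b) := by
      show cb f (val S f t) (val S f (bq d (u :: l))) = _
      rw [ha, hb]; rfl
    refine ⟨FF f a b, e, ?_⟩
    cases f with
    | false =>
      simp [FF]
    | true =>
      have hbv' := hbv rfl
      have hF : FF true a b = (a + b - a * b) / 2 := by simp [FF]
      rw [hF]
      have k1 : (a + b - a * b) / 2 ≤ v - v ^ 2 / 2 := by
        have : (1 - v) * (1 - v) ≤ (1 - a) * (1 - b) := by
          apply mul_le_mul <;> linarith
        nlinarith [this]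
      have k2 : v - v ^ 2 / 2 ≤ v := by nlinarith [sq_nonneg v]
      refine ⟨by nlinarith, by linarith, fun _ => by linarith, fun _ => by linarith, fun _ _ => k1⟩

theorem Theta_bq (f : Bool) (d : ℕ) {B : ℝ} : ∀ l : List (BT ℕ), l ≠ [] →
    (∀ t ∈ l, Theta f t ≤ B) → Theta f (bq d l) ≤ (l.length : ℝ) * B
  | [], h, _ => absurd rfl h
  | [t], _, h => by
    show Theta f t ≤ _
    simpa using h t (by simp)
  | t :: u :: l, _, h => by
    have ih := Theta_bq f d (u :: l) (by simp) (fun s hs => h s (List.mem_cons_of_mem _ hs))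
    have e : Theta f (bq d (t :: u :: l)) = Theta f t + Theta f (bq d (u :: l)) := rfl
    rw [e]
    have e2 : ((t :: u :: l).length : ℝ) = ((u :: l).length : ℝ) + 1 := by
      push_cast [List.length_cons]; ring
    rw [e2]
    have := h t (by simp)
    linarith

section unf
variable {nb : ℕ → Finset ℕ} {D : ℕ}

/-- list of children -/
noncomputable def chl (nb : ℕ → Finset ℕ) (n R k x w : ℕ) : List (BT ℕ) :=
  ((nb w).erase x).toList.map
        (fun y => unf nb n R (if 2 ≤ ((nb w).erase x).card then k else k + 1) w y)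

theorem unf_succ (n R k x w : ℕ) : unf nb n (R + 1) (k + 1) x w =
    .nd (decide (2 ≤ ((nb w).erase x).card ∧ n < k + 1)) w (bq w (chl nb n R k x w)) := by
  rw [unf]; rfl

theorem chl_length (n R k x w : ℕ) : (chl nb n R k x w).length = ((nb w).erase x).card := by
  unfold chl; simp

theorem mem_chl {n R k x w : ℕ} {t : BT ℕ} (h : t ∈ chl nb n R k x w) :
    ∃ y ∈ (nb w).erase x,
      t = unf nb n R (if 2 ≤ ((nb w).erase x).card then k else k + 1) w y := by
  unfold chl at h
  rw [List.mem_map] at h
  obtain ⟨y, hy, rfl⟩ := h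
  exact ⟨y, by simpa using hy, rfl⟩

theorem chl_ne (h2 : ∀ x, (nb x).Nonempty → 2 ≤ (nb x).card)
    (hsymm : ∀ x y, y ∈ nb x → x ∈ nb y) {n R k x w : ℕ} (hw : w ∈ nb x) :
    chl nb n R k x w ≠ [] ∧ 1 ≤ ((nb w).erase x).card := by
  have hx := hsymm x w hw
  have h := h2 w ⟨x, hx⟩
  have hc : 1 ≤ ((nb w).erase x).card := by
    rw [card_erase_of_mem hx]; omega
  refine ⟨?_, hc⟩
  intro h0
  have := chl_length (nb := nb) n R k x w
  rw [h0, List.length_nil] at this
  omega

theorem unf_tops (n R k x w : ℕ) : (unf nb n R k x w).tops.length = 1 := by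
  cases R with
  | zero => rw [unf]; rfl
  | succ R =>
    cases k with
    | zero => rw [unf]; rfl
    | succ k => rw [unf_succ]; rfl

theorem unf_val (h2 : ∀ x, (nb x).Nonempty → 2 ≤ (nb x).card)
    (hsymm : ∀ x y, y ∈ nb x → x ∈ nb y) (n : ℕ) (S : Finset ℕ) :
    ∀ (R k x w : ℕ), w ∈ nb x → comp nb R k x w → (∀ y ∈ (unf nb n R k x w).labels, y ∈ S) →
      ∀ f, ∃ a, val S f (unf nb n R k x w) = some a ∧ 0 ≤ a ∧ a ≤ sq (k - n) := by
  intro R
  induction R with
  | zero =>
    intro k x w hw hc hS f
    have hk : k = 0 := hc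
    subst hk
    have hwS : w ∈ S := hS w (by rw [unf]; simp [BT.labels])
    refine ⟨1, ?_, zero_le_one, ?_⟩
    · rw [unf]; simp [val, hwS]
    · simp [sq]
  | succ R ih =>
    intro k x w hw hc hS f
    cases k with
    | zero =>
      have hwS : w ∈ S := hS w (by rw [unf]; simp [BT.labels])
      refine ⟨1, ?_, zero_le_one, ?_⟩
      · rw [unf]; simp [val, hwS]
      · simp [sq]
    | succ k =>
      obtain ⟨hne, hcard⟩ := chl_ne (n := n) (R := R) (k := k) h2 hsymm hw
      rw [unf_succ] at hS ⊢
      have hwS : w ∈ S := hS w (by simp [BT.labels])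
      have hS' : ∀ t ∈ chl nb n R k x w, ∀ y ∈ t.labels, y ∈ S := by
        intro t ht y hy
        apply hS
        show y ∈ w :: (bq w (chl nb n R k x w)).labels
        exact List.mem_cons_of_mem _ (labels_bq w _ t ht y hy)
      set g := decide (2 ≤ ((nb w).erase x).card ∧ n < k + 1) with hg
      have hval : val S f (.nd g w (bq w (chl nb n R k x w))) =
          val S g (bq w (chl nb n R k x w)) := by
        show (if w ∈ S then _ else _) = _
        rw [if_pos hwS]
      rw [hval]
      have hc' : ∀ y ∈ (nb w).erase x,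
          comp nb R (if 2 ≤ ((nb w).erase x).card then k else k + 1) w y := hc
      have hmem : ∀ t ∈ chl nb n R k x w, ∃ a, val S g t = some a ∧ 0 ≤ a ∧
          a ≤ sq ((if 2 ≤ ((nb w).erase x).card then k else k + 1) - n) := by
        intro t ht
        have hl := hS' t ht
        obtain ⟨y, hy, rfl⟩ := mem_chl ht
        exact ih _ w y (mem_of_mem_erase hy) (hc' y hy) hl g
      obtain ⟨a, ha, ha0, ha1, -, hav1, hav2⟩ := val_bq S g w (sq_pos _).le (sq_le_one _)
        (chl nb n R k x w) hne hmem
      refine ⟨a, ha, ha0, ?_⟩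
      rw [chl_length] at hav1 hav2
      by_cases hb : 2 ≤ ((nb w).erase x).card
      · by_cases hn : n < k + 1
        · have hgt : g = true := by rw [hg]; simp [hb, hn]
          have := hav2 hgt hb
          rw [if_pos hb] at this
          have e : k + 1 - n = (k - n) + 1 := by omega
          rw [e]
          simpa only [sq] using this
        · have e : k + 1 - n = 0 := by omega
          rw [e]
          simpa [sq] using ha1
      · have := hav1 (by omega)
        rw [if_neg hb] at this
        exact this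

theorem unf_rho (h2 : ∀ x, (nb x).Nonempty → 2 ≤ (nb x).card)
    (hsymm : ∀ x y, y ∈ nb x → x ∈ nb y) (n : ℕ) :
    ∀ (R k x w : ℕ), w ∈ nb x → comp nb R k x w →
      0 ≤ rho (unf nb n R k x w) ∧ rho (unf nb n R k x w) ≤ sq k := by
  intro R
  induction R with
  | zero =>
    intro k x w hw hc
    have hk : k = 0 := hc
    subst hk
    rw [unf]; simp [rho, sq]
  | succ R ih =>
    intro k x w hw hc
    cases k with
    | zero => rw [unf]; simp [rho, sq]
    | succ k =>
      obtain ⟨hne, hcard⟩ := chl_ne (n := n) (R := R) (k := k) h2 hsymm hw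
      have hc' : ∀ y ∈ (nb w).erase x,
          comp nb R (if 2 ≤ ((nb w).erase x).card then k else k + 1) w y := hc
      have hmem : ∀ t ∈ chl nb n R k x w, 0 ≤ rho t ∧
          rho t ≤ sq (if 2 ≤ ((nb w).erase x).card then k else k + 1) := by
        intro t ht
        obtain ⟨y, hy, rfl⟩ := mem_chl ht
        exact ih _ w y (mem_of_mem_erase hy) (hc' y hy)
      have hr := rho_bq w (sq_pos _).le (sq_le_one _) (chl nb n R k x w) hne hmem
      have ht : (bq w (chl nb n R k x w)).tops.length = (chl nb n R k x w).length := by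
        apply tops_bq w _ hne
        intro t ht
        obtain ⟨y, hy, rfl⟩ := mem_chl ht
        exact unf_tops _ _ _ _ _
      rw [unf_succ]
      have e : rho (.nd (decide (2 ≤ ((nb w).erase x).card ∧ n < k + 1)) w
          (bq w (chl nb n R k x w))) = rho (bq w (chl nb n R k x w)) /
          2 ^ ((bq w (chl nb n R k x w)).tops.length - 1) := rfl
      rw [e, ht]
      rw [chl_length] at hr ⊢
      refine ⟨div_nonneg hr.1 (by positivity), ?_⟩
      by_cases hb : 2 ≤ ((nb w).erase x).card
      · rw [if_pos hb] at hr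
        calc rho (bq w (chl nb n R k x w)) / 2 ^ (((nb w).erase x).card - 1)
            ≤ (1 - (1 - sq k) ^ ((nb w).erase x).card) / 2 ^ (((nb w).erase x).card - 1) :=
              div_le_div_of_nonneg_right hr.2 (by positivity)
          _ ≤ sq k - sq k ^ 2 / 2 := pow_bound (sq_pos k).le (sq_le_one k) _ hb
          _ = sq (k + 1) := by simp only [sq]
      · rw [if_neg hb] at hr
        have hc1 : ((nb w).erase x).card = 1 := by omega
        rw [hc1] at hr ⊢
        simpa using hr.2

theorem unf_Theta0 (n : ℕ) : ∀ (R k x w : ℕ), k ≤ n → Theta false (unf nb n R k x w) ≤ 0 := by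
  intro R
  induction R with
  | zero => intro k x w hk; rw [unf]; simp [Theta]
  | succ R ih =>
    intro k x w hk
    cases k with
    | zero => rw [unf]; simp [Theta]
    | succ k =>
      rw [unf_succ]
      have hg : decide (2 ≤ ((nb w).erase x).card ∧ n < k + 1) = false := by
        rw [decide_eq_false_iff_not]; omega
      rw [hg]
      have e : Theta false (.nd false w (bq w (chl nb n R k x w))) =
          0 + Theta false (bq w (chl nb n R k x w)) := by
        simp [Theta]
      rw [e, zero_add]
      by_cases hne : chl nb n R k x w = []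
      · rw [hne]; simp [bq, Theta]
      · have := Theta_bq false w (B := 0) (chl nb n R k x w) hne (by
          intro t ht
          obtain ⟨y, hy, rfl⟩ := mem_chl ht
          apply ih
          split_ifs <;> omega)
        simpa using this

theorem unf_Theta (h2 : ∀ x, (nb x).Nonempty → 2 ≤ (nb x).card)
    (hD : ∀ x, (nb x).card ≤ D)
    (hsymm : ∀ x y, y ∈ nb x → x ∈ nb y) (n : ℕ) :
    ∀ (R k x w : ℕ), w ∈ nb x → comp nb R k x w → n ≤ k → ∀ f : Bool,
      Theta f (unf nb n R k x w) ≤ ((if f then 1 else 0) + (Bq D (k - n) : ℝ)) * sq n := by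
  intro R
  induction R with
  | zero =>
    intro k x w hw hc hk f
    have hk0 : k = 0 := hc
    subst hk0
    have hn : n = 0 := by omega
    subst hn
    rw [unf]; simp [Theta, sq, Bq]
  | succ R ih =>
    intro k x w hw hc hk f
    cases k with
    | zero =>
      have hn : n = 0 := by omega
      subst hn
      rw [unf]; simp [Theta, sq, Bq]
    | succ k =>
      obtain ⟨hne, hcard⟩ := chl_ne (n := n) (R := R) (k := k) h2 hsymm hw
      have hc' : ∀ y ∈ (nb w).erase x,
          comp nb R (if 2 ≤ ((nb w).erase x).card then k else k + 1) w y := hc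
      have hrho := (unf_rho h2 hsymm n (R + 1) (k + 1) x w hw hc).2
      have hsn : sq (k + 1) ≤ sq n := sq_anti hk
      rw [unf_succ] at hrho ⊢
      set g := decide (2 ≤ ((nb w).erase x).card ∧ n < k + 1) with hg
      have e : Theta f (.nd g w (bq w (chl nb n R k x w))) =
          (if f then rho (.nd g w (bq w (chl nb n R k x w))) else 0) +
          Theta g (bq w (chl nb n R k x w)) := rfl
      rw [e]
      have h1 : (if f then rho (.nd g w (bq w (chl nb n R k x w))) else 0) ≤
          (if f then 1 else 0) * sq n := by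
        split_ifs
        · linarith
        · simp
      have h3 : Theta g (bq w (chl nb n R k x w)) ≤ (Bq D (k + 1 - n) : ℝ) * sq n := by
        by_cases hn : n < k + 1
        · by_cases hb : 2 ≤ ((nb w).erase x).card
          · have hgt : g = true := by rw [hg]; simp [hb, hn]
            rw [hgt]
            have hT := Theta_bq true w (B := (1 + (Bq D (k - n) : ℝ)) * sq n)
              (chl nb n R k x w) hne (by
                intro t ht
                obtain ⟨y, hy, rfl⟩ := mem_chl ht
                have hcy := hc' y hy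
                rw [if_pos hb] at hcy ⊢
                have := ih k w y (mem_of_mem_erase hy) hcy (by omega) true
                simpa using this)
            rw [chl_length] at hT
            have e2 : k + 1 - n = (k - n) + 1 := by omega
            rw [e2]
            have e3 : (Bq D (k - n + 1) : ℝ) = (D : ℝ) * (1 + (Bq D (k - n) : ℝ)) := by
              rw [Bq]; push_cast; ring
            rw [e3]
            refine hT.trans ?_
            have hle : (((nb w).erase x).card : ℝ) ≤ D := by
              exact_mod_cast (card_le_card (erase_subset _ _)).trans (hD w)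
            have hnn : 0 ≤ (1 + (Bq D (k - n) : ℝ)) * sq n :=
              mul_nonneg (by positivity) (sq_pos n).le
            calc (((nb w).erase x).card : ℝ) * ((1 + (Bq D (k - n) : ℝ)) * sq n)
                ≤ (D : ℝ) * ((1 + (Bq D (k - n) : ℝ)) * sq n) :=
                  mul_le_mul_of_nonneg_right hle hnn
              _ = _ := by ring
          · have hgf : g = false := by rw [hg]; simp [hb]
            rw [hgf]
            have hT := Theta_bq false w (B := (Bq D (k + 1 - n) : ℝ) * sq n)
              (chl nb n R k x w) hne (by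
                intro t ht
                obtain ⟨y, hy, rfl⟩ := mem_chl ht
                have hcy := hc' y hy
                rw [if_neg hb] at hcy ⊢
                have := ih (k + 1) w y (mem_of_mem_erase hy) hcy (by omega) false
                simpa using this)
            rw [chl_length] at hT
            have hc1 : ((nb w).erase x).card = 1 := by omega
            rw [hc1] at hT
            simpa using hT
        · have hgf : g = false := by rw [hg, decide_eq_false_iff_not]; omega
          rw [hgf]
          have hT := Theta_bq false w (B := 0)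
              (chl nb n R k x w) hne (by
                intro t ht
                obtain ⟨y, hy, rfl⟩ := mem_chl ht
                apply unf_Theta0
                split_ifs <;> omega)
          have h0 : 0 ≤ (Bq D (k + 1 - n) : ℝ) * sq n := mul_nonneg (by positivity) (sq_pos n).le
          linarith [hT, mul_zero (((chl nb n R k x w).length : ℝ))]
      rw [add_mul]
      linarith

end unf

/-- value of the root bouquet -/
theorem root_val {nb : ℕ → Finset ℕ} {D : ℕ} (h2 : ∀ x, (nb x).Nonempty → 2 ≤ (nb x).card)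
    (hsymm : ∀ x y, y ∈ nb x → x ∈ nb y) {n R h c o : ℕ} (hc : 3 ≤ (nb c).card) (ho : o ∈ nb c)
    (hcomp : ∀ y ∈ (nb c).erase o, comp nb R (h + n) c y) (S : Finset ℕ)
    (hS : ∀ x ∈ (rootb nb n R (h + n) c o).labels, x ∈ S) :
    (val S true (rootb nb n R (h + n) c o)).getD 0 ≤ sq h := by
  unfold rootb at hS ⊢
  set l := ((nb c).erase o).toList.map (fun y => unf nb n R (h + n) c y) with hl
  have hlen : l.length = ((nb c).erase o).card := by rw [hl]; simp
  have hcard : ((nb c).erase o).card = (nb c).card - 1 := card_erase_of_mem ho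
  have hne : l ≠ [] := by
    intro h0
    rw [h0, List.length_nil] at hlen
    omega
  have hmem : ∀ t ∈ l, ∃ a, val S true t = some a ∧ 0 ≤ a ∧ a ≤ sq h := by
    intro t ht
    have hlab : ∀ y ∈ t.labels, y ∈ S := fun y hy => hS y (labels_bq c l t ht y hy)
    rw [hl, List.mem_map] at ht
    obtain ⟨y, hy, rfl⟩ := ht
    have hy' : y ∈ (nb c).erase o := by simpa using hy
    have := unf_val h2 hsymm n S R (h + n) c y (mem_of_mem_erase hy') (hcomp y hy') hlab true
    rwa [Nat.add_sub_cancel] at this
  obtain ⟨a, ha, -, -, hav, -, -⟩ := val_bq S true c (sq_pos h).le (sq_le_one h) l hne hmem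
  rw [ha]
  exact hav rfl

theorem root_Theta {nb : ℕ → Finset ℕ} {D : ℕ} (h2 : ∀ x, (nb x).Nonempty → 2 ≤ (nb x).card)
    (hD : ∀ x, (nb x).card ≤ D)
    (hsymm : ∀ x y, y ∈ nb x → x ∈ nb y) {n R h c o : ℕ} (hc : 3 ≤ (nb c).card) (ho : o ∈ nb c)
    (hcomp : ∀ y ∈ (nb c).erase o, comp nb R (h + n) c y) :
    Theta true (rootb nb n R (h + n) c o) ≤ (D : ℝ) * (1 + Bq D h) * sq n := by
  unfold rootb
  set l := ((nb c).erase o).toList.map (fun y => unf nb n R (h + n) c y) with hl
  have hlen : l.length = ((nb c).erase o).card := by rw [hl]; simp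
  have hcard : ((nb c).erase o).card = (nb c).card - 1 := card_erase_of_mem ho
  have hne : l ≠ [] := by
    intro h0
    rw [h0, List.length_nil] at hlen
    omega
  have hT := Theta_bq true c (B := (1 + (Bq D h : ℝ)) * sq n) l hne (by
    intro t ht
    rw [hl, List.mem_map] at ht
    obtain ⟨y, hy, rfl⟩ := ht
    have hy' : y ∈ (nb c).erase o := by simpa using hy
    have := unf_Theta h2 hD hsymm n R (h + n) c y (mem_of_mem_erase hy') (hcomp y hy')
      (by omega) true
    rw [Nat.add_sub_cancel] at this
    simpa using this)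
  refine hT.trans ?_
  have hle : (l.length : ℝ) ≤ D := by
    rw [hlen]
    exact_mod_cast (card_le_card (erase_subset _ _)).trans (hD c)
  have hnn : 0 ≤ (1 + (Bq D h : ℝ)) * sq n := mul_nonneg (by positivity) (sq_pos n).le
  calc (l.length : ℝ) * ((1 + (Bq D h : ℝ)) * sq n) ≤ (D : ℝ) * ((1 + (Bq D h : ℝ)) * sq n) :=
        mul_le_mul_of_nonneg_right hle hnn
    _ = _ := by ring

end Jia
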