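import Pool.Agent.Helper826.Jia.WD

set_option autoImplicit false

namespace Jia
open Finset Filter
open scoped symmDiff

theorem comp_succ {nb : ℕ → Finset ℕ} (R : ℕ) : ∀ (k x w : ℕ), comp nb R k x w →
    comp nb (R + 1) k x w := by
  induction R with
  | zero =>
    intro k x w h
    have hk : k = 0 := h
    rw [hk]
    trivial
  | succ R ih =>
    intro k x w h
    cases k with
    | zero => trivial
    | succ k =>
      intro y hy
      exact ih _ _ _ (h y hy)

theorem comp_le {nb : ℕ → Finset ℕ} {R R' : ℕ} (hR : R ≤ R') (k x w : ℕ)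
    (h : comp nb R k x w) : comp nb R' k x w := by
  induction R', hR using Nat.le_induction with
  | base => exact h
  | succ R' _ ih => exact comp_succ R' k x w ih

theorem comp_sup {nb : ℕ → Finset ℕ} (s : Finset ℕ) (k w : ℕ)
    (h : ∀ y ∈ s, ∃ R, comp nb R k w y) : ∃ R, ∀ y ∈ s, comp nb R k w y := by
  classical
  choose! f hf using h
  exact ⟨s.sup f, fun y hy => comp_le (Finset.le_sup hy) _ _ _ (hf y hy)⟩

/-- next directed edge -/
def nxt (nb : ℕ → Finset ℕ) (p : ℕ × ℕ) : ℕ × ℕ := (p.2, ((nb p.2).erase p.1).sup id)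

theorem comp_chain {nb : ℕ → Finset ℕ} (h2 : ∀ x, (nb x).Nonempty → 2 ≤ (nb x).card)
    (hsymm : ∀ x y, y ∈ nb x → x ∈ nb y) (k : ℕ)
    (ihk : ∀ x w, w ∈ nb x → 3 ≤ (nb x).card → ∃ R, comp nb R k x w) (p : ℕ × ℕ)
    (hp : p.2 ∈ nb p.1) (hbad : ¬ ∃ R, comp nb R (k + 1) p.1 p.2) :
    (nb p.2).card = 2 ∧ (nb p.2).erase p.1 = {(nxt nb p).2} ∧
      (nxt nb p).2 ∈ nb (nxt nb p).1 ∧
      ¬ ∃ R, comp nb R (k + 1) (nxt nb p).1 (nxt nb p).2 := by
  have hp' := hsymm _ _ hp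
  have hc2 := h2 p.2 ⟨_, hp'⟩
  have hcard : ((nb p.2).erase p.1).card = (nb p.2).card - 1 := Finset.card_erase_of_mem hp'
  have hc : (nb p.2).card = 2 := by
    by_contra hne
    have h3 : 3 ≤ (nb p.2).card := by omega
    apply hbad
    obtain ⟨R, hR⟩ := comp_sup ((nb p.2).erase p.1) k p.2
      (fun y hy => ihk p.2 y (Finset.mem_of_mem_erase hy) h3)
    refine ⟨R + 1, fun y hy => ?_⟩
    rw [if_pos (by omega)]
    exact hR y hy
  rw [hc] at hcard
  obtain ⟨w', hw'⟩ := Finset.card_eq_one.mp hcard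
  have hn : nxt nb p = (p.2, w') := by
    unfold nxt
    rw [hw', Finset.sup_singleton]
    rfl
  have hmem : w' ∈ (nb p.2).erase p.1 := by rw [hw']; exact Finset.mem_singleton_self _
  refine ⟨hc, ?_, ?_, ?_⟩
  · rw [hn, hw']
  · rw [hn]; exact Finset.mem_of_mem_erase hmem
  · rw [hn]
    rintro ⟨R, hR⟩
    apply hbad
    refine ⟨R + 1, fun y hy => ?_⟩
    rw [if_neg (by omega)]
    rw [hw', Finset.mem_singleton] at hy
    rw [hy]
    exact hR

theorem comp_step {nb : ℕ → Finset ℕ} (h2 : ∀ x, (nb x).Nonempty → 2 ≤ (nb x).card)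
    (hsymm : ∀ x y, y ∈ nb x → x ∈ nb y)
    (hB : ∀ w, (nb w).Nonempty → ∃ B : Finset ℕ, w ∈ B ∧ ∀ y ∈ B, (nb y).card = 2 → nb y ⊆ B)
    (k : ℕ) (ihk : ∀ x w, w ∈ nb x → 3 ≤ (nb x).card → ∃ R, comp nb R k x w)
    (x w : ℕ) (hw : w ∈ nb x) (hx : 3 ≤ (nb x).card) : ∃ R, comp nb R (k + 1) x w := by
  by_contra hbad
  set q : ℕ → ℕ × ℕ := fun i => (nxt nb)^[i] (x, w) with hq
  have hqs : ∀ i, q (i + 1) = nxt nb (q i) := fun i => Function.iterate_succ_apply' _ _ _
  have hall : ∀ i, (q i).2 ∈ nb (q i).1 ∧ ¬ ∃ R, comp nb R (k + 1) (q i).1 (q i).2 := by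
    intro i
    induction i with
    | zero => exact ⟨hw, hbad⟩
    | succ i ih =>
      rw [hqs]
      exact (comp_chain h2 hsymm k ihk (q i) ih.1 ih.2).2.2
  have hch := fun i => comp_chain h2 hsymm k ihk (q i) (hall i).1 (hall i).2
  obtain ⟨B, hwB, hBB⟩ := hB w ⟨x, hsymm _ _ hw⟩
  have hqB : ∀ i, (q i).2 ∈ B := by
    intro i
    induction i with
    | zero => exact hwB
    | succ i ih =>
      have h3 := hch i
      refine hBB _ ih h3.1 ?_
      rw [hqs]
      have h4 : (nxt nb (q i)).2 ∈ (nb (q i).2).erase (q i).1 := by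
        rw [h3.2.1]; exact Finset.mem_singleton_self _
      exact Finset.mem_of_mem_erase h4
  have hinj : ∀ i j, q (i + 1) = q (j + 1) → q i = q j := by
    intro i j hij
    rw [hqs, hqs] at hij
    have h3 := hch i
    have h4 := hch j
    have e1 : (q i).2 = (q j).2 := congrArg Prod.fst hij
    have e2 := h3.2.1
    have e3 := h4.2.1
    rw [← hij, ← e2, e1] at e3
    have m1 : (q i).1 ∈ nb (q j).2 := by rw [← e1]; exact hsymm _ _ (hall i).1
    have m2 : (q j).1 ∈ nb (q j).2 := hsymm _ _ (hall j).1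
    refine Prod.ext ?_ e1
    by_contra hne
    have h5 : (q i).1 ∈ (nb (q j).2).erase (q j).1 := Finset.mem_erase.mpr ⟨hne, m1⟩
    rw [e3] at h5
    exact (Finset.notMem_erase _ _) h5
  have hdown : ∀ i m, q i = q (i + m) → q 0 = q m := by
    intro i
    induction i with
    | zero => intro m h; rw [Nat.zero_add] at h; exact h
    | succ i ih =>
      intro m h
      refine ih m (hinj _ _ ?_)
      rw [h]
      congr 1
      omega
  -- pigeonhole
  have hpig : ∃ i j, i < j ∧ q (i + 1) = q (j + 1) := by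
    have hmaps : ∀ i ∈ Finset.range ((B ×ˢ B).card + 1), q (i + 1) ∈ B ×ˢ B := by
      intro i _
      rw [Finset.mem_product]
      refine ⟨?_, hqB (i + 1)⟩
      rw [hqs]
      exact hqB i
    obtain ⟨i, _, j, _, hne, he⟩ := Finset.exists_ne_map_eq_of_card_lt_of_maps_to
      (by rw [Finset.card_range]; omega) hmaps
    rcases lt_or_gt_of_ne hne with h | h
    · exact ⟨i, j, h, he⟩
    · exact ⟨j, i, h, he.symm⟩
  obtain ⟨i, j, hij, he⟩ := hpig
  have h0 : q 0 = q (j - i) := by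
    refine hdown (i + 1) (j - i) ?_
    rw [he]
    congr 1
    omega
  obtain ⟨m, hm⟩ : ∃ m, j - i = m + 1 := ⟨j - i - 1, by omega⟩
  rw [hm, hqs] at h0
  have e4 : x = (q m).2 := congrArg Prod.fst h0
  have e5 := (hch m).1
  rw [← e4] at e5
  omega

/-- enough fuel exists -/
theorem comp_exists {nb : ℕ → Finset ℕ} (h2 : ∀ x, (nb x).Nonempty → 2 ≤ (nb x).card)
    (hsymm : ∀ x y, y ∈ nb x → x ∈ nb y) (hirr : ∀ x, x ∉ nb x)
    (hB : ∀ w, (nb w).Nonempty → ∃ B : Finset ℕ, w ∈ B ∧ ∀ y ∈ B, (nb y).card = 2 → nb y ⊆ B)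
    (k x w : ℕ) (hw : w ∈ nb x) (hx : 3 ≤ (nb x).card) : ∃ R, ∀ R' ≥ R, comp nb R' k x w := by
  have key : ∀ k x w, w ∈ nb x → 3 ≤ (nb x).card → ∃ R, comp nb R k x w := by
    intro k
    induction k with
    | zero => exact fun x w _ _ => ⟨0, rfl⟩
    | succ k ih => exact fun x w hw hx => comp_step h2 hsymm hB k ih x w hw hx
  obtain ⟨R, hR⟩ := key k x w hw hx
  exact ⟨R, fun R' h => comp_le h _ _ _ hR⟩

end Jia
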