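import Pool.Agent.Helper826.Jia.WD

set_option autoImplicit false

namespace Jia
open Finset Filter
open scoped symmDiff


/-- good pairs -/
def GoodW4 (nb : ℕ → Finset ℕ) (X : Finset ℕ) (F : Finset (Sym2 ℕ)) : Prop :=
  (∀ e ∈ F, ∃ x y, e = s(x, y) ∧ y ∈ nb x ∧ x ∈ X ∧ y ∈ X) ∧
    ∀ u ∈ X, ∀ v ∈ X, ∃ P ⊆ F, IsJn P u v

theorem GoodW4.not_mem {nb : ℕ → Finset ℕ} {X : Finset ℕ} {F : Finset (Sym2 ℕ)}
    (h : GoodW4 nb X F) {a b : ℕ} (ha : a ∉ X) : s(a, b) ∉ F := by
  intro hm
  obtain ⟨x, y, he, -, hx, hy⟩ := h.1 _ hm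
  rw [Sym2.eq_iff] at he
  rcases he with ⟨rfl, rfl⟩ | ⟨rfl, rfl⟩
  · exact ha hx
  · exact ha hy

theorem attachW4 {nb : ℕ → Finset ℕ} (hirr : ∀ x, x ∉ nb x) {L : List ℕ}
    (hforest : ∀ C : Finset (Sym2 ℕ), IsEv C →
      (∀ e ∈ C, ∃ x y, e = s(x, y) ∧ y ∈ nb x ∧ x ∈ L ∧ y ∈ L) → C = ∅)
    {X : Finset ℕ} {F : Finset (Sym2 ℕ)} (hG : GoodW4 nb X F) (hXL : ∀ z ∈ X, z ∈ L)
    {x w : ℕ} (hx : x ∈ X) (hw : w ∈ nb x) (hF : s(x, w) ∉ F) (hwL : w ∈ L) :
    w ∉ X ∧ GoodW4 nb (insert w X) (insert s(x, w) F) := by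
  have hne : x ≠ w := by
    rintro rfl; exact hirr _ hw
  have hwX : w ∉ X := by
    intro hwX
    obtain ⟨P, hPF, hP⟩ := hG.2 x hx w hwX
    have hev : IsEv (P ∆ {s(x, w)}) := hP.isEv (isJn_edge hne)
    have h0 := hforest _ hev (by
      intro e he
      rw [mem_symmDiff] at he
      rcases he with ⟨he, -⟩ | ⟨he, -⟩
      · obtain ⟨a, b, h1, h2, h3, h4⟩ := hG.1 e (hPF he)
        exact ⟨a, b, h1, h2, hXL _ h3, hXL _ h4⟩
      · rw [mem_singleton] at he
        exact ⟨x, w, he, hw, hXL _ hx, hwL⟩)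
    have : s(x, w) ∈ P ∆ {s(x, w)} := by
      rw [mem_symmDiff]
      right
      exact ⟨mem_singleton_self _, fun h => hF (hPF h)⟩
    rw [h0] at this
    exact absurd this (notMem_empty _)
  refine ⟨hwX, ?_, ?_⟩
  · intro e he
    rw [mem_insert] at he
    rcases he with rfl | he
    · exact ⟨x, w, rfl, hw, mem_insert_of_mem hx, mem_insert_self _ _⟩
    · obtain ⟨a, b, h1, h2, h3, h4⟩ := hG.1 e he
      exact ⟨a, b, h1, h2, mem_insert_of_mem h3, mem_insert_of_mem h4⟩
  · have key : ∀ v ∈ X, ∃ P ⊆ insert s(x, w) F, IsJn P w v := by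
      intro v hv
      obtain ⟨P, hPF, hP⟩ := hG.2 x hx v hv
      refine ⟨{s(x, w)} ∆ P, ?_, ((isJn_edge hne).symm).trans hP⟩
      intro e he
      rw [mem_symmDiff] at he
      rcases he with ⟨he, -⟩ | ⟨he, -⟩
      · rw [mem_singleton] at he; rw [he]; exact mem_insert_self _ _
      · exact mem_insert_of_mem (hPF he)
    intro u hu v hv
    rw [mem_insert] at hu hv
    rcases hu with rfl | hu
    · rcases hv with rfl | hv
      · exact ⟨∅, empty_subset _, isJn_refl _⟩
      · exact key v hv
    · rcases hv with rfl | hv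
      · obtain ⟨P, h1, h2⟩ := key u hu
        exact ⟨P, h1, h2.symm⟩
      · obtain ⟨P, h1, h2⟩ := hG.2 u hu v hv
        exact ⟨P, h1.trans (subset_insert _ _), h2⟩

theorem bq_labelsW4 (d : ℕ) : ∀ l : List (BT ℕ), l ≠ [] →
    (bq d l).labels = l.flatMap BT.labels
  | [], h => absurd rfl h
  | [t], _ => by simp [bq]
  | t :: u :: l, _ => by
      rw [bq, BT.labels, bq_labelsW4 d (u :: l) (by simp)]
      simp

theorem top_memW4 (nb : ℕ → Finset ℕ) (n : ℕ) : ∀ R k x w, w ∈ (unf nb n R k x w).labels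
  | 0, k, x, w => by simp [unf, BT.labels]
  | R + 1, 0, x, w => by simp [unf, BT.labels]
  | R + 1, k + 1, x, w => by simp [unf, BT.labels]

theorem listW4 {nb : ℕ → Finset ℕ} {n R : ℕ} {L : List ℕ}
    (IH : ∀ (k x w : ℕ) (X : Finset ℕ) (F : Finset (Sym2 ℕ)), GoodW4 nb X F →
      (∀ z ∈ X, z ∈ L) → x ∈ X → w ∈ nb x → s(x, w) ∉ F →
      (∀ z ∈ (unf nb n R k x w).labels, z ∈ L) →
      (unf nb n R k x w).labels.Nodup ∧ (∀ z ∈ (unf nb n R k x w).labels, z ∉ X) ∧
      ∃ F' : Finset (Sym2 ℕ), F ⊆ F' ∧ GoodW4 nb (X ∪ (unf nb n R k x w).labels.toFinset) F' ∧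
        ∀ e ∈ F', e ∉ F → e = s(x, w) ∨ ∀ z ∈ e, z ∈ (unf nb n R k x w).labels)
    (k w : ℕ) : ∀ (ys : List ℕ) (X : Finset ℕ) (F : Finset (Sym2 ℕ)), GoodW4 nb X F →
      (∀ z ∈ X, z ∈ L) → w ∈ X → (∀ y ∈ ys, y ∈ nb w) → ys.Nodup → (∀ y ∈ ys, s(w, y) ∉ F) →
      (∀ z ∈ ys.flatMap (fun y => (unf nb n R k w y).labels), z ∈ L) →
      (ys.flatMap (fun y => (unf nb n R k w y).labels)).Nodup ∧
      (∀ z ∈ ys.flatMap (fun y => (unf nb n R k w y).labels), z ∉ X) ∧
      ∃ F' : Finset (Sym2 ℕ), F ⊆ F' ∧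
        GoodW4 nb (X ∪ (ys.flatMap (fun y => (unf nb n R k w y).labels)).toFinset) F' ∧
        ∀ e ∈ F', e ∉ F → (∃ y ∈ ys, e = s(w, y)) ∨
          ∀ z ∈ e, z ∈ ys.flatMap (fun y => (unf nb n R k w y).labels) := by
  intro ys
  induction ys with
  | nil =>
    intro X F hG hXL hw _ _ _ _
    refine ⟨by simp, by simp, F, subset_rfl, by simpa using hG, ?_⟩
    intro e he hne; exact absurd he hne
  | cons y ys ih =>
    intro X F hG hXL hw hys hnd hsF hL
    rw [List.nodup_cons] at hnd
    obtain ⟨n1, d1, F1, hF1, hG1, hE1⟩ := IH k w y X F hG hXL hw (hys y (by simp))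
      (hsF y (by simp)) (fun z hz => hL z (by simp [hz]))
    set t := (unf nb n R k w y).labels with ht
    have hwt : w ∉ t := fun h => d1 w h hw
    obtain ⟨n2, d2, F2, hF2, hG2, hE2⟩ := ih (X ∪ t.toFinset) F1 hG1
      (by
        intro z hz
        rw [mem_union, List.mem_toFinset] at hz
        rcases hz with hz | hz
        · exact hXL z hz
        · exact hL z (by simp [← ht, hz]))
      (mem_union_left _ hw) (fun y' hy' => hys y' (by simp [hy'])) hnd.2
      (by
        intro y' hy' hmem
        by_cases h0 : s(w, y') ∈ F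
        · exact hsF y' (by simp [hy']) h0
        · rcases hE1 _ hmem h0 with h | h
          · rw [Sym2.eq_iff] at h
            rcases h with ⟨-, h⟩ | ⟨h, h'⟩
            · exact hnd.1 (h ▸ hy')
            · apply hnd.1
              have : y' = y := by rw [h', h]
              exact this ▸ hy'
          · exact hwt (h w (by simp)))
      (fun z hz => hL z (by
        rw [List.flatMap_cons, List.mem_append]; exact Or.inr hz))
    refine ⟨?_, ?_, F2, hF1.trans hF2, ?_, ?_⟩
    · rw [List.flatMap_cons, List.nodup_append]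
      refine ⟨n1, n2, ?_⟩
      intro a ha b hb hab
      subst hab
      exact d2 a hb (mem_union_right _ (List.mem_toFinset.2 ha))
    · intro z hz hzX
      rw [List.flatMap_cons, List.mem_append] at hz
      rcases hz with hz | hz
      · exact d1 z hz hzX
      · exact d2 z hz (mem_union_left _ hzX)
    · rw [List.flatMap_cons, List.toFinset_append, ← union_assoc]
      exact hG2
    · intro e he hne
      by_cases h1 : e ∈ F1
      · rcases hE1 e h1 hne with h | h
        · left; exact ⟨y, by simp, h⟩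
        · right
          intro z hz
          rw [List.flatMap_cons, List.mem_append]
          exact Or.inl (h z hz)
      · rcases hE2 e he h1 with ⟨y', hy', h⟩ | h
        · left; exact ⟨y', by simp [hy'], h⟩
        · right
          intro z hz
          rw [List.flatMap_cons, List.mem_append]
          exact Or.inr (h z hz)

theorem mainW4 {nb : ℕ → Finset ℕ} (h2 : ∀ x, (nb x).Nonempty → 2 ≤ (nb x).card)
    (hsymm : ∀ x y, y ∈ nb x → x ∈ nb y) (hirr : ∀ x, x ∉ nb x) {n : ℕ} {L : List ℕ}
    (hforest : ∀ C : Finset (Sym2 ℕ), IsEv C →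
      (∀ e ∈ C, ∃ x y, e = s(x, y) ∧ y ∈ nb x ∧ x ∈ L ∧ y ∈ L) → C = ∅) (R : ℕ) :
    ∀ (k x w : ℕ) (X : Finset ℕ) (F : Finset (Sym2 ℕ)), GoodW4 nb X F →
      (∀ z ∈ X, z ∈ L) → x ∈ X → w ∈ nb x → s(x, w) ∉ F →
      (∀ z ∈ (unf nb n R k x w).labels, z ∈ L) →
      (unf nb n R k x w).labels.Nodup ∧ (∀ z ∈ (unf nb n R k x w).labels, z ∉ X) ∧
      ∃ F' : Finset (Sym2 ℕ), F ⊆ F' ∧ GoodW4 nb (X ∪ (unf nb n R k x w).labels.toFinset) F' ∧
        ∀ e ∈ F', e ∉ F → e = s(x, w) ∨ ∀ z ∈ e, z ∈ (unf nb n R k x w).labels := by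
  have base : ∀ (x w : ℕ) (X : Finset ℕ) (F : Finset (Sym2 ℕ)), GoodW4 nb X F →
      (∀ z ∈ X, z ∈ L) → x ∈ X → w ∈ nb x → s(x, w) ∉ F → w ∈ L →
      [w].Nodup ∧ (∀ z ∈ [w], z ∉ X) ∧
      ∃ F' : Finset (Sym2 ℕ), F ⊆ F' ∧ GoodW4 nb (X ∪ [w].toFinset) F' ∧
        ∀ e ∈ F', e ∉ F → e = s(x, w) ∨ ∀ z ∈ e, z ∈ [w] := by
    intro x w X F hG hXL hx hw hF hwL
    obtain ⟨h1, h3⟩ := attachW4 hirr hforest hG hXL hx hw hF hwL
    refine ⟨by simp, by simpa using h1, insert s(x, w) F, subset_insert _ _, ?_, ?_⟩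
    · have : X ∪ [w].toFinset = insert w X := by
        ext z; simp
      rw [this]; exact h3
    · intro e he hne
      rw [mem_insert] at he
      rcases he with he | he
      · exact Or.inl he
      · exact absurd he hne
  induction R with
  | zero =>
    intro k x w X F hG hXL hx hw hF hL
    simp only [unf, BT.labels] at hL ⊢
    exact base x w X F hG hXL hx hw hF (hL w (by simp))
  | succ R IH =>
    intro k x w X F hG hXL hx hw hF hL
    cases k with
    | zero =>
      simp only [unf, BT.labels] at hL ⊢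
      exact base x w X F hG hXL hx hw hF (hL w (by simp))
    | succ k =>
      have hxw : x ≠ w := by rintro rfl; exact hirr _ hw
      have hwL : w ∈ L := hL w (top_memW4 nb n _ _ _ _)
      obtain ⟨hwX, hG1⟩ := attachW4 hirr hforest hG hXL hx hw hF hwL
      set k' := (if 2 ≤ ((nb w).erase x).card then k else k + 1) with hk'
      set ys := ((nb w).erase x).toList with hys
      have hne : ys ≠ [] := by
        intro h0
        have hx' : x ∈ nb w := hsymm _ _ hw
        have h3 := h2 w ⟨x, hx'⟩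
        have h4 := card_erase_of_mem hx'
        have h5 : ((nb w).erase x).card = 0 := by
          rw [← length_toList, ← hys, h0]; rfl
        omega
      have hlab : (unf nb n (R + 1) (k + 1) x w).labels =
          w :: ys.flatMap (fun y => (unf nb n R k' w y).labels) := by
        rw [unf, BT.labels, bq_labelsW4]
        · rw [List.flatMap_map]
        · intro h0; exact hne (List.map_eq_nil_iff.1 h0)
      rw [hlab] at hL ⊢
      obtain ⟨n1, d1, F1, hF1, hG2, hE⟩ := listW4 IH k' w ys (insert w X) (insert s(x, w) F) hG1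
        (by
          intro z hz
          rw [mem_insert] at hz
          rcases hz with rfl | hz
          · exact hwL
          · exact hXL z hz)
        (mem_insert_self _ _)
        (by
          intro y hy
          rw [hys, mem_toList, mem_erase] at hy
          exact hy.2)
        (by rw [hys]; exact nodup_toList _)
        (by
          intro y hy hmem
          rw [hys, mem_toList, mem_erase] at hy
          rw [mem_insert] at hmem
          rcases hmem with h | h
          · rw [Sym2.eq_iff] at h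
            rcases h with ⟨h, -⟩ | ⟨-, h⟩
            · exact hxw h.symm
            · exact hy.1 h
          · exact hG.not_mem hwX h)
        (fun z hz => hL z (by simp only [List.mem_cons]; exact Or.inr hz))
      refine ⟨?_, ?_, F1, (subset_insert _ _).trans hF1, ?_, ?_⟩
      · rw [List.nodup_cons]
        exact ⟨fun h => d1 w h (mem_insert_self _ _), n1⟩
      · intro z hz
        rw [List.mem_cons] at hz
        rcases hz with rfl | hz
        · exact hwX
        · exact fun h => d1 z hz (mem_insert_of_mem h)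
      · have : X ∪ (w :: ys.flatMap (fun y => (unf nb n R k' w y).labels)).toFinset =
            insert w X ∪ (ys.flatMap (fun y => (unf nb n R k' w y).labels)).toFinset := by
          rw [List.toFinset_cons]
          ext z
          simp only [mem_union, mem_insert]
          tauto
        rw [this]; exact hG2
      · intro e he hne'
        by_cases h1 : e ∈ insert s(x, w) F
        · rw [mem_insert] at h1
          rcases h1 with h1 | h1
          · exact Or.inl h1
          · exact absurd h1 hne'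
        · right
          rcases hE e he h1 with ⟨y, hy, rfl⟩ | h
          · intro z hz
            rw [Sym2.mem_iff] at hz
            rcases hz with rfl | rfl
            · simp
            · simp only [List.mem_cons]
              right
              rw [List.mem_flatMap]
              exact ⟨z, hy, top_memW4 nb n _ _ _ _⟩
          · intro z hz
            rw [List.mem_cons]
            exact Or.inr (h z hz)

/-- in a forest the unfolding has distinct labels -/
theorem root_nodup {nb : ℕ → Finset ℕ} (h2 : ∀ x, (nb x).Nonempty → 2 ≤ (nb x).card)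
    (hsymm : ∀ x y, y ∈ nb x → x ∈ nb y) (hirr : ∀ x, x ∉ nb x)
    {n R k c o : ℕ} (hc : 3 ≤ (nb c).card) (ho : o ∈ nb c)
    (hforest : ∀ C : Finset (Sym2 ℕ), IsEv C →
      (∀ e ∈ C, ∃ x y, e = s(x, y) ∧ y ∈ nb x ∧ x ∈ o :: c :: (rootb nb n R k c o).labels ∧
        y ∈ o :: c :: (rootb nb n R k c o).labels) → C = ∅) :
    (o :: c :: (rootb nb n R k c o).labels).Nodup := by
  have hoc : o ≠ c := by rintro rfl; exact hirr _ ho
  set ys := ((nb c).erase o).toList with hys
  have hne : ys ≠ [] := by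
    intro h0
    have h4 := card_erase_of_mem ho
    have h5 : ((nb c).erase o).card = 0 := by
      rw [← length_toList, ← hys, h0]; rfl
    omega
  have hlab : (rootb nb n R k c o).labels =
      ys.flatMap (fun y => (unf nb n R k c y).labels) := by
    rw [rootb, bq_labelsW4]
    · rw [List.flatMap_map]
    · intro h0; exact hne (List.map_eq_nil_iff.1 h0)
  set L := o :: c :: (rootb nb n R k c o).labels with hL
  have hG : GoodW4 nb {o, c} {s(o, c)} := by
    constructor
    · intro e he
      rw [mem_singleton] at he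
      exact ⟨o, c, he, hsymm _ _ ho, by simp, by simp⟩
    · intro u hu v hv
      rw [mem_insert, mem_singleton] at hu hv
      rcases hu with rfl | rfl <;> rcases hv with rfl | rfl
      · exact ⟨∅, empty_subset _, isJn_refl _⟩
      · exact ⟨_, subset_rfl, isJn_edge hoc⟩
      · exact ⟨_, subset_rfl, (isJn_edge hoc).symm⟩
      · exact ⟨∅, empty_subset _, isJn_refl _⟩
  obtain ⟨n1, d1, -⟩ := listW4 (mainW4 h2 hsymm hirr (n := n) hforest R) k c ys {o, c} {s(o, c)} hG
    (by
      intro z hz
      rw [mem_insert, mem_singleton] at hz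
      rcases hz with rfl | rfl <;> simp [hL])
    (by simp)
    (by
      intro y hy
      rw [hys, mem_toList, mem_erase] at hy
      exact hy.2)
    (by rw [hys]; exact nodup_toList _)
    (by
      intro y hy hmem
      rw [hys, mem_toList, mem_erase] at hy
      rw [mem_singleton, Sym2.eq_iff] at hmem
      rcases hmem with ⟨h, -⟩ | ⟨-, h⟩
      · exact hoc h.symm
      · exact hy.1 h)
    (by
      intro z hz
      rw [← hlab] at hz
      rw [hL]
      simp [hz])
  rw [hL, List.nodup_cons, List.nodup_cons, hlab]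
  refine ⟨?_, ?_, n1⟩
  · rw [List.mem_cons, not_or]
    exact ⟨hoc, fun h => d1 o h (by simp)⟩
  · exact fun h => d1 c h (by simp)

end Jia
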