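import Pool.Agent.Helper826.Jia.Defs

set_option autoImplicit false

namespace Jia
open Finset
open scoped symmDiff
variable {V : Type*} [DecidableEq V]

theorem cyc_ev {C : Finset (Sym2 V)} (h : IsCyc C) :
    IsEv C ∧ (∀ x, dg C x ≤ 2) ∧ NL C ∧ C.Nonempty := by
  classical
  obtain ⟨v, p, hp, hC⟩ := h
  have hCe : C = p.edges.toFinset := by
    ext e; rw [hC, List.mem_toFinset]
  have hnil : ¬ p.Nil := hp.isCircuit.not_nil
  refine ⟨?_, ?_, ?_, ?_⟩
  · intro x
    have h1 := hp.isCircuit.isTrail.even_countP_edges_iff x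
    have h2 : dg C x = p.edges.countP (fun e => x ∈ e) := by
      unfold dg
      rw [hCe, List.countP_eq_length_filter,
        ← List.toFinset_card_of_nodup (hp.isCircuit.isTrail.edges_nodup.filter _)]
      congr 1
      ext e
      simp
    rw [h2, h1]
    intro h3
    exact absurd rfl h3
  · intro x
    by_cases hx : x ∈ p.support
    · have h1 := hp.ncard_neighborSet_toSubgraph_eq_two hx
      have hfin : (p.toSubgraph.neighborSet x).Finite :=
        Set.finite_of_ncard_ne_zero (by rw [h1]; norm_num)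
      have h2 : C.filter (fun e => x ∈ e) ⊆ hfin.toFinset.image (fun w => s(x, w)) := by
        intro e he
        rw [mem_filter] at he
        obtain ⟨w, rfl⟩ := he.2
        rw [mem_image]
        refine ⟨w, ?_, rfl⟩
        rw [Set.Finite.mem_toFinset, SimpleGraph.Subgraph.mem_neighborSet,
          ← SimpleGraph.Subgraph.mem_edgeSet, SimpleGraph.Walk.mem_edges_toSubgraph]
        exact (hC _).1 he.1
      unfold dg
      calc (C.filter (fun e => x ∈ e)).card ≤ (hfin.toFinset.image (fun w => s(x, w))).card :=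
            card_le_card h2
        _ ≤ hfin.toFinset.card := card_image_le
        _ = 2 := by rw [← Set.ncard_eq_toFinset_card _ hfin, h1]
    · have h2 : C.filter (fun e => x ∈ e) = ∅ := by
        rw [filter_eq_empty_iff]
        intro e he hxe
        exact hx (SimpleGraph.Walk.mem_support_of_mem_edges ((hC e).1 he) hxe)
      unfold dg
      rw [h2]
      simp
  · intro e he
    exact SimpleGraph.not_isDiag_of_mem_edgeSet _ (p.edges_subset_edgeSet ((hC e).1 he))
  · obtain ⟨e, he, -⟩ := (SimpleGraph.Walk.mem_support_iff_exists_mem_edges_of_not_nil hnil).1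
      p.start_mem_support
    exact ⟨e, (hC e).2 he⟩

omit [DecidableEq V] in
theorem cyc_conn_aux {G : SimpleGraph V} (D : Set V) {u v : V} (p : G.Walk u v)
    (h : ∀ e ∈ p.edges, (∀ x ∈ e, x ∈ D) ∨ (∀ x ∈ e, x ∉ D)) :
    ∀ x ∈ p.support, (x ∈ D ↔ u ∈ D) := by
  induction p with
  | nil =>
    intro x hx
    simp only [SimpleGraph.Walk.support_nil, List.mem_singleton] at hx
    rw [hx]
  | cons hadj p ih =>
    rename_i a b c
    intro x hx
    rw [SimpleGraph.Walk.support_cons, List.mem_cons] at hx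
    rcases hx with rfl | hx
    · exact Iff.rfl
    · have h1 := ih (fun e he => h e (by
        rw [SimpleGraph.Walk.edges_cons]; exact List.mem_cons_of_mem _ he)) x hx
      rw [h1]
      have h2 := h s(a, b) (by rw [SimpleGraph.Walk.edges_cons]; exact List.mem_cons_self)
      rcases h2 with h2 | h2
      · exact ⟨fun _ => h2 a (by simp), fun _ => h2 b (by simp)⟩
      · exact ⟨fun h3 => absurd h3 (h2 b (by simp)), fun h3 => absurd h3 (h2 a (by simp))⟩

omit [DecidableEq V] in
theorem cyc_conn {C : Finset (Sym2 V)} (hC : IsCyc C) (D : Set V)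
    (h : ∀ e ∈ C, (∀ x ∈ e, x ∈ D) ∨ (∀ x ∈ e, x ∉ D)) :
    (∀ e ∈ C, ∀ x ∈ e, x ∈ D) ∨ (∀ e ∈ C, ∀ x ∈ e, x ∉ D) := by
  obtain ⟨v, p, hp, hC⟩ := hC
  have h1 := cyc_conn_aux D p (fun e he => h e ((hC e).2 he))
  by_cases hv : v ∈ D
  · left
    intro e he x hx
    exact (h1 x (SimpleGraph.Walk.mem_support_of_mem_edges ((hC e).1 he) hx)).2 hv
  · right
    intro e he x hx hxD
    exact hv ((h1 x (SimpleGraph.Walk.mem_support_of_mem_edges ((hC e).1 he) hx)).1 hxD)

theorem cyc_of_walk {G : SimpleGraph V} {v : V} (p : G.Walk v v) (hp : p.IsCycle) :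
    IsCyc p.edges.toFinset ∧ p.edges.toFinset.card = p.length ∧
      (∀ e ∈ p.edges.toFinset, e ∈ G.edgeSet) := by
  refine ⟨⟨v, p.mapLe le_top, hp.mapLe le_top, ?_⟩, ?_, ?_⟩
  · intro e
    rw [SimpleGraph.Walk.edges_mapLe_eq_edges, List.mem_toFinset]
  · rw [List.toFinset_card_of_nodup hp.isCircuit.isTrail.edges_nodup, SimpleGraph.Walk.length_edges]
  · intro e he
    rw [List.mem_toFinset] at he
    exact p.edges_subset_edgeSet he

theorem cyc_map {W : Type*} [DecidableEq W] {f : V → W} {C : Finset (Sym2 V)} (hC : IsCyc C)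
    (hf : Set.InjOn f {x | ∃ e ∈ C, x ∈ e}) : IsCyc (C.image (Sym2.map f)) := by
  classical
  obtain ⟨v, p, hp, hC⟩ := hC
  have hnil : ¬ p.Nil := hp.isCircuit.not_nil
  let H : SimpleGraph V := SimpleGraph.fromEdgeSet (C : Set (Sym2 V))
  have hH : ∀ e ∈ p.edges, e ∈ H.edgeSet := by
    intro e he
    rw [SimpleGraph.edgeSet_fromEdgeSet]
    exact ⟨(hC e).2 he, SimpleGraph.not_isDiag_of_mem_edgeSet _ (p.edges_subset_edgeSet he)⟩
  let F : H →g (⊤ : SimpleGraph W) :=
    { toFun := f
      map_rel' := by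
        intro a b hab
        rw [SimpleGraph.fromEdgeSet_adj] at hab
        rw [SimpleGraph.top_adj]
        intro hfab
        exact hab.2 (hf ⟨_, hab.1, by simp⟩ ⟨_, hab.1, by simp⟩ hfab) }
  have hq := hp.transfer hH
  set q := p.transfer H hH with hqdef
  have hqs : ∀ x ∈ q.support, x ∈ {x | ∃ e ∈ C, x ∈ e} := by
    intro x hx
    rw [hqdef, SimpleGraph.Walk.support_transfer] at hx
    obtain ⟨e, he, hxe⟩ := (SimpleGraph.Walk.mem_support_iff_exists_mem_edges_of_not_nil hnil).1 hx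
    exact ⟨e, (hC e).2 he, hxe⟩
  have hqe : q.edges = p.edges := by rw [hqdef, SimpleGraph.Walk.edges_transfer]
  refine ⟨f v, q.map F, ?_, ?_⟩
  · rw [SimpleGraph.Walk.isCycle_def]
    refine ⟨⟨?_⟩, ?_, ?_⟩
    · rw [SimpleGraph.Walk.edges_map]
      apply List.Nodup.map_on _ hq.isCircuit.isTrail.edges_nodup
      intro a ha b hb hab
      have ha' : ∀ x ∈ a, x ∈ {x | ∃ e ∈ C, x ∈ e} := fun x hx =>
        ⟨a, (hC a).2 (hqe ▸ ha), hx⟩
      have hb' : ∀ x ∈ b, x ∈ {x | ∃ e ∈ C, x ∈ e} := fun x hx =>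
        ⟨b, (hC b).2 (hqe ▸ hb), hx⟩
      induction a using Sym2.ind with
      | _ a1 a2 =>
      induction b using Sym2.ind with
      | _ b1 b2 =>
      change s(f a1, f a2) = s(f b1, f b2) at hab
      rw [Sym2.eq_iff] at hab ⊢
      have k1 := ha' a1 (by simp)
      have k2 := ha' a2 (by simp)
      have k3 := hb' b1 (by simp)
      have k4 := hb' b2 (by simp)
      rcases hab with ⟨e1, e2⟩ | ⟨e1, e2⟩
      · exact Or.inl ⟨hf k1 k3 e1, hf k2 k4 e2⟩
      · exact Or.inr ⟨hf k1 k4 e1, hf k2 k3 e2⟩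
    · intro h
      have h1 : (q.map F).Nil := by rw [h]; exact SimpleGraph.Walk.Nil.nil
      rw [SimpleGraph.Walk.nil_map_iff] at h1
      exact hq.isCircuit.not_nil h1
    · rw [SimpleGraph.Walk.support_map, ← List.map_tail]
      apply List.Nodup.map_on _ hq.support_nodup
      intro a ha b hb hab
      exact hf (hqs a (List.mem_of_mem_tail ha)) (hqs b (List.mem_of_mem_tail hb)) hab
  · intro e
    rw [SimpleGraph.Walk.edges_map, hqe, mem_image, List.mem_map]
    constructor
    · rintro ⟨a, ha, rfl⟩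
      exact ⟨a, (hC a).1 ha, rfl⟩
    · rintro ⟨a, ha, rfl⟩
      exact ⟨a, (hC a).2 ha, rfl⟩

end Jia
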