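import Pool.Agent.Helper826.Jia.Defs

set_option autoImplicit false

namespace Jia
open Finset
open scoped symmDiff
variable {V : Type*} [DecidableEq V]

theorem cyc_path_aux {K : Finset (Sym2 V)} :
    ∀ {v c : V} (q : (⊤ : SimpleGraph V).Walk v c), q.IsPath → (∀ e ∈ q.edges, e ∈ K) →
      ∀ S : Finset V, (∀ x ∈ q.support, x ∈ S) →
      Pth K c S v q.edges.toFinset (S.filter (fun x => x ∉ q.support ∨ x = c)) := by
  intro v c q
  induction q with
  | nil =>
    rename_i u
    intro _ _ S hS
    have h1 : S.filter (fun x => x ∉ (SimpleGraph.Walk.nil : (⊤ : SimpleGraph V).Walk u u).support ∨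
        x = u) = S := by
      apply Finset.filter_true_of_mem
      intro x _
      by_cases hx : x = u
      · exact Or.inr hx
      · left; simpa using hx
    rw [h1]
    exact Pth.nil S (hS u (by simp))
  | cons h q' ih =>
    rename_i v w c
    intro hp hK S hS
    rw [SimpleGraph.Walk.cons_isPath_iff] at hp
    have hcs : c ∈ q'.support := q'.end_mem_support
    have hvc : v ≠ c := by rintro rfl; exact hp.2 hcs
    have hS' : ∀ x ∈ q'.support, x ∈ S.erase v := by
      intro x hx
      rw [Finset.mem_erase]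
      refine ⟨?_, hS x (by simp [hx])⟩
      rintro rfl; exact hp.2 hx
    have ih' := ih hp.1 (fun e he => hK e (by simp [he])) (S.erase v) hS'
    have hR : (S.erase v).filter (fun x => x ∉ q'.support ∨ x = c) =
        S.filter (fun x => x ∉ (SimpleGraph.Walk.cons h q').support ∨ x = c) := by
      ext x
      simp only [Finset.mem_filter, Finset.mem_erase, SimpleGraph.Walk.support_cons,
        List.mem_cons, not_or]
      constructor
      · rintro ⟨⟨h1, h2⟩, h3⟩
        refine ⟨h2, ?_⟩
        rcases h3 with h3 | h3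
        · exact Or.inl ⟨h1, h3⟩
        · exact Or.inr h3
      · rintro ⟨h1, h2⟩
        rcases h2 with h2 | h2
        · exact ⟨⟨h2.1, h1⟩, Or.inl h2.2⟩
        · refine ⟨⟨?_, h1⟩, Or.inr h2⟩
          rw [h2]; exact Ne.symm hvc
    rw [← hR, SimpleGraph.Walk.edges_cons, List.toFinset_cons]
    exact Pth.cons S v w _ _ (hS v (by simp)) hvc (hS' w q'.start_mem_support)
      (hK _ (by simp)) ih'

/-- a cycle through the edge `oc` is a path from `o` to `c` avoiding this edge -/
theorem cyc_path {K C : Finset (Sym2 V)} {S0 : Finset V} {o c : V} (hC : IsCyc C) (hCK : C ⊆ K)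
    (he : s(o, c) ∈ C) (hne : o ≠ c) (hS : ∀ e ∈ C, ∀ x ∈ e, x ∈ S0) :
    ∃ R, Pth (K.erase s(o, c)) c S0 o (C.erase s(o, c)) R ∧
      ∀ x, x ∈ R ↔ (x ∈ S0 ∧ (dg C x = 0 ∨ x = c)) := by
  obtain ⟨v0, p0, hp0, hC0⟩ := hC
  -- orient
  have h1 : ∃ (p : (⊤ : SimpleGraph V).Walk v0 v0), p.IsCycle ∧ (∀ e, e ∈ C ↔ e ∈ p.edges) ∧
      ∃ d ∈ p.darts, d.fst = c ∧ d.snd = o := by
    have h2 := (hC0 _).1 he
    obtain ⟨d, hd, hde⟩ := List.mem_map.mp h2
    rw [SimpleGraph.dart_edge_eq_mk'_iff'] at hde
    rcases hde with h3 | h3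
    · refine ⟨p0.reverse, hp0.reverse, ?_, d.symm, ?_, h3.2, h3.1⟩
      · intro e
        rw [hC0, SimpleGraph.Walk.edges_reverse, List.mem_reverse]
      · rw [SimpleGraph.Walk.mem_darts_reverse, SimpleGraph.Dart.symm_symm]
        exact hd
    · exact ⟨p0, hp0, hC0, d, hd, h3.1, h3.2⟩
  obtain ⟨p, hp, hCp, d, hd, hdf, hds⟩ := h1
  have hcs : c ∈ p.support := by
    rw [← hdf]; exact p.dart_fst_mem_support_of_mem_darts hd
  have h2 : ∃ p' : (⊤ : SimpleGraph V).Walk c c, p'.IsCycle ∧ (∀ e, e ∈ C ↔ e ∈ p'.edges) ∧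
      d ∈ p'.darts := by
    refine ⟨p.rotate c hcs, hp.rotate hcs, ?_, ?_⟩
    · intro e
      rw [hCp]
      exact ((SimpleGraph.Walk.rotate_edges p c hcs).mem_iff).symm
    · exact ((SimpleGraph.Walk.rotate_darts p c hcs).mem_iff).mpr hd
  obtain ⟨p', hp', hCp', hd'⟩ := h2
  have h3 : ∃ (h : (⊤ : SimpleGraph V).Adj c o) (q : (⊤ : SimpleGraph V).Walk o c),
      p' = SimpleGraph.Walk.cons h q := by
    cases p' with
    | nil => exact absurd hd' (by simp)
    | cons h q =>
      rename_i x
      rw [SimpleGraph.Walk.darts_cons, List.mem_cons] at hd'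
      rcases hd' with h4 | h4
      · have hx : x = o := by rw [← hds, h4]
        subst hx
        exact ⟨h, q, rfl⟩
      · exfalso
        have hq := ((SimpleGraph.Walk.cons_isCycle_iff q h).mp hp').1
        have h5 : c ∈ q.support.dropLast := by
          rw [← SimpleGraph.Walk.map_fst_darts, List.mem_map]
          exact ⟨d, h4, hdf⟩
        have h6 : q.support.dropLast ++ [c] = q.support := by
          have h7 := List.dropLast_append_getLast q.support_ne_nil
          rw [SimpleGraph.Walk.getLast_support] at h7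
          exact h7
        have h8 := hq.support_nodup
        rw [← h6, List.nodup_append] at h8
        exact h8.2.2 c h5 c (by simp) rfl
  obtain ⟨h, q, rfl⟩ := h3
  obtain ⟨hq, hnq⟩ := (SimpleGraph.Walk.cons_isCycle_iff q h).mp hp'
  have hCE : C.erase s(o, c) = q.edges.toFinset := by
    ext e
    rw [Finset.mem_erase, hCp', SimpleGraph.Walk.edges_cons, List.mem_cons, List.mem_toFinset]
    constructor
    · rintro ⟨h4, h5⟩
      rcases h5 with h5 | h5
      · exact absurd (h5.trans Sym2.eq_swap) h4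
      · exact h5
    · intro h4
      refine ⟨?_, Or.inr h4⟩
      rintro rfl
      exact hnq (by rw [Sym2.eq_swap]; exact h4)
  have hKq : ∀ e ∈ q.edges, e ∈ K.erase s(o, c) := by
    intro e he'
    rw [Finset.mem_erase]
    refine ⟨?_, hCK ((hCp' e).2 (by simp [he']))⟩
    rintro rfl
    exact hnq (by rw [Sym2.eq_swap]; exact he')
  have hedge : ∀ x, x ∈ (SimpleGraph.Walk.cons h q).support → ∃ e ∈ C, x ∈ e := by
    have hgen : ∀ {a b : V} (w : (⊤ : SimpleGraph V).Walk a b), ∀ x ∈ w.support,
        x = a ∨ ∃ e ∈ w.edges, x ∈ e := by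
      intro a b w
      induction w with
      | nil => intro x hx; left; simpa using hx
      | cons h' w' ih =>
        rename_i a1 b1 c1
        intro x hx
        rw [SimpleGraph.Walk.support_cons, List.mem_cons] at hx
        rcases hx with hx | hx
        · exact Or.inl hx
        · right
          rcases ih x hx with h6 | ⟨e, he1, he2⟩
          · exact ⟨s(a1, b1), by simp, by rw [h6]; exact Sym2.mem_mk_right _ _⟩
          · exact ⟨e, by simp [he1], he2⟩
    intro x hx
    rcases hgen _ x hx with h6 | ⟨e, he1, he2⟩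
    · exact ⟨s(o, c), he, by rw [h6]; exact Sym2.mem_mk_right _ _⟩
    · exact ⟨e, (hCp' e).2 he1, he2⟩
  have hSq : ∀ x ∈ q.support, x ∈ S0 := by
    intro x hx
    obtain ⟨e, he1, he2⟩ := hedge x (by simp [hx])
    exact hS e he1 x he2
  refine ⟨S0.filter (fun x => x ∉ q.support ∨ x = c), ?_, ?_⟩
  · rw [hCE]
    exact cyc_path_aux q hq hKq S0 hSq
  · intro x
    rw [Finset.mem_filter]
    have hdg : x ≠ c → (x ∉ q.support ↔ dg C x = 0) := by
      intro hxc
      unfold dg
      rw [Finset.card_eq_zero, Finset.filter_eq_empty_iff]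
      constructor
      · intro h4 e he1 he2
        have h5 := (hCp' e).1 he1
        have h6 := SimpleGraph.Walk.mem_support_of_mem_edges h5 he2
        rw [SimpleGraph.Walk.support_cons, List.mem_cons] at h6
        rcases h6 with h6 | h6
        · exact hxc h6
        · exact h4 h6
      · intro h4 h5
        obtain ⟨e, he1, he2⟩ := hedge x (by simp [h5])
        exact h4 he1 he2
    by_cases hxc : x = c
    · simp [hxc]
    · simp only [hxc, or_false]
      rw [hdg hxc]

end Jia
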