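import Pool.Agent.Helper826.Jia.C1

set_option autoImplicit false

namespace Jia
open Finset
open scoped symmDiff


theorem jF_chain {V : Type} [DecidableEq V] (E : Finset (Sym2 V))
    (hcov : ∀ e ∈ E, ∃ C ∈ Cf E, e ∈ C) (x : V) : ∀ k : ℕ, 2 * k ≤ dg E x + 1 →
    ∃ U S : Finset (Sym2 V), U ⊆ E ∧ S ⊆ U ∧ (∀ e ∈ S, x ∈ e) ∧ dg U x ≤ 2 * k ∧
      ∀ E', U ⊆ E' → (Zf E').card = 2 ^ k * (Zf (E' \ S)).card := by
  intro k
  induction k with
  | zero =>
    intro _
    refine ⟨∅, ∅, empty_subset _, empty_subset _, by simp, by simp [dg], ?_⟩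
    intro E' _
    simp
  | succ k ih =>
    intro hk
    obtain ⟨U, S, hUE, hSU, hSx, hdU, hcard⟩ := ih (by omega)
    have hlt : dg U x < dg E x := by omega
    obtain ⟨e, he1, he2⟩ := Finset.exists_mem_notMem_of_card_lt_card hlt
    rw [mem_filter] at he1 he2
    obtain ⟨heE, hex⟩ := he1
    have heU : e ∉ U := fun h => he2 ⟨h, hex⟩
    obtain ⟨C, hC, heC⟩ := hcov e heE
    rw [mem_Cf] at hC
    obtain ⟨hev, hdC, _, _⟩ := cyc_ev hC.2
    refine ⟨U ∪ C, insert e S, union_subset hUE hC.1, ?_, ?_, ?_, ?_⟩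
    · intro f hf
      rw [mem_insert] at hf
      rcases hf with rfl | hf
      · exact mem_union_right _ heC
      · exact mem_union_left _ (hSU hf)
    · intro f hf
      rw [mem_insert] at hf
      rcases hf with rfl | hf
      · exact hex
      · exact hSx f hf
    · have h1 : dg (U ∪ C) x ≤ dg U x + dg C x := by
        unfold dg
        rw [filter_union]
        exact card_union_le _ _
      have h2 := hdC x
      omega
    · intro E' hE'
      have hCE : C ∈ Zf E' := mem_Zf.2 ⟨subset_union_right.trans hE', hev⟩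
      rw [Zf_erase hCE heC]
      have hUe : U ⊆ E'.erase e := by
        intro f hf
        rw [mem_erase]
        exact ⟨fun h => heU (h ▸ hf), hE' (mem_union_left _ hf)⟩
      rw [hcard _ hUe]
      have hset : (E'.erase e) \ S = E' \ insert e S := by
        ext f
        simp only [mem_sdiff, mem_erase, mem_insert]
        tauto
      rw [hset, pow_succ]
      ring

theorem jF_fiber {V : Type} [DecidableEq V] (E : Finset (Sym2 V)) (x : V) :
    ((Zf E).filter (fun z => dg z x ≤ 2)).card ≤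
      (Zf (E \ E.filter (fun e => x ∈ e))).card * (1 + dg E x) ^ 2 := by
  classical
  set St := E.filter (fun e => x ∈ e) with hSt
  set T : Finset (Finset (Sym2 V)) := (powersetCard 0 St ∪ powersetCard 1 St) ∪ powersetCard 2 St
    with hT
  have hTc : T.card ≤ (1 + dg E x) ^ 2 := by
    have h1 : T.card ≤ (powersetCard 0 St).card + (powersetCard 1 St).card +
        (powersetCard 2 St).card :=
      (card_union_le _ _).trans (Nat.add_le_add_right (card_union_le _ _) _)
    rw [card_powersetCard, card_powersetCard, card_powersetCard] at h1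
    have hd : St.card = dg E x := rfl
    rw [hd, Nat.choose_zero_right, Nat.choose_one_right, Nat.choose_two_right] at h1
    have h2 : dg E x * (dg E x - 1) / 2 ≤ dg E x * dg E x :=
      (Nat.div_le_self _ _).trans (Nat.mul_le_mul_left _ (Nat.sub_le _ _))
    have h3 : (1 + dg E x) ^ 2 = 1 + 2 * dg E x + dg E x * dg E x := by ring
    omega
  have hmap : ∀ z ∈ (Zf E).filter (fun z => dg z x ≤ 2), z.filter (fun e => x ∈ e) ∈ T := by
    intro z hz
    rw [mem_filter, mem_Zf] at hz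
    obtain ⟨⟨hzE, _⟩, hz2⟩ := hz
    have hsub : z.filter (fun e => x ∈ e) ⊆ St := filter_subset_filter _ hzE
    have hc : (z.filter (fun e => x ∈ e)).card ≤ 2 := hz2
    rw [hT, mem_union, mem_union, mem_powersetCard, mem_powersetCard, mem_powersetCard]
    have : (z.filter (fun e => x ∈ e)).card = 0 ∨ (z.filter (fun e => x ∈ e)).card = 1 ∨
      (z.filter (fun e => x ∈ e)).card = 2 := by omega
    rcases this with h | h | h
    · exact Or.inl (Or.inl ⟨hsub, h⟩)
    · exact Or.inl (Or.inr ⟨hsub, h⟩)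
    · exact Or.inr ⟨hsub, h⟩
  refine (card_le_mul_card_image_of_maps_to hmap (Zf (E \ St)).card ?_).trans
    (Nat.mul_le_mul_left _ hTc)
  intro A _
  rcases (((Zf E).filter (fun z => dg z x ≤ 2)).filter
    (fun z => z.filter (fun e => x ∈ e) = A)).eq_empty_or_nonempty with h0 | ⟨z0, hz0⟩
  · rw [h0]; simp
  · rw [mem_filter, mem_filter] at hz0
    obtain ⟨⟨hz0E, _⟩, hz0A⟩ := hz0
    refine card_le_card_of_injOn (fun z => z ∆ z0) ?_ ?_
    · intro z hz
      have hz' := mem_coe.1 hz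
      rw [mem_filter, mem_filter] at hz'
      obtain ⟨⟨hzE, _⟩, hzA⟩ := hz'
      have h1 := mem_Zf.1 (Zf_symmDiff hzE hz0E)
      refine mem_coe.2 (mem_Zf.2 ⟨?_, h1.2⟩)
      intro e he
      rw [mem_sdiff]
      refine ⟨h1.1 he, ?_⟩
      intro hest
      rw [hSt, mem_filter] at hest
      have hxe := hest.2
      have hiff : e ∈ z ↔ e ∈ z0 := by
        have h2 : e ∈ z.filter (fun e => x ∈ e) ↔ e ∈ z0.filter (fun e => x ∈ e) := by
          rw [hzA, hz0A]
        rw [mem_filter, mem_filter] at h2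
        tauto
      rw [mem_symmDiff] at he
      tauto
    · intro a _ b _ hab
      exact symmDiff_left_injective z0 hab

theorem jF_bound (δ : ℝ) (hδ : 0 < δ) : ∃ D : ℕ, ∀ d : ℕ,
    δ * 2 ^ (d / 2) ≤ ((1 + d : ℕ) : ℝ) ^ 2 → d ≤ D := by
  have hlim := tendsto_pow_const_mul_const_pow_of_abs_lt_one 2
    (show |(1/2 : ℝ)| < 1 by rw [abs_of_pos] <;> norm_num)
  have hlim' := (hlim.comp (Filter.tendsto_add_atTop_nat 1))
  have hev := hlim'.eventually_lt_const (show (0:ℝ) < δ / 8 by positivity)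
  obtain ⟨m0, hm0⟩ := Filter.eventually_atTop.1 hev
  refine ⟨2 * m0 + 1, fun d hd => ?_⟩
  by_contra hcon
  push Not at hcon
  have hm : m0 ≤ d / 2 := by omega
  have h := hm0 (d / 2) hm
  simp only [Function.comp_apply] at h
  obtain ⟨m, hmd⟩ : ∃ m, m = d / 2 := ⟨_, rfl⟩
  rw [← hmd] at h hd
  have hdm : 1 + d ≤ 2 * (m + 1) := by omega
  have h1 : ((1 + d : ℕ) : ℝ) ^ 2 ≤ (2 * ((m:ℝ) + 1)) ^ 2 := by
    apply pow_le_pow_left₀ (by positivity)
    exact_mod_cast hdm
  have h2 : (0:ℝ) < 2 ^ m := by positivity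
  have h3 : ((m + 1 : ℕ) : ℝ) ^ 2 * (1 / 2) ^ (m + 1) = ((m:ℝ) + 1) ^ 2 / (2 * 2 ^ m) := by
    push_cast
    rw [one_div, inv_pow, pow_succ (2:ℝ) m, mul_comm (2 ^ m : ℝ) 2, div_eq_mul_inv]
  rw [h3, div_lt_iff₀ (by positivity)] at h
  nlinarith

/-- if a positive fraction of the even sets are cycles then the degrees are bounded -/
theorem deg_bound (δ : ℝ) (hδ : 0 < δ) : ∃ D : ℕ, ∀ (V : Type) [DecidableEq V]
    (E : Finset (Sym2 V)), NL E → (∀ e ∈ E, ∃ C ∈ Cf E, e ∈ C) →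
    δ * (Zf E).card ≤ (Cf E).card → ∀ x, dg E x ≤ D := by
  obtain ⟨D, hD⟩ := jF_bound δ hδ
  refine ⟨D, fun V _ E _ hcov hfrac x => hD _ ?_⟩
  obtain ⟨U, S, hUE, hSU, hSx, _, hcard⟩ := jF_chain E hcov x (dg E x / 2) (by omega)
  have h1 := hcard E hUE
  have h2 := jF_fiber E x
  have h3 : (Cf E).card ≤ ((Zf E).filter (fun z => dg z x ≤ 2)).card := by
    apply card_le_card
    intro C hC
    rw [mem_Cf] at hC
    obtain ⟨hev, hdC, _, _⟩ := cyc_ev hC.2
    rw [mem_filter, mem_Zf]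
    exact ⟨⟨hC.1, hev⟩, hdC x⟩
  have h4 : (Zf (E \ E.filter (fun e => x ∈ e))).card ≤ (Zf (E \ S)).card := by
    apply card_le_card
    apply Zf_mono
    intro e he
    rw [mem_sdiff] at he ⊢
    refine ⟨he.1, fun heS => he.2 ?_⟩
    rw [mem_filter]
    exact ⟨he.1, hSx e heS⟩
  obtain ⟨N, hN⟩ : ∃ N, N = (Zf (E \ E.filter (fun e => x ∈ e))).card := ⟨_, rfl⟩
  have hNpos : 0 < N := by rw [hN]; exact Zf_card_pos _
  rw [← hN] at h2 h4
  have h5 : (2:ℝ) ^ (dg E x / 2) * N ≤ (Zf E).card := by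
    rw [h1]
    push_cast
    apply mul_le_mul_of_nonneg_left _ (by positivity)
    exact_mod_cast h4
  have h6 : ((Cf E).card : ℝ) ≤ N * ((1 + dg E x : ℕ) : ℝ) ^ 2 := by
    exact_mod_cast h3.trans h2
  have hNr : (0:ℝ) < N := by exact_mod_cast hNpos
  have h7 : δ * (2 ^ (dg E x / 2) * N) ≤ N * ((1 + dg E x : ℕ) : ℝ) ^ 2 :=
    (mul_le_mul_of_nonneg_left h5 hδ.le).trans (hfrac.trans h6)
  have h8 : (δ * 2 ^ (dg E x / 2)) * N ≤ ((1 + dg E x : ℕ) : ℝ) ^ 2 * N := by linarith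
  exact le_of_mul_le_mul_right h8 hNr

end Jia
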