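import Pool.Agent.Helper826.Jia.St

set_option autoImplicit false

namespace Jia
open Finset
open scoped symmDiff

theorem Zf_unbounded {κ : ℝ} {U : ℕ → Finset (Sym2 ℕ)} (h : ∀ j, Stp κ (U j) (U (j + 1))) :
    ∀ j, 2 ^ j ≤ (Zf (U j)).card := by
  intro j
  induction j with
  | zero => simpa using Nat.succ_le_of_lt (Zf_card_pos (U 0))
  | succ j ih =>
    have h1 := (h j).2.2.2.2.2.1
    rw [pow_succ]
    omega

/-- in an infinite chain a positive fraction of the even sets are cycles, eventually -/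
theorem analytic {κ : ℝ} (hκ : 0 < κ) {U : ℕ → Finset (Sym2 ℕ)} (h0 : U 0 = ∅)
    (h : ∀ j, Stp κ (U j) (U (j + 1))) :
    ∃ δ > 0, ∃ j0, ∀ j ≥ j0, δ * ((Zf (U j)).card : ℝ) ≤ (Cf (U j)).card := by
  have _ := h0
  have hz : ∀ j, (2 : ℝ) ^ j ≤ κ * ((U j).card + 1) := by
    intro j
    have h1 : ((2 : ℝ) ^ j) ≤ ((Zf (U j)).card : ℝ) := by exact_mod_cast Zf_unbounded h j
    exact h1.trans (h j).2.2.2.2.2.2
  set a : ℕ → ℝ := fun j => (((U j).card : ℝ) + 3) / 2 ^ j with ha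
  have hanti : Antitone a := by
    apply antitone_nat_of_succ_le
    intro j
    have h1 : ((U (j+1)).card : ℝ) + 3 ≤ 2 * (((U j).card : ℝ) + 3) := by
      exact_mod_cast (h j).2.2.2.1
    simp only [ha]
    rw [pow_succ, div_le_div_iff₀ (by positivity) (by positivity)]
    have : (0 : ℝ) < 2 ^ j := by positivity
    nlinarith
  have hlow : ∀ j, 1 / κ ≤ a j := by
    intro j
    simp only [ha]
    rw [div_le_div_iff₀ hκ (by positivity)]
    have := hz j
    nlinarith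
  have hbdd : BddBelow (Set.range a) := ⟨1 / κ, by rintro _ ⟨j, rfl⟩; exact hlow j⟩
  have hlim := tendsto_atTop_ciInf hanti hbdd
  set L := ⨅ j, a j with hL
  have hLpos : 0 < L := lt_of_lt_of_le (by positivity : 0 < 1 / κ) (le_ciInf hlow)
  have hLle : ∀ j, L ≤ a j := fun j => ciInf_le hbdd j
  have hev : ∀ᶠ j in Filter.atTop, a j < (4 / 3) * L :=
    hlim.eventually (gt_mem_nhds (by linarith))
  have hpow : Filter.Tendsto (fun j : ℕ => (2 : ℝ) ^ j) Filter.atTop Filter.atTop :=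
    tendsto_pow_atTop_atTop_of_one_lt (by norm_num)
  have hev2 : ∀ᶠ j in Filter.atTop, κ * 8 ≤ (2 : ℝ) ^ j := hpow.eventually_ge_atTop _
  obtain ⟨j0, hj0⟩ := Filter.eventually_atTop.1 (hev.and hev2)
  refine ⟨1 / (4 * κ), by positivity, j0, ?_⟩
  intro j hj
  obtain ⟨h1, h2⟩ := hj0 j hj
  have h3 := hLle (j + 1)
  have h4 : (3 / 4) * a j ≤ a (j + 1) := by linarith
  have h5 : (3 / 2) * (((U j).card : ℝ) + 3) ≤ ((U (j+1)).card : ℝ) + 3 := by
    simp only [ha] at h4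
    rw [pow_succ, ← mul_div_assoc, div_le_div_iff₀ (by positivity) (by positivity)] at h4
    have hp : (0 : ℝ) < 2 ^ j := by positivity
    have h6 : (2 : ℝ) ^ j * ((3 / 2) * (((U j).card : ℝ) + 3)) ≤ 2 ^ j * (((U (j+1)).card : ℝ) + 3) := by
      nlinarith
    exact le_of_mul_le_mul_left h6 hp
  have h6 : ((U (j+1)).card : ℝ) ≤ (U j).card + (Cf (U j)).card + 3 := by
    exact_mod_cast (h j).2.2.2.2.1
  have h7 : (7 : ℝ) ≤ (U j).card := by
    have := hz j
    have h8 : κ * 8 ≤ κ * ((U j).card + 1) := h2.trans this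
    have := le_of_mul_le_mul_left h8 hκ
    linarith
  have h8 : (((U j).card : ℝ) + 1) / 4 ≤ (Cf (U j)).card := by linarith
  have h9 := (h j).2.2.2.2.2.2
  calc 1 / (4 * κ) * ((Zf (U j)).card : ℝ) ≤ 1 / (4 * κ) * (κ * ((U j).card + 1)) := by gcongr
    _ = (((U j).card : ℝ) + 1) / 4 := by field_simp
    _ ≤ _ := h8

end Jia
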