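import Pool.Agent.Helper826.Jia.C1

set_option autoImplicit false

namespace Jia
open Finset
open scoped symmDiff
variable {V : Type*} [DecidableEq V]

theorem thick_mech_aux {K : Finset (Sym2 V)} (m : ℕ)
    (e : ℕ → Sym2 V) (H : ℕ → Finset (Sym2 V))
    (h1 : ∀ a < m, H a ⊆ K ∧ (∃ C ∈ Zf (H a), e a ∈ C))
    (h2 : ∀ a b, a < b → b < m → e b ∉ H a) (j : ℕ) (hj : j ≤ m) :
    (Zf (K \ (Finset.Ico (m - j) m).image e)).card * 2 ^ j = (Zf K).card := by
  induction j with
  | zero => simp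
  | succ j ih =>
    have ih' := ih (by omega)
    obtain ⟨hH, C, hC, heC⟩ := h1 (m - (j + 1)) (by omega)
    have e1 : Finset.Ico (m - (j + 1)) m = insert (m - (j + 1)) (Finset.Ico (m - j) m) := by
      ext x; simp only [mem_Ico, mem_insert]; omega
    have e2 : K \ (Finset.Ico (m - (j + 1)) m).image e =
        (K \ (Finset.Ico (m - j) m).image e).erase (e (m - (j + 1))) := by
      rw [e1, Finset.image_insert, Finset.sdiff_insert]
    have hsub : H (m - (j + 1)) ⊆ K \ (Finset.Ico (m - j) m).image e := by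
      intro x hx
      rw [mem_sdiff]
      refine ⟨hH hx, fun hx2 => ?_⟩
      obtain ⟨b, hb, rfl⟩ := Finset.mem_image.mp hx2
      rw [Finset.mem_Ico] at hb
      exact h2 _ b (by omega) hb.2 hx
    have h3 := Zf_erase (Zf_mono hsub hC) heC
    rw [← e2] at h3
    rw [← ih', h3, pow_succ]
    ring

/-- many thick windows: few cycles -/
theorem thick_mech {K : Finset (Sym2 V)} (hK : NL K) (m : ℕ) (ε : ℝ) (hε : 0 ≤ ε)
    (e : ℕ → Sym2 V) (H : ℕ → Finset (Sym2 V))
    (h1 : ∀ a < m, H a ⊆ K ∧ (∃ C ∈ Zf (H a), e a ∈ C) ∧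
      (((Cf K).filter (fun C => e a ∈ C)).card : ℝ) ≤ ε * (Zf K).card)
    (h2 : ∀ a b, a < b → b < m → e b ∉ H a) :
    ((Cf K).card : ℝ) ≤ (m * ε + (1 / 2) ^ m) * (Zf K).card := by
  classical
  have hcard := thick_mech_aux m e H (fun a ha => ⟨(h1 a ha).1, (h1 a ha).2.1⟩) h2 m le_rfl
  rw [Nat.sub_self] at hcard
  set E0 := K \ (Finset.Ico 0 m).image e with hE0
  have hcov : Cf K ⊆ ((Finset.range m).biUnion fun a => (Cf K).filter (fun C => e a ∈ C)) ∪ Zf E0 := by
    intro C hC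
    by_cases h : ∃ a < m, e a ∈ C
    · obtain ⟨a, ha, hea⟩ := h
      refine Finset.mem_union_left _ (Finset.mem_biUnion.mpr ⟨a, Finset.mem_range.mpr ha, ?_⟩)
      exact Finset.mem_filter.mpr ⟨hC, hea⟩
    · push Not at h
      refine Finset.mem_union_right _ ?_
      rw [mem_Zf]
      rw [mem_Cf] at hC
      refine ⟨fun x hx => ?_, (cyc_ev hC.2).1⟩
      rw [hE0, mem_sdiff]
      refine ⟨hC.1 hx, fun hx2 => ?_⟩
      obtain ⟨b, hb, rfl⟩ := Finset.mem_image.mp hx2
      rw [Finset.mem_Ico] at hb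
      exact h b hb.2 hx
  have h3 : (Cf K).card ≤ ∑ a ∈ Finset.range m, ((Cf K).filter (fun C => e a ∈ C)).card +
      (Zf E0).card :=
    (Finset.card_le_card hcov).trans ((Finset.card_union_le _ _).trans
      (Nat.add_le_add_right Finset.card_biUnion_le _))
  have h4 : ((Cf K).card : ℝ) ≤ ∑ a ∈ Finset.range m,
      (((Cf K).filter (fun C => e a ∈ C)).card : ℝ) + (Zf E0).card := by
    exact_mod_cast h3
  have h5 : ∑ a ∈ Finset.range m, (((Cf K).filter (fun C => e a ∈ C)).card : ℝ) ≤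
      ∑ a ∈ Finset.range m, ε * (Zf K).card :=
    Finset.sum_le_sum fun a ha => (h1 a (Finset.mem_range.mp ha)).2.2
  rw [Finset.sum_const, Finset.card_range, nsmul_eq_mul] at h5
  have h6 : ((Zf E0).card : ℝ) = (1 / 2) ^ m * (Zf K).card := by
    have h7 : ((Zf E0).card : ℝ) * 2 ^ m = (Zf K).card := by exact_mod_cast hcard
    rw [← h7, one_div, inv_pow]
    field_simp
  rw [h6] at h4
  calc ((Cf K).card : ℝ) ≤ _ := h4
    _ ≤ (m : ℝ) * (ε * (Zf K).card) + (1 / 2) ^ m * (Zf K).card := by linarith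
    _ = _ := by ring

end Jia
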