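import Pool.Agent.Helper826.Jia.Defs

set_option autoImplicit false

/-! ### windows in the infinite graph `⋃ U j` -/
namespace Jia
open Finset
open scoped symmDiff

/-- hypotheses on the chain -/
structure Ch (U : ℕ → Finset (Sym2 ℕ)) (D : ℕ) : Prop where
  mono : ∀ j, U j ⊆ U (j + 1)
  nl : ∀ j, NL (U j)
  cyc : ∀ j, ∀ e ∈ U j, ∃ C ∈ Cf (U j), e ∈ C
  deg : ∀ j x, dg (U j) x ≤ D
  unb : ∀ M : ℕ, ∃ j, M ≤ (Zf (U j)).card

/-- `nb` is the neighbourhood function of the union graph -/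
structure Nb (U : ℕ → Finset (Sym2 ℕ)) (D : ℕ) (nb : ℕ → Finset ℕ) : Prop where
  mem : ∀ x y, y ∈ nb x ↔ ∃ j, s(x, y) ∈ U j
  card : ∀ x, (nb x).card ≤ D
  two : ∀ x, (nb x).Nonempty → 2 ≤ (nb x).card
  symm : ∀ x y, y ∈ nb x → x ∈ nb y
  irr : ∀ x, x ∉ nb x

/-- join a list of bouquets -/
def bq (d : ℕ) : List (BT ℕ) → BT ℕ
  | [] => .out d
  | [t] => t
  | t :: u :: l => .br t (bq d (u :: l))

/-- unfolding of the directed edge `x → w`, `R` fuel, `k` remaining branching depth -/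
noncomputable def unf (nb : ℕ → Finset ℕ) (n : ℕ) : ℕ → ℕ → ℕ → ℕ → BT ℕ
  | 0, _, _, w => .out w
  | _ + 1, 0, _, w => .out w
  | R + 1, k + 1, x, w =>
    .nd (decide (2 ≤ ((nb w).erase x).card ∧ n < k + 1)) w
      (bq w (((nb w).erase x).toList.map
        (fun y => unf nb n R (if 2 ≤ ((nb w).erase x).card then k else k + 1) w y)))

/-- the fuel `R` suffices -/
def comp (nb : ℕ → Finset ℕ) : ℕ → ℕ → ℕ → ℕ → Prop
  | 0, k, _, _ => k = 0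
  | _ + 1, 0, _, _ => True
  | R + 1, k + 1, x, w => ∀ y ∈ (nb w).erase x,
      comp nb R (if 2 ≤ ((nb w).erase x).card then k else k + 1) w y

noncomputable def sq : ℕ → ℝ
  | 0 => 1
  | n + 1 => sq n - (sq n) ^ 2 / 2

def Bq (D : ℕ) : ℕ → ℕ
  | 0 => 0
  | j + 1 => D * (1 + Bq D j)

/-- the bouquet at the root `c`, parent direction `o` -/
noncomputable def rootb (nb : ℕ → Finset ℕ) (n R k c o : ℕ) : BT ℕ :=
  bq c (((nb c).erase o).toList.map (fun y => unf nb n R k c y))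

/-- the edge `e` has exactly one end in `D` -/
def Cross {V : Type*} (D : Set V) (e : Sym2 V) : Prop := ¬ (∀ x ∈ e, x ∈ D) ∧ ¬ (∀ x ∈ e, x ∉ D)

open Classical in
/-- preliminary thin window avoiding `A` -/
def Thin0 (U : ℕ → Finset (Sym2 ℕ)) (ρ : ℕ) (A : Set ℕ) : Prop :=
  ∃ D : Set ℕ, (∀ x ∈ A, x ∉ D) ∧ (∀ j, ((U j).filter (fun e => Cross D e)).card ≤ ρ) ∧
    ∃ j, ∃ C ∈ Zf (U j), C.Nonempty ∧ ∀ e ∈ C, ∀ x ∈ e, x ∈ D

open Classical in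
/-- thin window between the stages `T` and `T'` -/
def ThinW (U : ℕ → Finset (Sym2 ℕ)) (ρ T T' : ℕ) : Prop :=
  ∃ D : Set ℕ, (∀ e ∈ U T, ∀ x ∈ e, x ∉ D) ∧
    (∀ j, ((U j).filter (fun e => Cross D e)).card ≤ ρ) ∧
    (∀ j, ∀ e ∈ U j, Cross D e → e ∈ U T') ∧
    (∃ C ∈ Zf (U T'), C.Nonempty ∧ ∀ e ∈ C, ∀ x ∈ e, x ∈ D) ∧
    (∀ j ≥ T', ∀ z ∈ Zf (U j), ∃ h ∈ Zf (U T'), ∀ e ∈ U j, Cross D e → (e ∈ h ↔ e ∈ z))

/-- thick window between the stages `T` and `T'` -/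
def ThickW (U : ℕ → Finset (Sym2 ℕ)) (ε : ℝ) (T T' : ℕ) : Prop :=
  ∃ e : Sym2 ℕ, (∃ C ∈ Zf (U T'), e ∈ C) ∧ e ∉ U T ∧
    ∀ j ≥ T', (((Cf (U j)).filter (fun C => e ∈ C)).card : ℝ) ≤ ε * (Zf (U j)).card

end Jia
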