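import Pool.Agent.Helper826.Jia.C1
import Pool.Agent.Helper826.Jia.WD

set_option autoImplicit false

namespace Jia
open Finset
open scoped symmDiff




theorem tn_vertex {V : Type*} (e : Sym2 V) : ∃ x, x ∈ e := by
  induction e using Sym2.ind with
  | _ x y => exact ⟨x, Sym2.mem_mk_left x y⟩

theorem tn_notCross_of_avoid {V : Type*} {D : Set V} {e : Sym2 V} (h : ∀ x ∈ e, x ∉ D) : ¬ Cross D e :=
  fun hc => hc.2 h

theorem tn_notCross_of_inside {V : Type*} {D : Set V} {e : Sym2 V} (h : ∀ x ∈ e, x ∈ D) : ¬ Cross D e :=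
  fun hc => hc.1 h

/-- no crossing edge -/
def TnG {V : Type*} (D : Set V) (z : Finset (Sym2 V)) : Prop := ∀ e ∈ z, ¬ Cross D e

/-- all windows of `B` are crossed -/
def TnBad {V : Type*} (D : ℕ → Set V) (B : Finset ℕ) (z : Finset (Sym2 V)) : Prop :=
  ∀ b ∈ B, ¬ TnG (D b) z

theorem tn_good_translate {V : Type*} [DecidableEq V] {D : Set V} {z w : Finset (Sym2 V)}
    (hw : ∀ e ∈ w, ¬ Cross D e) :
    TnG D (z ∆ w) ↔ TnG D z := by
  constructor
  · intro h e he hc
    refine h e ?_ hc
    rw [mem_symmDiff]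
    exact Or.inl ⟨he, fun hew => hw e hew hc⟩
  · intro h e he
    rw [mem_symmDiff] at he
    rcases he with he | he
    · exact h e he.1
    · exact hw e he.1

open Classical in
theorem tn_block {V : Type} [DecidableEq V] (K : Finset (Sym2 V)) (ρ m : ℕ) (D : ℕ → Set V)
    (H : ℕ → Finset (Sym2 V))
    (hA : ∀ a < m, H a ⊆ K ∧ (K.filter (fun e => Cross (D a) e)).card ≤ ρ ∧
      (∀ z ∈ Zf K, ∃ h ∈ Zf (H a), ∀ e ∈ K, Cross (D a) e → (e ∈ h ↔ e ∈ z)))
    (hB : ∀ a b, a < b → b < m → ∀ e ∈ H a, ∀ x ∈ e, x ∉ D b)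
    (B : Finset ℕ) : (∀ b ∈ B, b < m) →
    (((Zf K).filter (fun z => TnBad D B z)).card : ℝ) ≤
      (1 - 1 / 2 ^ ρ) ^ B.card * (Zf K).card := by
  induction B using Finset.induction_on_min with
  | empty => intro _; simp [TnBad]
  | insert a S hmin ih =>
    intro hlt
    have ih' := ih (fun b hb => hlt b (mem_insert_of_mem hb))
    have ham : a < m := hlt a (mem_insert_self _ _)
    have haS : a ∉ S := fun h => lt_irrefl _ (hmin a h)
    obtain ⟨hHK, hcut, hext⟩ := hA a ham
    set Zs := (Zf K).filter (fun z => TnBad D S z) with hZs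
    set Gd := Zs.filter (fun z => TnG (D a) z) with hGd
    have hsplit : ((Zf K).filter (fun z => TnBad D (insert a S) z)) =
        Zs.filter (fun z => ¬ TnG (D a) z) := by
      ext z
      rw [mem_filter, mem_filter, hZs, mem_filter]
      constructor
      · rintro ⟨h1, h2⟩
        exact ⟨⟨h1, fun b hb => h2 b (mem_insert_of_mem hb)⟩, h2 a (mem_insert_self _ _)⟩
      · rintro ⟨⟨h1, h2⟩, h3⟩
        refine ⟨h1, ?_⟩
        intro b hb
        rcases mem_insert.1 hb with rfl | hb
        · exact h3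
        · exact h2 b hb
    have hcount : (Zs.filter (fun z => ¬ TnG (D a) z)).card + Gd.card = Zs.card := by
      have := Finset.card_filter_add_card_filter_not (s := Zs) (fun z => TnG (D a) z)
      rw [hGd]; omega
    set G := Zf (H a) with hG
    have hGK : ∀ h ∈ G, h ∈ Zf K := fun h hh => Zf_mono hHK hh
    -- translation invariance
    have htr : ∀ h ∈ G, ∀ z ∈ Zs, z ∆ h ∈ Zs := by
      intro h hh z hz
      rw [hZs, mem_filter] at hz ⊢
      refine ⟨Zf_symmDiff hz.1 (hGK h hh), ?_⟩
      intro b hb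
      have hb' := hz.2 b hb
      have hw : ∀ e ∈ h, ¬ Cross (D b) e := by
        intro e he
        apply tn_notCross_of_avoid
        exact hB a b (hmin b hb) (hlt b (mem_insert_of_mem hb)) e ((mem_Zf.1 hh).1 he)
      rw [tn_good_translate hw]
      exact hb'
    set ker := G.filter (fun h => TnG (D a) h) with hker
    have hkerpos : 0 < ker.card := card_pos.2 ⟨∅, by rw [hker, mem_filter]; exact ⟨empty_mem_Zf _, by simp [TnG]⟩⟩
    -- |G| ≤ 2^ρ |ker|
    have hGle : G.card ≤ 2 ^ ρ * ker.card := by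
      set f : Finset (Sym2 V) → Finset (Sym2 V) := fun h => h.filter (fun e => Cross (D a) e) with hf
      have h1 : G.card ≤ ker.card * (G.image f).card := by
        apply Finset.card_le_mul_card_image
        intro c hc
        rw [mem_image] at hc
        obtain ⟨h0, hh0, rfl⟩ := hc
        apply Finset.card_le_card_of_injOn (fun h => h ∆ h0)
        · intro h hh
          rw [mem_coe, mem_filter] at hh
          rw [mem_coe, hker, mem_filter]
          refine ⟨Zf_symmDiff hh.1 hh0, ?_⟩
          intro e he hc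
          have h2 : e ∈ f h ↔ e ∈ f h0 := by rw [hh.2]
          simp only [hf, mem_filter, hc, and_true] at h2
          rw [mem_symmDiff] at he
          tauto
        · intro h _ h' _ heq
          exact symmDiff_left_injective h0 heq
      have h2 : (G.image f).card ≤ 2 ^ ρ := by
        have h3 : G.image f ⊆ (K.filter (fun e => Cross (D a) e)).powerset := by
          intro c hc
          rw [mem_image] at hc
          obtain ⟨h0, hh0, rfl⟩ := hc
          rw [mem_powerset]
          intro e he
          simp only [hf, mem_filter] at he ⊢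
          exact ⟨hHK ((mem_Zf.1 hh0).1 he.1), he.2⟩
        refine (card_le_card h3).trans ?_
        rw [card_powerset]
        exact Nat.pow_le_pow_right (by norm_num) hcut
      calc G.card ≤ ker.card * (G.image f).card := h1
        _ ≤ ker.card * 2 ^ ρ := Nat.mul_le_mul_left _ h2
        _ = 2 ^ ρ * ker.card := mul_comm _ _
    -- double counting
    have hdc1 : ∑ h ∈ G, (Zs.filter (fun z => TnG (D a) (z ∆ h))).card = G.card * Gd.card := by
      rw [← smul_eq_mul, ← Finset.sum_const]
      apply Finset.sum_congr rfl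
      intro h hh
      apply Finset.card_bij (fun z _ => z ∆ h)
      · intro z hz
        rw [mem_filter] at hz
        rw [hGd, mem_filter]
        exact ⟨htr h hh z hz.1, hz.2⟩
      · intro z _ w _ heq
        exact symmDiff_left_injective h heq
      · intro z hz
        rw [hGd, mem_filter] at hz
        refine ⟨z ∆ h, ?_, by simp⟩
        rw [mem_filter]
        refine ⟨htr h hh z hz.1, ?_⟩
        simpa using hz.2
    have hdc2 : ∑ h ∈ G, (Zs.filter (fun z => TnG (D a) (z ∆ h))).card =
        ∑ z ∈ Zs, (G.filter (fun h => TnG (D a) (z ∆ h))).card := by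
      exact (Finset.sum_card_bipartiteAbove_eq_sum_card_bipartiteBelow
        (fun (h z : Finset (Sym2 V)) => TnG (D a) (z ∆ h)))
    have hdc3 : Zs.card * ker.card ≤ ∑ z ∈ Zs, (G.filter (fun h => TnG (D a) (z ∆ h))).card := by
      rw [← smul_eq_mul, ← Finset.sum_const]
      apply Finset.sum_le_sum
      intro z hz
      have hzK : z ∈ Zf K := (mem_filter.1 hz).1
      obtain ⟨h0, hh0, hagree⟩ := hext z hzK
      apply Finset.card_le_card_of_injOn (fun k => h0 ∆ k)
      · intro k hk
        rw [mem_coe, hker, mem_filter] at hk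
        rw [mem_coe, mem_filter]
        refine ⟨Zf_symmDiff hh0 hk.1, ?_⟩
        intro e he hc
        have hek : e ∉ k := fun h => hk.2 e h hc
        have heK : e ∈ K := by
          rw [mem_symmDiff] at he
          rcases he with he | he
          · exact (mem_Zf.1 hzK).1 he.1
          · exact (mem_Zf.1 (Zf_symmDiff (hGK _ hh0) (hGK _ hk.1))).1 he.1
        have h2 := hagree e heK hc
        simp only [mem_symmDiff] at he
        tauto
      · intro k _ k' _ heq
        exact symmDiff_right_injective h0 heq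
    have hkey : Zs.card ≤ 2 ^ ρ * Gd.card := by
      have h1 : Zs.card * ker.card ≤ G.card * Gd.card := by
        rw [← hdc1, hdc2]; exact hdc3
      have h2 : G.card * Gd.card ≤ 2 ^ ρ * ker.card * Gd.card := Nat.mul_le_mul_right _ hGle
      have h3 : Zs.card * ker.card ≤ (2 ^ ρ * Gd.card) * ker.card := by
        calc Zs.card * ker.card ≤ 2 ^ ρ * ker.card * Gd.card := h1.trans h2
          _ = (2 ^ ρ * Gd.card) * ker.card := by ring
      exact Nat.le_of_mul_le_mul_right h3 hkerpos
    rw [hsplit, card_insert_of_notMem haS, pow_succ]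
    have hkey' : (Zs.card : ℝ) ≤ 2 ^ ρ * Gd.card := by exact_mod_cast hkey
    have hcount' : ((Zs.filter (fun z => ¬ TnG (D a) z)).card : ℝ) = Zs.card - Gd.card := by
      have : ((Zs.filter (fun z => ¬ TnG (D a) z)).card : ℝ) + Gd.card = Zs.card := by
        exact_mod_cast hcount
      linarith
    rw [hcount']
    have hp : (0:ℝ) < 2 ^ ρ := by positivity
    have h1 : (Zs.card : ℝ) * (1 / 2 ^ ρ) ≤ Gd.card := by
      rw [mul_one_div, div_le_iff₀ hp]; linarith
    have h2 : (0:ℝ) ≤ 1 - 1 / 2 ^ ρ := by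
      have : (1:ℝ) / 2 ^ ρ ≤ 1 := by
        rw [div_le_one hp]; exact one_le_pow₀ (by norm_num)
      linarith
    calc (Zs.card : ℝ) - Gd.card ≤ Zs.card * (1 - 1 / 2 ^ ρ) := by linarith
      _ ≤ ((1 - 1 / 2 ^ ρ) ^ S.card * (Zf K).card) * (1 - 1 / 2 ^ ρ) :=
          mul_le_mul_of_nonneg_right ih' h2
      _ = _ := by ring

open Classical in
/-- iterated symmetric difference -/
noncomputable def tnX {V : Type} (K : Finset (Sym2 V)) (C : ℕ → Finset (Sym2 V)) (S : Finset ℕ) :
    Finset (Sym2 V) := K.filter (fun e => Odd (S.filter (fun l => e ∈ C l)).card)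

theorem tn_odd_symmDiff (p : ℕ → Prop) [DecidablePred p] (S T : Finset ℕ) :
    Odd ((S ∆ T).filter p).card ↔ ¬ (Odd (S.filter p).card ↔ Odd (T.filter p).card) := by
  set a := S.filter p
  set b := T.filter p
  have h : (S ∆ T).filter p = (a \ b) ∪ (b \ a) := by
    ext e; simp only [a, b, mem_filter, mem_symmDiff, mem_union, mem_sdiff]; tauto
  have hd : Disjoint (a \ b) (b \ a) := by
    rw [Finset.disjoint_left]; intro x hx hy; simp only [mem_sdiff] at hx hy; exact hy.2 hx.1
  rw [h, card_union_of_disjoint hd]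
  have h1 : (a \ b).card + (a ∩ b).card = a.card := card_sdiff_add_card_inter a b
  have h2 : (b \ a).card + (b ∩ a).card = b.card := card_sdiff_add_card_inter b a
  rw [inter_comm b a] at h2
  rw [← h1, ← h2]
  simp only [← Nat.not_even_iff_odd, Nat.even_add]; tauto

theorem tnX_symmDiff {V : Type} [DecidableEq V] (K : Finset (Sym2 V)) (C : ℕ → Finset (Sym2 V))
    (S T : Finset ℕ) : tnX K C (S ∆ T) = tnX K C S ∆ tnX K C T := by
  classical
  ext e
  simp only [tnX, mem_filter, mem_symmDiff]
  rw [tn_odd_symmDiff]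
  tauto

theorem tnX_mem {V : Type} [DecidableEq V] (K : Finset (Sym2 V)) (C : ℕ → Finset (Sym2 V))
    (S : Finset ℕ) : (∀ a ∈ S, C a ∈ Zf K) → tnX K C S ∈ Zf K := by
  classical
  induction S using Finset.induction_on with
  | empty =>
    intro _
    have : tnX K C ∅ = ∅ := by
      ext e; simp [tnX]
    rw [this]; exact empty_mem_Zf K
  | insert a S ha ih =>
    intro h
    have h1 : (insert a S : Finset ℕ) = S ∆ {a} := by
      ext x
      simp only [mem_insert, mem_symmDiff, mem_singleton]
      constructor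
      · rintro (rfl | hx)
        · right; exact ⟨rfl, ha⟩
        · left; exact ⟨hx, fun h => ha (h ▸ hx)⟩
      · rintro (hx | hx)
        · right; exact hx.1
        · left; exact hx.1
    have h2 : tnX K C {a} = C a := by
      ext e
      simp only [tnX, mem_filter, filter_singleton]
      constructor
      · rintro ⟨_, he⟩
        by_contra hne
        simp [hne] at he
      · intro he
        refine ⟨(mem_Zf.1 (h a (mem_insert_self _ _))).1 he, ?_⟩
        simp [he]
    rw [h1, tnX_symmDiff, h2]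
    exact Zf_symmDiff (ih (fun b hb => h b (mem_insert_of_mem hb))) (h a (mem_insert_self _ _))

theorem tnX_sub {V : Type} (K : Finset (Sym2 V)) (C : ℕ → Finset (Sym2 V)) (S : Finset ℕ)
    (e : Sym2 V) (he : e ∈ tnX K C S) : ∃ l ∈ S, e ∈ C l := by
  classical
  simp only [tnX, mem_filter] at he
  obtain ⟨_, ho⟩ := he
  have : 0 < (S.filter (fun l => e ∈ C l)).card := ho.pos
  obtain ⟨l, hl⟩ := card_pos.1 this
  rw [mem_filter] at hl
  exact ⟨l, hl.1, hl.2⟩

open Classical in
/-- core: among the `2^s` translates at most `2s+1` cycles -/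
theorem tn_core {V : Type} [DecidableEq V] (K : Finset (Sym2 V)) (m : ℕ) (D : ℕ → Set V)
    (H C : ℕ → Finset (Sym2 V))
    (hA : ∀ a < m, H a ⊆ K ∧ (∀ e ∈ K, Cross (D a) e → e ∈ H a) ∧
      C a ∈ Zf (H a) ∧ (C a).Nonempty ∧ (∀ e ∈ C a, ∀ x ∈ e, x ∈ D a))
    (hB : ∀ a b, a < b → b < m → ∀ e ∈ H a, ∀ x ∈ e, x ∉ D b)
    (z : Finset (Sym2 V)) (T : Finset ℕ) (hTm : ∀ a ∈ T, a < m)
    (hT : ∀ a ∈ T, ∀ e ∈ z, ¬ Cross (D a) e) :
    (T.powerset.filter (fun J => z ∆ tnX K C J ∈ Cf K)).card ≤ 2 * T.card + 1 := by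
  have hCK : ∀ a < m, ∀ e ∈ C a, e ∈ K := fun a ha e he =>
    (hA a ha).1 ((mem_Zf.1 (hA a ha).2.2.1).1 he)
  have hCc : ∀ a < m, ∀ b < m, ∀ e ∈ C a, ¬ Cross (D b) e := by
    intro a ha b hb e he hc
    rcases lt_trichotomy a b with h | h | h
    · exact tn_notCross_of_avoid (hB a b h hb e ((mem_Zf.1 (hA a ha).2.2.1).1 he)) hc
    · subst h
      exact tn_notCross_of_inside ((hA a ha).2.2.2.2 e he) hc
    · have h1 := (hA b hb).2.1 e (hCK a ha e he) hc
      have h2 := hB b a h ha e h1
      obtain ⟨x, hx⟩ := tn_vertex e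
      exact h2 x hx ((hA a ha).2.2.2.2 e he x hx)
  -- dichotomy
  have hdich : ∀ J ⊆ T, z ∆ tnX K C J ∈ Cf K → ∀ a ∈ T,
      (∀ e ∈ z ∆ tnX K C J, ∀ x ∈ e, x ∈ D a) ∨ (∀ e ∈ z ∆ tnX K C J, ∀ x ∈ e, x ∉ D a) := by
    intro J hJ hcyc a ha
    apply cyc_conn (mem_Cf.1 hcyc).2
    intro e he
    have h1 : ¬ Cross (D a) e := by
      have hw : ∀ e ∈ tnX K C J, ¬ Cross (D a) e := by
        intro e he
        obtain ⟨l, hl, hel⟩ := tnX_sub K C J e he
        exact hCc l (hTm l (hJ hl)) a (hTm a ha) e hel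
      exact (tn_good_translate hw).2 (hT a ha) e he
    by_contra hcon
    rw [not_or] at hcon
    exact h1 hcon
  let ins : Finset ℕ → Finset ℕ := fun J => T.filter (fun a => ∀ e ∈ z ∆ tnX K C J, ∀ x ∈ e, x ∈ D a)
  let g : Finset ℕ → Option (ℕ × Bool) := fun J =>
    if h : (ins J).Nonempty then some ((ins J).max' h, decide ((ins J).max' h ∈ J)) else none
  have hcard : (insertNone (T ×ˢ (Finset.univ : Finset Bool))).card = 2 * T.card + 1 := by
    rw [card_insertNone, card_product]
    simp; ring
  rw [← hcard]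
  apply Finset.card_le_card_of_injOn g
  · intro J _
    rw [mem_coe, mem_insertNone]
    intro p hp
    simp only [g] at hp
    split_ifs at hp with h
    · simp only [Option.mem_def, Option.some.injEq] at hp
      rw [← hp]
      rw [mem_product]
      exact ⟨(mem_filter.1 ((ins J).max'_mem h)).1, mem_univ _⟩
    · simp at hp
  · intro J hJ J' hJ' heq
    rw [mem_coe, mem_filter, mem_powerset] at hJ hJ'
    by_contra hne
    have hS : (J ∆ J').Nonempty := by
      rw [nonempty_iff_ne_empty]
      intro h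
      exact hne (symmDiff_eq_bot.1 h)
    set k := (J ∆ J').max' hS with hk
    have hkS : k ∈ J ∆ J' := max'_mem _ _
    have hST : ∀ l ∈ J ∆ J', l ∈ T := by
      intro l hl
      rw [mem_symmDiff] at hl
      rcases hl with hl | hl
      · exact hJ.1 hl.1
      · exact hJ'.1 hl.1
    have hkT : k ∈ T := hST k hkS
    have hkm : k < m := hTm k hkT
    obtain ⟨e, he⟩ := (hA k hkm).2.2.2.1
    have hein : ∀ x ∈ e, x ∈ D k := (hA k hkm).2.2.2.2 e he
    obtain ⟨x, hx⟩ := tn_vertex e
    have heX : e ∈ tnX K C (J ∆ J') := by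
      simp only [tnX, mem_filter]
      refine ⟨hCK k hkm e he, ?_⟩
      convert (odd_one : Odd (1:ℕ)) using 1
      rw [card_eq_one]
      refine ⟨k, ?_⟩
      ext l
      simp only [mem_filter, mem_singleton]
      constructor
      · rintro ⟨hl, hel⟩
        by_contra hlk
        have hlt : l < k := lt_of_le_of_ne (le_max' _ _ hl) hlk
        have hlm : l < m := hTm l (hST l hl)
        exact hB l k hlt hkm e ((mem_Zf.1 (hA l hlm).2.2.1).1 hel) x hx (hein x hx)
      · rintro rfl
        exact ⟨hkS, he⟩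
    have heW : e ∈ z ∆ tnX K C J ∨ e ∈ z ∆ tnX K C J' := by
      rw [tnX_symmDiff] at heX
      simp only [mem_symmDiff] at heX ⊢
      tauto
    have hd1 := hdich J hJ.1 hJ.2
    have hd2 := hdich J' hJ'.1 hJ'.2
    simp only [g] at heq
    by_cases h1 : (ins J).Nonempty
    · by_cases h2 : (ins J').Nonempty
      · rw [dif_pos h1, dif_pos h2] at heq
        simp only [Option.some.injEq, Prod.mk.injEq, decide_eq_decide] at heq
        obtain ⟨hi, hb⟩ := heq
        set i := (ins J).max' h1 with hidef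
        have hi1 := (ins J).max'_mem h1
        have hi2 := (ins J').max'_mem h2
        rw [← hidef] at hi1
        rw [← hi] at hi2 hb
        have hiT : i ∈ T := (mem_filter.1 hi1).1
        have hin1 : ∀ e ∈ z ∆ tnX K C J, ∀ x ∈ e, x ∈ D i := (mem_filter.1 hi1).2
        have hin2 : ∀ e ∈ z ∆ tnX K C J', ∀ x ∈ e, x ∈ D i := (mem_filter.1 hi2).2
        have hki : k ≠ i := by
          intro h
          rw [h, mem_symmDiff] at hkS
          tauto
        rcases lt_or_gt_of_ne hki with hlt | hlt
        · -- k < i : edge e avoids D i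
          have hav : x ∉ D i := hB k i hlt (hTm i hiT) e ((mem_Zf.1 (hA k hkm).2.2.1).1 he) x hx
          rcases heW with h | h
          · exact hav (hin1 e h x hx)
          · exact hav (hin2 e h x hx)
        · -- i < k
          have hk1 : k ∉ ins J := fun h => not_lt.2 (le_max' _ _ h) hlt
          have hk2 : k ∉ ins J' := by
            intro h
            have := le_max' _ _ h
            rw [← hi] at this
            exact not_lt.2 this hlt
          have ha1 := hd1 k hkT
          have ha2 := hd2 k hkT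
          have hn1 : ¬ (∀ e ∈ z ∆ tnX K C J, ∀ x ∈ e, x ∈ D k) := fun h => hk1 (mem_filter.2 ⟨hkT, h⟩)
          have hn2 : ¬ (∀ e ∈ z ∆ tnX K C J', ∀ x ∈ e, x ∈ D k) := fun h => hk2 (mem_filter.2 ⟨hkT, h⟩)
          rcases heW with h | h
          · rcases ha1 with h' | h'
            · exact hn1 h'
            · exact h' e h x hx (hein x hx)
          · rcases ha2 with h' | h'
            · exact hn2 h'
            · exact h' e h x hx (hein x hx)
      · rw [dif_pos h1, dif_neg h2] at heq
        simp at heq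
    · by_cases h2 : (ins J').Nonempty
      · rw [dif_neg h1, dif_pos h2] at heq
        simp at heq
      · have hn1 : ¬ (∀ e ∈ z ∆ tnX K C J, ∀ x ∈ e, x ∈ D k) := fun h => h1 ⟨k, mem_filter.2 ⟨hkT, h⟩⟩
        have hn2 : ¬ (∀ e ∈ z ∆ tnX K C J', ∀ x ∈ e, x ∈ D k) := fun h => h2 ⟨k, mem_filter.2 ⟨hkT, h⟩⟩
        rcases heW with h | h
        · rcases hd1 k hkT with h' | h'
          · exact hn1 h'
          · exact h' e h x hx (hein x hx)
        · rcases hd2 k hkT with h' | h'
          · exact hn2 h'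
          · exact h' e h x hx (hein x hx)

open Classical in
/-- many thin windows (small edge cuts which can be avoided independently): few cycles -/
theorem thin_mech (ρ : ℕ) (ε : ℝ) (hε : 0 < ε) : ∃ m : ℕ, ∀ (V : Type) [DecidableEq V]
    (K : Finset (Sym2 V)), NL K → ∀ (D : ℕ → Set V) (H C : ℕ → Finset (Sym2 V)),
    (∀ a < m, H a ⊆ K ∧ (K.filter (fun e => Cross (D a) e)).card ≤ ρ ∧
      (∀ e ∈ K, Cross (D a) e → e ∈ H a) ∧
      C a ∈ Zf (H a) ∧ (C a).Nonempty ∧ (∀ e ∈ C a, ∀ x ∈ e, x ∈ D a) ∧
      (∀ z ∈ Zf K, ∃ h ∈ Zf (H a), ∀ e ∈ K, Cross (D a) e → (e ∈ h ↔ e ∈ z))) →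
    (∀ a b, a < b → b < m → ∀ e ∈ H a, ∀ x ∈ e, x ∉ D b) →
    ((Cf K).card : ℝ) ≤ ε * (Zf K).card := by
  classical
  -- choice of s
  have hs : ∃ s : ℕ, (2 * (s:ℝ) + 1) / 2 ^ s ≤ ε / 2 := by
    have h1 : Filter.Tendsto (fun n : ℕ => (n:ℝ) * (1/2:ℝ) ^ n) Filter.atTop (nhds 0) :=
      tendsto_self_mul_const_pow_of_lt_one (by norm_num) (by norm_num)
    have h2 : Filter.Tendsto (fun n : ℕ => (1/2:ℝ) ^ n) Filter.atTop (nhds 0) :=
      tendsto_pow_atTop_nhds_zero_of_lt_one (by norm_num) (by norm_num)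
    have h3 : Filter.Tendsto (fun n : ℕ => 2 * ((n:ℝ) * (1/2:ℝ) ^ n) + (1/2:ℝ) ^ n) Filter.atTop (nhds 0) := by
      have := (h1.const_mul 2).add h2
      simpa using this
    obtain ⟨s, hs⟩ := (h3.eventually (gt_mem_nhds (show (0:ℝ) < ε / 2 by linarith))).exists
    refine ⟨s, ?_⟩
    have h4 : (2 * (s:ℝ) + 1) / 2 ^ s = 2 * ((s:ℝ) * (1/2:ℝ) ^ s) + (1/2:ℝ) ^ s := by
      rw [one_div, inv_pow]; field_simp
    rw [h4]; exact hs.le
  obtain ⟨s, hs⟩ := hs
  have hp : (0:ℝ) < 2 ^ ρ := by positivity
  have hq0 : (0:ℝ) ≤ 1 - 1 / 2 ^ ρ := by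
    have : (1:ℝ) / 2 ^ ρ ≤ 1 := by
      rw [div_le_one hp]; exact one_le_pow₀ (by norm_num)
    linarith
  have hq1 : (1:ℝ) - 1 / 2 ^ ρ < 1 := by
    have : (0:ℝ) < 1 / 2 ^ ρ := by positivity
    linarith
  have hm' : ∃ m' : ℕ, (s:ℝ) * (1 - 1 / 2 ^ ρ) ^ m' ≤ ε / 2 := by
    obtain ⟨n, hn⟩ := exists_pow_lt_of_lt_one (show (0:ℝ) < ε / 2 / (s + 1) by positivity) hq1
    refine ⟨n, ?_⟩
    have h5 : (0:ℝ) < (s:ℝ) + 1 := by positivity
    rw [lt_div_iff₀ h5] at hn
    have h6 : (0:ℝ) ≤ (1 - 1 / 2 ^ ρ) ^ n := pow_nonneg hq0 n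
    nlinarith
  obtain ⟨m', hm'⟩ := hm'
  refine ⟨s * m', ?_⟩
  intro V _ K hNL D H C hA hB
  have hAb : ∀ a < s * m', H a ⊆ K ∧ (K.filter (fun e => Cross (D a) e)).card ≤ ρ ∧
      (∀ z ∈ Zf K, ∃ h ∈ Zf (H a), ∀ e ∈ K, Cross (D a) e → (e ∈ h ↔ e ∈ z)) := fun a ha =>
    ⟨(hA a ha).1, (hA a ha).2.1, (hA a ha).2.2.2.2.2.2⟩
  have hAc : ∀ a < s * m', H a ⊆ K ∧ (∀ e ∈ K, Cross (D a) e → e ∈ H a) ∧
      C a ∈ Zf (H a) ∧ (C a).Nonempty ∧ (∀ e ∈ C a, ∀ x ∈ e, x ∈ D a) := fun a ha =>
    ⟨(hA a ha).1, (hA a ha).2.2.1, (hA a ha).2.2.2.1, (hA a ha).2.2.2.2.1, (hA a ha).2.2.2.2.2.1⟩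
  have hCK : ∀ a < s * m', C a ∈ Zf K := fun a ha => Zf_mono (hA a ha).1 (hA a ha).2.2.2.1
  have hCc : ∀ a < s * m', ∀ b < s * m', ∀ e ∈ C a, ¬ Cross (D b) e := by
    intro a ha b hb e he hc
    rcases lt_trichotomy a b with h | h | h
    · exact tn_notCross_of_avoid (hB a b h hb e ((mem_Zf.1 (hAc a ha).2.2.1).1 he)) hc
    · subst h
      exact tn_notCross_of_inside ((hAc a ha).2.2.2.2 e he) hc
    · have h1 := (hAc b hb).2.1 e ((mem_Zf.1 (hCK a ha)).1 he) hc
      have h2 := hB b a h ha e h1
      obtain ⟨x, hx⟩ := tn_vertex e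
      exact h2 x hx ((hAc a ha).2.2.2.2 e he x hx)
  let I : Finset (Sym2 V) → Finset ℕ := fun z => (range (s * m')).filter (fun a => TnG (D a) z)
  have hCZ : Cf K ⊆ Zf K := by
    intro z hz
    rw [mem_Cf] at hz
    exact mem_Zf.2 ⟨hz.1, (cyc_ev hz.2).1⟩
  -- part 1
  have hpart1 : (((Zf K).filter (fun z => (I z).card < s)).card : ℝ) ≤ ε / 2 * (Zf K).card := by
    have hsub : (Zf K).filter (fun z => (I z).card < s) ⊆
        (range s).biUnion (fun i => (Zf K).filter (fun z => TnBad D (Ico (i * m') ((i + 1) * m')) z)) := by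
      intro z hz
      rw [mem_filter] at hz
      simp only [mem_biUnion, mem_range, mem_filter]
      by_contra hcon
      push Not at hcon
      have hex : ∀ i, i < s → ∃ b, b ∈ Ico (i * m') ((i + 1) * m') ∧ TnG (D b) z := by
        intro i hi
        have := hcon i hi hz.1
        unfold TnBad at this
        push Not at this
        exact this
      choose! f hf using hex
      have hle : s ≤ (I z).card := by
        rw [← card_range s]
        apply Finset.card_le_card_of_injOn f
        · intro i hi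
          rw [mem_coe, mem_range] at hi
          rw [mem_coe, mem_filter, mem_range]
          refine ⟨?_, (hf i hi).2⟩
          have h1 := (mem_Ico.1 (hf i hi).1).2
          exact lt_of_lt_of_le h1 (Nat.mul_le_mul_right _ hi)
        · intro i hi j hj hij
          rw [mem_coe, mem_range] at hi hj
          have h1 := mem_Ico.1 (hf i hi).1
          have h2 := mem_Ico.1 (hf j hj).1
          rw [hij] at h1
          have hm0 : 0 < m' := by
            rcases Nat.eq_zero_or_pos m' with h | h
            · rw [h] at h1; simp at h1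
            · exact h
          have h3 : i < j + 1 := by
            by_contra h; push Not at h
            have := Nat.mul_le_mul_right m' h
            omega
          have h4 : j < i + 1 := by
            by_contra h; push Not at h
            have := Nat.mul_le_mul_right m' h
            omega
          omega
      omega
    have h1 : (((Zf K).filter (fun z => (I z).card < s)).card : ℝ) ≤
        ∑ i ∈ range s, (((Zf K).filter (fun z => TnBad D (Ico (i * m') ((i + 1) * m')) z)).card : ℝ) := by
      have := (card_le_card hsub).trans card_biUnion_le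
      exact_mod_cast this
    have h2 : ∀ i ∈ range s, (((Zf K).filter (fun z => TnBad D (Ico (i * m') ((i + 1) * m')) z)).card : ℝ) ≤ (1 - 1 / 2 ^ ρ) ^ m' * (Zf K).card := by
      intro i hi
      rw [mem_range] at hi
      have := tn_block K ρ (s * m') D H hAb hB (Ico (i * m') ((i + 1) * m')) (by
        intro b hb
        exact lt_of_lt_of_le (mem_Ico.1 hb).2 (Nat.mul_le_mul_right _ hi))
      have hcard : (Ico (i * m') ((i + 1) * m')).card = m' := by
        rw [Nat.card_Ico]; rw [add_mul]; omega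
      rw [hcard] at this
      exact this
    calc (((Zf K).filter (fun z => (I z).card < s)).card : ℝ) ≤ _ := h1
      _ ≤ ∑ i ∈ range s, ((1 - 1 / 2 ^ ρ) ^ m' * ((Zf K).card : ℝ)) := Finset.sum_le_sum h2
      _ = (s * (1 - 1 / 2 ^ ρ) ^ m') * (Zf K).card := by
          rw [Finset.sum_const, card_range, nsmul_eq_mul]; ring
      _ ≤ ε / 2 * (Zf K).card := mul_le_mul_of_nonneg_right hm' (by positivity)
  -- part 2
  have hpart2 : (((Cf K).filter (fun z => ¬ (I z).card < s)).card : ℝ) ≤ ε / 2 * (Zf K).card := by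
    have hfib : ∀ I0 ∈ (range (s * m')).powerset.filter (fun I0 => ¬ I0.card < s),
        2 ^ s * ((Cf K).filter (fun z => I z = I0)).card ≤
          (2 * s + 1) * ((Zf K).filter (fun z => I z = I0)).card := by
      intro I0 hI0
      rw [mem_filter, mem_powerset] at hI0
      obtain ⟨T, hTI, hTs⟩ := Finset.exists_subset_card_eq (not_lt.1 hI0.2)
      have hTm : ∀ a ∈ T, a < s * m' := fun a ha => mem_range.1 (hI0.1 (hTI ha))
      have hXc : ∀ J ⊆ T, ∀ b < s * m', ∀ e ∈ tnX K C J, ¬ Cross (D b) e := by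
        intro J hJ b hb e he
        obtain ⟨l, hl, hel⟩ := tnX_sub K C J e he
        exact hCc l (hTm l (hJ hl)) b hb e hel
      have hXZ : ∀ J ⊆ T, tnX K C J ∈ Zf K := fun J hJ =>
        tnX_mem K C J (fun a ha => hCK a (hTm a (hJ ha)))
      have hIt : ∀ J ⊆ T, ∀ z, I (z ∆ tnX K C J) = I z := by
        intro J hJ z
        apply Finset.filter_congr
        intro a ha
        exact tn_good_translate (hXc J hJ a (mem_range.1 ha))
      -- double counting
      have hd1 : ∑ J ∈ T.powerset, (((Zf K).filter (fun z => I z = I0)).filter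
          (fun z => z ∆ tnX K C J ∈ Cf K)).card = 2 ^ s * ((Cf K).filter (fun z => I z = I0)).card := by
        rw [← hTs, ← card_powerset, ← smul_eq_mul, ← Finset.sum_const]
        apply Finset.sum_congr rfl
        intro J hJ
        rw [mem_powerset] at hJ
        apply Finset.card_bij (fun z _ => z ∆ tnX K C J)
        · intro z hz
          rw [mem_filter, mem_filter] at hz
          rw [mem_filter, hIt J hJ]
          exact ⟨hz.2, hz.1.2⟩
        · intro z _ w _ heq
          exact symmDiff_left_injective _ heq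
        · intro z hz
          rw [mem_filter] at hz
          refine ⟨z ∆ tnX K C J, ?_, by simp⟩
          rw [mem_filter, mem_filter, hIt J hJ]
          refine ⟨⟨Zf_symmDiff (hCZ hz.1) (hXZ J hJ), hz.2⟩, ?_⟩
          simpa using hz.1
      have hd2 : ∑ J ∈ T.powerset, (((Zf K).filter (fun z => I z = I0)).filter
          (fun z => z ∆ tnX K C J ∈ Cf K)).card =
          ∑ z ∈ (Zf K).filter (fun z => I z = I0), (T.powerset.filter (fun J => z ∆ tnX K C J ∈ Cf K)).card := by
        exact (Finset.sum_card_bipartiteAbove_eq_sum_card_bipartiteBelow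
          (fun (J : Finset ℕ) (z : Finset (Sym2 V)) => z ∆ tnX K C J ∈ Cf K))
      have hd3 : ∑ z ∈ (Zf K).filter (fun z => I z = I0),
          (T.powerset.filter (fun J => z ∆ tnX K C J ∈ Cf K)).card ≤
          (2 * s + 1) * ((Zf K).filter (fun z => I z = I0)).card := by
        rw [mul_comm, ← smul_eq_mul, ← Finset.sum_const]
        apply Finset.sum_le_sum
        intro z hz
        rw [mem_filter] at hz
        have := tn_core K (s * m') D H C hAc hB z T hTm (by
          intro a ha
          have : a ∈ I z := by rw [hz.2]; exact hTI ha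
          exact (mem_filter.1 this).2)
        rw [hTs] at this
        exact this
      rw [← hd1, hd2]; exact hd3
    have hsumC : ((Cf K).filter (fun z => ¬ (I z).card < s)).card =
        ∑ I0 ∈ (range (s * m')).powerset.filter (fun I0 => ¬ I0.card < s), ((Cf K).filter (fun z => I z = I0)).card := by
      rw [Finset.card_eq_sum_card_fiberwise (f := I)
        (t := (range (s * m')).powerset.filter (fun I0 => ¬ I0.card < s))]
      · apply Finset.sum_congr rfl
        intro I0 hI0
        congr 1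
        ext z
        simp only [mem_filter] at hI0 ⊢
        constructor
        · rintro ⟨⟨h1, h2⟩, h3⟩; exact ⟨h1, h3⟩
        · rintro ⟨h1, h3⟩; refine ⟨⟨h1, ?_⟩, h3⟩; rw [h3]; exact hI0.2
      · intro z hz
        simp only [mem_coe, mem_filter, mem_powerset] at hz ⊢
        exact ⟨filter_subset _ _, hz.2⟩
    have hsumZ : ∑ I0 ∈ (range (s * m')).powerset.filter (fun I0 => ¬ I0.card < s),
        ((Zf K).filter (fun z => I z = I0)).card ≤ (Zf K).card := by
      rw [← Finset.card_biUnion]
      · apply card_le_card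
        intro z hz
        rw [mem_biUnion] at hz
        obtain ⟨_, _, h⟩ := hz
        exact (mem_filter.1 h).1
      · intro A _ B _ hAB
        change Disjoint ((Zf K).filter (fun z => I z = A)) ((Zf K).filter (fun z => I z = B))
        rw [Finset.disjoint_left]
        intro z h1 h2
        exact hAB ((mem_filter.1 h1).2.symm.trans (mem_filter.1 h2).2)
    have hnat : 2 ^ s * ((Cf K).filter (fun z => ¬ (I z).card < s)).card ≤ (2 * s + 1) * (Zf K).card := by
      rw [hsumC, Finset.mul_sum]
      refine (Finset.sum_le_sum hfib).trans ?_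
      rw [← Finset.mul_sum]
      exact Nat.mul_le_mul_left _ hsumZ
    have hreal : (2:ℝ) ^ s * (((Cf K).filter (fun z => ¬ (I z).card < s)).card : ℝ) ≤
        (2 * s + 1) * (Zf K).card := by exact_mod_cast hnat
    have h2s : (0:ℝ) < 2 ^ s := by positivity
    have h7 : (((Cf K).filter (fun z => ¬ (I z).card < s)).card : ℝ) ≤
        (2 * s + 1) / 2 ^ s * (Zf K).card := by
      rw [div_mul_eq_mul_div, le_div_iff₀ h2s]; linarith
    exact h7.trans (mul_le_mul_of_nonneg_right hs (by positivity))
  have hfin : ((Cf K).card : ℝ) ≤ (((Zf K).filter (fun z => (I z).card < s)).card : ℝ) +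
      (((Cf K).filter (fun z => ¬ (I z).card < s)).card : ℝ) := by
    have h8 := Finset.card_filter_add_card_filter_not (s := Cf K) (fun z => (I z).card < s)
    have h9 : ((Cf K).filter (fun z => (I z).card < s)).card ≤ ((Zf K).filter (fun z => (I z).card < s)).card :=
      card_le_card (Finset.filter_subset_filter _ hCZ)
    have : (Cf K).card ≤ ((Zf K).filter (fun z => (I z).card < s)).card +
      ((Cf K).filter (fun z => ¬ (I z).card < s)).card := by omega
    exact_mod_cast this
  linarith

end Jia
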