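import Pool.Agent.Helper826.Jia.C1
import Pool.Agent.Helper826.Jia.WD

set_option autoImplicit false

namespace Jia
open Finset Filter
open scoped symmDiff

theorem ja_mono {U : ℕ → Finset (Sym2 ℕ)} {D : ℕ} (h : Ch U D) {i j : ℕ} (hij : i ≤ j) :
    U i ⊆ U j := monotone_nat_of_le_succ (f := U) (fun n => h.mono n) hij

theorem ja_two {E : Finset (Sym2 ℕ)} (hE : ∀ e ∈ E, ∃ C ∈ Cf E, e ∈ C) {x y : ℕ}
    (he : s(x, y) ∈ E) : ∃ z, z ≠ y ∧ s(x, z) ∈ E := by
  obtain ⟨C, hC, heC⟩ := hE _ he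
  rw [mem_Cf] at hC
  have hev := (cyc_ev hC.2).1 x
  have hpos : 0 < dg C x := card_pos.2 ⟨s(x, y), mem_filter.2 ⟨heC, Sym2.mem_mk_left x y⟩⟩
  have h2 : 1 < dg C x := by
    rcases hev with ⟨k, hk⟩
    omega
  obtain ⟨e', he', hne⟩ := exists_mem_ne h2 s(x, y)
  rw [mem_filter] at he'
  obtain ⟨z, hz⟩ := Sym2.mem_iff_exists.1 he'.2
  refine ⟨z, ?_, ?_⟩
  · rintro rfl
    exact hne hz
  · rw [← hz]; exact hC.1 he'.1

/-- vertices -/
def vts (E : Finset (Sym2 ℕ)) : Finset ℕ := E.biUnion Sym2.toFinset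

theorem mem_vts {E : Finset (Sym2 ℕ)} {x : ℕ} : x ∈ vts E ↔ ∃ e ∈ E, x ∈ e := by
  simp [vts, Sym2.mem_toFinset]

theorem ja_card {U : ℕ → Finset (Sym2 ℕ)} {D : ℕ} (h : Ch U D) (x : ℕ) (F : Finset ℕ)
    (hF : ∀ y ∈ F, ∃ j, s(x, y) ∈ U j) : F.card ≤ D := by
  choose! J hJ using hF
  have h1 : F.image (fun y => s(x, y)) ⊆ (U (F.sup J)).filter (fun e => x ∈ e) := by
    intro e he
    rw [mem_image] at he
    obtain ⟨y, hy, rfl⟩ := he
    rw [mem_filter]
    exact ⟨ja_mono h (le_sup (f := J) hy) (hJ y hy), Sym2.mem_mk_left x y⟩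
  have h2 := card_le_card h1
  rw [card_image_of_injective] at h2
  · exact h2.trans (h.deg _ x)
  · intro a b hab
    simp only [Sym2.eq_iff] at hab
    omega

theorem nb_exists {U : ℕ → Finset (Sym2 ℕ)} {D : ℕ} (h : Ch U D) : ∃ nb, Nb U D nb := by
  have hfin : ∀ x, {y | ∃ j, s(x, y) ∈ U j}.Finite := by
    intro x
    by_contra hinf
    obtain ⟨F, hF, hFc⟩ := Set.Infinite.exists_subset_card_eq hinf (D + 1)
    have := ja_card h x F (fun y hy => hF hy)
    omega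
  refine ⟨fun x => (hfin x).toFinset, ?_⟩
  have hmem : ∀ x y, y ∈ (hfin x).toFinset ↔ ∃ j, s(x, y) ∈ U j := by
    intro x y
    rw [Set.Finite.mem_toFinset]
    rfl
  refine ⟨hmem, fun x => ja_card h x _ (fun y hy => (hmem x y).1 hy), ?_, ?_, ?_⟩
  · rintro x ⟨y, hy⟩
    rw [hmem] at hy
    obtain ⟨j, hj⟩ := hy
    obtain ⟨z, hz, hzj⟩ := ja_two (h.cyc j) hj
    exact one_lt_card.2 ⟨y, (hmem x y).2 ⟨j, hj⟩, z, (hmem x z).2 ⟨j, hzj⟩, hz.symm⟩
  · intro x y hy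
    rw [hmem] at hy ⊢
    rw [Sym2.eq_swap]
    exact hy
  · intro x hx
    rw [hmem] at hx
    obtain ⟨j, hj⟩ := hx
    exact h.nl j _ hj rfl

/-- stage function: all edges of the union graph at vertices of `U t` lie in `U (st t)` -/
theorem stage {U : ℕ → Finset (Sym2 ℕ)} {D : ℕ} {nb : ℕ → Finset ℕ} (h : Ch U D) (hn : Nb U D nb) :
    ∃ st : ℕ → ℕ, (∀ t, t ≤ st t) ∧ ∀ t x, (∃ e ∈ U t, x ∈ e) → ∀ y ∈ nb x, s(x, y) ∈ U (st t) := by
  have hJ : ∀ x y, ∃ j, y ∈ nb x → s(x, y) ∈ U j := by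
    intro x y
    by_cases hy : y ∈ nb x
    · obtain ⟨j, hj⟩ := (hn.mem x y).1 hy
      exact ⟨j, fun _ => hj⟩
    · exact ⟨0, fun h => absurd h hy⟩
  choose J hJ using hJ
  refine ⟨fun t => max t ((vts (U t)).sup (fun x => (nb x).sup (J x))),
    fun t => le_max_left _ _, ?_⟩
  intro t x hx y hy
  have h1 : J x y ≤ (nb x).sup (J x) := le_sup (f := J x) hy
  have h2 : (nb x).sup (J x) ≤ (vts (U t)).sup (fun x => (nb x).sup (J x)) :=
    le_sup (f := fun x => (nb x).sup (J x)) (mem_vts.2 hx)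
  exact ja_mono h (h1.trans (h2.trans (le_max_right _ _))) (hJ x y hy)

theorem chain_closed {U : ℕ → Finset (Sym2 ℕ)} {D : ℕ} {nb : ℕ → Finset ℕ} (h : Ch U D)
    (hn : Nb U D nb) :
    ∀ w, (nb w).Nonempty → ∃ B : Finset ℕ, w ∈ B ∧ ∀ y ∈ B, (nb y).card = 2 → nb y ⊆ B := by
  rintro w ⟨v, hv⟩
  obtain ⟨j, hj⟩ := (hn.mem w v).1 hv
  refine ⟨vts (U j), mem_vts.2 ⟨_, hj, Sym2.mem_mk_left w v⟩, ?_⟩
  intro y hy hc
  obtain ⟨e, he, hye⟩ := mem_vts.1 hy
  obtain ⟨a, rfl⟩ := Sym2.mem_iff_exists.1 hye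
  obtain ⟨z, hz, hzj⟩ := ja_two (h.cyc j) he
  have ha : a ∈ nb y := (hn.mem y a).2 ⟨j, he⟩
  have hz' : z ∈ nb y := (hn.mem y z).2 ⟨j, hzj⟩
  have h1 : ({a, z} : Finset ℕ) = nb y := by
    apply eq_of_subset_of_card_le
    · intro b hb
      rw [mem_insert, mem_singleton] at hb
      rcases hb with rfl | rfl
      · exact ha
      · exact hz'
    · rw [hc, card_pair hz.symm]
  rw [← h1]
  intro b hb
  rw [mem_insert, mem_singleton] at hb
  rcases hb with rfl | rfl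
  · exact mem_vts.2 ⟨_, he, Sym2.mem_mk_right _ _⟩
  · exact mem_vts.2 ⟨_, hzj, Sym2.mem_mk_right _ _⟩

theorem ja_bq (d : ℕ) : ∀ (l : List (BT ℕ)) (y : ℕ), y ∈ (bq d l).labels →
    y = d ∨ ∃ b ∈ l, y ∈ b.labels
  | [], y, hy => by
    simp only [bq, BT.labels, List.mem_singleton] at hy
    exact Or.inl hy
  | [t], y, hy => by
    simp only [bq] at hy
    exact Or.inr ⟨t, List.mem_singleton_self t, hy⟩
  | t :: u :: l, y, hy => by
    simp only [bq, BT.labels, List.mem_append] at hy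
    rcases hy with hy | hy
    · exact Or.inr ⟨t, List.mem_cons_self, hy⟩
    · rcases ja_bq d (u :: l) y hy with h1 | ⟨b, hb, hyb⟩
      · exact Or.inl h1
      · exact Or.inr ⟨b, List.mem_cons_of_mem _ hb, hyb⟩

theorem ja_iter {st : ℕ → ℕ} (hst1 : ∀ t, t ≤ st t) (t k : ℕ) : st t ≤ st^[k + 1] t := by
  induction k with
  | zero => exact le_rfl
  | succ k ih =>
    rw [Function.iterate_succ_apply']
    exact ih.trans (hst1 _)

theorem ja_unf {U : ℕ → Finset (Sym2 ℕ)} {D : ℕ} {nb : ℕ → Finset ℕ} (h : Ch U D)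
    (hn : Nb U D nb) {st : ℕ → ℕ} (hst1 : ∀ t, t ≤ st t)
    (hst2 : ∀ t x, (∃ e ∈ U t, x ∈ e) → ∀ y ∈ nb x, s(x, y) ∈ U (st t))
    (n : ℕ) (t : ℕ) (R : ℕ) : ∀ k x w, w ∈ nb x → ∀ y ∈ (unf nb n R k x w).labels,
      (∃ e ∈ U t, y ∈ e) → s(x, w) ∈ U (st^[k + 1] t) := by
  have hbase : ∀ k x w, w ∈ nb x → (∃ e ∈ U t, w ∈ e) → s(x, w) ∈ U (st^[k + 1] t) := by
    intro k x w hw hy
    rw [Sym2.eq_swap]
    exact ja_mono h (ja_iter hst1 t k) (hst2 t w hy x (hn.symm _ _ hw))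
  induction R with
  | zero =>
    intro k x w hw y hy hyt
    simp only [unf, BT.labels, List.mem_singleton] at hy
    subst hy
    exact hbase k x y hw hyt
  | succ R ih =>
    intro k x w hw y hy hyt
    cases k with
    | zero =>
      simp only [unf, BT.labels, List.mem_singleton] at hy
      subst hy
      exact hbase 0 x y hw hyt
    | succ k =>
      simp only [unf, BT.labels, List.mem_cons] at hy
      have hcases : y = w ∨ ∃ y' ∈ (nb w).erase x, y ∈ (unf nb n R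
          (if 2 ≤ ((nb w).erase x).card then k else k + 1) w y').labels := by
        rcases hy with hy | hy
        · exact Or.inl hy
        · rcases ja_bq _ _ _ hy with hy | ⟨b, hb, hyb⟩
          · exact Or.inl hy
          · rw [List.mem_map] at hb
            obtain ⟨y', hy', rfl⟩ := hb
            exact Or.inr ⟨y', mem_toList.1 hy', hyb⟩
      rcases hcases with rfl | ⟨y', hy', hyb⟩
      · exact hbase (k + 1) x y hw hyt
      · have hy'n := mem_of_mem_erase hy'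
        have hih := ih _ w y' hy'n y hyb hyt
        by_cases hc : 2 ≤ ((nb w).erase x).card
        · rw [if_pos hc] at hih
          have := hst2 _ w ⟨_, hih, Sym2.mem_mk_left _ _⟩ x (hn.symm _ _ hw)
          rw [Sym2.eq_swap, Function.iterate_succ_apply']
          exact this
        · rw [if_neg hc] at hih
          obtain ⟨z, hz, hzj⟩ := ja_two (h.cyc _) hih
          have hzn : z ∈ nb w := (hn.mem w z).2 ⟨_, hzj⟩
          have hzx : z = x := by
            by_contra hne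
            apply hc
            exact one_lt_card.2 ⟨z, mem_erase.2 ⟨hne, hzn⟩, y', hy', hz⟩
          rw [hzx, Sym2.eq_swap] at hzj
          exact hzj

/-- labels of the unfolding at a far vertex are far -/
theorem labels_far {U : ℕ → Finset (Sym2 ℕ)} {D : ℕ} {nb : ℕ → Finset ℕ} (h : Ch U D)
    (hn : Nb U D nb) {st : ℕ → ℕ} (hst1 : ∀ t, t ≤ st t)
    (hst2 : ∀ t x, (∃ e ∈ U t, x ∈ e) → ∀ y ∈ nb x, s(x, y) ∈ U (st t))
    {n R k c o : ℕ} (hc : 3 ≤ (nb c).card) (ho : o ∈ nb c) (t : ℕ)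
    (hfar : ∀ e ∈ U (st^[k + 1] t), c ∉ e) :
    ∀ y ∈ o :: c :: (rootb nb n R k c o).labels, ∀ e ∈ U t, y ∉ e := by
  intro y hy e he hye
  have hcc : ¬ ∃ e ∈ U t, c ∈ e := by
    rintro ⟨e, he, hce⟩
    exact hfar e (ja_mono h ((hst1 t).trans (ja_iter hst1 t k)) he) hce
  rw [List.mem_cons, List.mem_cons] at hy
  rcases hy with rfl | rfl | hy
  · have h1 := hst2 t y ⟨e, he, hye⟩ c (hn.symm _ _ ho)
    exact hfar _ (ja_mono h (ja_iter hst1 t k) h1) (Sym2.mem_mk_right _ _)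
  · exact hcc ⟨e, he, hye⟩
  · unfold rootb at hy
    rcases ja_bq _ _ _ hy with hy | ⟨b, hb, hyb⟩
    · subst hy
      exact hcc ⟨e, he, hye⟩
    · rw [List.mem_map] at hb
      obtain ⟨y', hy', rfl⟩ := hb
      have hy'n := mem_of_mem_erase (mem_toList.1 hy')
      have h1 := ja_unf h hn hst1 hst2 n t R k c y' hy'n y hyb ⟨e, he, hye⟩
      exact hfar _ h1 (Sym2.mem_mk_left _ _)

end Jia
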