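import Pool.Agent.Helper826.Jia.C1
import Pool.Agent.Helper826.Jia.WD

set_option autoImplicit false

namespace Jia
open Finset Filter
open scoped symmDiff

theorem ch_mono {U : ℕ → Finset (Sym2 ℕ)} {D : ℕ} (h : Ch U D) {i j : ℕ} (hij : i ≤ j) : U i ⊆ U j :=
  monotone_nat_of_le_succ (f := U) (fun n => h.mono n) hij

theorem fin_stab {α : Type*} [DecidableEq α] (F : ℕ → Finset α) (hF : ∀ i j, i ≤ j → F i ⊆ F j) (N : ℕ)
    (hN : ∀ j, (F j).card ≤ N) : ∃ j1, ∀ j ≥ j1, F j = F j1 := by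
  have hne : (Set.range (fun j => (F j).card)).Nonempty := ⟨_, ⟨0, rfl⟩⟩
  have hbd : BddAbove (Set.range (fun j => (F j).card)) := by
    refine ⟨N, ?_⟩
    rintro _ ⟨j, rfl⟩
    exact hN j
  obtain ⟨j1, hj1⟩ := Nat.sSup_mem hne hbd
  refine ⟨j1, fun j hj => ?_⟩
  symm
  apply Finset.eq_of_subset_of_card_le (hF j1 j hj)
  have h1 : (F j).card ≤ sSup (Set.range (fun j => (F j).card)) := le_csSup hbd ⟨j, rfl⟩
  rw [← hj1] at h1
  exact h1

/-- connectivity of finitely many pairs is realised at a finite stage -/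
theorem conn_stage {U : ℕ → Finset (Sym2 ℕ)} {D : ℕ} (h : Ch U D) (T : ℕ) :
    ∃ T1 ≥ T, ∀ a b, (∃ e ∈ U T, a ∈ e) → (∃ e ∈ U T, b ∈ e) →
      (∃ P : Finset (Sym2 ℕ), (∃ j, P ⊆ U j) ∧ IsJn P a b) → ∃ P ⊆ U T1, IsJn P a b := by
  classical
  have hex : ∀ a b : ℕ, ∃ j, (∃ P : Finset (Sym2 ℕ), (∃ j, P ⊆ U j) ∧ IsJn P a b) →
      ∃ P ⊆ U j, IsJn P a b := by
    intro a b
    by_cases hp : ∃ P : Finset (Sym2 ℕ), (∃ j, P ⊆ U j) ∧ IsJn P a b
    · obtain ⟨P, ⟨j, hj⟩, hP⟩ := hp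
      exact ⟨j, fun _ => ⟨P, hj, hP⟩⟩
    · exact ⟨0, fun h => absurd h hp⟩
  choose J hJ using hex
  set S : Finset ℕ := (U T).biUnion (fun e => e.toFinset) with hS
  have hmem : ∀ a, (∃ e ∈ U T, a ∈ e) → a ∈ S := by
    rintro a ⟨e, he, hae⟩
    rw [hS, Finset.mem_biUnion]
    exact ⟨e, he, Sym2.mem_toFinset.2 hae⟩
  refine ⟨max T ((S ×ˢ S).sup (fun p => J p.1 p.2)), le_max_left _ _, ?_⟩
  intro a b ha hb hP
  obtain ⟨P, hP1, hP2⟩ := hJ a b hP
  refine ⟨P, hP1.trans (ch_mono h ?_), hP2⟩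
  refine le_trans ?_ (le_max_right _ _)
  exact Finset.le_sup (f := fun p : ℕ × ℕ => J p.1 p.2) (b := (a, b))
    (Finset.mem_product.2 ⟨hmem a ha, hmem b hb⟩)

/-- a preliminary thin window gives a thin window -/
theorem thin_of_thin0 {U : ℕ → Finset (Sym2 ℕ)} {D : ℕ} (h : Ch U D) (ρ T : ℕ)
    (h0 : Thin0 U ρ {x | ∃ e ∈ U T, x ∈ e}) : ∃ T' ≥ T, ThinW U ρ T T' := by
  classical
  obtain ⟨D0, hA, hρ, j3, C, hC, hCne, hCD⟩ := h0
  set F : ℕ → Finset (Sym2 ℕ) := fun j => (U j).filter (fun e => Cross D0 e) with hF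
  have hFmem : ∀ j e, e ∈ F j ↔ e ∈ U j ∧ Cross D0 e := by
    intro j e
    rw [hF]
    exact Finset.mem_filter
  have hFmono : ∀ i j, i ≤ j → F i ⊆ F j := by
    intro i j hij e he
    rw [hFmem] at he ⊢
    exact ⟨ch_mono h hij he.1, he.2⟩
  have hFcard : ∀ j, (F j).card ≤ ρ := by
    intro j
    refine le_trans (le_of_eq ?_) (hρ j)
    congr 1
  obtain ⟨j1, hj1⟩ := fin_stab F hFmono ρ hFcard
  set Tr : ℕ → Finset (Finset (Sym2 ℕ)) := fun j => (Zf (U j)).image (fun z => z ∩ F j1) with hTr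
  have hTrmono : ∀ i j, i ≤ j → Tr i ⊆ Tr j := by
    intro i j hij
    exact Finset.image_subset_image (Zf_mono (ch_mono h hij))
  have hTrcard : ∀ j, (Tr j).card ≤ (F j1).powerset.card := by
    intro j
    apply Finset.card_le_card
    intro t ht
    rw [hTr] at ht
    obtain ⟨z, _, rfl⟩ := Finset.mem_image.1 ht
    exact Finset.mem_powerset.2 Finset.inter_subset_right
  obtain ⟨j2, hj2⟩ := fin_stab Tr hTrmono _ hTrcard
  set T' : ℕ := max T (max j1 (max j2 j3)) with hT'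
  have l1 : T ≤ T' := le_max_left _ _
  have l2 : j1 ≤ T' := le_trans (le_max_left _ _) (le_max_right _ _)
  have l3 : j2 ≤ T' := le_trans (le_max_left _ _) (le_trans (le_max_right _ _) (le_max_right _ _))
  have l4 : j3 ≤ T' := le_trans (le_max_right _ _) (le_trans (le_max_right _ _) (le_max_right _ _))
  have hin : ∀ j, ∀ e ∈ U j, Cross D0 e → e ∈ F j1 := by
    intro j e he hc
    have h1 : e ∈ F (max j j1) := (hFmem _ _).2 ⟨ch_mono h (le_max_left _ _) he, hc⟩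
    rw [hj1 _ (le_max_right _ _)] at h1
    exact h1
  refine ⟨T', l1, D0, ?_, ?_, ?_, ?_, ?_⟩
  · intro e he x hx
    exact hA x ⟨e, he, hx⟩
  · exact hρ
  · intro j e he hc
    exact ch_mono h l2 ((hFmem _ _).1 (hin j e he hc)).1
  · exact ⟨C, Zf_mono (ch_mono h l4) hC, hCne, hCD⟩
  · intro j hj z hz
    have h1 : z ∩ F j1 ∈ Tr j := Finset.mem_image.2 ⟨z, hz, rfl⟩
    rw [hj2 j (l3.trans hj), ← hj2 T' l3] at h1
    obtain ⟨w, hw, hwe⟩ := Finset.mem_image.1 h1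
    refine ⟨w, hw, ?_⟩
    intro e he hc
    have h2 := hin j e he hc
    constructor
    · intro hew
      have h3 : e ∈ w ∩ F j1 := Finset.mem_inter.2 ⟨hew, h2⟩
      have h4 : e ∈ z ∩ F j1 := by rw [← hwe]; exact h3
      exact (Finset.mem_inter.1 h4).1
    · intro hez
      have h3 : e ∈ z ∩ F j1 := Finset.mem_inter.2 ⟨hez, h2⟩
      rw [← hwe] at h3
      exact (Finset.mem_inter.1 h3).1

end Jia
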