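import Pool.Agent.Helper826.Jia.C1
import Pool.Agent.Helper826.Jia.WD

set_option autoImplicit false

namespace Jia
open Finset Filter
open scoped symmDiff

/-- far branch vertices exist unless there is a thin window -/
theorem branch_exists {U : ℕ → Finset (Sym2 ℕ)} {D : ℕ} {nb : ℕ → Finset ℕ} (h : Ch U D)
    (hn : Nb U D nb) (ρ T : ℕ) (h0 : ¬ Thin0 U ρ {x | ∃ e ∈ U T, x ∈ e}) (B : Finset ℕ) :
    ∃ c, c ∉ B ∧ 3 ≤ (nb c).card := by
  classical
  by_contra hcon
  push Not at hcon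
  obtain ⟨B', hBB, hB'2⟩ : ∃ B' : Finset ℕ, B ⊆ B' ∧ ∀ x, (∃ e ∈ U T, x ∈ e) → x ∈ B' := by
    refine ⟨B ∪ (U T).biUnion (fun e => e.toFinset), subset_union_left, ?_⟩
    rintro x ⟨e, he, hx⟩
    refine mem_union_right _ (mem_biUnion.2 ⟨e, he, ?_⟩)
    rwa [Sym2.mem_toFinset]
  have key : ∀ j, ∀ z ∈ Zf (U j), (∀ e ∈ z, ∀ x ∈ e, x ∉ B') → z = ∅ := by
    intro j z hz hzB
    by_contra hne
    have hne' : z.Nonempty := nonempty_iff_ne_empty.2 hne
    have hz' := mem_Zf.1 hz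
    have hall : ∀ x, (∃ e ∈ z, x ∈ e) → ∀ i, ∀ e ∈ U i, x ∈ e → e ∈ z := by
      rintro x ⟨e₀, he₀, hx₀⟩
      have hxB : x ∉ B := fun hx => hzB e₀ he₀ x hx₀ (hBB hx)
      have hcard := hcon x hxB
      have hIcard : ((nb x).image (fun y => s(x, y))).card ≤ 2 :=
        card_image_le.trans (by omega)
      have hsub : z.filter (fun e => x ∈ e) ⊆ (nb x).image (fun y => s(x, y)) := by
        intro e he
        rw [mem_filter] at he
        obtain ⟨y, rfl⟩ := Sym2.mem_iff_exists.1 he.2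
        exact mem_image.2 ⟨y, (hn.mem x y).2 ⟨j, hz'.1 he.1⟩, rfl⟩
      have hdg : 2 ≤ (z.filter (fun e => x ∈ e)).card := by
        have h1 : Even (z.filter (fun e => x ∈ e)).card := hz'.2 x
        have h2 : 0 < (z.filter (fun e => x ∈ e)).card :=
          card_pos.2 ⟨e₀, mem_filter.2 ⟨he₀, hx₀⟩⟩
        obtain ⟨k, hk⟩ := h1
        omega
      have heq := eq_of_subset_of_card_le hsub (by omega)
      intro i e he hxe
      obtain ⟨y, rfl⟩ := Sym2.mem_iff_exists.1 hxe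
      have h3 : s(x, y) ∈ (nb x).image (fun y => s(x, y)) :=
        mem_image.2 ⟨y, (hn.mem x y).2 ⟨i, he⟩, rfl⟩
      rw [← heq, mem_filter] at h3
      exact h3.1
    apply h0
    refine ⟨{x | ∃ e ∈ z, x ∈ e}, ?_, ?_, j, z, hz, hne', fun e he x hx => ⟨e, he, hx⟩⟩
    · rintro x hx ⟨e, he, hxe⟩
      exact hzB e he x hxe (hB'2 x hx)
    · intro i
      have hfe : (U i).filter (fun e => Cross {x | ∃ e ∈ z, x ∈ e} e) = ∅ := by
        rw [filter_eq_empty_iff]
        intro e he hcr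
        obtain ⟨h1, h2⟩ := hcr
        push Not at h2
        obtain ⟨x, hxe, hxD⟩ := h2
        apply h1
        have hez := hall x hxD i e he hxe
        exact fun y hy => ⟨e, hez, hy⟩
      rw [hfe]; simp
  obtain ⟨j, hj⟩ := h.unb (2 ^ (D * B'.card) + 1)
  have hinj : Set.InjOn (fun z : Finset (Sym2 ℕ) => z.filter (fun e => ∃ x ∈ e, x ∈ B'))
      (Zf (U j) : Set (Finset (Sym2 ℕ))) := by
    intro z hz w hw hzw
    have h1 : z ∆ w = ∅ := by
      apply key j _ (Zf_symmDiff hz hw)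
      intro e he x hx hxB
      have h2 : e ∈ z ↔ e ∈ w := by
        have h3 := Finset.ext_iff.1 hzw e
        simp only [mem_filter] at h3
        constructor
        · intro h4
          exact (h3.1 ⟨h4, x, hx, hxB⟩).1
        · intro h4
          exact (h3.2 ⟨h4, x, hx, hxB⟩).1
      rw [mem_symmDiff] at he
      tauto
    exact symmDiff_eq_bot.1 h1
  have hmaps : ∀ z ∈ Zf (U j), z.filter (fun e => ∃ x ∈ e, x ∈ B') ∈
      ((U j).filter (fun e => ∃ x ∈ e, x ∈ B')).powerset := by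
    intro z hz
    rw [mem_powerset]
    exact filter_subset_filter _ (mem_Zf.1 hz).1
  have h1 := card_le_card_of_injOn _ hmaps hinj
  rw [card_powerset] at h1
  have h2 : ((U j).filter (fun e => ∃ x ∈ e, x ∈ B')).card ≤ D * B'.card := by
    have h3 : (U j).filter (fun e => ∃ x ∈ e, x ∈ B') ⊆
        B'.biUnion (fun x => (U j).filter (fun e => x ∈ e)) := by
      intro e he
      rw [mem_filter] at he
      obtain ⟨h4, x, hx, hxB⟩ := he
      exact mem_biUnion.2 ⟨x, hxB, mem_filter.2 ⟨h4, hx⟩⟩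
    refine (card_le_card h3).trans (card_biUnion_le.trans ?_)
    rw [mul_comm]
    exact sum_le_card_nsmul _ _ _ (fun x _ => h.deg j x)
  have h3 : 2 ^ ((U j).filter (fun e => ∃ x ∈ e, x ∈ B')).card ≤ 2 ^ (D * B'.card) :=
    Nat.pow_le_pow_right (by norm_num) h2
  omega

end Jia
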