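import Pool.Agent.Helper826.Jia.C1
import Pool.Agent.Helper826.Jia.W2b

set_option autoImplicit false

namespace Jia
open Finset Filter
open scoped symmDiff

section aux

variable {U : ℕ → Finset (Sym2 ℕ)} {D : ℕ} {S : ℕ → Prop}

/-- joined by an edge set inside `S` -/
def RR (U : ℕ → Finset (Sym2 ℕ)) (S : ℕ → Prop) (u v : ℕ) : Prop :=
  ∃ P : Finset (Sym2 ℕ), (∃ j, P ⊆ U j) ∧ (∀ e ∈ P, ∀ x ∈ e, S x) ∧ IsJn P u v

theorem Ch.mono_le (h : Ch U D) {i j : ℕ} (hij : i ≤ j) : U i ⊆ U j :=
  monotone_nat_of_le_succ h.mono hij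

theorem RR.refl (a : ℕ) : RR U S a a :=
  ⟨∅, ⟨0, empty_subset _⟩, by simp, isJn_refl a⟩

theorem RR.symm {a b : ℕ} (h : RR U S a b) : RR U S b a := by
  obtain ⟨P, h1, h2, h3⟩ := h
  exact ⟨P, h1, h2, h3.symm⟩

theorem RR.trans (h : Ch U D) {a b c : ℕ} (h1 : RR U S a b) (h2 : RR U S b c) : RR U S a c := by
  obtain ⟨P, ⟨j, hj⟩, hS, hP⟩ := h1
  obtain ⟨Q, ⟨k, hk⟩, hS', hQ⟩ := h2
  refine ⟨P ∆ Q, ⟨max j k, ?_⟩, ?_, hP.trans hQ⟩
  · intro e he
    rw [mem_symmDiff] at he
    rcases he with he | he
    · exact h.mono_le (le_max_left _ _) (hj he.1)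
    · exact h.mono_le (le_max_right _ _) (hk he.1)
  · intro e he
    rw [mem_symmDiff] at he
    rcases he with he | he
    · exact hS e he.1
    · exact hS' e he.1

theorem RR.edge (h : Ch U D) {a b j : ℕ} (he : s(a, b) ∈ U j) (ha : S a) (hb : S b) :
    RR U S a b := by
  have hne : a ≠ b := by
    intro hab
    exact h.nl j _ he (by rw [hab]; exact Sym2.mk_isDiag_iff.2 rfl)
  refine ⟨{s(a, b)}, ⟨j, by simpa using he⟩, ?_, isJn_edge hne⟩
  intro e he x hx
  rw [mem_singleton] at he
  subst he
  rw [Sym2.mem_iff] at hx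
  rcases hx with rfl | rfl <;> assumption

end aux

namespace BT

variable {V : Type*} [DecidableEq V]

omit [DecidableEq V] in
theorem tops_sub (b : BT V) : ∀ y ∈ b.tops, y ∈ b.labels := by
  induction b with
  | out w => intro y hy; exact hy
  | nd f x b ih =>
    intro y hy
    simp only [tops, List.mem_singleton] at hy
    simp [labels, hy]
  | br s t ihs iht =>
    intro y hy
    simp only [tops, List.mem_append] at hy
    simp only [labels, List.mem_append]
    rcases hy with hy | hy
    · exact Or.inl (ihs y hy)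
    · exact Or.inr (iht y hy)

omit [DecidableEq V] in
theorem nodes_sub (b : BT V) : ∀ y ∈ b.nodes, y ∈ b.labels := by
  induction b with
  | out w => intro y hy; simp [nodes] at hy
  | nd f x b ih =>
    intro y hy
    simp only [nodes, List.mem_cons] at hy
    simp only [labels, List.mem_cons]
    rcases hy with hy | hy
    · exact Or.inl hy
    · exact Or.inr (ih y hy)
  | br s t ihs iht =>
    intro y hy
    simp only [nodes, List.mem_append] at hy
    simp only [labels, List.mem_append]
    rcases hy with hy | hy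
    · exact Or.inl (ihs y hy)
    · exact Or.inr (iht y hy)

omit [DecidableEq V] in
theorem tops_cases (b : BT V) (p : V) : ∀ y ∈ b.tops, y ∈ b.nodes ∨ (p, y) ∈ b.outs p := by
  induction b with
  | out w => intro y hy; simp only [tops, List.mem_singleton] at hy; simp [outs, hy]
  | nd f x b ih =>
    intro y hy
    simp only [tops, List.mem_singleton] at hy
    simp [nodes, hy]
  | br s t ihs iht =>
    intro y hy
    simp only [tops, List.mem_append] at hy
    simp only [nodes, outs, List.mem_append]
    rcases hy with hy | hy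
    · rcases ihs y hy with h | h <;> tauto
    · rcases iht y hy with h | h <;> tauto

omit [DecidableEq V] in
theorem labels_cases (b : BT V) : ∀ p : V, ∀ y ∈ b.labels, y ∈ b.nodes ∨
    ∃ q ∈ b.outs p, q.2 = y := by
  induction b with
  | out w => intro p y hy; simp only [labels, List.mem_singleton] at hy; simp [outs, hy]
  | nd f x b ih =>
    intro p y hy
    simp only [labels, List.mem_cons] at hy
    simp only [nodes, outs, List.mem_cons]
    rcases hy with hy | hy
    · exact Or.inl (Or.inl hy)
    · rcases ih x y hy with h | h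
      · exact Or.inl (Or.inr h)
      · exact Or.inr h
  | br s t ihs iht =>
    intro p y hy
    simp only [labels, List.mem_append] at hy
    simp only [nodes, outs, List.mem_append]
    rcases hy with hy | hy
    · rcases ihs p y hy with h | ⟨q, h, h'⟩
      · exact Or.inl (Or.inl h)
      · exact Or.inr ⟨q, Or.inl h, h'⟩
    · rcases iht p y hy with h | ⟨q, h, h'⟩
      · exact Or.inl (Or.inr h)
      · exact Or.inr ⟨q, Or.inr h, h'⟩

omit [DecidableEq V] in
theorem outs_labels (b : BT V) : ∀ p : V, ∀ q ∈ b.outs p, q.2 ∈ b.labels := by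
  induction b with
  | out w => intro p q hq; simp only [outs, List.mem_singleton] at hq; simp [labels, hq]
  | nd f x b ih =>
    intro p q hq
    simp only [outs] at hq
    simp only [labels, List.mem_cons]
    exact Or.inr (ih x q hq)
  | br s t ihs iht =>
    intro p q hq
    simp only [outs, List.mem_append] at hq
    simp only [labels, List.mem_append]
    rcases hq with hq | hq
    · exact Or.inl (ihs p q hq)
    · exact Or.inr (iht p q hq)

omit [DecidableEq V] in
theorem outs_not_node (b : BT V) : ∀ p : V, b.labels.Nodup → ∀ q ∈ b.outs p, q.2 ∉ b.nodes := by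
  induction b with
  | out w => intro p _ q _; simp [nodes]
  | nd f x b ih =>
    intro p hnd q hq
    simp only [outs] at hq
    simp only [labels, List.nodup_cons] at hnd
    simp only [nodes, List.mem_cons, not_or]
    refine ⟨?_, ih x hnd.2 q hq⟩
    intro h
    exact hnd.1 (h ▸ outs_labels b x q hq)
  | br s t ihs iht =>
    intro p hnd q hq
    simp only [outs, List.mem_append] at hq
    simp only [labels, List.nodup_append] at hnd
    simp only [nodes, List.mem_append, not_or]
    rcases hq with hq | hq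
    · refine ⟨ihs p hnd.1 q hq, ?_⟩
      intro h
      exact hnd.2.2 _ (outs_labels s p q hq) _ (nodes_sub t _ h) rfl
    · refine ⟨?_, iht p hnd.2.1 q hq⟩
      intro h
      exact hnd.2.2 _ (nodes_sub s _ h) _ (outs_labels t p q hq) rfl

theorem full_cases {K : Finset (Sym2 V)} (b : BT V) : ∀ p : V, Full K p b → ∀ x ∈ b.nodes, ∀ y,
    s(x, y) ∈ K → y = p ∨ y ∈ b.nodes ∨ (x, y) ∈ b.outs p := by
  induction b with
  | out w => intro p _ x hx; simp [nodes] at hx
  | nd f x' b ih =>
    intro p hF x hx y hy
    simp only [Full] at hF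
    simp only [nodes, List.mem_cons] at hx
    simp only [nodes, outs, List.mem_cons]
    rcases hx with rfl | hx
    · rcases (hF.1 y).1 hy with h | h
      · exact Or.inl h
      · rcases tops_cases b x y h with h' | h' <;> tauto
    · rcases ih x' hF.2 x hx y hy with h | h | h <;> tauto
  | br s t ihs iht =>
    intro p hF x hx y hy
    simp only [Full] at hF
    simp only [nodes, List.mem_append] at hx
    simp only [nodes, outs, List.mem_append]
    rcases hx with hx | hx
    · rcases ihs p hF.1 x hx y hy with h | h | h <;> tauto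
    · rcases iht p hF.2 x hx y hy with h | h | h <;> tauto

end BT

section aux2

variable {U : ℕ → Finset (Sym2 ℕ)} {D : ℕ} {S : ℕ → Prop}

theorem full_join (h : Ch U D) {K : Finset (Sym2 ℕ)} (hK : ∀ e ∈ K, ∃ j, e ∈ U j)
    (b : BT ℕ) : ∀ p : ℕ, b.Full K p → S p → (∀ y ∈ b.nodes, S y) → ∀ y ∈ b.nodes, RR U S y p := by
  induction b with
  | out w => intro p _ _ _ y hy; simp [BT.nodes] at hy
  | nd f x b ih =>
    intro p hF hp hS y hy
    simp only [BT.Full] at hF
    simp only [BT.nodes, List.mem_cons] at hy hS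
    obtain ⟨j, hj⟩ := hK _ ((hF.1 p).2 (Or.inl rfl))
    have h1 : RR U S x p := RR.edge h hj (hS x (Or.inl rfl)) hp
    rcases hy with rfl | hy
    · exact h1
    · exact (ih x hF.2 (hS x (Or.inl rfl)) (fun z hz => hS z (Or.inr hz)) y hy).trans h h1
  | br s t ihs iht =>
    intro p hF hp hS y hy
    simp only [BT.Full] at hF
    simp only [BT.nodes, List.mem_append] at hy hS
    rcases hy with hy | hy
    · exact ihs p hF.1 hp (fun z hz => hS z (Or.inl hz)) y hy
    · exact iht p hF.2 hp (fun z hz => hS z (Or.inr hz)) y hy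

theorem exists_K {nb : ℕ → Finset ℕ} (hn : Nb U D nb) (l : List ℕ) : ∃ K : Finset (Sym2 ℕ),
    (∀ y ∈ l, ∀ z, s(y, z) ∈ K ↔ z ∈ nb y) ∧ ∀ e ∈ K, ∃ j, e ∈ U j := by
  refine ⟨l.toFinset.biUnion (fun y => (nb y).image (fun z => s(y, z))), ?_, ?_⟩
  · intro y hy z
    simp only [mem_biUnion, List.mem_toFinset, mem_image]
    constructor
    · rintro ⟨y', hy', z', hz', he⟩
      rw [Sym2.eq_iff] at he
      rcases he with ⟨rfl, rfl⟩ | ⟨rfl, rfl⟩
      · exact hz'
      · exact hn.symm _ _ hz'
    · intro hz
      exact ⟨y, hy, z, hz, rfl⟩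
  · intro e he
    simp only [mem_biUnion, List.mem_toFinset, mem_image] at he
    obtain ⟨y, _, z, hz, rfl⟩ := he
    exact (hn.mem y z).1 hz

theorem handshake {z : Finset (Sym2 ℕ)} (hz : NL z) {c : ℕ}
    (h : ∀ v, v ≠ c → Even (dg z v)) : Even (dg z c) := by
  classical
  set X : Finset ℕ := insert c (z.biUnion (fun e => e.toFinset)) with hX
  have h1 : ∑ v ∈ X, dg z v = 2 * z.card := by
    have : ∀ v ∈ X, dg z v = ∑ e ∈ z, if v ∈ e then 1 else 0 := by
      intro v _
      rw [dg, Finset.card_filter]
    rw [Finset.sum_congr rfl this, Finset.sum_comm]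
    have h2 : ∀ e ∈ z, (∑ v ∈ X, if v ∈ e then 1 else 0) = 2 := by
      intro e he
      rw [← Finset.card_filter]
      have h3 : X.filter (fun v => v ∈ e) = e.toFinset := by
        ext v
        simp only [mem_filter, Sym2.mem_toFinset, hX, mem_insert, mem_biUnion]
        constructor
        · exact fun h => h.2
        · exact fun h => ⟨Or.inr ⟨e, he, h⟩, h⟩
      rw [h3]
      exact Sym2.card_toFinset_of_not_isDiag e (hz e he)
    rw [Finset.sum_congr rfl h2, Finset.sum_const, smul_eq_mul, mul_comm]
  have hc : c ∈ X := by rw [hX]; exact mem_insert_self _ _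
  rw [← Finset.add_sum_erase _ _ hc] at h1
  have h4 : Even (∑ v ∈ X.erase c, dg z v) := by
    apply Finset.even_sum
    intro v hv
    exact h v (Finset.ne_of_mem_erase hv)
  have h5 : Even (dg z c + ∑ v ∈ X.erase c, dg z v) := by
    rw [h1]; exact even_two_mul _
  exact (Nat.even_add.1 h5).2 h4

theorem fix_parity (h : Ch U D) {c : ℕ} (z : Finset (Sym2 ℕ)) (X : Finset ℕ)
    (hX : ∀ v ∈ X, v ≠ c ∧ RR U S v c) :
    ∃ T : Finset (Sym2 ℕ), (∃ j, T ⊆ U j) ∧ (∀ e ∈ T, ∀ x ∈ e, S x) ∧
      (∀ v ∈ X, Even (dg (z ∆ T) v)) ∧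
      (∀ v, v ∉ X → v ≠ c → (Even (dg (z ∆ T) v) ↔ Even (dg z v))) := by
  induction X using Finset.induction_on with
  | empty =>
    refine ⟨∅, ⟨0, empty_subset _⟩, by simp, by simp, ?_⟩
    intro v _ _
    rw [show z ∆ (∅ : Finset (Sym2 ℕ)) = z from symmDiff_bot z]
  | insert v X hv ih =>
    obtain ⟨T, ⟨j, hj⟩, hTS, h1, h2⟩ := ih (fun v hv => hX v (mem_insert_of_mem hv))
    by_cases hev : Even (dg (z ∆ T) v)
    · refine ⟨T, ⟨j, hj⟩, hTS, ?_, ?_⟩
      · intro w hw
        rw [mem_insert] at hw
        rcases hw with rfl | hw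
        · exact hev
        · exact h1 w hw
      · intro w hw hwc
        rw [mem_insert, not_or] at hw
        exact h2 w hw.2 hwc
    · obtain ⟨hvc, P, ⟨k, hk⟩, hPS, hP⟩ := hX v (mem_insert_self _ _)
      have hsymm : ∀ w, w ≠ c → (Even (dg (z ∆ (T ∆ P)) w) ↔
          (Even (dg (z ∆ T) w) ↔ w ≠ v)) := by
        intro w hw
        rw [← symmDiff_assoc, dg_symmDiff]
        have h3 := hP w
        rw [← Nat.not_even_iff_odd] at h3
        constructor
        · intro h4
          rw [h4]
          tauto
        · intro h4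
          rw [h4]
          tauto
      refine ⟨T ∆ P, ⟨max j k, ?_⟩, ?_, ?_, ?_⟩
      · intro e he
        rw [mem_symmDiff] at he
        rcases he with he | he
        · exact h.mono_le (le_max_left _ _) (hj he.1)
        · exact h.mono_le (le_max_right _ _) (hk he.1)
      · intro e he
        rw [mem_symmDiff] at he
        rcases he with he | he
        · exact hTS e he.1
        · exact hPS e he.1
      · intro w hw
        rw [mem_insert] at hw
        rcases hw with rfl | hw
        · rw [hsymm w hvc]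
          tauto
        · rw [hsymm w (hX w (mem_insert_of_mem hw)).1]
          have h5 := h1 w hw
          have h6 : w ≠ v := fun h7 => hv (h7 ▸ hw)
          tauto
      · intro w hw hwc
        rw [mem_insert, not_or] at hw
        rw [hsymm w hwc, ← h2 w hw.2 hwc]
        tauto

end aux2

/-- all labels are joined to `o` in the union graph -/
theorem root_join {U : ℕ → Finset (Sym2 ℕ)} {D : ℕ} {nb : ℕ → Finset ℕ} (h : Ch U D)
    (hn : Nb U D nb) {n R k c o : ℕ} (hc : 3 ≤ (nb c).card) (ho : o ∈ nb c) :
    ∀ w ∈ (rootb nb n R k c o).labels, ∃ P : Finset (Sym2 ℕ), (∃ j, P ⊆ U j) ∧ IsJn P w o := by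
  intro w hw
  obtain ⟨K, hK1, hK2⟩ := exists_K hn (rootb nb n R k c o).nodes
  have hfull := root_full hn.two hn.symm (n := n) (R := R) (k := k) (o := o) hc hK1
  have hjn := full_join (S := fun _ => True) h hK2 _ c hfull trivial (fun _ _ => trivial)
  have hco : RR U (fun _ => True) c o := by
    obtain ⟨j, hj⟩ := (hn.mem c o).1 ho
    exact RR.edge h hj trivial trivial
  have hwc : RR U (fun _ => True) w c := by
    rcases BT.labels_cases _ c w hw with h1 | ⟨q, hq, rfl⟩
    · exact hjn w h1
    · obtain ⟨h2, h3, _⟩ := root_outs_mem hn.two hn.symm hc q hq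
      obtain ⟨j, hj⟩ := (hn.mem _ _).1 h2
      have h4 : RR U (fun _ => True) q.2 q.1 := (RR.edge h hj trivial trivial).symm
      rcases h3 with h3 | h3
      · rw [h3] at h4; exact h4
      · exact h4.trans h (hjn _ h3)
  obtain ⟨P, h1, _, h2⟩ := hwc.trans h hco
  exact ⟨P, h1, h2⟩

open Classical in
/-- few edges leave the set of labels -/
theorem cross_bound {U : ℕ → Finset (Sym2 ℕ)} {D : ℕ} {nb : ℕ → Finset ℕ} (h : Ch U D)
    (hn : Nb U D nb) {n R k c o : ℕ} (hc : 3 ≤ (nb c).card) (ho : o ∈ nb c) (j : ℕ) :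
    ((U j).filter (fun e => Cross {x | x ∈ o :: c :: (rootb nb n R k c o).labels} e)).card ≤
      D * (((rootb nb n R k c o).outs c).length + 1) := by
  obtain ⟨K, hK1, hK2⟩ := exists_K hn (rootb nb n R k c o).nodes
  have hfull := root_full hn.two hn.symm (n := n) (R := R) (k := k) (o := o) hc hK1
  set b := rootb nb n R k c o with hb
  have key : ∀ x y : ℕ, s(x, y) ∈ U j → x ∈ o :: c :: b.labels → y ∉ o :: c :: b.labels →
      x = o ∨ ∃ q ∈ b.outs c, q.2 = x := by
    intro x y he hx hy
    have hy' : y ∈ nb x := (hn.mem x y).2 ⟨j, he⟩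
    simp only [List.mem_cons, not_or] at hx hy
    rcases hx with rfl | rfl | hx
    · exact Or.inl rfl
    · exfalso
      apply hy.2.2
      apply BT.tops_sub
      rw [hb, root_tops hc y, mem_erase]
      exact ⟨hy.1, hy'⟩
    · rcases BT.labels_cases b c x hx with h1 | h1
      · exfalso
        rcases BT.full_cases b c hfull x h1 y ((hK1 x h1 y).2 hy') with h2 | h2 | h2
        · exact hy.2.1 h2
        · exact hy.2.2 (BT.nodes_sub b y h2)
        · exact hy.2.2 (BT.outs_labels b c (x, y) h2)
      · exact Or.inr h1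
  have hsub : (U j).filter (fun e => Cross {x | x ∈ o :: c :: b.labels} e) ⊆
      (insert o ((b.outs c).map Prod.snd).toFinset).biUnion
        (fun v => (U j).filter (fun e => v ∈ e)) := by
    intro e he
    rw [mem_filter] at he
    obtain ⟨he, hcr⟩ := he
    simp only [mem_biUnion, mem_filter, mem_insert, List.mem_toFinset, List.mem_map]
    have key2 : ∀ x y : ℕ, e = s(x, y) → x ∈ o :: c :: b.labels → y ∉ o :: c :: b.labels →
        ∃ a, (a = o ∨ ∃ q ∈ b.outs c, q.2 = a) ∧ e ∈ U j ∧ a ∈ e := by
      intro x y hxy hx hy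
      refine ⟨x, key x y (hxy ▸ he) hx hy, he, ?_⟩
      rw [hxy]; exact Sym2.mem_mk_left x y
    induction e with
    | h x y =>
      by_cases hx : x ∈ o :: c :: b.labels
      · by_cases hy : y ∈ o :: c :: b.labels
        · exfalso
          apply hcr.1
          intro v hv
          rw [Sym2.mem_iff] at hv
          rcases hv with rfl | rfl
          · exact hx
          · exact hy
        · exact key2 x y rfl hx hy
      · by_cases hy : y ∈ o :: c :: b.labels
        · exact key2 y x Sym2.eq_swap hy hx
        · exfalso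
          apply hcr.2
          intro v hv
          rw [Sym2.mem_iff] at hv
          rcases hv with rfl | rfl
          · exact hx
          · exact hy
  calc ((U j).filter (fun e => Cross {x | x ∈ o :: c :: b.labels} e)).card
      ≤ ((insert o ((b.outs c).map Prod.snd).toFinset).biUnion
        (fun v => (U j).filter (fun e => v ∈ e))).card := card_le_card hsub
    _ ≤ (insert o ((b.outs c).map Prod.snd).toFinset).card * D := by
        apply card_biUnion_le_card_mul
        intro v _
        exact h.deg j v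
    _ ≤ ((b.outs c).length + 1) * D := by
        apply Nat.mul_le_mul_right
        refine (card_insert_le _ _).trans ?_
        have := List.toFinset_card_le ((b.outs c).map Prod.snd)
        rw [List.length_map] at this
        omega
    _ = D * ((b.outs c).length + 1) := mul_comm _ _

/-- the outer ends are connected to `A` outside the tree, unless there is a thin window -/
theorem root_conn {U : ℕ → Finset (Sym2 ℕ)} {D : ℕ} {nb : ℕ → Finset ℕ} (h : Ch U D)
    (hn : Nb U D nb) {n R k c o : ℕ} (hc : 3 ≤ (nb c).card) (ho : o ∈ nb c)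
    (hnd : (o :: c :: (rootb nb n R k c o).labels).Nodup) (A : Set ℕ)
    (hA : ∀ y ∈ o :: c :: (rootb nb n R k c o).labels, y ∉ A) (ρ : ℕ)
    (hρ : ((rootb nb n R k c o).outs c).length + 1 ≤ ρ) (hthin : ¬ Thin0 U ρ A) :
    ∀ w, (w = o ∨ ∃ q ∈ (rootb nb n R k c o).outs c, q.2 = w) →
      ∃ a ∈ A, ∃ P : Finset (Sym2 ℕ), (∃ j, P ⊆ U j) ∧
        (∀ e ∈ P, ∀ x ∈ e, x ≠ c ∧ x ∉ (rootb nb n R k c o).nodes) ∧ IsJn P w a := by
  classical
  obtain ⟨K, hK1, hK2⟩ := exists_K hn (rootb nb n R k c o).nodes
  have hfull := root_full hn.two hn.symm (n := n) (R := R) (k := k) (o := o) hc hK1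
  have htops := root_tops (nb := nb) (n := n) (R := R) (k := k) (o := o) hc
  have houts := root_outs_mem hn.two hn.symm (n := n) (R := R) (k := k) (o := o) hc
  generalize rootb nb n R k c o = b at *
  intro w hw
  by_contra hcon
  have hcon' : ∀ a ∈ A, ¬ RR U (fun x => x ≠ c ∧ x ∉ b.nodes) w a := by
    intro a ha hR
    obtain ⟨P, h1, h2, h3⟩ := hR
    exact hcon ⟨a, ha, P, h1, h2, h3⟩
  set O : ℕ → Prop := fun x => x ≠ c ∧ x ∉ b.nodes with hO
  -- not in N
  have hN : ∀ x, ¬ O x ↔ (x = c ∨ x ∈ b.nodes) := by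
    intro x; simp only [hO]; tauto
  have hwO : O w := by
    simp only [List.nodup_cons, List.mem_cons, not_or] at hnd
    rcases hw with rfl | ⟨q, hq, rfl⟩
    · exact ⟨hnd.1.1, fun h1 => hnd.1.2 (BT.nodes_sub b _ h1)⟩
    · refine ⟨?_, BT.outs_not_node b c hnd.2.2 q hq⟩
      intro h1
      exact hnd.2.1 (h1 ▸ BT.outs_labels b c q hq)
  have hp : ∃ p, w ∈ nb p ∧ ¬ O p := by
    rcases hw with rfl | ⟨q, hq, rfl⟩
    · exact ⟨c, ho, by rw [hN]; exact Or.inl rfl⟩
    · obtain ⟨h1, h2, _⟩ := houts q hq
      exact ⟨q.1, h1, by rw [hN]; exact h2⟩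
  obtain ⟨p, hwp, hpN⟩ := hp
  obtain ⟨j, hj⟩ := (hn.mem p w).1 hwp
  obtain ⟨C, hC, hfC⟩ := h.cyc j _ hj
  rw [mem_Cf] at hC
  obtain ⟨hCU, hCc⟩ := hC
  obtain ⟨hCev, -, -, -⟩ := cyc_ev hCc
  apply hthin
  refine ⟨{x | ¬ O x ∨ ∀ a ∈ A, ¬ RR U O x a}, ?_, ?_, ?_⟩
  · intro x hx hxD
    rcases hxD with hxD | hxD
    · rw [hN] at hxD
      rcases hxD with rfl | hxD
      · exact hA x (by simp) hx
      · exact hA x (by
          simp only [List.mem_cons]
          exact Or.inr (Or.inr (BT.nodes_sub b x hxD))) hx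
    · exact hxD x hx (RR.refl x)
  · intro i
    have key : ∀ x y : ℕ, s(x, y) ∈ U i → (¬ O x ∨ ∀ a ∈ A, ¬ RR U O x a) →
        ¬ (¬ O y ∨ ∀ a ∈ A, ¬ RR U O y a) →
        s(x, y) ∈ insert s(c, o) ((b.outs c).map (fun q => s(q.1, q.2))).toFinset := by
      intro x y he hx hy
      push Not at hy
      obtain ⟨hyO, a, ha, hya⟩ := hy
      have hxN : ¬ O x := by
        intro hxO
        rcases hx with hx | hx
        · exact hx hxO
        · exact hx a ha ((RR.edge h he hxO hyO).trans h hya)
      have hyx : y ∈ nb x := (hn.mem x y).2 ⟨i, he⟩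
      rw [hN] at hxN
      rw [mem_insert, List.mem_toFinset, List.mem_map]
      rcases hxN with rfl | hxN
      · by_cases hyo : y = o
        · left; rw [hyo]
        · right
          have h1 : y ∈ b.tops := (htops y).2 (mem_erase.2 ⟨hyo, hyx⟩)
          rcases BT.tops_cases b x y h1 with h2 | h2
          · exact absurd h2 hyO.2
          · exact ⟨(x, y), h2, rfl⟩
      · right
        rcases BT.full_cases b c hfull x hxN y ((hK1 x hxN y).2 hyx) with h2 | h2 | h2
        · exact absurd h2 hyO.1
        · exact absurd h2 hyO.2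
        · exact ⟨(x, y), h2, rfl⟩
    have hsub : (U i).filter (fun e => Cross {x | ¬ O x ∨ ∀ a ∈ A, ¬ RR U O x a} e) ⊆
        insert s(c, o) ((b.outs c).map (fun q => s(q.1, q.2))).toFinset := by
      intro e he
      rw [mem_filter] at he
      obtain ⟨he, hcr⟩ := he
      induction e with
      | h x y =>
        by_cases hx : (¬ O x ∨ ∀ a ∈ A, ¬ RR U O x a)
        · by_cases hy : (¬ O y ∨ ∀ a ∈ A, ¬ RR U O y a)
          · exfalso
            apply hcr.1
            intro v hv
            rw [Sym2.mem_iff] at hv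
            rcases hv with rfl | rfl
            · exact hx
            · exact hy
          · exact key x y he hx hy
        · by_cases hy : (¬ O y ∨ ∀ a ∈ A, ¬ RR U O y a)
          · rw [show s(x, y) = s(y, x) from Sym2.eq_swap]
            exact key y x (by rw [Sym2.eq_swap]; exact he) hy hx
          · exfalso
            apply hcr.2
            intro v hv
            rw [Sym2.mem_iff] at hv
            rcases hv with rfl | rfl
            · exact hx
            · exact hy
    refine le_trans (card_le_card (le_trans ?_ hsub)) ?_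
    · intro e he
      rw [mem_filter] at he ⊢
      exact he
    · refine (card_insert_le _ _).trans ?_
      have := List.toFinset_card_le ((b.outs c).map (fun q => s(q.1, q.2)))
      rw [List.length_map] at this
      omega
  · set W : ℕ → Prop := fun x => O x ∧ RR U O x w with hW
    set C1 := C.filter (fun e => ∃ x ∈ e, W x) with hC1
    have hends : ∀ e ∈ C1, ∀ x ∈ e, W x ∨ ¬ O x := by
      intro e he x hx
      rw [hC1, mem_filter] at he
      obtain ⟨heC, y, hy, hyW⟩ := he
      by_cases hxO : O x
      · left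
        by_cases hxy : x = y
        · rw [hxy]; exact hyW
        · have hexy : e = s(x, y) := ((Sym2.mem_and_mem_iff hxy).1 ⟨hx, hy⟩)
          have : s(x, y) ∈ U j := hCU (hexy ▸ heC)
          exact ⟨hxO, (RR.edge h this hxO hyW.1).trans h hyW.2⟩
      · exact Or.inr hxO
    have hdW : ∀ v, W v → Even (dg C1 v) := by
      intro v hv
      have : dg C1 v = dg C v := by
        unfold dg
        congr 1
        ext e
        rw [hC1, mem_filter, mem_filter, mem_filter]
        constructor
        · exact fun h1 => ⟨h1.1.1, h1.2⟩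
        · exact fun h1 => ⟨⟨h1.1, v, h1.2, hv⟩, h1.2⟩
      rw [this]; exact hCev v
    have hd0 : ∀ v, ¬ W v → O v → Even (dg C1 v) := by
      intro v hv1 hv2
      have : dg C1 v = 0 := by
        unfold dg
        rw [card_eq_zero, filter_eq_empty_iff]
        intro e he hve
        rcases hends e he v hve with h1 | h1
        · exact hv1 h1
        · exact h1 hv2
      rw [this]; exact Even.zero
    have hNN : ∀ v ∈ b.nodes, RR U (fun x => ¬ O x) v c :=
      full_join (S := fun x => ¬ O x) h hK2 b c hfull (by rw [hN]; exact Or.inl rfl)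
        (fun y hy => by rw [hN]; exact Or.inr hy)
    obtain ⟨T, ⟨i, hTi⟩, hTN, hT1, hT2⟩ := fix_parity (S := fun x => ¬ O x) h (c := c) C1
      (b.nodes.toFinset.erase c) (by
        intro v hv
        rw [mem_erase, List.mem_toFinset] at hv
        exact ⟨hv.1, hNN v hv.2⟩)
    have hzU : C1 ∆ T ⊆ U (max i j) := by
      intro e he
      rw [mem_symmDiff] at he
      rcases he with he | he
      · exact h.mono_le (le_max_right _ _) (hCU (mem_filter.1 he.1).1)
      · exact h.mono_le (le_max_left _ _) (hTi he.1)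
    have hev' : ∀ v, v ≠ c → Even (dg (C1 ∆ T) v) := by
      intro v hv
      by_cases hvn : v ∈ b.nodes
      · exact hT1 v (by rw [mem_erase, List.mem_toFinset]; exact ⟨hv, hvn⟩)
      · rw [hT2 v (by rw [mem_erase, List.mem_toFinset]; exact fun h1 => hvn h1.2) hv]
        by_cases hWv : W v
        · exact hdW v hWv
        · exact hd0 v hWv ⟨hv, hvn⟩
    have hevc : Even (dg (C1 ∆ T) c) := by
      apply handshake _ hev'
      intro e he
      exact h.nl _ e (hzU he)
    refine ⟨max i j, C1 ∆ T, ?_, ?_, ?_⟩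
    · rw [mem_Zf]
      refine ⟨hzU, fun v => ?_⟩
      by_cases hv : v = c
      · rw [hv]; exact hevc
      · exact hev' v hv
    · refine ⟨s(p, w), ?_⟩
      rw [mem_symmDiff]
      left
      refine ⟨?_, ?_⟩
      · rw [hC1, mem_filter]
        exact ⟨hfC, w, Sym2.mem_mk_right p w, hwO, RR.refl w⟩
      · intro h1
        exact hTN _ h1 w (Sym2.mem_mk_right p w) hwO
    · intro e he x hx
      rw [mem_symmDiff] at he
      rcases he with he | he
      · rcases hends e he.1 x hx with h1 | h1
        · right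
          intro a ha hxa
          exact hcon' a ha (h1.2.symm.trans h hxa)
        · exact Or.inl h1
      · exact Or.inl (hTN e he.1 x hx)

end Jia
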