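import Pool.Agent.Helper826.Jia.TH
import Pool.Agent.Helper826.Jia.W1
import Pool.Agent.Helper826.Jia.W2a
import Pool.Agent.Helper826.Jia.W2b
import Pool.Agent.Helper826.Jia.W3a
import Pool.Agent.Helper826.Jia.W3b
import Pool.Agent.Helper826.Jia.W3c
import Pool.Agent.Helper826.Jia.W4
import Pool.Agent.Helper826.Jia.W5

set_option autoImplicit false

namespace Jia
open Finset Filter
open scoped symmDiff

theorem w6_mono {U : ℕ → Finset (Sym2 ℕ)} {D : ℕ} (h : Ch U D) {i j : ℕ} (hij : i ≤ j) :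
    U i ⊆ U j := by
  induction hij with
  | refl => exact Finset.Subset.refl _
  | step _ ih => exact ih.trans (h.mono _)

theorem w6_finite {U : ℕ → Finset (Sym2 ℕ)} {D : ℕ} (h : Ch U D) (C : Finset (Sym2 ℕ))
    (hC : ∀ e ∈ C, ∃ j, e ∈ U j) : ∃ j, C ⊆ U j := by
  classical
  induction C using Finset.induction_on with
  | empty => exact ⟨0, Finset.empty_subset _⟩
  | insert e C _ ih =>
    obtain ⟨j1, h1⟩ := ih (fun e' he' => hC e' (Finset.mem_insert_of_mem he'))
    obtain ⟨j2, h2⟩ := hC e (Finset.mem_insert_self _ _)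
    refine ⟨max j1 j2, ?_⟩
    intro e' he'
    rcases Finset.mem_insert.1 he' with rfl | he'
    · exact w6_mono h (le_max_right _ _) h2
    · exact w6_mono h (le_max_left _ _) (h1 he')

theorem w6_symmDiff {U : ℕ → Finset (Sym2 ℕ)} {D : ℕ} (h : Ch U D) {P Q : Finset (Sym2 ℕ)}
    (hP : ∃ j, P ⊆ U j) (hQ : ∃ j, Q ⊆ U j) : ∃ j, P ∆ Q ⊆ U j := by
  obtain ⟨j1, h1⟩ := hP
  obtain ⟨j2, h2⟩ := hQ
  refine ⟨max j1 j2, ?_⟩
  intro e he
  rw [Finset.mem_symmDiff] at he
  rcases he with he | he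
  · exact w6_mono h (le_max_left _ _) (h1 he.1)
  · exact w6_mono h (le_max_right _ _) (h2 he.1)

theorem w6_nodes_labels {V : Type*} (b : BT V) : ∀ x ∈ b.nodes, x ∈ b.labels := by
  induction b with
  | out w => intro x hx; simp [BT.nodes] at hx
  | nd f y b ih =>
    intro x hx
    simp only [BT.nodes, BT.labels, List.mem_cons] at hx ⊢
    rcases hx with hx | hx
    · exact Or.inl hx
    · exact Or.inr (ih x hx)
  | br s t ihs iht =>
    intro x hx
    simp only [BT.nodes, BT.labels, List.mem_append] at hx ⊢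
    rcases hx with hx | hx
    · exact Or.inl (ihs x hx)
    · exact Or.inr (iht x hx)

/-- a stage that contains finitely many given finite sets -/
theorem w6_list {ι : Type*} (l : List ι)
    (Q : ι → ℕ → Prop) (hQ : ∀ q ∈ l, ∃ j, Q q j) (hm : ∀ q j j', j ≤ j' → Q q j → Q q j') :
    ∃ j, ∀ q ∈ l, Q q j := by
  induction l with
  | nil => exact ⟨0, fun q hq => by simp at hq⟩
  | cons a l ih =>
    obtain ⟨j1, h1⟩ := ih (fun q hq => hQ q (List.mem_cons_of_mem _ hq))
    obtain ⟨j2, h2⟩ := hQ a List.mem_cons_self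
    refine ⟨max j1 j2, fun q hq => ?_⟩
    rcases List.mem_cons.1 hq with rfl | hq
    · exact hm _ _ _ (le_max_right _ _) h2
    · exact hm _ _ _ (le_max_left _ _) (h1 q hq)

/-- windows exist beyond every stage -/
theorem window {U : ℕ → Finset (Sym2 ℕ)} {D : ℕ} (h : Ch U D) (ε : ℝ) (hε : 0 < ε) :
    ∃ ρ : ℕ, ∀ T, ∃ T' ≥ T, ThinW U ρ T T' ∨ ThickW U ε T T' := by
  obtain ⟨nb, hn⟩ := nb_exists h
  obtain ⟨st, hst1, hst2⟩ := stage h hn
  have hB := chain_closed h hn
  obtain ⟨hh, n, hdep⟩ := depths D ε hε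
  set k := hh + n with hk
  refine ⟨D * (D ^ (k + 1) + 1) + D ^ (k + 1) + 1, fun T => ?_⟩
  set ρ := D * (D ^ (k + 1) + 1) + D ^ (k + 1) + 1 with hρ
  set A : Set ℕ := {x | ∃ e ∈ U T, x ∈ e} with hA
  by_cases h0 : Thin0 U ρ A
  · obtain ⟨T', hT', hth⟩ := thin_of_thin0 h ρ T h0
    exact ⟨T', hT', Or.inl hth⟩
  obtain ⟨T1, hT1, hconn⟩ := conn_stage h T
  obtain ⟨c, hcB, hc3⟩ := branch_exists h hn ρ T h0 ((U (st^[k + 1] T1)).biUnion (fun e => e.toFinset))
  have hfar : ∀ e ∈ U (st^[k + 1] T1), c ∉ e := by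
    intro e he hce
    apply hcB
    rw [Finset.mem_biUnion]
    exact ⟨e, he, Sym2.mem_toFinset.2 hce⟩
  obtain ⟨o, ho⟩ : (nb c).Nonempty := by
    rw [← Finset.card_pos]; omega
  obtain ⟨R, hR⟩ : ∃ R, ∀ y ∈ (nb c).erase o, comp nb R k c y := by
    have h1 : ∀ y ∈ (nb c).erase o, ∃ R, ∀ R' ≥ R, comp nb R' k c y := fun y hy =>
      comp_exists hn.two hn.symm hn.irr hB k c y (Finset.mem_of_mem_erase hy) hc3
    choose! f hf using h1
    exact ⟨((nb c).erase o).sup f, fun y hy => hf y hy _ (Finset.le_sup hy)⟩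
  have hfarL := labels_far h hn hst1 hst2 (n := n) (R := R) hc3 ho T1 hfar
  set b := rootb nb n R k c o with hb
  set L := o :: c :: b.labels with hL
  have hLA : ∀ y ∈ L, y ∉ A := by
    rintro y hy ⟨e, he, hye⟩
    exact hfarL y hy e (w6_mono h hT1 he) hye
  have houts : (b.outs c).length ≤ D ^ (k + 1) := root_outs hn.card hn.two hn.symm hc3 ho hR
  have hnd : L.Nodup := by
    refine root_nodup hn.two hn.symm hn.irr hc3 ho ?_
    intro C hC hCe
    by_contra hne
    apply h0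
    refine ⟨{x | x ∈ L}, fun x hx hxL => hLA x hxL hx, fun j => ?_, ?_⟩
    · refine (cross_bound h hn hc3 ho j).trans ?_
      have : D * ((b.outs c).length + 1) ≤ D * (D ^ (k + 1) + 1) :=
        Nat.mul_le_mul_left _ (by omega)
      rw [← hb]
      omega
    · obtain ⟨j, hj⟩ := w6_finite h C (fun e he => by
        obtain ⟨x, y, rfl, hxy, _, _⟩ := hCe e he
        exact (hn.mem x y).1 hxy)
      refine ⟨j, C, mem_Zf.2 ⟨hj, hC⟩, Finset.nonempty_iff_ne_empty.2 hne, ?_⟩
      intro e he z hz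
      obtain ⟨x, y, rfl, hxy, hx, hy⟩ := hCe e he
      rcases Sym2.mem_iff.1 hz with rfl | rfl
      · exact hx
      · exact hy
  have hrc := root_conn h hn hc3 ho hnd A hLA ρ (show (b.outs c).length + 1 ≤ ρ by omega) h0
  have hom := root_outs_mem (n := n) (R := R) (k := k) (o := o) hn.two hn.symm hc3
  have hcL : c ∈ L := by simp [hL]
  have hnL : ∀ x ∈ b.nodes, x ∈ L := fun x hx => by
    simp only [hL, List.mem_cons]; exact Or.inr (Or.inr (w6_nodes_labels b x hx))
  -- the joins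
  have hjoin : ∀ q ∈ b.outs c, ∃ j, ∃ P ⊆ U j, (∀ e ∈ P, ∀ x ∈ e, x ≠ c ∧ x ∉ b.nodes) ∧ IsJn P q.2 o := by
    intro q hq
    obtain ⟨a, ha, P1, hP1j, hP1a, hP1⟩ := hrc q.2 (Or.inr ⟨q, hq, rfl⟩)
    obtain ⟨a', ha', P2, hP2j, hP2a, hP2⟩ := hrc o (Or.inl rfl)
    obtain ⟨P0, hP0j, hP0⟩ := root_join h hn hc3 ho q.2 (hom q hq).2.2
    obtain ⟨P', hP', hP'j⟩ := hconn a a' ha ha'
      ⟨(P1 ∆ P0) ∆ P2, w6_symmDiff h (w6_symmDiff h hP1j hP0j) hP2j, (hP1.symm.trans hP0).trans hP2⟩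
    obtain ⟨j, hj⟩ := w6_symmDiff h (w6_symmDiff h hP1j ⟨T1, hP'⟩) hP2j
    refine ⟨j, (P1 ∆ P') ∆ P2, hj, ?_, (hP1.trans hP'j).trans hP2.symm⟩
    intro e he x hx
    have hcase : e ∈ P1 ∨ e ∈ P' ∨ e ∈ P2 := by
      rw [Finset.mem_symmDiff, Finset.mem_symmDiff] at he
      tauto
    rcases hcase with he | he | he
    · exact hP1a e he x hx
    · constructor
      · rintro rfl
        exact hfarL x hcL e (hP' he) hx
      · intro hxn
        exact hfarL x (hnL x hxn) e (hP' he) hx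
    · exact hP2a e he x hx
  obtain ⟨j1, hj1⟩ := w6_list (b.outs c)
    (fun q j => ∃ P ⊆ U j, (∀ e ∈ P, ∀ x ∈ e, x ≠ c ∧ x ∉ b.nodes) ∧ IsJn P q.2 o) hjoin (by
      rintro q j j' hjj ⟨P, hP, hP2⟩
      exact ⟨P, hP.trans (w6_mono h hjj), hP2⟩)
  obtain ⟨j2, hj2⟩ := w6_list L (fun y j => ∀ z ∈ nb y, s(y, z) ∈ U j) (by
      intro y _
      obtain ⟨j, hj⟩ := w6_finite h ((nb y).image (fun z => s(y, z))) (by
        intro e he
        obtain ⟨z, hz, rfl⟩ := Finset.mem_image.1 he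
        exact (hn.mem y z).1 hz)
      exact ⟨j, fun z hz => hj (Finset.mem_image_of_mem _ hz)⟩) (by
      intro y j j' hjj hz z hzz
      exact w6_mono h hjj (hz z hzz))
  set T' := max T1 (max j1 j2) with hT'
  have hT1' : T1 ≤ T' := le_max_left _ _
  have hj1' : j1 ≤ T' := (le_max_left _ _).trans (le_max_right _ _)
  have hj2' : j2 ≤ T' := (le_max_right _ _).trans (le_max_right _ _)
  refine ⟨T', hT1.trans hT1', Or.inr ⟨s(o, c), ?_, ?_, ?_⟩⟩
  · have he : s(o, c) ∈ U T' := by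
      rw [Sym2.eq_swap]
      exact w6_mono h hj2' (hj2 c hcL o ho)
    obtain ⟨C, hC, heC⟩ := h.cyc T' _ he
    rw [mem_Cf] at hC
    exact ⟨C, mem_Zf.2 ⟨hC.1, (cyc_ev hC.2).1⟩, heC⟩
  · intro he
    exact hfarL c hcL _ (w6_mono h hT1 he) (by simp)
  · intro j hj
    have hmem : ∀ y ∈ L, ∀ z, s(y, z) ∈ U j ↔ z ∈ nb y := by
      intro y hy z
      constructor
      · intro hz; exact (hn.mem y z).2 ⟨j, hz⟩
      · intro hz; exact w6_mono h (hj2'.trans hj) (hj2 y hy z hz)
    have hti := thick_ineq (h.nl j) hnd (by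
        intro y
        rw [hmem c hcL, root_tops hc3, Finset.mem_erase]
        constructor
        · intro hy
          by_cases hyo : y = o
          · exact Or.inl hyo
          · exact Or.inr ⟨hyo, hy⟩
        · rintro (rfl | hy)
          · exact ho
          · exact hy.2) (root_full hn.two hn.symm hc3 (fun y hy z => hmem y (hnL y hy) z)) (by
        intro q hq
        obtain ⟨P, hP, hP2, hP3⟩ := hj1 q hq
        exact ⟨P, hP.trans (w6_mono h (hj1'.trans hj)), hP2, hP3⟩) (by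
        intro q hq
        obtain ⟨h1, h2, h3⟩ := hom q hq
        have : q.1 ∈ L := by
          rcases h2 with h2 | h2
          · rw [h2]; exact hcL
          · exact hnL _ h2
        exact (hmem q.1 this q.2).2 h1)
      ((U j).biUnion (fun e => e.toFinset) ∪ b.labels.toFinset) (by
        intro e he x hx
        rw [Finset.mem_union]
        left
        rw [Finset.mem_biUnion]
        exact ⟨e, he, Sym2.mem_toFinset.2 hx⟩)
    have hv := root_val (D := D) hn.two hn.symm hc3 ho hR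
      ((U j).biUnion (fun e => e.toFinset) ∪ b.labels.toFinset) (by
        intro x hx
        rw [Finset.mem_union]
        right
        exact List.mem_toFinset.2 hx)
    have hth := root_Theta hn.two hn.card hn.symm hc3 ho hR
    refine hti.trans ?_
    refine mul_le_mul_of_nonneg_right ?_ (Nat.cast_nonneg _)
    refine le_trans (add_le_add hv hth) hdep

end Jia
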