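import Pool.Agent.Helper826.Jia.C1
import Pool.Agent.Helper826.Jia.TM
import Pool.Agent.Helper826.Jia.TN
import Pool.Agent.Helper826.Jia.DG
import Pool.Agent.Helper826.Jia.St
import Pool.Agent.Helper826.Jia.P5
import Pool.Agent.Helper826.Jia.W6

set_option autoImplicit false

namespace Jia
open Finset Filter
open scoped symmDiff

/-- there is no infinite chain -/
theorem contra {κ : ℝ} (hκ : 0 < κ) {U : ℕ → Finset (Sym2 ℕ)} (h0 : U 0 = ∅)
    (h : ∀ j, Stp κ (U j) (U (j + 1))) : False := by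
  have hmono1 : ∀ j, U j ⊆ U (j + 1) := fun j => (h j).1
  have hmono : ∀ a b, a ≤ b → U a ⊆ U b := fun a b hab => monotone_nat_of_le_succ hmono1 hab
  have hnl : ∀ j, NL (U j) := by
    intro j
    cases j with
    | zero => rw [h0]; intro e he; simp at he
    | succ j => exact (h j).2.1
  have hcyc : ∀ j, ∀ e ∈ U j, ∃ C ∈ Cf (U j), e ∈ C := by
    intro j
    cases j with
    | zero => rw [h0]; intro e he; simp at he
    | succ j => exact (h j).2.2.1
  obtain ⟨δ, hδ, j0, hj0⟩ := analytic hκ h0 h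
  obtain ⟨D, hD⟩ := deg_bound δ hδ
  have hdeg : ∀ j x, dg (U j) x ≤ D := by
    intro j x
    have h1 : dg (U (max j j0)) x ≤ D :=
      hD ℕ (U (max j j0)) (hnl _) (hcyc _) (hj0 _ (le_max_right _ _)) x
    refine le_trans ?_ h1
    exact Finset.card_le_card (Finset.filter_subset_filter _ (hmono _ _ (le_max_left _ _)))
  have hCh : Ch U D :=
    { mono := hmono1
      nl := hnl
      cyc := hcyc
      deg := hdeg
      unb := fun M => ⟨M, (Nat.lt_two_pow_self).le.trans (Zf_unbounded h M)⟩ }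
  obtain ⟨m1, hm1⟩ := exists_pow_lt_of_lt_one (show 0 < δ / 4 by positivity)
    (show (1 / 2 : ℝ) < 1 by norm_num)
  set ε : ℝ := δ / (4 * (m1 + 1)) with hε
  have hεpos : 0 < ε := by positivity
  have hm1ε : m1 * ε ≤ δ / 4 := by
    rw [hε]
    have : (m1 : ℝ) * (δ / (4 * (m1 + 1))) = (δ / 4) * (m1 / (m1 + 1)) := by
      field_simp
    rw [this]
    have h2 : (m1 : ℝ) / (m1 + 1) ≤ 1 := by
      rw [div_le_one (by positivity)]; linarith
    nlinarith
  obtain ⟨ρ, hρ⟩ := window hCh ε hεpos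
  obtain ⟨m2, hm2⟩ := thin_mech ρ (δ / 2) (by positivity)
  choose nx hnx1 hnx2 using hρ
  let st : ℕ → ℕ := fun a => Nat.rec 0 (fun _ t => nx t) a
  have hst : ∀ a, st (a + 1) = nx (st a) := fun a => rfl
  have hstmono : Monotone st := monotone_nat_of_le_succ fun a => by rw [hst]; exact hnx1 _
  have hUst : ∀ a b, a ≤ b → U (st a) ⊆ U (st b) := fun a b hab => hmono _ _ (hstmono hab)
  have hW : ∀ a, ThinW U ρ (st a) (st (a + 1)) ∨ ThickW U ε (st a) (st (a + 1)) :=
    fun a => hnx2 (st a)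
  by_cases hfr : ∃ᶠ a in atTop, ThickW U ε (st a) (st (a + 1))
  · obtain ⟨φ, hφ, hP⟩ := Filter.extraction_of_frequently_atTop hfr
    choose e he1 he2 he3 using hP
    set J := max (st (φ m1)) j0 with hJ
    have hφlt : ∀ a b, a < b → φ a + 1 ≤ φ b := fun a b hab => hφ hab
    have hle : ∀ a < m1, st (φ a + 1) ≤ J := fun a ha =>
      (hstmono (hφlt a m1 ha)).trans (le_max_left _ _)
    have key := thick_mech (hnl J) m1 ε hεpos.le e (fun a => U (st (φ a + 1)))
      (fun a ha => ⟨hmono _ _ (hle a ha), he1 a, he3 a J (hle a ha)⟩)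
      (fun a b hab hb hmem => he2 b (hUst _ _ (hφlt a b hab) hmem))
    have h1 := hj0 J (le_max_right _ _)
    have h2 : (0:ℝ) < (Zf (U J)).card := by exact_mod_cast Zf_card_pos (U J)
    nlinarith
  · have hfr2 : ∃ᶠ a in atTop, ThinW U ρ (st a) (st (a + 1)) := by
      rw [Filter.not_frequently] at hfr
      exact (hfr.mono fun a ha => (hW a).resolve_right ha).frequently
    obtain ⟨φ, hφ, hP⟩ := Filter.extraction_of_frequently_atTop hfr2
    choose Dd hD1 hD2 hD3 hD4 hD5 using hP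
    choose C hC1 hC2 hC3 using hD4
    set J := max (st (φ m2)) j0 with hJ
    have hφlt : ∀ a b, a < b → φ a + 1 ≤ φ b := fun a b hab => hφ hab
    have hle : ∀ a < m2, st (φ a + 1) ≤ J := fun a ha =>
      (hstmono (hφlt a m2 ha)).trans (le_max_left _ _)
    have key := hm2 ℕ (U J) (hnl J) Dd (fun a => U (st (φ a + 1))) C
      (fun a ha => ⟨hmono _ _ (hle a ha), hD2 a J, hD3 a J, hC1 a, hC2 a, hC3 a,
        hD5 a J (hle a ha)⟩)
      (fun a b hab hb e he x hx => hD1 b e (hUst _ _ (hφlt a b hab) he) x hx)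
    have h1 := hj0 J (le_max_right _ _)
    have h2 : (0:ℝ) < (Zf (U J)).card := by exact_mod_cast Zf_card_pos (U J)
    nlinarith

end Jia
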