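import Pool.Agent.Helper826.Jia.C1

set_option autoImplicit false

namespace Jia
open Finset
open scoped symmDiff
variable {V : Type*} [DecidableEq V]


theorem dg_mono {z C : Finset (Sym2 V)} (h : z ⊆ C) (x : V) : dg z x ≤ dg C x :=
  card_le_card (filter_subset_filter _ h)

theorem dg_ne_zero {z : Finset (Sym2 V)} {e : Sym2 V} (he : e ∈ z) {x : V} (hx : x ∈ e) :
    dg z x ≠ 0 := by
  unfold dg
  exact (card_pos.2 ⟨e, mem_filter.2 ⟨he, hx⟩⟩).ne'

theorem Zf_cyc {C z : Finset (Sym2 V)} (hC : IsCyc C) (hz : z ∈ Zf C) : z = ∅ ∨ z = C := by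
  rw [mem_Zf] at hz
  obtain ⟨hzC, hev⟩ := hz
  obtain ⟨-, h2, -, -⟩ := cyc_ev hC
  have key : ∀ x, dg z x ≠ 0 → ∀ e ∈ C, x ∈ e → e ∈ z := by
    intro x hx e he hxe
    have h3 : dg z x = 2 := by
      have h4 := hev x
      have h5 := (dg_mono hzC x).trans (h2 x)
      rcases h4 with ⟨k, hk⟩
      omega
    have h6 : z.filter (fun e => x ∈ e) = C.filter (fun e => x ∈ e) := by
      apply eq_of_subset_of_card_le (filter_subset_filter _ hzC)
      have h7 : dg C x ≤ dg z x := by rw [h3]; exact h2 x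
      exact h7
    have h8 : e ∈ C.filter (fun e => x ∈ e) := mem_filter.2 ⟨he, hxe⟩
    rw [← h6] at h8
    exact (mem_filter.1 h8).1
  have hex : ∀ e : Sym2 V, ∃ x, x ∈ e := by
    intro e
    induction e using Sym2.ind with
    | _ a b => exact ⟨a, Sym2.mem_mk_left a b⟩
  rcases cyc_conn hC {x | dg z x ≠ 0} (by
    intro e he
    by_cases hez : e ∈ z
    · left
      intro x hx
      exact dg_ne_zero hez hx
    · right
      intro x hx hxD
      exact hez (key x hxD e he hx)) with h | h
  · right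
    apply Subset.antisymm hzC
    intro e he
    obtain ⟨x, hx⟩ := hex e
    exact key x (h e he x hx) e he hx
  · left
    rw [eq_empty_iff_forall_notMem]
    intro e he
    obtain ⟨x, hx⟩ := hex e
    exact h e (hzC he) x hx (dg_ne_zero he hx)

theorem Zf_cyc_erase {C : Finset (Sym2 V)} (hC : IsCyc C) {e : Sym2 V} (he : e ∈ C) :
    (Zf (C.erase e)).card = 1 := by
  have : Zf (C.erase e) = {∅} := by
    ext z
    rw [mem_singleton]
    constructor
    · intro hz
      rcases Zf_cyc hC (Zf_mono (erase_subset e C) hz) with h | h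
      · exact h
      · exfalso
        rw [mem_Zf] at hz
        have := hz.1 (by rw [h]; exact he)
        exact (notMem_erase e C) this
    · rintro rfl
      exact empty_mem_Zf _
  rw [this, card_singleton]

theorem Zf_union_le (A T : Finset (Sym2 V)) : (Zf (A ∪ T)).card ≤ 2 ^ T.card * (Zf A).card := by
  induction T using Finset.induction_on with
  | empty => simp
  | insert e T he ih =>
    have h1 := Zf_erase_le (A ∪ insert e T) e
    have h2 : (Zf ((A ∪ insert e T).erase e)).card ≤ (Zf (A ∪ T)).card := by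
      apply card_le_card
      apply Zf_mono
      intro x hx
      rw [mem_erase, mem_union, mem_insert] at hx
      rw [mem_union]
      tauto
    rw [card_insert_of_notMem he, pow_succ]
    nlinarith

/-- deleting all edges outside a cycle and one edge of the cycle leaves no even set -/
theorem Zf_le_of_cycle {G C : Finset (Sym2 V)} (hC : IsCyc C) (hCG : C ⊆ G) :
    (Zf G).card ≤ 2 ^ (G.card - C.card + 1) := by
  obtain ⟨-, -, -, e, he⟩ := cyc_ev hC
  have h1 := Zf_union_le (C.erase e) (G \ C.erase e)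
  have h2 : C.erase e ∪ (G \ C.erase e) = G := by
    rw [union_sdiff_of_subset]
    exact (erase_subset e C).trans hCG
  rw [h2, Zf_cyc_erase hC he, mul_one] at h1
  have h3 : (G \ C.erase e).card = G.card - C.card + 1 := by
    rw [card_sdiff_of_subset ((erase_subset e C).trans hCG), card_erase_of_mem he]
    have h4 := card_le_card hCG
    have h5 : 0 < C.card := card_pos.2 ⟨e, he⟩
    omega
  rwa [h3] at h1

/-- cosets of `Zf H` realise few sizes -/
theorem coset_bound {G H : Finset (Sym2 V)} (hHG : H ⊆ G) :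
    (Zf H).card * ((Zf G).image Finset.card).card ≤ (Zf G).card * (H.card + 1) := by
  classical
  have h1 : (Zf H).card * ((Zf G).image (fun z => z \ H)).card ≤ (Zf G).card := by
    apply Finset.mul_card_image_le_card
    intro b hb
    rw [mem_image] at hb
    obtain ⟨w, hw, rfl⟩ := hb
    apply card_le_card_of_injOn (fun u => w ∆ u)
    · intro u hu
      have hu' : u ∈ Zf H := hu
      have huG := Zf_mono hHG hu'
      have hm : w ∆ u ∈ (Zf G).filter (fun a => a \ H = w \ H) := by
        rw [mem_filter]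
        refine ⟨Zf_symmDiff hw huG, ?_⟩
        ext x
        have hux : x ∈ u → x ∈ H := fun h => (mem_Zf.1 hu').1 h
        rw [mem_sdiff, mem_sdiff, mem_symmDiff]
        tauto
      exact hm
    · intro u _ u' _ h
      exact symmDiff_right_injective w h
  have h2 : ((Zf G).image Finset.card).card ≤ ((Zf G).image (fun z => z \ H)).card * (H.card + 1) := by
    have h3 : (Zf G).image Finset.card ⊆ (((Zf G).image (fun z => z \ H)) ×ˢ range (H.card + 1)).image
        (fun p => p.1.card + p.2) := by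
      intro k hk
      rw [mem_image] at hk
      obtain ⟨z, hz, rfl⟩ := hk
      rw [mem_image]
      refine ⟨(z \ H, (z ∩ H).card), ?_, ?_⟩
      · rw [mem_product]
        refine ⟨mem_image_of_mem _ hz, ?_⟩
        rw [mem_range]
        exact Nat.lt_succ_of_le (card_le_card inter_subset_right)
      · exact card_sdiff_add_card_inter z H
    calc ((Zf G).image Finset.card).card ≤ _ := card_le_card h3
      _ ≤ (((Zf G).image (fun z => z \ H)) ×ˢ range (H.card + 1)).card := card_image_le
      _ = _ := by rw [card_product, card_range]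
  calc (Zf H).card * ((Zf G).image Finset.card).card
      ≤ (Zf H).card * (((Zf G).image (fun z => z \ H)).card * (H.card + 1)) := Nat.mul_le_mul_left _ h2
    _ = ((Zf H).card * ((Zf G).image (fun z => z \ H)).card) * (H.card + 1) := by ring
    _ ≤ (Zf G).card * (H.card + 1) := Nat.mul_le_mul_right _ h1

/-- the combination -/
theorem kappa_bound {G : Finset (Sym2 V)} {n : ℕ} (hn : 4 ≤ n) {C : ℝ}
    (hG : (G.card : ℝ) ≤ n + Real.logb 2 n + C)
    (hcyc : ∀ k, 3 ≤ k → k ≤ n → ∃ Z ⊆ G, IsCyc Z ∧ Z.card = k) :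
    ∀ H ⊆ G, ((Zf H).card : ℝ) ≤ (2 : ℝ) ^ (C + 2) * (H.card + 1) := by
  intro H hH
  obtain ⟨Z, hZG, hZ, hZn⟩ := hcyc n (by omega) le_rfl
  have h1 := Zf_le_of_cycle hZ hZG
  have hnG : n ≤ G.card := by rw [← hZn]; exact card_le_card hZG
  have hnpos : (0 : ℝ) < n := by
    have : 0 < n := by omega
    exact_mod_cast this
  have h2 : ((Zf G).card : ℝ) ≤ n * (2 : ℝ) ^ (C + 1) := by
    have h3 : ((Zf G).card : ℝ) ≤ (2 : ℝ) ^ (G.card - Z.card + 1) := by exact_mod_cast h1
    refine h3.trans ?_
    have h4 : (2 : ℝ) ^ (G.card - Z.card + 1) = (2 : ℝ) ^ ((G.card : ℝ) - n + 1) := by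
      rw [← Real.rpow_natCast, hZn]
      congr 1
      push_cast [Nat.cast_sub hnG]
      ring
    rw [h4]
    have h5 : (2 : ℝ) ^ ((G.card : ℝ) - n + 1) ≤ (2 : ℝ) ^ (Real.logb 2 n + (C + 1)) := by
      apply Real.rpow_le_rpow_of_exponent_le (by norm_num)
      linarith
    refine h5.trans (le_of_eq ?_)
    rw [Real.rpow_add (by norm_num), Real.rpow_logb (by norm_num) (by norm_num) hnpos]
  have h6 := coset_bound hH
  have h7 : n - 2 ≤ ((Zf G).image Finset.card).card := by
    have h8 : Icc 3 n ⊆ (Zf G).image Finset.card := by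
      intro k hk
      rw [mem_Icc] at hk
      obtain ⟨Y, hYG, hY, hYk⟩ := hcyc k hk.1 hk.2
      rw [mem_image]
      exact ⟨Y, mem_Zf.2 ⟨hYG, (cyc_ev hY).1⟩, hYk⟩
    have h9 := card_le_card h8
    rw [Nat.card_Icc] at h9
    omega
  have h10 : ((Zf H).card : ℝ) * ((n : ℝ) - 2) ≤ (n * (2 : ℝ) ^ (C + 1)) * (H.card + 1) := by
    have a1 : ((Zf H).card : ℝ) * (((Zf G).image Finset.card).card : ℝ) ≤
        ((Zf G).card : ℝ) * (H.card + 1) := by exact_mod_cast h6
    have a2 : (n : ℝ) - 2 ≤ (((Zf G).image Finset.card).card : ℝ) := by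
      have : ((n - 2 : ℕ) : ℝ) ≤ (((Zf G).image Finset.card).card : ℝ) := by exact_mod_cast h7
      rw [Nat.cast_sub (by omega)] at this
      exact_mod_cast this
    calc ((Zf H).card : ℝ) * ((n : ℝ) - 2) ≤ ((Zf H).card : ℝ) * (((Zf G).image Finset.card).card : ℝ) :=
          mul_le_mul_of_nonneg_left a2 (by positivity)
      _ ≤ _ := a1
      _ ≤ _ := mul_le_mul_of_nonneg_right h2 (by positivity)
  have hn4 : (4 : ℝ) ≤ n := by exact_mod_cast hn
  have h11 : (2 : ℝ) ^ (C + 2) = 2 * (2 : ℝ) ^ (C + 1) := by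
    rw [show C + 2 = (C + 1) + 1 by ring, Real.rpow_add (by norm_num), Real.rpow_one]
    ring
  rw [h11]
  have h12 : (0 : ℝ) < (2 : ℝ) ^ (C + 1) := by positivity
  have h13 : (0 : ℝ) ≤ (2 : ℝ) ^ (C + 1) * (H.card + 1) := by positivity
  have h14 : ((Zf H).card : ℝ) * ((n : ℝ) - 2) ≤ (2 * (2 : ℝ) ^ (C + 1) * (H.card + 1)) * ((n : ℝ) - 2) := by
    nlinarith
  exact le_of_mul_le_mul_right h14 (by linarith)

end Jia
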