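import Pool.Agent.Helper826.Jia.C1

set_option autoImplicit false

namespace Jia
open Finset
open scoped symmDiff


theorem dg_image {V W : Type*} [DecidableEq V] [DecidableEq W] {f : V → W}
    (hf : Function.Injective f) (z : Finset (Sym2 V)) (v : V) :
    dg (z.image (Sym2.map f)) (f v) = dg z v := by
  unfold dg
  rw [Finset.filter_image, card_image_of_injective _ (Sym2.map.injective hf)]
  congr 1
  ext e
  simp only [mem_filter, Sym2.mem_map]
  constructor
  · rintro ⟨h1, a, ha, hav⟩
    rw [hf hav] at ha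
    exact ⟨h1, ha⟩
  · rintro ⟨h1, h2⟩
    exact ⟨h1, v, h2, rfl⟩

theorem isEv_image {V W : Type*} [DecidableEq V] [DecidableEq W] {f : V → W}
    (hf : Function.Injective f) (z : Finset (Sym2 V)) :
    IsEv (z.image (Sym2.map f)) ↔ IsEv z := by
  constructor
  · intro h v
    rw [← dg_image hf z v]
    exact h (f v)
  · intro h w
    by_cases hw : ∃ v, f v = w
    · obtain ⟨v, rfl⟩ := hw
      rw [dg_image hf z v]
      exact h v
    · have : dg (z.image (Sym2.map f)) w = 0 := by
        unfold dg
        rw [card_eq_zero]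
        apply eq_empty_of_forall_notMem
        intro e he
        rw [mem_filter, mem_image] at he
        obtain ⟨⟨e0, -, rfl⟩, he2⟩ := he
        rw [Sym2.mem_map] at he2
        obtain ⟨a, -, ha⟩ := he2
        exact hw ⟨a, ha⟩
      rw [this]
      exact Even.zero

theorem image_left_inv {V W : Type*} [DecidableEq V] [DecidableEq W] {f : V → W} {g : W → V}
    (hg : Function.LeftInverse g f) (z : Finset (Sym2 V)) :
    (z.image (Sym2.map f)).image (Sym2.map g) = z := by
  rw [image_image]
  have : (Sym2.map g ∘ Sym2.map f) = id := by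
    rw [← Sym2.map_comp]
    have : g ∘ f = id := funext hg
    rw [this, Sym2.map_id]
  rw [this, image_id]

theorem isCyc_image {V W : Type*} [DecidableEq V] [DecidableEq W] {f : V → W}
    (hf : Function.Injective f) (z : Finset (Sym2 V)) :
    IsCyc (z.image (Sym2.map f)) ↔ IsCyc z := by
  constructor
  · intro h
    obtain ⟨e, he⟩ := (cyc_ev h).2.2.2
    rw [mem_image] at he
    obtain ⟨e0, he0, -⟩ := he
    haveI : Nonempty V := by
      induction e0 with | _ a b => exact ⟨a⟩
    have hg : Function.LeftInverse (Function.invFun f) f := Function.leftInverse_invFun hf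
    have h2 := cyc_map (f := Function.invFun f) h (by
      rintro x ⟨e, he, hx⟩ y ⟨e', he', hy⟩ hxy
      rw [mem_image] at he he'
      obtain ⟨e1, -, rfl⟩ := he
      obtain ⟨e2, -, rfl⟩ := he'
      rw [Sym2.mem_map] at hx hy
      obtain ⟨a, -, rfl⟩ := hx
      obtain ⟨b, -, rfl⟩ := hy
      rw [hg a, hg b] at hxy
      rw [hxy])
    rwa [image_left_inv hg] at h2
  · intro h
    exact cyc_map h (hf.injOn)

theorem Zf_image {V W : Type*} [DecidableEq V] [DecidableEq W] {f : V → W}
    (hf : Function.Injective f) (A : Finset (Sym2 V)) :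
    Zf (A.image (Sym2.map f)) = (Zf A).image (fun z => z.image (Sym2.map f)) := by
  ext z
  rw [mem_Zf, mem_image]
  constructor
  · rintro ⟨h1, h2⟩
    obtain ⟨z0, hz0, rfl⟩ := subset_image_iff.mp h1
    exact ⟨z0, mem_Zf.mpr ⟨hz0, (isEv_image hf z0).mp h2⟩, rfl⟩
  · rintro ⟨z0, hz0, rfl⟩
    rw [mem_Zf] at hz0
    exact ⟨image_subset_image hz0.1, (isEv_image hf z0).mpr hz0.2⟩

theorem Cf_image {V W : Type*} [DecidableEq V] [DecidableEq W] {f : V → W}
    (hf : Function.Injective f) (A : Finset (Sym2 V)) :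
    Cf (A.image (Sym2.map f)) = (Cf A).image (fun z => z.image (Sym2.map f)) := by
  ext z
  rw [mem_Cf, mem_image]
  constructor
  · rintro ⟨h1, h2⟩
    obtain ⟨z0, hz0, rfl⟩ := subset_image_iff.mp h1
    exact ⟨z0, mem_Cf.mpr ⟨hz0, (isCyc_image hf z0).mp h2⟩, rfl⟩
  · rintro ⟨z0, hz0, rfl⟩
    rw [mem_Cf] at hz0
    exact ⟨image_subset_image hz0.1, (isCyc_image hf z0).mpr hz0.2⟩

/-- relabelling the vertices injectively preserves all the counts -/
theorem card_image_inv {V W : Type*} [DecidableEq V] [DecidableEq W] (f : V → W)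
    (hf : Function.Injective f) (A : Finset (Sym2 V)) :
    (A.image (Sym2.map f)).card = A.card ∧
    (Zf (A.image (Sym2.map f))).card = (Zf A).card ∧
    (Cf (A.image (Sym2.map f))).card = (Cf A).card ∧
    (NL A → NL (A.image (Sym2.map f))) ∧
    ((∀ e ∈ A, ∃ C ∈ Cf A, e ∈ C) →
      ∀ e ∈ A.image (Sym2.map f), ∃ C ∈ Cf (A.image (Sym2.map f)), e ∈ C) := by
  have hF := Sym2.map.injective hf
  have hI : Function.Injective (fun z : Finset (Sym2 V) => z.image (Sym2.map f)) :=
    image_injective hF
  refine ⟨card_image_of_injective _ hF, ?_, ?_, ?_, ?_⟩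
  · rw [Zf_image hf, card_image_of_injective _ hI]
  · rw [Cf_image hf, card_image_of_injective _ hI]
  · intro h e he
    rw [mem_image] at he
    obtain ⟨e0, he0, rfl⟩ := he
    rw [Sym2.isDiag_map hf]
    exact h e0 he0
  · intro h e he
    rw [mem_image] at he
    obtain ⟨e0, he0, rfl⟩ := he
    obtain ⟨C, hC, heC⟩ := h e0 he0
    refine ⟨C.image (Sym2.map f), ?_, mem_image_of_mem _ heC⟩
    rw [Cf_image hf]
    exact mem_image_of_mem _ hC

end Jia
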