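import Pool.Agent.Helper826.Jia.C1
import Pool.Agent.Helper826.Jia.P3
import Pool.Agent.Helper826.Jia.St

set_option autoImplicit false

namespace Jia
open Finset
open scoped symmDiff

/-- the vertices on the edges of `A` -/
def jvs {V : Type*} [DecidableEq V] (A : Finset (Sym2 V)) : Finset V :=
  A.biUnion Sym2.toFinset

theorem mem_jvs {V : Type*} [DecidableEq V] {A : Finset (Sym2 V)} {x : V} :
    x ∈ jvs A ↔ ∃ e ∈ A, x ∈ e := by
  simp [jvs]

theorem card_jvs_le {V : Type*} [DecidableEq V] (A : Finset (Sym2 V)) :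
    (jvs A).card ≤ A.card * 2 := by
  apply card_biUnion_le_card_mul
  intro e _
  rw [Sym2.card_toFinset]
  split_ifs <;> omega

theorem Stp.image {κ : ℝ} {V W : Type*} [DecidableEq V] [DecidableEq W] {A B : Finset (Sym2 V)}
    (h : Stp κ A B) (f : V → W) (hf : Function.Injective f) :
    Stp κ (A.image (Sym2.map f)) (B.image (Sym2.map f)) := by
  obtain ⟨a1, a2, a3, a4, a5⟩ := card_image_inv f hf A
  obtain ⟨b1, b2, b3, b4, b5⟩ := card_image_inv f hf B
  obtain ⟨h1, h2, h3, h4, h5, h6, h7⟩ := h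
  refine ⟨image_subset_image h1, b4 h2, b5 h3, ?_, ?_, ?_, ?_⟩
  · rw [a1, b1]; exact h4
  · rw [a1, b1, a3]; exact h5
  · rw [a2, b2]; exact h6
  · rw [a1, a2]; exact h7

/-- an injection adapted to an increasing chain of sets -/
theorem exists_adapted {N J : ℕ} (W : ℕ → Finset (Fin N))
    (hmono : ∀ i j, i ≤ j → j ≤ J → W i ⊆ W j) :
    ∃ f : Fin N → ℕ, Function.Injective f ∧ ∀ j ≤ J, ∀ x ∈ W j, f x < (W j).card := by
  classical
  have hrk : ∃ rk : Fin N → ℕ, ∀ x, ∀ j ≤ J, (rk x ≤ j ↔ x ∈ W j) := by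
    refine ⟨fun x => if h : ∃ j, j ≤ J ∧ x ∈ W j then Nat.find h else J + 1, ?_⟩
    intro x j hj
    dsimp only
    split_ifs with h
    · constructor
      · intro hle
        exact hmono _ _ hle hj (Nat.find_spec h).2
      · intro hx
        exact Nat.find_min' h ⟨hj, hx⟩
    · constructor
      · intro hle
        omega
      · intro hx
        exact absurd ⟨j, hj, hx⟩ h
  obtain ⟨rk, hrk⟩ := hrk
  let key : Fin N → ℕ := fun x => rk x * N + x.val
  have hkey : ∀ x y, key y < key x → rk y ≤ rk x := by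
    intro x y hxy
    by_contra hcon
    have h1 : rk x + 1 ≤ rk y := by omega
    have h2 : (rk x + 1) * N ≤ rk y * N := Nat.mul_le_mul_right N h1
    have h3 := x.isLt
    simp only [key] at hxy
    have h4 : (rk x + 1) * N = rk x * N + N := by ring
    omega
  have hkinj : Function.Injective key := by
    intro x y hxy
    have hr : rk x = rk y := by
      rcases lt_trichotomy (rk x) (rk y) with h | h | h
      · have h2 : (rk x + 1) * N ≤ rk y * N := Nat.mul_le_mul_right N h
        have h3 := x.isLt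
        simp only [key] at hxy
        have h4 : (rk x + 1) * N = rk x * N + N := by ring
        omega
      · exact h
      · have h2 : (rk y + 1) * N ≤ rk x * N := Nat.mul_le_mul_right N h
        have h3 := y.isLt
        simp only [key] at hxy
        have h4 : (rk y + 1) * N = rk y * N + N := by ring
        omega
    simp only [key] at hxy
    rw [hr] at hxy
    exact Fin.ext (by omega)
  let f : Fin N → ℕ := fun x => (univ.filter (fun y => key y < key x)).card
  have hf : ∀ x y, key x < key y → f x < f y := by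
    intro x y hxy
    apply card_lt_card
    rw [Finset.ssubset_iff_of_subset]
    · refine ⟨x, ?_, ?_⟩
      · simp only [mem_filter, mem_univ, true_and]
        exact hxy
      · simp
    · intro z hz
      simp only [mem_filter, mem_univ, true_and] at hz ⊢
      omega
  refine ⟨f, ?_, ?_⟩
  · intro x y hxy
    rcases lt_trichotomy (key x) (key y) with h | h | h
    · have := hf x y h
      omega
    · exact hkinj h
    · have := hf y x h
      omega
  · intro j hj x hx
    apply card_lt_card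
    rw [Finset.ssubset_iff_of_subset]
    · refine ⟨x, hx, ?_⟩
      simp
    · intro z hz
      simp only [mem_filter, mem_univ, true_and] at hz
      have h1 := hkey x z hz
      have h2 := (hrk x j hj).2 hx
      exact (hrk z j hj).1 (h1.trans h2)

/-- a finite chain can be relabelled so that the vertices of the `j`-th member are small -/
theorem relabel {κ : ℝ} {N J : ℕ} {U : ℕ → Finset (Sym2 (Fin N))} (h0 : U 0 = ∅)
    (h : ∀ j < J, Stp κ (U j) (U (j + 1))) :
    ∃ U' : ℕ → Finset (Sym2 ℕ), U' 0 = ∅ ∧ (∀ j < J, Stp κ (U' j) (U' (j + 1))) ∧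
      ∀ j ≤ J, ∀ e ∈ U' j, ∀ x ∈ e, x < 6 * 2 ^ j := by
  classical
  have hmono : ∀ i j, i ≤ j → j ≤ J → U i ⊆ U j := by
    intro i j hij
    induction j, hij using Nat.le_induction with
    | base => intro _; exact Subset.refl _
    | succ j hij ih =>
      intro hj
      exact (ih (by omega)).trans (h j (by omega)).1
  have hcard : ∀ j ≤ J, (U j).card + 3 ≤ 3 * 2 ^ j := by
    intro j
    induction j with
    | zero => intro _; rw [h0]; simp
    | succ j ih =>
      intro hj
      have h1 := ih (by omega)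
      have h2 := (h j (by omega)).2.2.2.1
      rw [pow_succ]
      omega
  have hWmono : ∀ i j, i ≤ j → j ≤ J → jvs (U i) ⊆ jvs (U j) := by
    intro i j hij hj x hx
    rw [mem_jvs] at hx ⊢
    obtain ⟨e, he, hxe⟩ := hx
    exact ⟨e, hmono i j hij hj he, hxe⟩
  obtain ⟨f, hfinj, hf⟩ := exists_adapted (fun j => jvs (U j)) hWmono
  refine ⟨fun j => (U j).image (Sym2.map f), ?_, ?_, ?_⟩
  · show (U 0).image (Sym2.map f) = ∅
    rw [h0]
    exact image_empty _
  · intro j hj
    exact (h j hj).image f hfinj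
  · intro j hj e he x hx
    obtain ⟨e', he', rfl⟩ := mem_image.1 he
    obtain ⟨y, hy, rfl⟩ := Sym2.mem_map.1 hx
    have h1 : f y < (jvs (U j)).card := hf j hj y (mem_jvs.2 ⟨e', he', hy⟩)
    have h2 := card_jvs_le (U j)
    have h3 := hcard j hj
    omega

/-- compactness: an infinite chain -/
theorem limit_chain {κ : ℝ}
    (h : ∀ J : ℕ, ∃ (N : ℕ) (U : ℕ → Finset (Sym2 (Fin N))), U 0 = ∅ ∧ ∀ j < J, Stp κ (U j) (U (j + 1))) :
    ∃ U : ℕ → Finset (Sym2 ℕ), U 0 = ∅ ∧ ∀ j, Stp κ (U j) (U (j + 1)) := by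
  classical
  have hU : ∀ J : ℕ, ∃ U' : ℕ → Finset (Sym2 ℕ), U' 0 = ∅ ∧
      (∀ j < J, Stp κ (U' j) (U' (j + 1))) ∧ ∀ j ≤ J, ∀ e ∈ U' j, ∀ x ∈ e, x < 6 * 2 ^ j := by
    intro J
    obtain ⟨N, U, hU0, hUs⟩ := h J
    exact relabel hU0 hUs
  choose U' hU'0 hU's hU'b using hU
  have hlim : ∀ j : ℕ, ∃ A : Finset (Sym2 ℕ),
      ∀ᶠ J in (Filter.hyperfilter ℕ : Filter ℕ), U' J j = A := by
    intro j
    have hfin : (((range (6 * 2 ^ j)).sym2.powerset : Finset (Finset (Sym2 ℕ))) :
        Set (Finset (Sym2 ℕ))).Finite := Finset.finite_toSet _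
    have h1 : ∀ᶠ J in (Filter.hyperfilter ℕ : Filter ℕ),
        ∃ A ∈ (((range (6 * 2 ^ j)).sym2.powerset : Finset (Finset (Sym2 ℕ))) :
          Set (Finset (Sym2 ℕ))), U' J j = A := by
      have h2 : ∀ᶠ J in (Filter.hyperfilter ℕ : Filter ℕ), j ≤ J :=
        Filter.Eventually.filter_mono Nat.hyperfilter_le_atTop (Filter.eventually_ge_atTop j)
      filter_upwards [h2] with J hJ
      refine ⟨U' J j, ?_, rfl⟩
      rw [Finset.mem_coe, Finset.mem_powerset]
      intro e he
      rw [Finset.mem_sym2_iff]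
      intro x hx
      exact mem_range.2 (hU'b J j hJ e he x hx)
    obtain ⟨A, _, hA⟩ := (Ultrafilter.eventually_exists_mem_iff hfin).1 h1
    exact ⟨A, hA⟩
  choose U hUlim using hlim
  refine ⟨U, ?_, ?_⟩
  · obtain ⟨J, hJ⟩ := (hUlim 0).exists
    rw [← hJ, hU'0]
  · intro j
    have h2 : ∀ᶠ J in (Filter.hyperfilter ℕ : Filter ℕ), j + 1 ≤ J :=
      Filter.Eventually.filter_mono Nat.hyperfilter_le_atTop (Filter.eventually_ge_atTop (j + 1))
    obtain ⟨J, hJ1, hJ2, hJ3⟩ := ((hUlim j).and ((hUlim (j + 1)).and h2)).exists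
    rw [← hJ1, ← hJ2]
    exact hU's J j hJ3

end Jia
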