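import Pool.Agent.Helper826.Jia.C1
import Pool.Agent.Helper826.Jia.P1
import Pool.Agent.Helper826.Jia.P2
import Pool.Agent.Helper826.Jia.P4
import Pool.Agent.Helper826.Jia.F1

set_option autoImplicit false

namespace Jia
open Finset Filter
open scoped symmDiff

/-- For every constant `C`, if `n` is large then every finite simple graph with cycles of all
lengths `3, …, n` has more than `n + log₂ n + C` edges. -/
theorem core (C : ℝ) : ∃ n0 : ℕ, ∀ n ≥ n0, ∀ (N : ℕ) (G : SimpleGraph (Fin N)),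
    (∀ k : ℕ, 3 ≤ k → k ≤ n → ∃ (v : Fin N) (p : G.Walk v v), p.IsCycle ∧ p.length = k) →
    (n : ℝ) + Real.logb 2 n + C < (G.edgeSet.ncard : ℝ) := by
  classical
  by_contra hcon
  push Not at hcon
  have hch : ∀ J : ℕ, ∃ (N : ℕ) (U : ℕ → Finset (Sym2 (Fin N))), U 0 = ∅ ∧
      ∀ j < J, Stp ((2 : ℝ) ^ (C + 2)) (U j) (U (j + 1)) := by
    intro J
    obtain ⟨n, hn, N, G, hA, hle⟩ := hcon (max 4 (3 * 2 ^ J))
    have hn4 : 4 ≤ n := le_trans (le_max_left _ _) hn
    have hnJ : 3 * 2 ^ J ≤ n := le_trans (le_max_right _ _) hn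
    set E : Finset (Sym2 (Fin N)) := (Set.toFinite G.edgeSet).toFinset with hE
    have hEc : E.card = G.edgeSet.ncard := by
      rw [Set.ncard_eq_toFinset_card G.edgeSet (Set.toFinite G.edgeSet)]
    have hcyc : ∀ k, 3 ≤ k → k ≤ n → ∃ Z ⊆ E, IsCyc Z ∧ Z.card = k := by
      intro k hk hkn
      obtain ⟨v, p, hp, hpl⟩ := hA k hk hkn
      obtain ⟨h1, h2, h3⟩ := cyc_of_walk p hp
      refine ⟨p.edges.toFinset, ?_, h1, h2.trans hpl⟩
      intro e he
      rw [hE, Set.Finite.mem_toFinset]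
      exact h3 e he
    have hcard : (E.card : ℝ) ≤ n + Real.logb 2 n + C := by
      rw [hEc]; exact hle
    have hκ := kappa_bound hn4 hcard hcyc
    obtain ⟨U, hU⟩ := chain_exists hcyc hκ J hnJ
    exact ⟨N, U, hU⟩
  obtain ⟨U, h0, hU⟩ := limit_chain hch
  exact contra (by positivity) h0 hU

end Jia
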