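import Mathlib


set_option autoImplicit false

namespace Jia
open Finset
open scoped symmDiff

variable {V : Type*} [DecidableEq V]

/-- number of edges of `z` at `v` -/
def dg (z : Finset (Sym2 V)) (v : V) : ℕ := (z.filter (fun e => v ∈ e)).card

/-- even edge set -/
def IsEv (z : Finset (Sym2 V)) : Prop := ∀ v, Even (dg z v)

/-- `z` is a join of `u` and `v`: the odd vertices are exactly `u` and `v` (none if `u = v`) -/
def IsJn (z : Finset (Sym2 V)) (u v : V) : Prop := ∀ x, Odd (dg z x) ↔ ¬ (x = u ↔ x = v)

/-- no loops -/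
def NL (E : Finset (Sym2 V)) : Prop := ∀ e ∈ E, ¬ e.IsDiag

open Classical in
/-- all even subsets of `E` -/
noncomputable def Zf (E : Finset (Sym2 V)) : Finset (Finset (Sym2 V)) :=
  E.powerset.filter (fun z => IsEv z)

omit [DecidableEq V] in
/-- edge set of a cycle -/
def IsCyc (C : Finset (Sym2 V)) : Prop :=
  ∃ (v : V) (p : (⊤ : SimpleGraph V).Walk v v), p.IsCycle ∧ ∀ e, e ∈ C ↔ e ∈ p.edges

open Classical in
/-- all cycles contained in `E` -/
noncomputable def Cf (E : Finset (Sym2 V)) : Finset (Finset (Sym2 V)) :=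
  E.powerset.filter (fun z => IsCyc z)

/-- edges of `K` with both ends in `S` -/
def rs (K : Finset (Sym2 V)) (S : Finset V) : Finset (Sym2 V) :=
  K.filter (fun e => e ∈ S.sym2)

/-- `Pth K c S v P R`: `P` is the edge set of a path from `v` to `c` inside `S` along edges of `K`,
`R` is the set of vertices of `S` which are not on the path, together with `c`. -/
inductive Pth (K : Finset (Sym2 V)) (c : V) :
    Finset V → V → Finset (Sym2 V) → Finset V → Prop
  | nil (S : Finset V) (h : c ∈ S) : Pth K c S c ∅ S
  | cons (S : Finset V) (v w : V) (P : Finset (Sym2 V)) (R : Finset V)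
      (hv : v ∈ S) (hvc : v ≠ c) (hw : w ∈ S.erase v) (he : s(v, w) ∈ K)
      (h : Pth K c (S.erase v) w P R) : Pth K c S v (insert s(v, w) P) R

/-- bouquets of rooted trees; `out w` is a leaf edge to `w`, `nd f x b` is a node `x` with flag `f`
carrying the bouquet `b`, `br` joins two bouquets at the same owner. -/
inductive BT (V : Type*) where
  | out (w : V) : BT V
  | nd (f : Bool) (x : V) (b : BT V) : BT V
  | br (s t : BT V) : BT V

namespace BT

omit [DecidableEq V] in
/-- all labels -/
def labels : BT V → List V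
  | out w => [w]
  | nd _ x b => x :: labels b
  | br s t => labels s ++ labels t

omit [DecidableEq V] in
/-- labels of the top elements of a bouquet -/
def tops : BT V → List V
  | out w => [w]
  | nd _ x _ => [x]
  | br s t => tops s ++ tops t

omit [DecidableEq V] in
/-- node labels -/
def nodes : BT V → List V
  | out _ => []
  | nd _ x b => x :: nodes b
  | br s t => nodes s ++ nodes t

omit [DecidableEq V] in
/-- pairs (owner, w) of leaf edges, for a bouquet owned by `p` -/
def outs (p : V) : BT V → List (V × V)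
  | out w => [(p, w)]
  | nd _ x b => outs x b
  | br s t => outs p s ++ outs p t

omit [DecidableEq V] in
/-- `Full K p b`: every node `x` of the bouquet `b` owned by `p` has as `K`-neighbours exactly its
owner and the tops of its own bouquet -/
def Full (K : Finset (Sym2 V)) : V → BT V → Prop
  | _, out _ => True
  | p, nd _ x b => (∀ y, s(x, y) ∈ K ↔ (y = p ∨ y ∈ tops b)) ∧ Full K x b
  | p, br s t => Full K p s ∧ Full K p t

end BT

/-- the potential recursion -/
noncomputable def FF (f : Bool) (a b : ℝ) : ℝ := if f then (a + b - a * b) / 2 else 1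

noncomputable def cb (f : Bool) : Option ℝ → Option ℝ → Option ℝ
  | none, y => y
  | some a, none => some a
  | some a, some b => some (FF f a b)

open BT in
/-- value of a bouquet owned by a node with flag `f`, `S` the set of unvisited vertices -/
noncomputable def val (S : Finset V) : Bool → BT V → Option ℝ
  | _, out w => if w ∈ S then some 1 else none
  | _, nd f x b => if x ∈ S then val S f b else none
  | f, br s t => cb f (val S f s) (val S f t)

open BT in
/-- some element hanging at a flagged node is alive -/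
def dirt (S : Finset V) : Bool → BT V → Prop
  | f, out w => f = true ∧ w ∈ S
  | f, nd g x b => (f = true ∧ val S f (nd g x b) ≠ none) ∨ dirt S g b
  | f, br s t => dirt S f s ∨ dirt S f t

omit [DecidableEq V] in
open BT in
/-- probability of an unvisited path to the outside -/
noncomputable def rho : BT V → ℝ
  | out _ => 1
  | nd _ _ b => rho b / 2 ^ ((tops b).length - 1)
  | br s t => rho s + rho t - rho s * rho t

omit [DecidableEq V] in
open BT in
noncomputable def Theta : Bool → BT V → ℝ
  | f, out _ => if f then 1 else 0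
  | f, nd g x b => (if f then rho (nd g x b) else 0) + Theta g b
  | f, br s t => Theta f s + Theta f t

/-! ### basic facts -/

theorem mem_Zf {E z : Finset (Sym2 V)} : z ∈ Zf E ↔ z ⊆ E ∧ IsEv z := by
  simp [Zf]

omit [DecidableEq V] in
theorem mem_Cf {E z : Finset (Sym2 V)} : z ∈ Cf E ↔ z ⊆ E ∧ IsCyc z := by
  simp [Cf]

theorem dg_symmDiff (z w : Finset (Sym2 V)) (v : V) :
    Even (dg (z ∆ w) v) ↔ (Even (dg z v) ↔ Even (dg w v)) := by
  unfold dg
  set a := z.filter (fun e => v ∈ e)
  set b := w.filter (fun e => v ∈ e)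
  have h : (z ∆ w).filter (fun e => v ∈ e) = (a \ b) ∪ (b \ a) := by
    ext e; simp only [a, b, mem_filter, mem_symmDiff, mem_union, mem_sdiff]; tauto
  have hd : Disjoint (a \ b) (b \ a) := by
    rw [Finset.disjoint_left]; intro x hx hy; simp only [mem_sdiff] at hx hy; exact hy.2 hx.1
  rw [h, card_union_of_disjoint hd]
  have h1 : (a \ b).card + (a ∩ b).card = a.card := card_sdiff_add_card_inter a b
  have h2 : (b \ a).card + (b ∩ a).card = b.card := card_sdiff_add_card_inter b a
  rw [inter_comm b a] at h2
  rw [← h1, ← h2]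
  simp only [Nat.even_add]; tauto

theorem IsEv.symmDiff {z w : Finset (Sym2 V)} (hz : IsEv z) (hw : IsEv w) : IsEv (z ∆ w) := by
  intro v; rw [dg_symmDiff]; simp [hz v, hw v]

theorem isEv_empty : IsEv (∅ : Finset (Sym2 V)) := by intro v; simp [dg]

theorem Zf_symmDiff {E z w : Finset (Sym2 V)} (hz : z ∈ Zf E) (hw : w ∈ Zf E) : z ∆ w ∈ Zf E := by
  rw [mem_Zf] at *
  refine ⟨?_, hz.2.symmDiff hw.2⟩
  intro e he
  rw [mem_symmDiff] at he
  rcases he with he | he
  · exact hz.1 he.1
  · exact hw.1 he.1

theorem empty_mem_Zf (E : Finset (Sym2 V)) : ∅ ∈ Zf E := mem_Zf.2 ⟨empty_subset _, isEv_empty⟩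

theorem Zf_mono {E F : Finset (Sym2 V)} (h : E ⊆ F) : Zf E ⊆ Zf F := by
  intro z hz; rw [mem_Zf] at *; exact ⟨hz.1.trans h, hz.2⟩

theorem Zf_card_pos (E : Finset (Sym2 V)) : 0 < (Zf E).card := card_pos.2 ⟨∅, empty_mem_Zf E⟩

theorem Zf_erase {E C : Finset (Sym2 V)} {e : Sym2 V} (hC : C ∈ Zf E) (he : e ∈ C) :
    (Zf E).card = 2 * (Zf (E.erase e)).card := by
  have h1 : Zf (E.erase e) = (Zf E).filter (fun z => e ∉ z) := by
    ext z; simp only [mem_Zf, mem_filter, subset_erase]; tauto
  have h2 : ((Zf E).filter (fun z => e ∈ z)).card = ((Zf E).filter (fun z => ¬ e ∈ z)).card := by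
    apply Finset.card_bij (fun z _ => z ∆ C)
    · intro z hz
      simp only [mem_filter] at hz ⊢
      exact ⟨Zf_symmDiff hz.1 hC, by rw [mem_symmDiff]; tauto⟩
    · intro z _ w _ h
      exact symmDiff_left_injective C h
    · intro z hz
      simp only [mem_filter] at hz
      refine ⟨z ∆ C, ?_, by simp⟩
      simp only [mem_filter]
      exact ⟨Zf_symmDiff hz.1 hC, by rw [mem_symmDiff]; tauto⟩
  have h3 := Finset.card_filter_add_card_filter_not (s := Zf E) (fun z => e ∈ z)
  rw [h1]; omega

theorem Zf_erase_le (E : Finset (Sym2 V)) (e : Sym2 V) :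
    (Zf E).card ≤ 2 * (Zf (E.erase e)).card := by
  by_cases h : ∃ C ∈ Zf E, e ∈ C
  · obtain ⟨C, hC, he⟩ := h
    exact (Zf_erase hC he).le
  · push Not at h
    have : Zf E ⊆ Zf (E.erase e) := by
      intro z hz
      have := h z hz
      rw [mem_Zf] at *
      exact ⟨subset_erase.2 ⟨hz.1, this⟩, hz.2⟩
    have := card_le_card this
    omega

theorem IsJn.symm {z : Finset (Sym2 V)} {u v : V} (h : IsJn z u v) : IsJn z v u := by
  intro x; rw [h x]; tauto

theorem IsJn.trans {z w : Finset (Sym2 V)} {a b c : V} (h : IsJn z a b) (h' : IsJn w b c) :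
    IsJn (z ∆ w) a c := by
  intro x
  have := dg_symmDiff z w x
  have h1 := h x
  have h2 := h' x
  rw [← Nat.not_even_iff_odd] at *
  rw [this]; tauto

theorem isJn_refl (a : V) : IsJn (∅ : Finset (Sym2 V)) a a := by
  intro x; simp [dg]

theorem IsJn.isEv {z w : Finset (Sym2 V)} {a b : V} (h : IsJn z a b) (h' : IsJn w a b) :
    IsEv (z ∆ w) := by
  intro x
  have := dg_symmDiff z w x
  have h1 := h x
  have h2 := h' x
  rw [← Nat.not_even_iff_odd] at *
  rw [this]; tauto

theorem isJn_edge {a b : V} (h : a ≠ b) : IsJn ({s(a, b)} : Finset (Sym2 V)) a b := by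
  intro x
  unfold dg
  by_cases hx : x ∈ s(a, b)
  · have : ({s(a, b)} : Finset (Sym2 V)).filter (fun e => x ∈ e) = {s(a, b)} := by
      ext e; simp only [mem_filter, mem_singleton]
      constructor
      · exact fun h => h.1
      · rintro rfl; exact ⟨rfl, hx⟩
    rw [this]
    simp only [Sym2.mem_iff] at hx
    simp only [card_singleton, odd_one, true_iff]
    rcases hx with rfl | rfl
    · simp [h]
    · simp [h.symm]
  · have : ({s(a, b)} : Finset (Sym2 V)).filter (fun e => x ∈ e) = ∅ := by
      ext e; simp only [mem_filter, mem_singleton, notMem_empty, iff_false]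
      rintro ⟨rfl, h⟩; exact hx h
    rw [this]
    simp only [Sym2.mem_iff, not_or] at hx
    simp [hx.1, hx.2]

end Jia
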