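import Pool.Agent.Helper826.Jia.G1b

set_option autoImplicit false

namespace Jia
open Finset
open scoped symmDiff
variable {V : Type*} [DecidableEq V]

theorem val_bounds (S : Finset V) (f : Bool) (b : BT V) (a : ℝ) (h : val S f b = some a) :
    0 ≤ a ∧ a ≤ 1 := val_bounds_G1b S b f a h

/-- `v` is neither an attached node nor an attached leaf of the bouquet -/
def Clr (S : Finset V) (v : V) : BT V → Prop
  | .out w => w ≠ v
  | .nd _ y b => y ∈ S → (y ≠ v ∧ Clr S v b)
  | .br s t => Clr S v s ∧ Clr S v t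

theorem clr_val {S : Finset V} {v : V} {t : BT V} (h : Clr S v t) :
    ∀ f : Bool, val (S.erase v) f t = val S f t := by
  induction t with
  | out w =>
    intro f
    have hw : w ≠ v := h
    have : w ∈ S.erase v ↔ w ∈ S := by
      rw [Finset.mem_erase]; exact ⟨fun h => h.2, fun h => ⟨hw, h⟩⟩
    simp only [val, this]
  | nd g y b ih =>
    intro f
    have h' : y ∈ S → (y ≠ v ∧ Clr S v b) := h
    by_cases hy : y ∈ S
    · obtain ⟨h1, h2⟩ := h' hy
      have : y ∈ S.erase v := Finset.mem_erase.2 ⟨h1, hy⟩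
      simp only [val]
      rw [if_pos hy, if_pos this, ih h2]
    · have : y ∉ S.erase v := fun h => hy (Finset.mem_erase.1 h).2
      simp only [val]
      rw [if_neg hy, if_neg this]
  | br s t ihs iht =>
    intro f
    simp only [val, ihs h.1, iht h.2]

theorem clr_of_AS {S : Finset V} {c : V} {b : BT V} {v : V}
    (h1 : ∀ f t, ¬ AS S c b v f t) (h2 : ∀ q f t, AS S c b q f t → ¬ Dir (.out v) t)
    (u : BT V) : ∀ (p : V) (f : Bool) (t : BT V), AS S c b p f t →
      (∀ e, Dir e u → Dir e t) → Clr S v u := by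
  induction u with
  | out w =>
    intro p f t hp hsub
    change w ≠ v
    rintro rfl
    exact h2 p f t hp (hsub _ (Dir.out w))
  | nd g y b' ih =>
    intro p f t hp hsub
    change y ∈ S → (y ≠ v ∧ Clr S v b')
    intro hy
    have hA : AS S c b y g b' := AS.step hp (hsub _ (Dir.nd g y b')) hy
    refine ⟨?_, ih y g b' hA (fun e he => he)⟩
    rintro rfl
    exact h1 _ _ hA
  | br s t' ihs iht =>
    intro p f t hp hsub
    exact ⟨ihs p f t hp (fun e he => hsub e (Dir.left he)),
      iht p f t hp (fun e he => hsub e (Dir.right he))⟩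

/-- removing a vertex that is neither an attached owner nor an attached out-leaf does not change the value -/
theorem structV {S : Finset V} {c : V} {b : BT V} (hnd : (c :: b.labels).Nodup) {v : V}
    (hcS : c ∈ S) (h1 : ∀ f t, ¬ AS S c b v f t) (h2 : ∀ q f t, AS S c b q f t → ¬ Dir (.out v) t) :
    val (S.erase v) true b = val S true b :=
  clr_val (clr_of_AS h1 h2 b c true b (AS.root hcS) (fun _ he => he)) true

omit [DecidableEq V] in
theorem dirout_label {v : V} {t : BT V} (hd : Dir (.out v) t) : v ∈ t.labels := by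
  induction t with
  | out w => cases hd; simp [BT.labels]
  | nd h z b ih => cases hd
  | br s u ihs ihu =>
    cases hd with
    | left h => simp [BT.labels, ihs h]
    | right h => simp [BT.labels, ihu h]

theorem ep_le_FF1 {F : Bool} {b : ℝ} (hb : 0 ≤ b) (hb1 : b ≤ 1) : ep F ≤ FF F 1 b :=
  ep_le_FF zero_le_one le_rfl hb hb1

theorem ep_avg_one {F : Bool} {b : ℝ} (hb1 : b ≤ 1) : (ep F + b) / 2 ≤ FF F 1 b := by
  unfold FF ep
  split_ifs <;> linarith

/-- (a) the walker stands at the owner of the bouquet -/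
theorem own_out {S : Finset V} {v : V} (hv : v ∈ S) (f : Bool) {t : BT V} (hn : t.labels.Nodup)
    (hd : Dir (.out v) t) :
    (val (S.erase v) f t = none ∧ val S f t = some 1) ∨
      ∃ d' s', val (S.erase v) f t = some d' ∧ val S f t = some s' ∧ ep f ≤ s' ∧ s' ≤ 1 ∧
        0 ≤ d' ∧ d' ≤ 1 ∧ (ep f + d') / 2 ≤ s' := by
  have key : ∀ (o B r : Option ℝ), (∀ b, B = some b → 0 ≤ b ∧ b ≤ 1) →
      ((o = none ∧ r = some 1) ∨ ∃ d' s', o = some d' ∧ r = some s' ∧ ep f ≤ s' ∧ s' ≤ 1 ∧
        0 ≤ d' ∧ d' ≤ 1 ∧ (ep f + d') / 2 ≤ s') →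
      ((cb f o B = none ∧ cb f r B = some 1) ∨
        ∃ d' s', cb f o B = some d' ∧ cb f r B = some s' ∧ ep f ≤ s' ∧ s' ≤ 1 ∧
        0 ≤ d' ∧ d' ≤ 1 ∧ (ep f + d') / 2 ≤ s') := by
    rintro o B r hB (⟨rfl, rfl⟩ | ⟨d, s, rfl, rfl, h1, h2, h3, h4, h5⟩)
    · rcases B with _ | b
      · exact Or.inl ⟨rfl, rfl⟩
      · obtain ⟨hb, hb1⟩ := hB b rfl
        exact Or.inr ⟨b, _, rfl, rfl, ep_le_FF1 hb hb1,
          FF_le_one zero_le_one le_rfl hb hb1, hb, hb1, ep_avg_one hb1⟩
    · rcases B with _ | b
      · exact Or.inr ⟨d, s, rfl, rfl, h1, h2, h3, h4, h5⟩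
      · obtain ⟨hb, hb1⟩ := hB b rfl
        have h0 : 0 ≤ s := (ep_nonneg f).trans h1
        exact Or.inr ⟨_, _, rfl, rfl, ep_le_FF h0 h2 hb hb1, FF_le_one h0 h2 hb hb1,
          FF_nonneg h3 h4 hb hb1, FF_le_one h3 h4 hb hb1, ep_avg_some h5 h4 hb hb1 h3⟩
  induction t with
  | out w =>
    cases hd
    left
    simp [val, hv]
  | nd h z b ih => cases hd
  | br s u ihs ihu =>
    simp only [BT.labels, List.nodup_append] at hn
    obtain ⟨hns, hnu, hdis⟩ := hn
    cases hd with
    | left h =>
      have hxs := dirout_label h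
      have hxu : v ∉ u.labels := fun hu => hdis v hxs v hu rfl
      have h1 : val (S.erase v) f (.br s u) = cb f (val (S.erase v) f s) (val S f u) := by
        simp only [val, val_erase hxu]
      have h2 : val S f (.br s u) = cb f (val S f s) (val S f u) := by
        simp only [val]
      rw [h1, h2]
      exact key _ _ _ (fun b hb => val_bounds S f u b hb) (ihs hns h)
    | right h =>
      have hxu := dirout_label h
      have hxs : v ∉ s.labels := fun hs => hdis v hs v hxu rfl
      have h1 : val (S.erase v) f (.br s u) = cb f (val (S.erase v) f u) (val S f s) := by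
        simp only [val, val_erase hxs]
        rw [cb_comm]
      have h2 : val S f (.br s u) = cb f (val S f u) (val S f s) := by
        simp only [val]
        rw [cb_comm]
      rw [h1, h2]
      exact key _ _ _ (fun b hb => val_bounds S f s b hb) (ihu hnu h)

/-- (b) the walker stands at a deeper owner -/
theorem att_out {S : Finset V} {v : V} (hv : v ∈ S) {p : V} {f : Bool} {t u : BT V}
    (ha : Att S p f t u) (hd : Dir (.out v) t) (hn : u.labels.Nodup) :
    ∀ F : Bool, Tri (Wk (S.erase v) p F u) (val (S.erase v) F u) (val S F u) := by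
  have key : ∀ (F : Bool) (B : Option ℝ) (r : WR) (d s : Option ℝ),
      (∀ b, B = some b → 0 ≤ b ∧ b ≤ 1) → Tri r d s →
      Tri (wc F r (.vv B)) (cb F d B) (cb F s B) := by
    rintro F B r d r' hB (⟨rfl, rfl, rfl⟩ | ⟨a, d', s', rfl, rfl, rfl, h0, h1, h2, h3, h4, h5⟩)
    · rcases B with _ | b
      · exact Or.inl ⟨rfl, rfl, rfl⟩
      · obtain ⟨hb, hb1⟩ := hB b rfl
        exact Or.inr ⟨_, _, _, rfl, rfl, rfl, ep_nonneg F, ep_le_FF1 hb hb1,
          FF_le_one zero_le_one le_rfl hb hb1, hb, hb1, ep_avg_one hb1⟩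
    · rcases B with _ | b
      · exact Or.inr ⟨a, d', s', rfl, rfl, rfl, h0, h1, h2, h3, h4, h5⟩
      · obtain ⟨hb, hb1⟩ := hB b rfl
        exact Or.inr ⟨_, _, _, rfl, rfl, rfl, FF_nonneg h0 (h1.trans h2) hb hb1, FF_mono h1 hb1,
          FF_le_one (h0.trans h1) h2 hb hb1, FF_nonneg h3 h4 hb hb1, FF_le_one h3 h4 hb hb1,
          FF_avg h5 hb1⟩
  induction ha with
  | here hp =>
    intro F
    simp only [BT.labels, List.nodup_cons] at hn
    have hpx : v ≠ p := by
      rintro rfl; exact hn.1 (dirout_label hd)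
    have hp' : p ∈ S.erase v := Finset.mem_erase.2 ⟨hpx.symm, hp⟩
    have h1 : Wk (S.erase v) p F (.nd f p t) = own f (val (S.erase v) f t) := by
      simp only [Wk]; rw [if_pos hp', if_pos trivial]
    have h2 : val S F (.nd f p t) = val S f t := by
      simp only [val]; rw [if_pos hp]
    have h3 : val (S.erase v) F (.nd f p t) = val (S.erase v) f t := by
      simp only [val]; rw [if_pos hp']
    rw [h1, h2, h3]
    rcases own_out hv f hn.2 hd with ⟨h3, h4⟩ | ⟨d, s, h3, h4, h5, h6, h7, h8, h9⟩
    · rw [h3, h4]; exact Or.inl ⟨rfl, rfl, rfl⟩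
    · rw [h3, h4]
      exact Or.inr ⟨ep f, d, s, rfl, rfl, rfl, ep_nonneg f, h5, h6, h7, h8, h9⟩
  | @nd h y u hy hu ih =>
    intro F
    simp only [BT.labels, List.nodup_cons] at hn
    have hyx : v ≠ y := by
      rintro rfl; exact hn.1 (att_sub hu (dirout_label hd))
    have hyp : p ≠ y := by
      rintro rfl; exact hn.1 (att_label hu)
    have hy' : y ∈ S.erase v := Finset.mem_erase.2 ⟨hyx.symm, hy⟩
    have h1 : Wk (S.erase v) p F (.nd h y u) = Wk (S.erase v) p h u := by
      simp only [Wk]; rw [if_pos hy', if_neg hyp]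
    have h2 : val S F (.nd h y u) = val S h u := by
      simp only [val]; rw [if_pos hy]
    have h3 : val (S.erase v) F (.nd h y u) = val (S.erase v) h u := by
      simp only [val]; rw [if_pos hy']
    rw [h1, h2, h3]
    exact ih hn.2 h
  | @left s u hs ih =>
    intro F
    simp only [BT.labels, List.nodup_append] at hn
    obtain ⟨hns, hnu, hdis⟩ := hn
    have hxu : v ∉ u.labels := fun hu => hdis v (att_sub hs (dirout_label hd)) v hu rfl
    have hpu : p ∉ u.labels := fun hu => hdis p (att_label hs) p hu rfl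
    have h1 : Wk (S.erase v) p F (.br s u) = wc F (Wk (S.erase v) p F s) (.vv (val S F u)) := by
      simp only [Wk, Wk_notMem hpu, val_erase hxu]
    have h2 : val S F (.br s u) = cb F (val S F s) (val S F u) := by
      simp only [val]
    have h3 : val (S.erase v) F (.br s u) = cb F (val (S.erase v) F s) (val S F u) := by
      simp only [val, val_erase hxu]
    rw [h1, h2, h3]
    exact key _ _ _ _ _ (fun b hb => val_bounds S F u b hb) (ih hns F)
  | @right s u hu ih =>
    intro F
    simp only [BT.labels, List.nodup_append] at hn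
    obtain ⟨hns, hnu, hdis⟩ := hn
    have hxs : v ∉ s.labels := fun hs => hdis v hs v (att_sub hu (dirout_label hd)) rfl
    have hps : p ∉ s.labels := fun hs => hdis p hs p (att_label hu) rfl
    have h1 : Wk (S.erase v) p F (.br s u) = wc F (Wk (S.erase v) p F u) (.vv (val S F s)) := by
      simp only [Wk, Wk_notMem hps, val_erase hxs]; rw [wc_comm_vv]
    have h2 : val S F (.br s u) = cb F (val S F u) (val S F s) := by
      simp only [val]; rw [cb_comm]
    have h3 : val (S.erase v) F (.br s u) = cb F (val (S.erase v) F u) (val S F s) := by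
      simp only [val, val_erase hxs]
      rw [cb_comm]
    rw [h1, h2, h3]
    exact key _ _ _ _ _ (fun b hb => val_bounds S F s b hb) (ih hnu F)

/-- O: the walker enters/declines at an out-leaf `v` of an attached owner `q` -/
theorem structO {S : Finset V} {c : V} {b : BT V} (hnd : (c :: b.labels).Nodup)
    {q : V} {f : Bool} {t : BT V} (hq : AS S c b q f t) {v : V} (hv : v ∈ S)
    (hd : Dir (.out v) t) :
    Tri (Wr (S.erase v) c b q) (val (S.erase v) true b) (val S true b) := by
  rw [List.nodup_cons] at hnd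
  obtain ⟨hc, hn⟩ := hnd
  rcases AS_cases hq with ⟨rfl, rfl, rfl⟩ | ha
  · have h1 : Wr (S.erase v) q t q = own true (val (S.erase v) true t) := by
      unfold Wr; rw [if_pos rfl]
    rw [h1]
    rcases own_out hv true hn hd with ⟨h3, h4⟩ | ⟨d, s, h3, h4, h5, h6, h7, h8, h9⟩
    · rw [h3, h4]; exact Or.inl ⟨rfl, rfl, rfl⟩
    · rw [h3, h4]
      exact Or.inr ⟨ep true, d, s, rfl, rfl, rfl, ep_nonneg true, h5, h6, h7, h8, h9⟩
  · have hqc : q ≠ c := by
      rintro rfl; exact hc (att_label ha)
    have h1 : Wr (S.erase v) c b q = Wk (S.erase v) q true b := by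
      unfold Wr; rw [if_neg hqc]
    rw [h1]
    exact att_out hv ha hd hn true

end Jia
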