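import Pool.Agent.Helper826.Jia.Walk

set_option autoImplicit false

namespace Jia
open Finset
open scoped symmDiff
variable {V : Type*} [DecidableEq V]


theorem FF_comm (f : Bool) (a b : ℝ) : FF f a b = FF f b a := by
  unfold FF; split_ifs <;> ring

theorem cb_none_right (f : Bool) (o : Option ℝ) : cb f o none = o := by
  cases o <;> rfl

theorem cb_comm (f : Bool) (o p : Option ℝ) : cb f o p = cb f p o := by
  cases o <;> cases p <;> simp [cb, FF_comm]

theorem wc_comm_vv (f : Bool) (r : WR) (o : Option ℝ) : wc f (.vv o) r = wc f r (.vv o) := by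
  cases r <;> cases o <;> simp [wc, cb_comm]

theorem FF_nonneg {f : Bool} {a b : ℝ} (ha : 0 ≤ a) (ha1 : a ≤ 1) (hb : 0 ≤ b) (hb1 : b ≤ 1) :
    0 ≤ FF f a b := by
  unfold FF; split_ifs
  · nlinarith [mul_nonneg (sub_nonneg.2 ha1) hb]
  · norm_num

theorem FF_le_one {f : Bool} {a b : ℝ} (ha : 0 ≤ a) (ha1 : a ≤ 1) (hb : 0 ≤ b) (hb1 : b ≤ 1) :
    FF f a b ≤ 1 := by
  unfold FF; split_ifs
  · nlinarith [mul_nonneg (sub_nonneg.2 ha1) (sub_nonneg.2 hb1)]
  · norm_num

theorem FF_mono {f : Bool} {a a' b : ℝ} (h : a ≤ a') (hb1 : b ≤ 1) :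
    FF f a b ≤ FF f a' b := by
  unfold FF; split_ifs
  · nlinarith [mul_nonneg (sub_nonneg.2 h) (sub_nonneg.2 hb1)]
  · norm_num

theorem FF_avg {f : Bool} {a d s b : ℝ} (h : (a + d) / 2 ≤ s) (hb1 : b ≤ 1) :
    (FF f a b + FF f d b) / 2 ≤ FF f s b := by
  unfold FF; split_ifs
  · nlinarith [mul_nonneg (sub_nonneg.2 h) (sub_nonneg.2 hb1)]
  · norm_num

theorem ep_nonneg (f : Bool) : 0 ≤ ep f := by unfold ep; split_ifs <;> norm_num
theorem ep_le_one (f : Bool) : ep f ≤ 1 := by unfold ep; split_ifs <;> norm_num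

theorem ep_le_FF {f : Bool} {a b : ℝ} (ha : 0 ≤ a) (ha1 : a ≤ 1) (hb : 0 ≤ b) (hb1 : b ≤ 1) :
    ep f ≤ FF f a b := by
  unfold ep FF; split_ifs
  · nlinarith [mul_nonneg (sub_nonneg.2 ha1) hb]
  · norm_num

theorem ep_avg_none {f g : Bool} {b : ℝ} (hb : 0 ≤ b) (hb1 : b ≤ 1) :
    (ep f + b) / 2 ≤ FF f (ep g) b := by
  have h0 := ep_nonneg g
  unfold FF
  split_ifs with h
  · have : ep f = 0 := by simp [ep, h]
    rw [this]
    nlinarith [mul_nonneg h0 (sub_nonneg.2 hb1)]
  · linarith [ep_le_one f]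

theorem ep_avg_some {f : Bool} {d s b : ℝ} (h : (ep f + d) / 2 ≤ s) (hd1 : d ≤ 1) (hb : 0 ≤ b)
    (hb1 : b ≤ 1) (hd : 0 ≤ d) :
    (ep f + FF f d b) / 2 ≤ FF f s b := by
  unfold FF
  split_ifs with hf
  · have he : ep f = 0 := by simp [ep, hf]
    rw [he] at h ⊢
    nlinarith [mul_nonneg (sub_nonneg.2 h) (sub_nonneg.2 hb1)]
  · linarith [ep_le_one f]

theorem val_bounds_G1b (S : Finset V) (t : BT V) : ∀ (f : Bool) (v : ℝ), val S f t = some v →
    0 ≤ v ∧ v ≤ 1 := by
  induction t with
  | out w =>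
    intro f v h
    simp only [val] at h
    split_ifs at h
    simp only [Option.some.injEq] at h
    subst h; norm_num
  | nd g x b ih =>
    intro f v h
    simp only [val] at h
    split_ifs at h
    exact ih g v h
  | br s t ihs iht =>
    intro f v h
    simp only [val] at h
    rcases hs : val S f s with _ | a <;> rcases ht : val S f t with _ | b <;> rw [hs, ht] at h <;>
      simp only [cb, Option.some.injEq, reduceCtorEq] at h
    · subst h; exact iht f _ ht
    · subst h; exact ihs f _ hs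
    · subst h
      obtain ⟨h1, h2⟩ := ihs f _ hs
      obtain ⟨h3, h4⟩ := iht f _ ht
      exact ⟨FF_nonneg h1 h2 h3 h4, FF_le_one h1 h2 h3 h4⟩

theorem val_erase {S : Finset V} {x : V} {t : BT V} (hx : x ∉ t.labels) :
    ∀ f : Bool, val (S.erase x) f t = val S f t := by
  induction t with
  | out w =>
    intro f
    simp only [BT.labels, List.mem_singleton] at hx
    have : w ∈ S.erase x ↔ w ∈ S := by
      rw [Finset.mem_erase]; exact ⟨fun h => h.2, fun h => ⟨fun e => hx e.symm, h⟩⟩
    simp only [val, this]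
  | nd g y b ih =>
    intro f
    simp only [BT.labels, List.mem_cons, not_or] at hx
    have : y ∈ S.erase x ↔ y ∈ S := by
      rw [Finset.mem_erase]; exact ⟨fun h => h.2, fun h => ⟨fun e => hx.1 e.symm, h⟩⟩
    simp only [val, this, ih hx.2]
  | br s t ihs iht =>
    intro f
    simp only [BT.labels, List.mem_append, not_or] at hx
    simp only [val, ihs hx.1, iht hx.2]

theorem Wk_notMem {S : Finset V} {x : V} {t : BT V} (hx : x ∉ t.labels) :
    ∀ f : Bool, Wk S x f t = .vv (val S f t) := by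
  induction t with
  | out w => intro f; simp only [val, Wk]
  | nd g y b ih =>
    intro f
    simp only [BT.labels, List.mem_cons, not_or] at hx
    simp only [Wk, val]
    rw [if_neg hx.1]
    by_cases hy : y ∈ S
    · rw [if_pos hy, if_pos hy, ih hx.2]
    · rw [if_neg hy, if_neg hy]
  | br s t ihs iht =>
    intro f
    simp only [BT.labels, List.mem_append, not_or] at hx
    simp only [val, Wk, ihs hx.1, iht hx.2, wc]

/-- `p` is a node of the bouquet `u`, with flag `f` and bouquet `t`, attached inside `u` -/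
inductive Att (S : Finset V) (p : V) (f : Bool) (t : BT V) : BT V → Prop
  | here (hp : p ∈ S) : Att S p f t (.nd f p t)
  | nd {h : Bool} {y : V} {u : BT V} (hy : y ∈ S) (hu : Att S p f t u) : Att S p f t (.nd h y u)
  | left {s u : BT V} (hs : Att S p f t s) : Att S p f t (.br s u)
  | right {s u : BT V} (hu : Att S p f t u) : Att S p f t (.br s u)

theorem att_of_dir {S : Finset V} {y : V} {g : Bool} {t' : BT V} {t : BT V}
    (hd : Dir (.nd g y t') t) (hy : y ∈ S) : Att S y g t' t := by
  induction t with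
  | out w => cases hd
  | nd h z b ih => cases hd; exact Att.here hy
  | br s u ihs ihu =>
    cases hd with
    | left h => exact Att.left (ihs h)
    | right h => exact Att.right (ihu h)

theorem att_trans {S : Finset V} {p : V} {f : Bool} {t : BT V} {y : V} {g : Bool} {t' u : BT V}
    (ha : Att S p f t u) (hb : Att S y g t' t) : Att S y g t' u := by
  induction ha with
  | here hp => exact Att.nd hp hb
  | nd hy hu ih => exact Att.nd hy ih
  | left hs ih => exact Att.left ih
  | right hu ih => exact Att.right ih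

theorem AS_cases {S : Finset V} {c : V} {b : BT V} {p : V} {f : Bool} {t : BT V}
    (h : AS S c b p f t) : (p = c ∧ f = true ∧ t = b) ∨ Att S p f t b := by
  induction h with
  | root h => exact Or.inl ⟨rfl, rfl, rfl⟩
  | step h hd hy ih =>
    rcases ih with ⟨rfl, rfl, rfl⟩ | ih
    · exact Or.inr (att_of_dir hd hy)
    · exact Or.inr (att_trans ih (att_of_dir hd hy))

omit [DecidableEq V] in
theorem dir_label {y : V} {g : Bool} {t' : BT V} {t : BT V}
    (hd : Dir (.nd g y t') t) : y ∈ t.labels := by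
  induction t with
  | out w => cases hd
  | nd h z b ih => cases hd; simp [BT.labels]
  | br s u ihs ihu =>
    cases hd with
    | left h => simp [BT.labels, ihs h]
    | right h => simp [BT.labels, ihu h]

omit [DecidableEq V] in
theorem dir_sub {y z : V} {g : Bool} {t' : BT V} {t : BT V}
    (hd : Dir (.nd g y t') t) (hz : z ∈ t'.labels) : z ∈ t.labels := by
  induction t with
  | out w => cases hd
  | nd h z b ih => cases hd; simp [BT.labels, hz]
  | br s u ihs ihu =>
    cases hd with
    | left h => simp [BT.labels, ihs h]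
    | right h => simp [BT.labels, ihu h]

theorem att_label {S : Finset V} {p : V} {f : Bool} {t : BT V} {u : BT V}
    (ha : Att S p f t u) : p ∈ u.labels := by
  induction ha with
  | here hp => simp [BT.labels]
  | nd hy hu ih => simp [BT.labels, ih]
  | left hs ih => simp [BT.labels, ih]
  | right hu ih => simp [BT.labels, ih]

theorem att_mem {S : Finset V} {p : V} {f : Bool} {t : BT V} {u : BT V}
    (ha : Att S p f t u) : p ∈ S := by
  induction ha with
  | here hp => exact hp
  | nd hy hu ih => exact ih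
  | left hs ih => exact ih
  | right hu ih => exact ih

theorem att_sub {S : Finset V} {p z : V} {f : Bool} {t : BT V} {u : BT V}
    (ha : Att S p f t u) (hz : z ∈ t.labels) : z ∈ u.labels := by
  induction ha with
  | here hp => simp [BT.labels, hz]
  | nd hy hu ih => simp [BT.labels, ih]
  | left hs ih => simp [BT.labels, ih]
  | right hu ih => simp [BT.labels, ih]

/-- (a1) -/
theorem own_dir1 {S : Finset V} {x : V} {g : Bool} {t' : BT V} (hx : x ∈ S)
    (hval : val S g t' = none) (f : Bool) {t : BT V} (hn : t.labels.Nodup)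
    (hd : Dir (.nd g x t') t) :
    (val (S.erase x) f t = none ∧ Wk S x f t = .pd) ∨
      ∃ v a', val (S.erase x) f t = some v ∧ Wk S x f t = .aa a' ∧ ep f ≤ a' ∧ a' ≤ 1 := by
  have key : ∀ (o B : Option ℝ) (r : WR), (∀ b, B = some b → 0 ≤ b ∧ b ≤ 1) →
      ((o = none ∧ r = .pd) ∨ ∃ v a', o = some v ∧ r = .aa a' ∧ ep f ≤ a' ∧ a' ≤ 1) →
      ((cb f o B = none ∧ wc f r (.vv B) = .pd) ∨
        ∃ v a', cb f o B = some v ∧ wc f r (.vv B) = .aa a' ∧ ep f ≤ a' ∧ a' ≤ 1) := by
    rintro o B r hB (⟨rfl, rfl⟩ | ⟨v, a', rfl, rfl, h1, h2⟩)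
    · rcases B with _ | b
      · exact Or.inl ⟨rfl, rfl⟩
      · exact Or.inr ⟨b, ep f, rfl, rfl, le_refl _, ep_le_one f⟩
    · rcases B with _ | b
      · exact Or.inr ⟨v, a', rfl, rfl, h1, h2⟩
      · obtain ⟨hb, hb1⟩ := hB b rfl
        have h0 : 0 ≤ a' := (ep_nonneg f).trans h1
        exact Or.inr ⟨_, _, rfl, rfl, ep_le_FF h0 h2 hb hb1, FF_le_one h0 h2 hb hb1⟩
  induction t with
  | out w => cases hd
  | nd h z b ih =>
    cases hd
    left
    simp [val, Wk, hx, hval, own]
  | br s u ihs ihu =>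
    simp only [BT.labels, List.nodup_append] at hn
    obtain ⟨hns, hnu, hdis⟩ := hn
    cases hd with
    | left h =>
      have hxs := dir_label h
      have hxu : x ∉ u.labels := fun hu => hdis x hxs x hu rfl
      have h1 : val (S.erase x) f (.br s u) = cb f (val (S.erase x) f s) (val S f u) := by
        simp only [val, val_erase hxu]
      have h2 : Wk S x f (.br s u) = wc f (Wk S x f s) (.vv (val S f u)) := by
        simp only [Wk, Wk_notMem hxu]
      rw [h1, h2]
      exact key _ _ _ (fun b hb => val_bounds_G1b S u f b hb) (ihs hns h)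
    | right h =>
      have hxu := dir_label h
      have hxs : x ∉ s.labels := fun hs => hdis x hs x hxu rfl
      have h1 : val (S.erase x) f (.br s u) = cb f (val (S.erase x) f u) (val S f s) := by
        simp only [val, val_erase hxs]
        rw [cb_comm]
      have h2 : Wk S x f (.br s u) = wc f (Wk S x f u) (.vv (val S f s)) := by
        simp only [Wk, Wk_notMem hxs]
        rw [wc_comm_vv]
      rw [h1, h2]
      exact key _ _ _ (fun b hb => val_bounds_G1b S s f b hb) (ihu hnu h)

/-- (b1) -/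
theorem att_1 {S : Finset V} {x : V} {g : Bool} {t' : BT V} (hx : x ∈ S)
    (hval : val S g t' = none) {p : V} {f : Bool} {t u : BT V} (ha : Att S p f t u)
    (hd : Dir (.nd g x t') t) (hn : u.labels.Nodup) :
    ∀ F : Bool, (Wk (S.erase x) p F u = .pd ∧ Wk S x F u = .pd) ∨
      ∃ a a', Wk (S.erase x) p F u = .aa a ∧ Wk S x F u = .aa a' ∧ 0 ≤ a ∧ a ≤ a' ∧ a' ≤ 1 := by
  have key : ∀ (F : Bool) (B : Option ℝ) (r r' : WR), (∀ b, B = some b → 0 ≤ b ∧ b ≤ 1) →
      ((r = .pd ∧ r' = .pd) ∨ ∃ a a', r = .aa a ∧ r' = .aa a' ∧ 0 ≤ a ∧ a ≤ a' ∧ a' ≤ 1) →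
      ((wc F r (.vv B) = .pd ∧ wc F r' (.vv B) = .pd) ∨
        ∃ a a', wc F r (.vv B) = .aa a ∧ wc F r' (.vv B) = .aa a' ∧ 0 ≤ a ∧ a ≤ a' ∧ a' ≤ 1) := by
    rintro F B r r' hB (⟨rfl, rfl⟩ | ⟨a, a', rfl, rfl, h0, h1, h2⟩)
    · rcases B with _ | b
      · exact Or.inl ⟨rfl, rfl⟩
      · exact Or.inr ⟨ep F, ep F, rfl, rfl, ep_nonneg F, le_refl _, ep_le_one F⟩
    · rcases B with _ | b
      · exact Or.inr ⟨a, a', rfl, rfl, h0, h1, h2⟩
      · obtain ⟨hb, hb1⟩ := hB b rfl
        exact Or.inr ⟨_, _, rfl, rfl, FF_nonneg h0 (h1.trans h2) hb hb1, FF_mono h1 hb1,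
          FF_le_one (h0.trans h1) h2 hb hb1⟩
  induction ha with
  | here hp =>
    intro F
    simp only [BT.labels, List.nodup_cons] at hn
    have hpx : x ≠ p := by
      rintro rfl; exact hn.1 (dir_label hd)
    have hp' : p ∈ S.erase x := Finset.mem_erase.2 ⟨hpx.symm, hp⟩
    have h1 : Wk (S.erase x) p F (.nd f p t) = own f (val (S.erase x) f t) := by
      simp only [Wk]; rw [if_pos hp', if_pos trivial]
    have h2 : Wk S x F (.nd f p t) = Wk S x f t := by
      simp only [Wk]; rw [if_pos hp, if_neg hpx]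
    rw [h1, h2]
    rcases own_dir1 hx hval f hn.2 hd with ⟨h3, h4⟩ | ⟨v, a', h3, h4, h5, h6⟩
    · rw [h3, h4]; exact Or.inl ⟨rfl, rfl⟩
    · rw [h3, h4]; exact Or.inr ⟨ep f, a', rfl, rfl, ep_nonneg f, h5, h6⟩
  | @nd h y u hy hu ih =>
    intro F
    simp only [BT.labels, List.nodup_cons] at hn
    have hyx : x ≠ y := by
      rintro rfl; exact hn.1 (att_sub hu (dir_label hd))
    have hyp : p ≠ y := by
      rintro rfl; exact hn.1 (att_label hu)
    have hy' : y ∈ S.erase x := Finset.mem_erase.2 ⟨hyx.symm, hy⟩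
    have h1 : Wk (S.erase x) p F (.nd h y u) = Wk (S.erase x) p h u := by
      simp only [Wk]; rw [if_pos hy', if_neg hyp]
    have h2 : Wk S x F (.nd h y u) = Wk S x h u := by
      simp only [Wk]; rw [if_pos hy, if_neg hyx]
    rw [h1, h2]
    exact ih hn.2 h
  | @left s u hs ih =>
    intro F
    simp only [BT.labels, List.nodup_append] at hn
    obtain ⟨hns, hnu, hdis⟩ := hn
    have hxu : x ∉ u.labels := fun hu => hdis x (att_sub hs (dir_label hd)) x hu rfl
    have hpu : p ∉ u.labels := fun hu => hdis p (att_label hs) p hu rfl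
    have h1 : Wk (S.erase x) p F (.br s u) = wc F (Wk (S.erase x) p F s) (.vv (val S F u)) := by
      simp only [Wk, Wk_notMem hpu, val_erase hxu]
    have h2 : Wk S x F (.br s u) = wc F (Wk S x F s) (.vv (val S F u)) := by
      simp only [Wk, Wk_notMem hxu]
    rw [h1, h2]
    exact key _ _ _ _ (fun b hb => val_bounds_G1b S u F b hb) (ih hns F)
  | @right s u hu ih =>
    intro F
    simp only [BT.labels, List.nodup_append] at hn
    obtain ⟨hns, hnu, hdis⟩ := hn
    have hxs : x ∉ s.labels := fun hs => hdis x hs x (att_sub hu (dir_label hd)) rfl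
    have hps : p ∉ s.labels := fun hs => hdis p hs p (att_label hu) rfl
    have h1 : Wk (S.erase x) p F (.br s u) = wc F (Wk (S.erase x) p F u) (.vv (val S F s)) := by
      simp only [Wk, Wk_notMem hps, val_erase hxs]; rw [wc_comm_vv]
    have h2 : Wk S x F (.br s u) = wc F (Wk S x F u) (.vv (val S F s)) := by
      simp only [Wk, Wk_notMem hxs]; rw [wc_comm_vv]
    rw [h1, h2]
    exact key _ _ _ _ (fun b hb => val_bounds_G1b S s F b hb) (ih hnu F)

/-- every node labelled `x` has a dead bouquet, and `x` is not the label of a leaf -/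
noncomputable def DeadAt (S : Finset V) (x : V) : BT V → Prop
  | .out w => x ≠ w
  | .nd g y b => (x = y → val S g b = none) ∧ DeadAt S x b
  | .br s t => DeadAt S x s ∧ DeadAt S x t

theorem deadAt_notMem {S : Finset V} {x : V} {t : BT V} (hx : x ∉ t.labels) : DeadAt S x t := by
  induction t with
  | out w => simpa [DeadAt, BT.labels] using hx
  | nd g y b ih =>
    simp only [BT.labels, List.mem_cons, not_or] at hx
    exact ⟨fun h => absurd h hx.1, ih hx.2⟩
  | br s t ihs iht =>
    simp only [BT.labels, List.mem_append, not_or] at hx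
    exact ⟨ihs hx.1, iht hx.2⟩

theorem deadAt_dir {S : Finset V} {x : V} {g : Bool} {t' : BT V}
    (hval : val S g t' = none) {t : BT V} (hn : t.labels.Nodup)
    (hd : Dir (.nd g x t') t) : DeadAt S x t := by
  induction t with
  | out w => cases hd
  | nd h z b ih =>
    cases hd
    simp only [BT.labels, List.nodup_cons] at hn
    exact ⟨fun _ => hval, deadAt_notMem hn.1⟩
  | br s u ihs ihu =>
    simp only [BT.labels, List.nodup_append] at hn
    obtain ⟨hns, hnu, hdis⟩ := hn
    cases hd with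
    | left h => exact ⟨ihs hns h, deadAt_notMem fun hu => hdis x (dir_label h) x hu rfl⟩
    | right h => exact ⟨deadAt_notMem fun hs => hdis x hs x (dir_label h) rfl, ihu hnu h⟩

theorem deadAt_att {S : Finset V} {x : V} {p : V} {f : Bool} {t u : BT V} (ha : Att S p f t u)
    (hn : u.labels.Nodup) (hx : x ∈ t.labels) (hdead : DeadAt S x t) : DeadAt S x u := by
  induction ha with
  | here hp =>
    simp only [BT.labels, List.nodup_cons] at hn
    refine ⟨?_, hdead⟩
    rintro rfl
    exact absurd hx hn.1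
  | nd hy hu ih =>
    simp only [BT.labels, List.nodup_cons] at hn
    refine ⟨?_, ih hn.2⟩
    rintro rfl
    exact absurd (att_sub hu hx) hn.1
  | left hs ih =>
    simp only [BT.labels, List.nodup_append] at hn
    obtain ⟨hns, hnu, hdis⟩ := hn
    exact ⟨ih hns, deadAt_notMem fun hu => hdis x (att_sub hs hx) x hu rfl⟩
  | right hu ih =>
    simp only [BT.labels, List.nodup_append] at hn
    obtain ⟨hns, hnu, hdis⟩ := hn
    exact ⟨deadAt_notMem fun hs => hdis x hs x (att_sub hu hx) rfl, ih hnu⟩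

theorem deadAt_val {S : Finset V} {x : V} {t : BT V} (h : DeadAt S x t) :
    ∀ f : Bool, val (S.erase x) f t = val S f t := by
  induction t with
  | out w =>
    intro f
    have hw : x ≠ w := h
    have : w ∈ S.erase x ↔ w ∈ S := by
      rw [Finset.mem_erase]; exact ⟨fun h => h.2, fun h => ⟨fun e => hw e.symm, h⟩⟩
    simp only [val, this]
  | nd g y b ih =>
    intro f
    obtain ⟨h1, h2⟩ := h
    by_cases hxy : x = y
    · subst hxy
      simp only [val]
      rw [if_neg (Finset.notMem_erase x S), h1 rfl]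
      simp
    · have : y ∈ S.erase x ↔ y ∈ S := by
        rw [Finset.mem_erase]; exact ⟨fun h => h.2, fun h => ⟨fun e => hxy e.symm, h⟩⟩
      simp only [val, this, ih h2]
  | br s t ihs iht =>
    intro f
    simp only [val, ihs h.1, iht h.2]

theorem deadAt_dirt {S : Finset V} {x : V} {t : BT V} (h : DeadAt S x t) :
    ∀ f : Bool, dirt S f t → dirt (S.erase x) f t := by
  induction t with
  | out w =>
    intro f hf
    have hw : x ≠ w := h
    exact ⟨hf.1, Finset.mem_erase.2 ⟨fun e => hw e.symm, hf.2⟩⟩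
  | nd g y b ih =>
    intro f hf
    rcases hf with ⟨h1, h2⟩ | h1
    · refine Or.inl ⟨h1, ?_⟩
      rwa [deadAt_val h]
    · exact Or.inr (ih h.2 g h1)
  | br s t ihs iht =>
    intro f hf
    rcases hf with h1 | h1
    · exact Or.inl (ihs h.1 f h1)
    · exact Or.inr (iht h.2 f h1)

/-- (a2) -/
theorem own_dir2 {S : Finset V} {x : V} {g : Bool} {t' : BT V} (hx : x ∈ S)
    (hval : val S g t' ≠ none) (f : Bool) {t : BT V} (hn : t.labels.Nodup)
    (hd : Dir (.nd g x t') t) :
    (val (S.erase x) f t = none ∧ Wk S x f t = .aa (ep g)) ∨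
      ∃ d' s', val (S.erase x) f t = some d' ∧ Wk S x f t = .aa s' ∧ ep f ≤ s' ∧ s' ≤ 1 ∧
        0 ≤ d' ∧ d' ≤ 1 ∧ (ep f + d') / 2 ≤ s' := by
  have key : ∀ (o B : Option ℝ) (r : WR), (∀ b, B = some b → 0 ≤ b ∧ b ≤ 1) →
      ((o = none ∧ r = .aa (ep g)) ∨ ∃ d' s', o = some d' ∧ r = .aa s' ∧ ep f ≤ s' ∧ s' ≤ 1 ∧
        0 ≤ d' ∧ d' ≤ 1 ∧ (ep f + d') / 2 ≤ s') →
      ((cb f o B = none ∧ wc f r (.vv B) = .aa (ep g)) ∨
        ∃ d' s', cb f o B = some d' ∧ wc f r (.vv B) = .aa s' ∧ ep f ≤ s' ∧ s' ≤ 1 ∧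
        0 ≤ d' ∧ d' ≤ 1 ∧ (ep f + d') / 2 ≤ s') := by
    rintro o B r hB (⟨rfl, rfl⟩ | ⟨d, s, rfl, rfl, h1, h2, h3, h4, h5⟩)
    · rcases B with _ | b
      · exact Or.inl ⟨rfl, rfl⟩
      · obtain ⟨hb, hb1⟩ := hB b rfl
        exact Or.inr ⟨b, _, rfl, rfl, ep_le_FF (ep_nonneg g) (ep_le_one g) hb hb1,
          FF_le_one (ep_nonneg g) (ep_le_one g) hb hb1, hb, hb1, ep_avg_none hb hb1⟩
    · rcases B with _ | b
      · exact Or.inr ⟨d, s, rfl, rfl, h1, h2, h3, h4, h5⟩
      · obtain ⟨hb, hb1⟩ := hB b rfl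
        have h0 : 0 ≤ s := (ep_nonneg f).trans h1
        exact Or.inr ⟨_, _, rfl, rfl, ep_le_FF h0 h2 hb hb1, FF_le_one h0 h2 hb hb1,
          FF_nonneg h3 h4 hb hb1, FF_le_one h3 h4 hb hb1, ep_avg_some h5 h4 hb hb1 h3⟩
  induction t with
  | out w => cases hd
  | nd h z b ih =>
    cases hd
    left
    obtain ⟨v, hv⟩ := Option.ne_none_iff_exists'.1 hval
    simp [val, Wk, hx, hv, own]
  | br s u ihs ihu =>
    simp only [BT.labels, List.nodup_append] at hn
    obtain ⟨hns, hnu, hdis⟩ := hn
    cases hd with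
    | left h =>
      have hxs := dir_label h
      have hxu : x ∉ u.labels := fun hu => hdis x hxs x hu rfl
      have h1 : val (S.erase x) f (.br s u) = cb f (val (S.erase x) f s) (val S f u) := by
        simp only [val, val_erase hxu]
      have h2 : Wk S x f (.br s u) = wc f (Wk S x f s) (.vv (val S f u)) := by
        simp only [Wk, Wk_notMem hxu]
      rw [h1, h2]
      exact key _ _ _ (fun b hb => val_bounds_G1b S u f b hb) (ihs hns h)
    | right h =>
      have hxu := dir_label h
      have hxs : x ∉ s.labels := fun hs => hdis x hs x hxu rfl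
      have h1 : val (S.erase x) f (.br s u) = cb f (val (S.erase x) f u) (val S f s) := by
        simp only [val, val_erase hxs]
        rw [cb_comm]
      have h2 : Wk S x f (.br s u) = wc f (Wk S x f u) (.vv (val S f s)) := by
        simp only [Wk, Wk_notMem hxs]
        rw [wc_comm_vv]
      rw [h1, h2]
      exact key _ _ _ (fun b hb => val_bounds_G1b S s f b hb) (ihu hnu h)

/-- (b2) -/
theorem att_2 {S : Finset V} {x : V} {g : Bool} {t' : BT V} (hx : x ∈ S)
    (hval : val S g t' ≠ none) {p : V} {f : Bool} {t u : BT V} (ha : Att S p f t u)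
    (hd : Dir (.nd g x t') t) (hn : u.labels.Nodup) :
    ∀ F : Bool, TriI g (Wk (S.erase x) p F u) (val (S.erase x) F u) (Wk S x F u) := by
  have key : ∀ (F : Bool) (B : Option ℝ) (r : WR) (d : Option ℝ) (r' : WR),
      (∀ b, B = some b → 0 ≤ b ∧ b ≤ 1) → TriI g r d r' →
      TriI g (wc F r (.vv B)) (cb F d B) (wc F r' (.vv B)) := by
    rintro F B r d r' hB (⟨rfl, rfl, rfl⟩ | ⟨a, d', s', rfl, rfl, rfl, h0, h1, h2, h3, h4, h5⟩)
    · rcases B with _ | b
      · exact Or.inl ⟨rfl, rfl, rfl⟩
      · obtain ⟨hb, hb1⟩ := hB b rfl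
        exact Or.inr ⟨_, _, _, rfl, rfl, rfl, ep_nonneg F,
          ep_le_FF (ep_nonneg g) (ep_le_one g) hb hb1,
          FF_le_one (ep_nonneg g) (ep_le_one g) hb hb1, hb, hb1, ep_avg_none hb hb1⟩
    · rcases B with _ | b
      · exact Or.inr ⟨a, d', s', rfl, rfl, rfl, h0, h1, h2, h3, h4, h5⟩
      · obtain ⟨hb, hb1⟩ := hB b rfl
        exact Or.inr ⟨_, _, _, rfl, rfl, rfl, FF_nonneg h0 (h1.trans h2) hb hb1, FF_mono h1 hb1,
          FF_le_one (h0.trans h1) h2 hb hb1, FF_nonneg h3 h4 hb hb1, FF_le_one h3 h4 hb hb1,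
          FF_avg h5 hb1⟩
  induction ha with
  | here hp =>
    intro F
    simp only [BT.labels, List.nodup_cons] at hn
    have hpx : x ≠ p := by
      rintro rfl; exact hn.1 (dir_label hd)
    have hp' : p ∈ S.erase x := Finset.mem_erase.2 ⟨hpx.symm, hp⟩
    have h1 : Wk (S.erase x) p F (.nd f p t) = own f (val (S.erase x) f t) := by
      simp only [Wk]; rw [if_pos hp', if_pos trivial]
    have h2 : Wk S x F (.nd f p t) = Wk S x f t := by
      simp only [Wk]; rw [if_pos hp, if_neg hpx]
    have h3 : val (S.erase x) F (.nd f p t) = val (S.erase x) f t := by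
      simp only [val]; rw [if_pos hp']
    rw [h1, h2, h3]
    rcases own_dir2 hx hval f hn.2 hd with ⟨h3, h4⟩ | ⟨d, s, h3, h4, h5, h6, h7, h8, h9⟩
    · rw [h3, h4]; exact Or.inl ⟨rfl, rfl, rfl⟩
    · rw [h3, h4]
      exact Or.inr ⟨ep f, d, s, rfl, rfl, rfl, ep_nonneg f, h5, h6, h7, h8, h9⟩
  | @nd h y u hy hu ih =>
    intro F
    simp only [BT.labels, List.nodup_cons] at hn
    have hyx : x ≠ y := by
      rintro rfl; exact hn.1 (att_sub hu (dir_label hd))
    have hyp : p ≠ y := by
      rintro rfl; exact hn.1 (att_label hu)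
    have hy' : y ∈ S.erase x := Finset.mem_erase.2 ⟨hyx.symm, hy⟩
    have h1 : Wk (S.erase x) p F (.nd h y u) = Wk (S.erase x) p h u := by
      simp only [Wk]; rw [if_pos hy', if_neg hyp]
    have h2 : Wk S x F (.nd h y u) = Wk S x h u := by
      simp only [Wk]; rw [if_pos hy, if_neg hyx]
    have h3 : val (S.erase x) F (.nd h y u) = val (S.erase x) h u := by
      simp only [val]; rw [if_pos hy']
    rw [h1, h2, h3]
    exact ih hn.2 h
  | @left s u hs ih =>
    intro F
    simp only [BT.labels, List.nodup_append] at hn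
    obtain ⟨hns, hnu, hdis⟩ := hn
    have hxu : x ∉ u.labels := fun hu => hdis x (att_sub hs (dir_label hd)) x hu rfl
    have hpu : p ∉ u.labels := fun hu => hdis p (att_label hs) p hu rfl
    have h1 : Wk (S.erase x) p F (.br s u) = wc F (Wk (S.erase x) p F s) (.vv (val S F u)) := by
      simp only [Wk, Wk_notMem hpu, val_erase hxu]
    have h2 : Wk S x F (.br s u) = wc F (Wk S x F s) (.vv (val S F u)) := by
      simp only [Wk, Wk_notMem hxu]
    have h3 : val (S.erase x) F (.br s u) = cb F (val (S.erase x) F s) (val S F u) := by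
      simp only [val, val_erase hxu]
    rw [h1, h2, h3]
    exact key _ _ _ _ _ (fun b hb => val_bounds_G1b S u F b hb) (ih hns F)
  | @right s u hu ih =>
    intro F
    simp only [BT.labels, List.nodup_append] at hn
    obtain ⟨hns, hnu, hdis⟩ := hn
    have hxs : x ∉ s.labels := fun hs => hdis x hs x (att_sub hu (dir_label hd)) rfl
    have hps : p ∉ s.labels := fun hs => hdis p hs p (att_label hu) rfl
    have h1 : Wk (S.erase x) p F (.br s u) = wc F (Wk (S.erase x) p F u) (.vv (val S F s)) := by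
      simp only [Wk, Wk_notMem hps, val_erase hxs]; rw [wc_comm_vv]
    have h2 : Wk S x F (.br s u) = wc F (Wk S x F u) (.vv (val S F s)) := by
      simp only [Wk, Wk_notMem hxs]; rw [wc_comm_vv]
    have h3 : val (S.erase x) F (.br s u) = cb F (val (S.erase x) F u) (val S F s) := by
      simp only [val, val_erase hxs]
      rw [cb_comm]
    rw [h1, h2, h3]
    exact key _ _ _ _ _ (fun b hb => val_bounds_G1b S s F b hb) (ih hnu F)

theorem dirt_of_val {S : Finset V} {t : BT V} (h : val S true t ≠ none) : dirt S true t := by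
  induction t with
  | out w =>
    simp only [val, ne_eq, ite_eq_right_iff, reduceCtorEq, imp_false, not_not] at h
    exact ⟨rfl, h⟩
  | nd g y b ih => exact Or.inl ⟨rfl, h⟩
  | br s t ihs iht =>
    rcases hs : val S true s with _ | a
    · right
      apply iht
      intro ht
      apply h
      simp only [val, hs, ht, cb]
    · left
      apply ihs
      rw [hs]; simp

theorem dirt_dir {S : Finset V} {x : V} {g : Bool} {t' t : BT V} (hd : Dir (.nd g x t') t)
    (h : dirt S g t') : ∀ f, dirt S f t := by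
  induction t with
  | out w => cases hd
  | nd h z b ih => cases hd; intro f; exact Or.inr h
  | br s u ihs ihu =>
    intro f
    cases hd with
    | left h => exact Or.inl (ihs h f)
    | right h => exact Or.inr (ihu h f)

theorem dirt_att {S S' : Finset V} {p : V} {f : Bool} {t u : BT V} (ha : Att S p f t u)
    (h : dirt S' f t) : ∀ F, dirt S' F u := by
  induction ha with
  | here hp => intro F; exact Or.inr h
  | nd hy hu ih => intro F; exact Or.inr (ih _)
  | left hs ih => intro F; exact Or.inl (ih F)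
  | right hu ih => intro F; exact Or.inr (ih F)


omit [DecidableEq V] in
theorem dir_notMem {x : V} {g : Bool} {t' t : BT V} (hn : t.labels.Nodup)
    (hd : Dir (.nd g x t') t) : x ∉ t'.labels := by
  induction t with
  | out w => cases hd
  | nd h z b ih =>
    cases hd
    simp only [BT.labels, List.nodup_cons] at hn
    exact hn.1
  | br s u ihs ihu =>
    simp only [BT.labels, List.nodup_append] at hn
    cases hd with
    | left h => exact ihs hn.1 h
    | right h => exact ihu hn.2.1 h

theorem att_nodup {S : Finset V} {p : V} {f : Bool} {t u : BT V} (ha : Att S p f t u)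
    (hn : u.labels.Nodup) : t.labels.Nodup := by
  induction ha with
  | here hp => simp only [BT.labels, List.nodup_cons] at hn; exact hn.2
  | nd hy hu ih => simp only [BT.labels, List.nodup_cons] at hn; exact ih hn.2
  | left hs ih => simp only [BT.labels, List.nodup_append] at hn; exact ih hn.1
  | right hu ih => simp only [BT.labels, List.nodup_append] at hn; exact ih hn.2.1

/-- I, case 1: the walker is at `x` whose bouquet is dead -/
theorem structI1 {S : Finset V} {c : V} {b : BT V} (hnd : (c :: b.labels).Nodup)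
    {p : V} {f : Bool} {t : BT V} (hp : AS S c b p f t) {x : V} {g : Bool} {t' : BT V} (hx : x ∈ S)
    (hd : Dir (.nd g x t') t) (hval : val S g t' = none) :
    ((Wr (S.erase x) c b p = .pd ∧ Wr S c b x = .pd) ∨
      ∃ a a', Wr (S.erase x) c b p = .aa a ∧ Wr S c b x = .aa a' ∧ 0 ≤ a ∧ a ≤ a' ∧ a' ≤ 1) ∧
    (dirt S true b → dirt (S.erase x) true b) := by
  rw [List.nodup_cons] at hnd
  obtain ⟨hc, hn⟩ := hnd
  rcases AS_cases hp with ⟨rfl, rfl, rfl⟩ | ha
  · have hxp : x ≠ p := by
      rintro rfl; exact hc (dir_label hd)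
    have h1 : Wr (S.erase x) p t p = own true (val (S.erase x) true t) := by
      unfold Wr; rw [if_pos rfl]
    have h2 : Wr S p t x = Wk S x true t := by
      unfold Wr; rw [if_neg hxp]
    refine ⟨?_, deadAt_dirt (deadAt_dir hval hn hd) true⟩
    rw [h1, h2]
    rcases own_dir1 hx hval true hn hd with ⟨h3, h4⟩ | ⟨v, a', h3, h4, h5, h6⟩
    · rw [h3, h4]; exact Or.inl ⟨rfl, rfl⟩
    · rw [h3, h4]; exact Or.inr ⟨ep true, a', rfl, rfl, ep_nonneg true, h5, h6⟩
  · have hxt := dir_label hd
    have hxc : x ≠ c := by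
      rintro rfl; exact hc (att_sub ha hxt)
    have hpc : p ≠ c := by
      rintro rfl; exact hc (att_label ha)
    have h1 : Wr (S.erase x) c b p = Wk (S.erase x) p true b := by
      unfold Wr; rw [if_neg hpc]
    have h2 : Wr S c b x = Wk S x true b := by
      unfold Wr; rw [if_neg hxc]
    rw [h1, h2]
    exact ⟨att_1 hx hval ha hd hn true,
      deadAt_dirt (deadAt_att ha hn hxt (deadAt_dir hval (att_nodup ha hn) hd)) true⟩

/-- I, case 2: the walker is at `x` whose bouquet is alive -/
theorem structI2 {S : Finset V} {c : V} {b : BT V} (hnd : (c :: b.labels).Nodup)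
    {p : V} {f : Bool} {t : BT V} (hp : AS S c b p f t) {x : V} {g : Bool} {t' : BT V} (hx : x ∈ S)
    (hd : Dir (.nd g x t') t) (hval : val S g t' ≠ none) :
    TriI g (Wr (S.erase x) c b p) (val (S.erase x) true b) (Wr S c b x) ∧
    (g = true → dirt (S.erase x) true b) := by
  rw [List.nodup_cons] at hnd
  obtain ⟨hc, hn⟩ := hnd
  have hdd : t.labels.Nodup → g = true → dirt (S.erase x) g t' := by
    rintro hnt rfl
    have hxt' : x ∉ t'.labels := dir_notMem hnt hd
    apply dirt_of_val
    rwa [val_erase hxt']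
  rcases AS_cases hp with ⟨rfl, rfl, rfl⟩ | ha
  · have hxp : x ≠ p := by
      rintro rfl; exact hc (dir_label hd)
    have h1 : Wr (S.erase x) p t p = own true (val (S.erase x) true t) := by
      unfold Wr; rw [if_pos rfl]
    have h2 : Wr S p t x = Wk S x true t := by
      unfold Wr; rw [if_neg hxp]
    refine ⟨?_, fun hg => dirt_dir hd (hdd hn hg) true⟩
    rw [h1, h2]
    rcases own_dir2 hx hval true hn hd with ⟨h3, h4⟩ | ⟨d, s, h3, h4, h5, h6, h7, h8, h9⟩
    · rw [h3, h4]; exact Or.inl ⟨rfl, rfl, rfl⟩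
    · rw [h3, h4]
      exact Or.inr ⟨ep true, d, s, rfl, rfl, rfl, ep_nonneg true, h5, h6, h7, h8, h9⟩
  · have hxt := dir_label hd
    have hxc : x ≠ c := by
      rintro rfl; exact hc (att_sub ha hxt)
    have hpc : p ≠ c := by
      rintro rfl; exact hc (att_label ha)
    have h1 : Wr (S.erase x) c b p = Wk (S.erase x) p true b := by
      unfold Wr; rw [if_neg hpc]
    have h2 : Wr S c b x = Wk S x true b := by
      unfold Wr; rw [if_neg hxc]
    rw [h1, h2]
    refine ⟨att_2 hx hval ha hd hn true, fun hg => ?_⟩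
    exact dirt_att ha (dirt_dir hd (hdd (att_nodup ha hn) hg) f) true


end Jia
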