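import Pool.Agent.Helper826.Jia.Defs

set_option autoImplicit false

namespace Jia
open Finset
open scoped symmDiff
variable {V : Type*} [DecidableEq V]

theorem mem_rs {K : Finset (Sym2 V)} {S : Finset V} {e : Sym2 V} :
    e ∈ rs K S ↔ e ∈ K ∧ e ∈ S.sym2 := by
  simp only [rs, mem_filter]

theorem rs_mono {K : Finset (Sym2 V)} {S T : Finset V} (h : S ⊆ T) : rs K S ⊆ rs K T := by
  intro e he
  rw [mem_rs] at *
  exact ⟨he.1, Finset.sym2_mono h he.2⟩

theorem notMem_rs_erase {K : Finset (Sym2 V)} {S : Finset V} {v w : V} :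
    s(v, w) ∉ rs K (S.erase v) := by
  intro h
  rw [mem_rs] at h
  have := (Finset.mk_mem_sym2_iff.mp h.2).1
  exact (Finset.notMem_erase v S) this

theorem rank_aux {S : Finset V} {v c : V} (hv : v ∈ S) (n : ℕ) : ∀ (K : Finset (Sym2 V))
    (W : Finset V), W.card = n + 1 → (∀ w ∈ W, w ∈ S.erase v ∧ s(v, w) ∈ K) →
    (∀ w ∈ W, ∃ P ⊆ rs K (S.erase v), IsJn P w c) →
    2 ^ n * (Zf (rs K (S.erase v))).card ≤ (Zf (rs K S)).card := by
  induction n with
  | zero =>
    intro K W _ _ _
    rw [pow_zero, one_mul]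
    exact card_le_card (Zf_mono (rs_mono (erase_subset v S)))
  | succ n ih =>
    intro K W hcard hWS hc
    obtain ⟨w0, hw0, w1, hw1, h01⟩ := Finset.one_lt_card.mp (by omega : 1 < W.card)
    obtain ⟨P0, hP0, hJ0⟩ := hc w0 hw0
    obtain ⟨P1, hP1, hJ1⟩ := hc w1 hw1
    have hv0 : v ≠ w0 := fun h => (Finset.notMem_erase v S) (h ▸ (hWS w0 hw0).1)
    have hv1 : v ≠ w1 := fun h => (Finset.notMem_erase v S) (h ▸ (hWS w1 hw1).1)
    have hne : s(v, w0) ≠ s(v, w1) := by
      intro h
      exact h01 (Sym2.congr_right.mp h)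
    have j0 : IsJn (({s(v, w0)} : Finset (Sym2 V)) ∆ P0) v c := (isJn_edge hv0).trans hJ0
    have j1 : IsJn (({s(v, w1)} : Finset (Sym2 V)) ∆ P1) v c := (isJn_edge hv1).trans hJ1
    have hn0 : s(v, w0) ∉ P0 := fun h => notMem_rs_erase (hP0 h)
    have hn1 : s(v, w0) ∉ P1 := fun h => notMem_rs_erase (hP1 h)
    have hmemS : ∀ w ∈ W, s(v, w) ∈ rs K S := by
      intro w hw
      rw [mem_rs]
      refine ⟨(hWS w hw).2, Finset.mk_mem_sym2_iff.mpr ⟨hv, Finset.mem_of_mem_erase (hWS w hw).1⟩⟩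
    have hsub : ∀ (w : V) (P : Finset (Sym2 V)), w ∈ W → P ⊆ rs K (S.erase v) →
        (({s(v, w)} : Finset (Sym2 V)) ∆ P) ⊆ rs K S := by
      intro w P hw hP e he
      rw [mem_symmDiff, mem_singleton] at he
      rcases he with he | he
      · rw [he.1]; exact hmemS w hw
      · exact rs_mono (erase_subset v S) (hP he.1)
    set C := (({s(v, w0)} : Finset (Sym2 V)) ∆ P0) ∆ (({s(v, w1)} : Finset (Sym2 V)) ∆ P1) with hC
    have hCZ : C ∈ Zf (rs K S) := by
      rw [mem_Zf]
      refine ⟨?_, j0.isEv j1⟩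
      intro e he
      rw [hC, mem_symmDiff] at he
      rcases he with he | he
      · exact hsub w0 P0 hw0 hP0 he.1
      · exact hsub w1 P1 hw1 hP1 he.1
    have heC : s(v, w0) ∈ C := by
      rw [hC, mem_symmDiff, mem_symmDiff, mem_symmDiff, mem_singleton, mem_singleton]
      left
      refine ⟨Or.inl ⟨rfl, hn0⟩, ?_⟩
      rintro (h | h)
      · exact hne h.1
      · exact hn1 h.1
    rw [Zf_erase hCZ heC]
    have e1 : rs (K.erase s(v, w0)) S = (rs K S).erase s(v, w0) := by
      ext e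
      simp only [mem_rs, mem_erase]
      tauto
    have e2 : rs (K.erase s(v, w0)) (S.erase v) = rs K (S.erase v) := by
      ext e
      rw [mem_rs, mem_rs, mem_erase]
      constructor
      · intro h; exact ⟨h.1.2, h.2⟩
      · intro h
        refine ⟨⟨?_, h.1⟩, h.2⟩
        rintro rfl
        exact notMem_rs_erase (mem_rs.mpr h)
    have hih := ih (K.erase s(v, w0)) (W.erase w0) (by
        rw [card_erase_of_mem hw0]; omega) (by
        intro w hw
        rw [mem_erase] at hw
        refine ⟨(hWS w hw.2).1, mem_erase.mpr ⟨?_, (hWS w hw.2).2⟩⟩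
        intro h
        exact hw.1 (Sym2.congr_right.mp h)) (by
        intro w hw
        rw [e2]
        exact hc w (mem_of_mem_erase hw))
    rw [e1, e2] at hih
    calc 2 ^ (n + 1) * (Zf (rs K (S.erase v))).card
        = 2 * (2 ^ n * (Zf (rs K (S.erase v))).card) := by ring
      _ ≤ 2 * (Zf ((rs K S).erase s(v, w0))).card := by gcongr

/-- rank lemma: if the vertices of `W` are neighbours of `v` in `S` and each of them is joined to `c`
inside `S.erase v`, then deleting `v` divides the number of even sets by at least `2^(|W|-1)`. -/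
theorem rank_lemma {K : Finset (Sym2 V)} {S : Finset V} {v c : V} (hv : v ∈ S)
    (W : Finset V) (hW : W.Nonempty) (hWS : ∀ w ∈ W, w ∈ S.erase v ∧ s(v, w) ∈ K)
    (hc : ∀ w ∈ W, ∃ P ⊆ rs K (S.erase v), IsJn P w c) :
    2 ^ (W.card - 1) * (Zf (rs K (S.erase v))).card ≤ (Zf (rs K S)).card := by
  have h1 := hW.card_pos
  exact rank_aux hv (W.card - 1) K W (by omega) hWS hc

end Jia
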