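import Pool.Agent.Helper826.Jia.G1a
import Pool.Agent.Helper826.Jia.G1b
import Pool.Agent.Helper826.Jia.R

set_option autoImplicit false

namespace Jia
open Finset
open scoped symmDiff
variable {V : Type*} [DecidableEq V]

open Classical in
/-- number of (edge sets of) paths from `v` to `c` in `S` whose leftover satisfies `G` -/
noncomputable def cnt (K : Finset (Sym2 V)) (c : V) (G : Finset V → Prop) (S : Finset V) (v : V) : ℕ :=
  (K.powerset.filter (fun P => ∃ R, Pth K c S v P R ∧ G R)).card


omit [DecidableEq V] in
/-- the pairs (owner, top) of a bouquet owned by `p` -/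
def BT.prs : V → BT V → List (V × V)
  | p, .out w => [(p, w)]
  | p, .nd _ x b => (p, x) :: BT.prs x b
  | p, .br s t => BT.prs p s ++ BT.prs p t

omit [DecidableEq V] in
theorem prs_snd (p : V) (t : BT V) : (BT.prs p t).map Prod.snd = t.labels := by
  induction t generalizing p with
  | out w => rfl
  | nd f x b ih => simp [BT.prs, BT.labels, ih]
  | br s t ihs iht => simp [BT.prs, BT.labels, ihs, iht]

omit [DecidableEq V] in
theorem prs_of_tops (p : V) (t : BT V) (y : V) (h : y ∈ t.tops) : (p, y) ∈ BT.prs p t := by
  induction t with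
  | out w => simp only [BT.tops, List.mem_singleton] at h; simp [BT.prs, h]
  | nd f x b ih => simp only [BT.tops, List.mem_singleton] at h; simp [BT.prs, h]
  | br s t ihs iht =>
    simp only [BT.tops, List.mem_append] at h
    simp only [BT.prs, List.mem_append]
    exact h.imp ihs iht

omit [DecidableEq V] in
theorem dir_prs {g : Bool} {y : V} {t' t : BT V} (h : Dir (.nd g y t') t) (p : V) :
    BT.prs y t' ⊆ BT.prs p t := by
  generalize he : (BT.nd g y t') = e at h
  induction h with
  | out w => cases he
  | nd f x b =>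
    cases he
    intro z hz
    simp only [BT.prs, List.mem_cons]
    exact Or.inr hz
  | left h ih =>
    intro z hz
    simp only [BT.prs, List.mem_append]
    exact Or.inl (ih he hz)
  | right h ih =>
    intro z hz
    simp only [BT.prs, List.mem_append]
    exact Or.inr (ih he hz)

omit [DecidableEq V] in
theorem tops_iff (t : BT V) (y : V) :
    y ∈ t.tops ↔ Dir (.out y) t ∨ ∃ g t', Dir (.nd g y t') t := by
  constructor
  · intro h
    induction t with
    | out w =>
      simp only [BT.tops, List.mem_singleton] at h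
      subst h; exact Or.inl (Dir.out _)
    | nd f x b ih =>
      simp only [BT.tops, List.mem_singleton] at h
      subst h; exact Or.inr ⟨f, b, Dir.nd _ _ _⟩
    | br s t ihs iht =>
      simp only [BT.tops, List.mem_append] at h
      rcases h with h | h
      · rcases ihs h with h | ⟨g, t', h⟩
        · exact Or.inl h.left
        · exact Or.inr ⟨g, t', h.left⟩
      · rcases iht h with h | ⟨g, t', h⟩
        · exact Or.inl h.right
        · exact Or.inr ⟨g, t', h.right⟩
  · rintro (h | ⟨g, t', h⟩)
    · generalize he : (BT.out y) = e at h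
      induction h with
      | out w => cases he; simp [BT.tops]
      | nd f x b => cases he
      | left h ih => simp only [BT.tops, List.mem_append]; exact Or.inl (ih he)
      | right h ih => simp only [BT.tops, List.mem_append]; exact Or.inr (ih he)
    · generalize he : (BT.nd g y t') = e at h
      induction h with
      | out w => cases he
      | nd f x b => cases he; simp [BT.tops]
      | left h ih => simp only [BT.tops, List.mem_append]; exact Or.inl (ih he)
      | right h ih => simp only [BT.tops, List.mem_append]; exact Or.inr (ih he)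

omit [DecidableEq V] in
theorem dir_full {K : Finset (Sym2 V)} {g : Bool} {y : V} {t' t : BT V}
    (h : Dir (.nd g y t') t) (p : V) (hf : t.Full K p) :
    (∀ z, s(y, z) ∈ K ↔ (z = p ∨ z ∈ t'.tops)) ∧ t'.Full K y := by
  generalize he : (BT.nd g y t') = e at h
  induction h with
  | out w => cases he
  | nd f x b => cases he; exact hf
  | left h ih => exact ih hf.1 he
  | right h ih => exact ih hf.2 he

omit [DecidableEq V] in
theorem dir_labels {e t : BT V} (h : Dir e t) : e.labels.Sublist t.labels := by
  induction h with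
  | out w => exact List.Sublist.refl _
  | nd f x b => exact List.Sublist.refl _
  | left h ih => exact ih.trans (List.sublist_append_left _ _)
  | right h ih => exact ih.trans (List.sublist_append_right _ _)

omit [DecidableEq V] in
theorem tops_labels (t : BT V) (y : V) (h : y ∈ t.tops) : y ∈ t.labels := by
  rw [tops_iff] at h
  rcases h with h | ⟨g, t', h⟩
  · exact (dir_labels h).subset (by simp [BT.labels])
  · exact (dir_labels h).subset (by simp [BT.labels])

omit [DecidableEq V] in
theorem AS.sub {S : Finset V} {c : V} {b : BT V} {p : V} {f : Bool} {t : BT V}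
    (h : AS S c b p f t) : (p :: t.labels).Sublist (c :: b.labels) := by
  induction h with
  | root h => exact List.Sublist.refl _
  | step h hd hy ih =>
    have h1 := dir_labels hd
    exact (h1.trans (List.sublist_cons_self _ _)).trans ih

omit [DecidableEq V] in
theorem AS.mem {S : Finset V} {c : V} {b : BT V} {p : V} {f : Bool} {t : BT V}
    (h : AS S c b p f t) : p ∈ S := by
  cases h with
  | root h => exact h
  | step h hd hy => exact hy

omit [DecidableEq V] in
theorem AS.mono {S S' : Finset V} (hS : S ⊆ S') {c : V} {b : BT V} {p : V} {f : Bool} {t : BT V}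
    (h : AS S c b p f t) : AS S' c b p f t := by
  induction h with
  | root h => exact AS.root (hS h)
  | step h hd hy ih => exact AS.step ih hd (hS hy)

omit [DecidableEq V] in
theorem AS.full {K : Finset (Sym2 V)} {S : Finset V} {c : V} {b : BT V} (hfull : b.Full K c)
    {p : V} {f : Bool} {t : BT V} (h : AS S c b p f t) : t.Full K p := by
  induction h with
  | root h => exact hfull
  | step h hd hy ih => exact (dir_full hd _ ih).2

omit [DecidableEq V] in
theorem AS.prs {S : Finset V} {c : V} {b : BT V} {p : V} {f : Bool} {t : BT V}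
    (h : AS S c b p f t) : BT.prs p t ⊆ BT.prs c b := by
  induction h with
  | root h => exact List.Subset.refl _
  | step h hd hy ih => exact fun z hz => ih (dir_prs hd _ hz)

omit [DecidableEq V] in
theorem owner_unique {S S' : Finset V} {c : V} {b : BT V} (hnd : (c :: b.labels).Nodup)
    {p p' : V} {f f' : Bool} {t t' : BT V}
    (h : AS S c b p f t) (h' : AS S' c b p' f' t') {y : V} (hy : y ∈ t.tops) (hy' : y ∈ t'.tops) :
    p = p' := by
  have h1 : (p, y) ∈ BT.prs c b := h.prs (prs_of_tops p t y hy)
  have h2 : (p', y) ∈ BT.prs c b := h'.prs (prs_of_tops p' t' y hy')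
  have h3 : ((BT.prs c b).map Prod.snd).Nodup := by
    rw [prs_snd]; exact (List.nodup_cons.1 hnd).2
  have := List.inj_on_of_nodup_map h3 h1 h2 rfl
  exact congrArg Prod.fst this

omit [DecidableEq V] in
theorem AS.nb_of_top {K : Finset (Sym2 V)} {S : Finset V} {c : V} {b : BT V}
    (hroot : ∀ y, s(c, y) ∈ K ↔ y ∈ b.tops) (hfull : b.Full K c)
    {p : V} {f : Bool} {t : BT V} (h : AS S c b p f t) {y : V} (hy : y ∈ t.tops) :
    s(p, y) ∈ K := by
  cases h with
  | root h => exact (hroot y).2 hy
  | step h hd hy' => exact ((dir_full hd _ (h.full hfull)).1 y).2 (Or.inr hy)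

omit [DecidableEq V] in
theorem AS.top_of_nb {K : Finset (Sym2 V)} {S : Finset V} {c : V} {b : BT V}
    (hroot : ∀ y, s(c, y) ∈ K ↔ y ∈ b.tops) (hfull : b.Full K c)
    {p : V} {f : Bool} {t : BT V} (h : AS S c b p f t) {y : V} (hy : s(p, y) ∈ K) (hyS : y ∉ S) :
    y ∈ t.tops := by
  cases h with
  | root h => exact (hroot y).1 hy
  | step h hd hy' =>
    rcases ((dir_full hd _ (h.full hfull)).1 y).1 hy with h1 | h1
    · subst h1; exact absurd h.mem hyS
    · exact h1

/-- erasing a vertex which is not an attached owner -/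
theorem AS.erase {S : Finset V} {c : V} {b : BT V} {v : V} (hv : ∀ f t, ¬ AS S c b v f t)
    {p : V} {f : Bool} {t : BT V} (h : AS S c b p f t) : AS (S.erase v) c b p f t := by
  induction h with
  | root h =>
    refine AS.root (Finset.mem_erase.2 ⟨?_, h⟩)
    rintro rfl
    exact hv _ _ (AS.root h)
  | step h hd hy ih =>
    refine AS.step ih hd (Finset.mem_erase.2 ⟨?_, hy⟩)
    rintro rfl
    exact hv _ _ (AS.step h hd hy)

/-- erasing a label below `p` -/
theorem AS.erase' {S : Finset V} {c : V} {b : BT V} (hnd : (c :: b.labels).Nodup) {x : V}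
    {p : V} {f : Bool} {t : BT V} (h : AS S c b p f t) (hx : x ∈ t.labels) :
    AS (S.erase x) c b p f t := by
  induction h with
  | root h =>
    refine AS.root (Finset.mem_erase.2 ⟨?_, h⟩)
    rintro rfl
    exact (List.nodup_cons.1 hnd).1 hx
  | @step p f t g y t' h hd hy ih =>
    have h1 : ((BT.nd g y t').labels).Sublist t.labels := dir_labels hd
    have h2 : x ∈ t.labels := h1.subset (by simp only [BT.labels, List.mem_cons]; exact Or.inr hx)
    refine AS.step (ih h2) hd (Finset.mem_erase.2 ⟨?_, hy⟩)
    rintro rfl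
    have h3 := hnd.sublist h.sub
    have h4 := (List.nodup_cons.1 h3).2.sublist h1
    simp only [BT.labels] at h4
    exact (List.nodup_cons.1 h4).1 hx

theorem rs_mono_G2 {K : Finset (Sym2 V)} {S S' : Finset V} (h : S ⊆ S') : rs K S ⊆ rs K S' := by
  intro e he
  rw [rs, mem_filter] at he ⊢
  exact ⟨he.1, Finset.sym2_mono h he.2⟩

theorem pair_mem_rs {K : Finset (Sym2 V)} {S : Finset V} {a b : V} (ha : a ∈ S) (hb : b ∈ S)
    (h : s(a, b) ∈ K) : s(a, b) ∈ rs K S := by
  rw [rs, mem_filter]
  exact ⟨h, Finset.mk_mem_sym2_iff.2 ⟨ha, hb⟩⟩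

theorem Z_mono {K : Finset (Sym2 V)} {S S' : Finset V} (h : S ⊆ S') :
    (Zf (rs K S)).card ≤ (Zf (rs K S')).card := card_le_card (Zf_mono (rs_mono_G2 h))

theorem Pth.sub {K : Finset (Sym2 V)} {c : V} {S : Finset V} {v : V} {P : Finset (Sym2 V)}
    {R : Finset V} (h : Pth K c S v P R) : P ⊆ rs K S ∧ IsJn P v c := by
  induction h with
  | nil S h => exact ⟨empty_subset _, isJn_refl c⟩
  | cons S v w P R hv hvc hw he h ih =>
    have h1 : P ⊆ rs K S := ih.1.trans (rs_mono_G2 (Finset.erase_subset _ _))
    refine ⟨?_, ?_⟩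
    · intro e hee
      rw [mem_insert] at hee
      rcases hee with rfl | hee
      · exact pair_mem_rs hv (Finset.mem_of_mem_erase hw) he
      · exact h1 hee
    · have hvw : v ≠ w := (Finset.ne_of_mem_erase hw).symm
      have hnot : s(v, w) ∉ P := by
        intro hin
        have := ih.1 hin
        rw [rs, mem_filter, Finset.mk_mem_sym2_iff] at this
        exact (Finset.mem_erase.1 this.2.1).1 rfl
      have : insert s(v, w) P = ({s(v, w)} : Finset (Sym2 V)) ∆ P := by
        ext e
        rw [mem_insert, mem_symmDiff, mem_singleton]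
        constructor
        · rintro (rfl | h)
          · exact Or.inl ⟨rfl, hnot⟩
          · refine Or.inr ⟨h, ?_⟩
            rintro rfl; exact hnot h
        · rintro (⟨h, -⟩ | ⟨h, -⟩)
          · exact Or.inl h
          · exact Or.inr h
      rw [this]
      exact (isJn_edge hvw).trans ih.2

/-- (F3) -/
theorem AS.join {K : Finset (Sym2 V)} {S : Finset V} {c : V} {b : BT V}
    (hnd : (c :: b.labels).Nodup) (hroot : ∀ y, s(c, y) ∈ K ↔ y ∈ b.tops) (hfull : b.Full K c)
    {p : V} {f : Bool} {t : BT V} (h : AS S c b p f t) : ∃ P ⊆ rs K S, IsJn P p c := by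
  induction h with
  | root h => exact ⟨∅, empty_subset _, isJn_refl c⟩
  | @step p f t g y t' h hd hy ih =>
    obtain ⟨P, hP, hPj⟩ := ih
    have hyt : y ∈ t.tops := (tops_iff t y).2 (Or.inr ⟨g, t', hd⟩)
    have hK : s(y, p) ∈ K := by
      rw [Sym2.eq_swap]; exact h.nb_of_top hroot hfull hyt
    have hyp : y ≠ p := by
      rintro rfl
      exact (List.nodup_cons.1 (hnd.sublist h.sub)).1 (tops_labels _ _ hyt)
    refine ⟨{s(y, p)} ∆ P, ?_, (isJn_edge hyp).trans hPj⟩
    intro e he
    rw [mem_symmDiff, mem_singleton] at he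
    rcases he with ⟨rfl, -⟩ | ⟨he, -⟩
    · exact pair_mem_rs hy h.mem hK
    · exact hP he

theorem cnt_c {K : Finset (Sym2 V)} {c : V} {G : Finset V → Prop} {S : Finset V} :
    cnt K c G S c ≤ 1 ∧ (¬ G S → cnt K c G S c = 0) := by
  classical
  have key : ∀ P R, Pth K c S c P R → P = ∅ ∧ R = S := by
    intro P R h
    cases h with
    | nil S h => exact ⟨rfl, rfl⟩
    | cons S v w P R hv hvc hw he h => exact absurd rfl hvc
  refine ⟨?_, ?_⟩
  · unfold cnt
    refine (card_le_card (t := {∅}) ?_).trans (by simp)
    intro P hP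
    rw [mem_filter] at hP
    obtain ⟨-, R, h, -⟩ := hP
    rw [mem_singleton]; exact (key P R h).1
  · intro hG
    unfold cnt
    rw [card_eq_zero, filter_eq_empty_iff]
    rintro P - ⟨R, h, hR⟩
    rw [(key P R h).2] at hR
    exact hG hR

theorem cnt_le {K : Finset (Sym2 V)} {c : V} {G : Finset V → Prop} {S : Finset V} {v : V}
    (hvc : v ≠ c) :
    cnt K c G S v ≤ ∑ w ∈ (S.erase v).filter (fun w => s(v, w) ∈ K), cnt K c G (S.erase v) w := by
  classical
  unfold cnt
  refine le_trans (card_le_card (t := ((S.erase v).filter (fun w => s(v, w) ∈ K)).biUnion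
    (fun w => (K.powerset.filter (fun P => ∃ R, Pth K c (S.erase v) w P R ∧ G R)).image
      (fun P => insert s(v, w) P))) ?_) ?_
  · intro P hP
    rw [mem_filter, mem_powerset] at hP
    obtain ⟨hPK, R, h, hR⟩ := hP
    cases h with
    | nil S h => exact absurd rfl hvc
    | cons S v w P' R hv hvc hw he h =>
      rw [mem_biUnion]
      refine ⟨w, mem_filter.2 ⟨hw, he⟩, ?_⟩
      rw [mem_image]
      refine ⟨P', ?_, rfl⟩
      rw [mem_filter, mem_powerset]
      exact ⟨(subset_insert _ _).trans hPK, R, h, hR⟩
  · refine card_biUnion_le.trans (sum_le_sum (fun w _ => ?_))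
    refine card_image_le.trans (le_of_eq ?_)
    congr!

theorem join_of_cnt {K : Finset (Sym2 V)} {c : V} {G : Finset V → Prop} {S : Finset V} {w : V}
    (h : 0 < cnt K c G S w) : ∃ P ⊆ rs K S, IsJn P w c := by
  classical
  unfold cnt at h
  rw [card_pos] at h
  obtain ⟨P, hP⟩ := h
  rw [mem_filter] at hP
  obtain ⟨-, R, h, -⟩ := hP
  exact ⟨P, h.sub⟩

theorem le_two_pow_pred (a : ℕ) : a ≤ 2 ^ (a - 1) := by
  cases a with
  | zero => simp
  | succ n => simpa using Nat.lt_two_pow_self (n := n)

theorem step0 {K : Finset (Sym2 V)} {c : V} {G : Finset V → Prop} {S : Finset V} {v : V}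
    (hv : v ∈ S) (hvc : v ≠ c) (d : ℝ) (hd : 0 ≤ d)
    (hT : ∀ w ∈ S.erase v, s(v, w) ∈ K →
      (cnt K c G (S.erase v) w : ℝ) ≤ d * (Zf (rs K (S.erase v))).card) :
    (cnt K c G S v : ℝ) ≤ d * (Zf (rs K S)).card := by
  classical
  set T := (S.erase v).filter (fun w => s(v, w) ∈ K) with hTd
  set A := T.filter (fun w => 0 < cnt K c G (S.erase v) w) with hA
  set Z' := (Zf (rs K (S.erase v))).card with hZ'
  set Z := (Zf (rs K S)).card with hZ
  have h1 : cnt K c G S v ≤ ∑ w ∈ A, cnt K c G (S.erase v) w := by
    refine (cnt_le hvc).trans (le_of_eq ?_)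
    rw [← hTd, hA]
    exact (Finset.sum_filter_of_ne (fun w _ h => Nat.pos_of_ne_zero h)).symm
  have h2 : (cnt K c G S v : ℝ) ≤ A.card * (d * Z') := by
    have h3 : (cnt K c G S v : ℝ) ≤ ∑ w ∈ A, (cnt K c G (S.erase v) w : ℝ) := by exact_mod_cast h1
    refine h3.trans ?_
    have h4 : ∑ w ∈ A, (cnt K c G (S.erase v) w : ℝ) ≤ ∑ w ∈ A, d * Z' := by
      apply sum_le_sum
      intro w hw
      rw [hA, mem_filter, hTd, mem_filter] at hw
      exact hT w hw.1.1 hw.1.2
    rwa [sum_const, nsmul_eq_mul] at h4
  rcases A.eq_empty_or_nonempty with h0 | h0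
  · rw [h0, card_empty, Nat.cast_zero, zero_mul] at h2
    exact h2.trans (by positivity)
  · have h5 := rank_lemma (K := K) (c := c) hv A h0 (by
      intro w hw
      rw [hA, mem_filter, hTd, mem_filter] at hw
      exact hw.1) (by
      intro w hw
      rw [hA, mem_filter] at hw
      exact join_of_cnt hw.2)
    have h6 : A.card * Z' ≤ Z := (Nat.mul_le_mul_right _ (le_two_pow_pred _)).trans h5
    have h7 : (A.card : ℝ) * Z' ≤ Z := by exact_mod_cast h6
    nlinarith

theorem stepQ {K : Finset (Sym2 V)} {c : V} {G : Finset V → Prop} {S : Finset V} {v : V}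
    (hv : v ∈ S) (hvc : v ≠ c) (q : V) (hq : q ∈ S.erase v) (hqK : s(v, q) ∈ K)
    (hqj : ∃ P ⊆ rs K (S.erase v), IsJn P q c) (d : ℝ)
    (hT : ∀ w ∈ S.erase v, s(v, w) ∈ K → w ≠ q →
      (cnt K c G (S.erase v) w : ℝ) ≤ d * (Zf (rs K (S.erase v))).card) :
    ∃ a : ℕ, (cnt K c G S v : ℝ) ≤
        cnt K c G (S.erase v) q + a * d * (Zf (rs K (S.erase v))).card ∧
      (2 : ℝ) ^ a * (Zf (rs K (S.erase v))).card ≤ (Zf (rs K S)).card := by
  classical
  set T := (S.erase v).filter (fun w => s(v, w) ∈ K) with hTd
  set A := (T.erase q).filter (fun w => 0 < cnt K c G (S.erase v) w) with hA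
  set Z' := (Zf (rs K (S.erase v))).card with hZ'
  set Z := (Zf (rs K S)).card with hZ
  have hqT : q ∈ T := mem_filter.2 ⟨hq, hqK⟩
  have h1 : cnt K c G S v ≤ cnt K c G (S.erase v) q + ∑ w ∈ A, cnt K c G (S.erase v) w := by
    refine (cnt_le hvc).trans (le_of_eq ?_)
    rw [← hTd, ← add_sum_erase T _ hqT]
    congr 1
    rw [hA]
    exact (Finset.sum_filter_of_ne (fun w _ h => Nat.pos_of_ne_zero h)).symm
  refine ⟨A.card, ?_, ?_⟩
  · have h3 : (cnt K c G S v : ℝ) ≤ cnt K c G (S.erase v) q +
      ∑ w ∈ A, (cnt K c G (S.erase v) w : ℝ) := by exact_mod_cast h1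
    refine h3.trans ?_
    have h4 : ∑ w ∈ A, (cnt K c G (S.erase v) w : ℝ) ≤ ∑ w ∈ A, d * Z' := by
      apply sum_le_sum
      intro w hw
      rw [hA, mem_filter, mem_erase, hTd, mem_filter] at hw
      exact hT w hw.1.2.1 hw.1.2.2 hw.1.1
    rw [sum_const, nsmul_eq_mul] at h4
    linarith
  · have hqA : q ∉ A := by
      intro h
      rw [hA, mem_filter, mem_erase] at h
      exact h.1.1 rfl
    have h5 := rank_lemma (K := K) (c := c) hv (insert q A) (insert_nonempty _ _) (by
      intro w hw
      rw [mem_insert] at hw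
      rcases hw with rfl | hw
      · exact ⟨hq, hqK⟩
      · rw [hA, mem_filter, mem_erase, hTd, mem_filter] at hw
        exact hw.1.2) (by
      intro w hw
      rw [mem_insert] at hw
      rcases hw with rfl | hw
      · exact hqj
      · rw [hA, mem_filter] at hw
        exact join_of_cnt hw.2)
    rw [card_insert_of_notMem hqA, Nat.add_sub_cancel] at h5
    exact_mod_cast h5

theorem num1 {x d s : ℝ} (a : ℕ) (hx : 0 ≤ x) (hd : 0 ≤ d) (hxs : x ≤ s)
    (h : (x + d) / 2 ≤ s) : x + a * d ≤ 2 ^ a * s := by
  cases a with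
  | zero => simpa using hxs
  | succ n =>
    have h1 : ((n + 1 : ℕ) : ℝ) ≤ 2 ^ n := by
      have := le_two_pow_pred (n + 1)
      exact_mod_cast this
    have h2 : (1 : ℝ) ≤ 2 ^ n := one_le_pow₀ (by norm_num)
    calc x + ((n + 1 : ℕ) : ℝ) * d ≤ 2 ^ n * x + 2 ^ n * d := by
          apply add_le_add
          · nlinarith
          · exact mul_le_mul_of_nonneg_right h1 hd
      _ = 2 ^ (n + 1) * ((x + d) / 2) := by rw [pow_succ]; ring
      _ ≤ 2 ^ (n + 1) * s := mul_le_mul_of_nonneg_left h (by positivity)

theorem cb_none {f : Bool} {a b : Option ℝ} (h : cb f a b = none) : a = none ∧ b = none := by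
  cases a <;> cases b <;> simp_all [cb]

theorem val_mono {S S' : Finset V} (hS : S' ⊆ S) {f : Bool} {t : BT V} (h : val S f t = none) :
    val S' f t = none := by
  induction t generalizing f with
  | out w =>
    simp only [val] at h ⊢
    split_ifs at h with h1
    rw [if_neg (fun h2 => h1 (hS h2))]
  | nd g x b ih =>
    simp only [val] at h ⊢
    split_ifs with h1
    · rw [if_pos (hS h1)] at h
      exact ih h
    · rfl
  | br s t ihs iht =>
    simp only [val] at h ⊢
    obtain ⟨h1, h2⟩ := cb_none h
    rw [ihs h1, iht h2]; rfl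

theorem val_dir {S : Finset V} {f : Bool} {e t : BT V} (hd : Dir e t) (h : val S f t = none) :
    val S f e = none := by
  induction hd with
  | out w => exact h
  | nd g x b => exact h
  | left hd ih => simp only [val] at h; exact ih (cb_none h).1
  | right hd ih => simp only [val] at h; exact ih (cb_none h).2

/-- a path starting at a top of a dead bouquet whose owner is missing never reaches `c` -/
theorem dead_path {K : Finset (Sym2 V)} {c : V} {S : Finset V} {w : V} {P : Finset (Sym2 V)}
    {R : Finset V} (h : Pth K c S w P R) : ∀ (q : V) (f : Bool) (t : BT V), q ∉ S →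
      t.Full K q → c ∉ t.labels → val S f t = none → w ∉ t.tops := by
  induction h with
  | nil S h =>
    intro q f t _ _ hc _ hw
    exact hc (tops_labels _ _ hw)
  | cons S v w P R hv hvc hw he h ih =>
    intro q f t hq hfull hc hval hvt
    rw [tops_iff] at hvt
    rcases hvt with hd | ⟨g, t', hd⟩
    · have := val_dir hd hval
      simp [val, hv] at this
    · have h1 := val_dir hd hval
      simp only [val, if_pos hv] at h1
      obtain ⟨h2, h3⟩ := dir_full hd q hfull
      have hwS : w ∈ S := Finset.mem_of_mem_erase hw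
      rcases (h2 w).1 he with h4 | h4
      · exact hq (h4 ▸ hwS)
      · refine ih v g t' (Finset.notMem_erase _ _) h3 ?_
          (val_mono (Finset.erase_subset _ _) h1) h4
        intro hc'
        exact hc ((dir_labels hd).subset (by simp only [BT.labels, List.mem_cons]; exact Or.inr hc'))

theorem val_getD_nonneg (S : Finset V) (f : Bool) (b : BT V) : 0 ≤ (val S f b).getD 0 := by
  cases h : val S f b with
  | none => simp
  | some a => simpa using (val_bounds S f b a h).1

/-- the game lemma -/
theorem game {K : Finset (Sym2 V)} {c : V} {b : BT V} (hnd : (c :: b.labels).Nodup)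
    (hroot : ∀ y, s(c, y) ∈ K ↔ y ∈ b.tops) (hfull : b.Full K c) :
    ∀ (n : ℕ) (S : Finset V), S.card = n → c ∈ S →
      (∀ v ∈ S, (∀ f t, ¬ AS S c b v f t) →
        (cnt K c (fun R => ¬ dirt R true b) S v : ℝ) ≤
          (val S true b).getD 0 * (Zf (rs K S)).card) ∧
      (∀ p f t, AS S c b p f t →
        (cnt K c (fun R => ¬ dirt R true b) S p : ℝ) ≤
          fin' S b (Wr S c b p) * (Zf (rs K S)).card) := by
  classical
  intro n
  induction n with
  | zero =>
    intro S hS hc
    rw [card_eq_zero] at hS
    rw [hS] at hc; simp at hc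
  | succ n ih =>
  intro S hS hcS
  have hcroot : AS S c b c true b := AS.root hcS
  refine ⟨?_, ?_⟩
  · -- the outside walker
    intro v hv hout
    have hvc : v ≠ c := by
      rintro rfl; exact hout _ _ hcroot
    have hcS' : c ∈ S.erase v := Finset.mem_erase.2 ⟨hvc.symm, hcS⟩
    have hcard : (S.erase v).card = n := by rw [card_erase_of_mem hv, hS]; rfl
    obtain ⟨ih1, ih2⟩ := ih (S.erase v) hcard hcS'
    -- attached neighbours have `v` as an out-leaf
    have hatt : ∀ w f t, AS (S.erase v) c b w f t → s(v, w) ∈ K → Dir (.out v) t := by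
      intro w f t h hK
      rw [Sym2.eq_swap] at hK
      have h1 := h.top_of_nb hroot hfull hK (Finset.notMem_erase _ _)
      rcases (tops_iff t v).1 h1 with h2 | ⟨g, t', h2⟩
      · exact h2
      · exact absurd (AS.step (h.mono (Finset.erase_subset _ _)) h2 hv) (hout _ _)
    by_cases hq : ∃ q f t, AS S c b q f t ∧ Dir (.out v) t
    · obtain ⟨q, f, t, hqA, hqd⟩ := hq
      have hqA' : AS (S.erase v) c b q f t := hqA.erase hout
      have hqtop : v ∈ t.tops := (tops_iff t v).2 (Or.inl hqd)
      have hqK : s(v, q) ∈ K := by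
        rw [Sym2.eq_swap]; exact hqA.nb_of_top hroot hfull hqtop
      have htri := structO hnd hqA hv hqd
      obtain ⟨a, ha1, ha2⟩ := stepQ (G := fun R => ¬ dirt R true b) hv hvc q hqA'.mem hqK
        (hqA'.join hnd hroot hfull) ((val (S.erase v) true b).getD 0) (by
          intro w hw hwK hwq
          refine ih1 w hw ?_
          intro f' t' hw'
          have h1 := hatt w f' t' hw' hwK
          exact hwq (owner_unique hnd hw' hqA ((tops_iff t' v).2 (Or.inl h1)) hqtop))
      have hq2 := ih2 q f t hqA'
      set Z' : ℝ := ((Zf (rs K (S.erase v))).card : ℝ) with hZ'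
      set Z : ℝ := ((Zf (rs K S)).card : ℝ) with hZ
      have hZ0 : 0 ≤ Z' := Nat.cast_nonneg _
      have hZZ : Z' ≤ Z := by rw [hZ', hZ]; exact_mod_cast Z_mono (K := K) (Finset.erase_subset v S)
      rcases htri with ⟨h1, h2, h3⟩ | ⟨x, d', s', h1, h2, h3, hx0, hxs, hs1, hd0, hd1, hxd⟩
      · rw [h1] at hq2
        rw [h2] at ha1
        rw [h3]
        simp only [Option.getD_none, mul_zero, zero_mul, add_zero] at ha1
        simp only [Option.getD_some, one_mul]
        have h4 : fin' (S.erase v) b WR.pd ≤ 1 := by
          simp only [fin']; split_ifs <;> norm_num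
        nlinarith
      · rw [h1] at hq2
        rw [h2] at ha1
        rw [h3]
        simp only [Option.getD_some] at ha1 ⊢
        simp only [fin'] at hq2
        have h4 := num1 a hx0 hd0 hxs hxd
        have hs0 : 0 ≤ s' := hx0.trans hxs
        calc _ ≤ _ := ha1
          _ ≤ x * Z' + a * d' * Z' := by linarith
          _ = (x + a * d') * Z' := by ring
          _ ≤ (2 ^ a * s') * Z' := mul_le_mul_of_nonneg_right h4 hZ0
          _ = s' * (2 ^ a * Z') := by ring
          _ ≤ s' * Z := mul_le_mul_of_nonneg_left ha2 hs0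
    · push Not at hq
      have hval := structV hnd hcS hout hq
      refine step0 (G := fun R => ¬ dirt R true b) hv hvc _ (val_getD_nonneg S true b) ?_
      intro w hw hwK
      rw [← hval]
      refine ih1 w hw ?_
      intro f t h
      exact hq w f t (h.mono (Finset.erase_subset _ _)) (hatt w f t h hwK)
  · -- the inside walker
    intro x g t' hx
    cases hx with
    | root h =>
      have hW : Wr S c b c = own true (val S true b) := by simp [Wr]
      rw [hW]
      have hZ1 : (1 : ℝ) ≤ ((Zf (rs K S)).card : ℝ) := by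
        exact_mod_cast Zf_card_pos (rs K S)
      obtain ⟨h1, h2⟩ := cnt_c (K := K) (c := c) (G := fun R => ¬ dirt R true b) (S := S)
      cases hv : val S true b with
      | none =>
        simp only [own, fin']
        split_ifs with hd
        · rw [h2 (by simpa using hd)]; simp
        · have : (cnt K c (fun R => ¬ dirt R true b) S c : ℝ) ≤ 1 := by exact_mod_cast h1
          linarith
      | some u =>
        have hd : dirt S true b := dirt_of_val (by rw [hv]; simp)
        rw [h2 (by simpa using hd)]
        simp [own, fin', ep]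
    | @step p0 f0 t0 _ _ _ hp0 hd hxS =>
      have hxS' : x ∈ S := hxS
      have hxtop : x ∈ t0.tops := (tops_iff t0 x).2 (Or.inr ⟨g, t', hd⟩)
      have hxc : x ≠ c := by
        rintro rfl
        have h1 : x ∈ b.labels := by
          have h2 : (p0, x) ∈ BT.prs x b := hp0.prs (prs_of_tops p0 t0 x hxtop)
          have h3 := List.mem_map_of_mem (f := Prod.snd) h2
          rwa [prs_snd] at h3
        exact (List.nodup_cons.1 hnd).1 h1
      have hcS' : c ∈ S.erase x := Finset.mem_erase.2 ⟨hxc.symm, hcS⟩
      have hcard : (S.erase x).card = n := by rw [card_erase_of_mem hxS', hS]; rfl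
      obtain ⟨ih1, ih2⟩ := ih (S.erase x) hcard hcS'
      have hp0' : AS (S.erase x) c b p0 f0 t0 := hp0.erase' hnd (tops_labels _ _ hxtop)
      have hK0 : s(x, p0) ∈ K := by
        rw [Sym2.eq_swap]; exact hp0.nb_of_top hroot hfull hxtop
      obtain ⟨hnb, hfull'⟩ := dir_full hd p0 (hp0.full hfull)
      have hxA : AS S c b x g t' := AS.step hp0 hd hxS
      -- the tops of `t'` are outside
      have hout : ∀ w ∈ t'.tops, ∀ f t, ¬ AS (S.erase x) c b w f t := by
        intro w hw f t hwA
        cases hwA with
        | root h =>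
          have h2 : (x, c) ∈ BT.prs c b := hxA.prs (prs_of_tops x t' c hw)
          have h3 := List.mem_map_of_mem (f := Prod.snd) h2
          rw [prs_snd] at h3
          exact (List.nodup_cons.1 hnd).1 h3
        | @step p1 f1 t1 _ _ _ hp1 hd1 hw1 =>
          have h1 : p1 = x := owner_unique hnd hp1 hxA
            ((tops_iff t1 w).2 (Or.inr ⟨_, _, hd1⟩)) hw
          have h2 := hp1.mem
          rw [h1] at h2
          exact (Finset.notMem_erase _ _) h2
      have hq2 := ih2 p0 f0 t0 hp0'
      by_cases hval : val S g t' = none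
      · -- dead bouquet
        have hdead : ∀ w ∈ t'.tops, cnt K c (fun R => ¬ dirt R true b) (S.erase x) w = 0 := by
          intro w hw
          unfold cnt
          rw [card_eq_zero, filter_eq_empty_iff]
          rintro P - ⟨R, h, -⟩
          refine dead_path h x g t' (Finset.notMem_erase _ _) hfull' ?_
            (val_mono (Finset.erase_subset _ _) hval) hw
          intro hc'
          have h1 := hxA.sub
          have h2 := h1.subset (List.mem_cons_of_mem _ hc')
          have h3 : (x :: t'.labels).Sublist b.labels := by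
            have h4 : ((BT.nd g x t').labels).Sublist t0.labels := dir_labels hd
            have h5 := hp0.sub
            have h6 : (t0.labels).Sublist b.labels := by
              have := h5.tail
              simpa using this
            exact h4.trans h6
          exact (List.nodup_cons.1 hnd).1 (h3.subset (List.mem_cons_of_mem _ hc'))
        obtain ⟨a, ha1, ha2⟩ := stepQ (G := fun R => ¬ dirt R true b) hxS' hxc p0 hp0'.mem hK0
          (hp0'.join hnd hroot hfull) 0 (by
            intro w _ hwK hwp
            rcases (hnb w).1 hwK with h1 | h1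
            · exact absurd h1 hwp
            · rw [hdead w h1]; simp)
        simp only [mul_zero, zero_mul, add_zero] at ha1
        obtain ⟨hst1, hst2⟩ := structI1 hnd hp0 hxS' hd hval
        set Z' : ℝ := ((Zf (rs K (S.erase x))).card : ℝ) with hZ'
        set Z : ℝ := ((Zf (rs K S)).card : ℝ) with hZ
        have hZ0 : 0 ≤ Z' := Nat.cast_nonneg _
        have hZZ : Z' ≤ Z := by rw [hZ', hZ]; exact_mod_cast Z_mono (K := K) (Finset.erase_subset x S)
        have hfin : 0 ≤ fin' (S.erase x) b (Wr (S.erase x) c b p0) ∧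
            fin' (S.erase x) b (Wr (S.erase x) c b p0) ≤ fin' S b (Wr S c b x) := by
          rcases hst1 with ⟨h1, h2⟩ | ⟨a', a'', h1, h2, h3, h4, h5⟩
          · rw [h1, h2]
            simp only [fin']
            by_cases hdS : dirt S true b
            · rw [if_pos hdS, if_pos (hst2 hdS)]; simp
            · rw [if_neg hdS]; split_ifs <;> norm_num
          · rw [h1, h2]
            exact ⟨h3, h4⟩
        calc _ ≤ _ := ha1
          _ ≤ _ := hq2
          _ ≤ fin' S b (Wr S c b x) * Z' := mul_le_mul_of_nonneg_right hfin.2 hZ0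
          _ ≤ fin' S b (Wr S c b x) * Z := mul_le_mul_of_nonneg_left hZZ (hfin.1.trans hfin.2)
      · obtain ⟨a, ha1, ha2⟩ := stepQ (G := fun R => ¬ dirt R true b) hxS' hxc p0 hp0'.mem hK0
          (hp0'.join hnd hroot hfull) ((val (S.erase x) true b).getD 0) (by
            intro w hw hwK hwp
            rcases (hnb w).1 hwK with h1 | h1
            · exact absurd h1 hwp
            · exact ih1 w hw (hout w h1))
        obtain ⟨htri, hdirt⟩ := structI2 hnd hp0 hxS' hd hval
        set Z' : ℝ := ((Zf (rs K (S.erase x))).card : ℝ) with hZ'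
        set Z : ℝ := ((Zf (rs K S)).card : ℝ) with hZ
        have hZ0 : 0 ≤ Z' := Nat.cast_nonneg _
        have hZZ : Z' ≤ Z := by rw [hZ', hZ]; exact_mod_cast Z_mono (K := K) (Finset.erase_subset x S)
        rcases htri with ⟨h1, h2, h3⟩ | ⟨u, d', s', h1, h2, h3, hx0, hxs, hs1, hd0, hd1, hxd⟩
        · rw [h1] at hq2
          rw [h2] at ha1
          rw [h3]
          simp only [Option.getD_none, mul_zero, zero_mul, add_zero] at ha1
          refine ha1.trans (hq2.trans ?_)
          simp only [fin']
          cases g with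
          | true =>
            rw [if_pos (hdirt rfl)]
            simp [ep]
          | false =>
            simp only [ep, Bool.false_eq_true, if_false, one_mul]
            split_ifs
            · rw [zero_mul]; exact hZ0.trans hZZ
            · rw [one_mul]; exact hZZ
        · rw [h1] at hq2
          rw [h2] at ha1
          rw [h3]
          simp only [Option.getD_some] at ha1
          simp only [fin'] at hq2 ⊢
          have h4 := num1 a hx0 hd0 hxs hxd
          have hs0 : 0 ≤ s' := hx0.trans hxs
          calc _ ≤ _ := ha1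
            _ ≤ u * Z' + a * d' * Z' := by linarith
            _ = (u + a * d') * Z' := by ring
            _ ≤ (2 ^ a * s') * Z' := mul_le_mul_of_nonneg_right h4 hZ0
            _ = s' * (2 ^ a * Z') := by ring
            _ ≤ s' * Z := mul_le_mul_of_nonneg_left ha2 hs0

end Jia
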