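import Pool.Agent.Helper826.Jia.TD

set_option autoImplicit false

namespace Jia
open Finset
open scoped symmDiff
variable {V : Type*} [DecidableEq V]

set_option linter.unusedSectionVars false

theorem ol_sub : ∀ (t : BT V) (w : V), w ∈ ol t → w ∈ t.labels
  | .out w, v, h => by simpa [ol, BT.labels] using h
  | .nd _ x b, v, h => by
      simp only [ol] at h
      simp only [BT.labels, List.mem_cons]
      exact Or.inr (ol_sub b v h)
  | .br s t, v, h => by
      simp only [ol, mem_union] at h
      simp only [BT.labels, List.mem_append]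
      rcases h with h | h
      · exact Or.inl (ol_sub s v h)
      · exact Or.inr (ol_sub t v h)

theorem ol_disj {s t : BT V} (hnd : (BT.br s t).labels.Nodup) : Disjoint (ol s) (ol t) := by
  rw [Finset.disjoint_left]
  intro w hs ht
  simp only [BT.labels] at hnd
  exact (List.disjoint_of_nodup_append hnd) (ol_sub s w hs) (ol_sub t w ht)

theorem ol_nonempty : ∀ (t : BT V), (ol t).Nonempty
  | .out w => by simp [ol]
  | .nd _ x b => by simpa [ol] using ol_nonempty b
  | .br s t => by
      obtain ⟨w, hw⟩ := ol_nonempty s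
      exact ⟨w, by simp [ol, hw]⟩

theorem tops_pos : ∀ (t : BT V), 1 ≤ t.tops.length
  | .out w => by simp [BT.tops]
  | .nd _ x b => by simp [BT.tops]
  | .br s t => by
      have := tops_pos s
      simp only [BT.tops, List.length_append]; omega

/-- restriction of an agreement -/
theorem agree_sub {A B Y Y' : Finset V} (hB : B ⊆ A) (h : Y ∩ A = Y' ∩ A) : Y ∩ B = Y' ∩ B := by
  ext w
  have := Finset.ext_iff.1 h w
  simp only [mem_inter] at this ⊢
  constructor
  · rintro ⟨h1, h2⟩
    exact ⟨(this.1 ⟨h1, hB h2⟩).1, h2⟩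
  · rintro ⟨h1, h2⟩
    exact ⟨(this.2 ⟨h1, hB h2⟩).1, h2⟩

theorem zr_congr : ∀ (t : BT V) (Y Y' : Finset V), Y ∩ ol t = Y' ∩ ol t → (zr t Y ↔ zr t Y')
  | .out w, Y, Y', h => by
      have := Finset.ext_iff.1 h w
      simp only [ol, mem_inter, mem_singleton, and_true] at this
      simp only [zr, this]
  | .nd _ x b, Y, Y', h => by
      simp only [ol] at h
      simp only [zr, h]
  | .br s t, Y, Y', h => by
      simp only [ol] at h
      have h1 := zr_congr s Y Y' (agree_sub subset_union_left h)
      have h2 := zr_congr t Y Y' (agree_sub subset_union_right h)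
      simp only [zr, h1, h2]

theorem al_congr : ∀ (t : BT V) (Y Y' : Finset V), Y ∩ ol t = Y' ∩ ol t → (al t Y ↔ al t Y')
  | .out w, Y, Y', h => by
      have := Finset.ext_iff.1 h w
      simp only [ol, mem_inter, mem_singleton, and_true] at this
      simp only [al, this]
  | .nd _ x b, Y, Y', h => by
      simp only [ol] at h
      simp only [al, zr_congr b Y Y' h, al_congr b Y Y' h]
  | .br s t, Y, Y', h => by
      simp only [ol] at h
      have h1 := al_congr s Y Y' (agree_sub subset_union_left h)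
      have h2 := al_congr t Y Y' (agree_sub subset_union_right h)
      simp only [al, h1, h2]

theorem bd_congr : ∀ (t : BT V) (f : Bool) (Y Y' : Finset V), Y ∩ ol t = Y' ∩ ol t →
    (bd f t Y ↔ bd f t Y')
  | .out w, f, Y, Y', h => by
      have := Finset.ext_iff.1 h w
      simp only [ol, mem_inter, mem_singleton, and_true] at this
      simp only [bd, this]
  | .nd g x b, f, Y, Y', h => by
      have h1 := al_congr (.nd g x b) Y Y' h
      simp only [ol] at h
      simp only [bd, h1, bd_congr b g Y Y' h]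
  | .br s t, f, Y, Y', h => by
      simp only [ol] at h
      have h1 := bd_congr s f Y Y' (agree_sub subset_union_left h)
      have h2 := bd_congr t f Y Y' (agree_sub subset_union_right h)
      simp only [bd, h1, h2]

theorem zr_even : ∀ (t : BT V), t.labels.Nodup → ∀ (Y : Finset V), zr t Y → Even (Y ∩ ol t).card
  | .out w, _, Y, h => by
      simp only [zr] at h
      have : Y ∩ ol (BT.out w) = ∅ := by
        ext v; simp only [ol, mem_inter, mem_singleton, notMem_empty, iff_false]
        rintro ⟨h1, rfl⟩; exact h h1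
      simp [this]
  | .nd _ x b, _, Y, h => by
      simpa only [zr, ol] using h
  | .br s t, hnd, Y, h => by
      have hd := ol_disj hnd
      simp only [BT.labels] at hnd
      simp only [zr] at h
      have h1 := zr_even s (List.Nodup.of_append_left hnd) Y h.1
      have h2 := zr_even t (List.Nodup.of_append_right hnd) Y h.2
      have : Y ∩ ol (BT.br s t) = (Y ∩ ol s) ∪ (Y ∩ ol t) := by
        simp only [ol, inter_union_distrib_left]
      rw [this, card_union_of_disjoint (hd.mono inter_subset_right inter_subset_right)]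
      exact h1.add h2

open Classical in
/-- counting subsets of `A` with property `P` -/
noncomputable def cnt_T1 (A : Finset V) (P : Finset V → Prop) : ℝ :=
  ((A.powerset.filter (fun Y => P Y)).card : ℝ)

theorem cnt_eq (A : Finset V) (P : Finset V → Prop) [DecidablePred P] :
    cnt_T1 A P = ((A.powerset.filter (fun Y => P Y)).card : ℝ) := by
  unfold cnt_T1
  congr

theorem cnt_nonneg (A : Finset V) (P : Finset V → Prop) : 0 ≤ cnt_T1 A P := by
  unfold cnt_T1; positivity

theorem cnt_mono (A : Finset V) {P Q : Finset V → Prop} (h : ∀ Y, P Y → Q Y) :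
    cnt_T1 A P ≤ cnt_T1 A Q := by
  classical
  unfold cnt_T1
  exact_mod_cast card_le_card (fun Y hY => by
    simp only [mem_filter] at hY ⊢; exact ⟨hY.1, h Y hY.2⟩)

theorem cnt_congr (A : Finset V) {P Q : Finset V → Prop} (h : ∀ Y, P Y ↔ Q Y) :
    cnt_T1 A P = cnt_T1 A Q := le_antisymm (cnt_mono A fun Y => (h Y).1) (cnt_mono A fun Y => (h Y).2)

theorem cnt_true (A : Finset V) : cnt_T1 A (fun _ => True) = 2 ^ A.card := by
  classical
  unfold cnt_T1
  simp

theorem cnt_false (A : Finset V) : cnt_T1 A (fun _ => False) = 0 := by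
  classical
  unfold cnt_T1
  simp

theorem cnt_or (A : Finset V) (P Q : Finset V → Prop) :
    cnt_T1 A (fun Y => P Y ∨ Q Y) = cnt_T1 A P + cnt_T1 A Q - cnt_T1 A (fun Y => P Y ∧ Q Y) := by
  classical
  rw [cnt_eq A (fun Y => P Y ∨ Q Y), cnt_eq A P, cnt_eq A Q, cnt_eq A (fun Y => P Y ∧ Q Y)]
  have h1 : A.powerset.filter (fun Y => P Y ∨ Q Y) =
      A.powerset.filter (fun Y => P Y) ∪ A.powerset.filter (fun Y => Q Y) := by
    ext Y; simp only [mem_filter, mem_union]; tauto
  have h2 : A.powerset.filter (fun Y => P Y ∧ Q Y) =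
      A.powerset.filter (fun Y => P Y) ∩ A.powerset.filter (fun Y => Q Y) := by
    ext Y; simp only [mem_filter, mem_inter]; tauto
  rw [h1, h2]
  have := card_union_add_card_inter (A.powerset.filter (fun Y => P Y))
    (A.powerset.filter (fun Y => Q Y))
  have h3 : (((A.powerset.filter (fun Y => P Y)) ∪ (A.powerset.filter (fun Y => Q Y))).card : ℝ) +
    (((A.powerset.filter (fun Y => P Y)) ∩ (A.powerset.filter (fun Y => Q Y))).card : ℝ) =
    ((A.powerset.filter (fun Y => P Y)).card : ℝ) + ((A.powerset.filter (fun Y => Q Y)).card : ℝ) := by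
    exact_mod_cast this
  linarith

theorem cnt_prod {A B : Finset V} (hd : Disjoint A B) (P Q : Finset V → Prop)
    (hP : ∀ Y Y', Y ∩ A = Y' ∩ A → (P Y ↔ P Y')) (hQ : ∀ Y Y', Y ∩ B = Y' ∩ B → (Q Y ↔ Q Y')) :
    cnt_T1 (A ∪ B) (fun Y => P Y ∧ Q Y) = cnt_T1 A P * cnt_T1 B Q := by
  classical
  unfold cnt_T1
  rw [← Nat.cast_mul, ← card_product]
  congr 1
  symm
  have key : ∀ Y Z : Finset V, Y ⊆ A → Z ⊆ B → (Y ∪ Z) ∩ A = Y ∧ (Y ∪ Z) ∩ B = Z := by
    intro Y Z hY hZ
    constructor
    · ext w; simp only [mem_inter, mem_union]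
      constructor
      · rintro ⟨h | h, hA⟩
        · exact h
        · exact absurd (hZ h) (Finset.disjoint_left.1 hd hA)
      · intro h; exact ⟨Or.inl h, hY h⟩
    · ext w; simp only [mem_inter, mem_union]
      constructor
      · rintro ⟨h | h, hB⟩
        · exact absurd hB (Finset.disjoint_left.1 hd (hY h))
        · exact h
      · intro h; exact ⟨Or.inr h, hZ h⟩
  apply card_bij (fun (p : Finset V × Finset V) _ => p.1 ∪ p.2)
  · rintro ⟨Y, Z⟩ h
    simp only [mem_product, mem_filter, mem_powerset] at h ⊢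
    obtain ⟨⟨hY, hPY⟩, hZ, hQZ⟩ := h
    obtain ⟨h1, h2⟩ := key Y Z hY hZ
    refine ⟨union_subset_union hY hZ, ?_, ?_⟩
    · rw [hP (Y ∪ Z) Y (by rw [h1, inter_eq_left.2 hY])]; exact hPY
    · rw [hQ (Y ∪ Z) Z (by rw [h2, inter_eq_left.2 hZ])]; exact hQZ
  · rintro ⟨Y, Z⟩ h ⟨Y', Z'⟩ h' heq
    simp only [mem_product, mem_filter, mem_powerset] at h h' heq
    obtain ⟨h1, h2⟩ := key Y Z h.1.1 h.2.1
    obtain ⟨h1', h2'⟩ := key Y' Z' h'.1.1 h'.2.1
    rw [heq] at h1 h2
    rw [Prod.mk.injEq]
    exact ⟨h1.symm.trans h1', h2.symm.trans h2'⟩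
  · intro W hW
    simp only [mem_filter, mem_powerset] at hW
    refine ⟨(W ∩ A, W ∩ B), ?_, ?_⟩
    · simp only [mem_product, mem_filter, mem_powerset]
      refine ⟨⟨inter_subset_right, ?_⟩, inter_subset_right, ?_⟩
      · rw [hP (W ∩ A) W (by rw [inter_assoc, inter_self])]; exact hW.2.1
      · rw [hQ (W ∩ B) W (by rw [inter_assoc, inter_self])]; exact hW.2.2
    · simp only
      rw [← inter_union_distrib_left]
      exact inter_eq_left.2 hW.1

theorem cnt_even {A : Finset V} (hA : A.Nonempty) :
    cnt_T1 A (fun Y => Even (Y ∩ A).card) * 2 = 2 ^ A.card := by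
  classical
  obtain ⟨w, hw⟩ := hA
  have h1 : cnt_T1 A (fun Y => Even (Y ∩ A).card) = cnt_T1 A (fun Y => ¬ Even (Y ∩ A).card) := by
    unfold cnt_T1
    congr 1
    have tog : ∀ Y : Finset V, Y ⊆ A → (Y ∆ {w}) ⊆ A ∧
        (Even ((Y ∆ {w}) ∩ A).card ↔ ¬ Even (Y ∩ A).card) := by
      intro Y hY
      have hs : (Y ∆ {w}) ⊆ A := by
        intro v hv
        simp only [mem_symmDiff, mem_singleton] at hv
        rcases hv with ⟨h, _⟩ | ⟨rfl, _⟩
        · exact hY h
        · exact hw
      refine ⟨hs, ?_⟩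
      rw [inter_eq_left.2 hs, inter_eq_left.2 hY]
      by_cases h : w ∈ Y
      · have : Y ∆ {w} = Y.erase w := by
          ext v; simp only [mem_symmDiff, mem_singleton, mem_erase]
          constructor
          · rintro (⟨h1, h2⟩ | ⟨rfl, h2⟩)
            · exact ⟨h2, h1⟩
            · exact absurd h h2
          · rintro ⟨h1, h2⟩; exact Or.inl ⟨h2, h1⟩
        rw [this]
        have := card_erase_add_one h
        rw [← this, Nat.even_add_one, not_not]
      · have : Y ∆ {w} = insert w Y := by
          ext v; simp only [mem_symmDiff, mem_singleton, mem_insert]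
          constructor
          · rintro (⟨h1, h2⟩ | ⟨rfl, h2⟩)
            · exact Or.inr h1
            · exact Or.inl rfl
          · rintro (rfl | h1)
            · exact Or.inr ⟨rfl, h⟩
            · exact Or.inl ⟨h1, by rintro rfl; exact h h1⟩
        rw [this, card_insert_of_notMem h, Nat.even_add_one]
    apply card_bij (fun Y _ => Y ∆ {w})
    · intro Y hY
      simp only [mem_filter, mem_powerset] at hY ⊢
      obtain ⟨h1, h2⟩ := tog Y hY.1
      exact ⟨h1, by rw [h2, not_not]; exact hY.2⟩
    · intro Y _ Z _ h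
      exact symmDiff_left_injective _ h
    · intro Y hY
      simp only [mem_filter, mem_powerset] at hY
      obtain ⟨h1, h2⟩ := tog Y hY.1
      refine ⟨Y ∆ {w}, ?_, by simp⟩
      simp only [mem_filter, mem_powerset]
      exact ⟨h1, h2.2 hY.2⟩
  have h2 : cnt_T1 A (fun Y => Even (Y ∩ A).card) + cnt_T1 A (fun Y => ¬ Even (Y ∩ A).card)
      = 2 ^ A.card := by
    have := cnt_or A (fun Y => Even (Y ∩ A).card) (fun Y => ¬ Even (Y ∩ A).card)
    have h3 : cnt_T1 A (fun Y => Even (Y ∩ A).card ∧ ¬ Even (Y ∩ A).card) = 0 := by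
      rw [← cnt_false A]; exact cnt_congr A (fun Y => by tauto)
    have h4 : cnt_T1 A (fun Y => Even (Y ∩ A).card ∨ ¬ Even (Y ∩ A).card) = 2 ^ A.card := by
      rw [← cnt_true A]; exact cnt_congr A (fun Y => by tauto)
    rw [h3, h4] at this
    linarith
  linarith

theorem cnt_notMem (w : V) : cnt_T1 {w} (fun Y => w ∉ Y) = 1 := by
  classical
  rw [cnt_eq]
  have : ({w} : Finset V).powerset.filter (fun Y => w ∉ Y) = {∅} := by
    ext Y
    simp only [mem_filter, mem_powerset, mem_singleton, subset_singleton_iff]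
    constructor
    · rintro ⟨h | h, h'⟩
      · exact h
      · subst h; simp at h'
    · rintro rfl; simp
  rw [this]; simp

theorem ol_card_br {s t : BT V} (hnd : (BT.br s t).labels.Nodup) :
    (ol (BT.br s t)).card = (ol s).card + (ol t).card := by
  simp only [ol]
  exact card_union_of_disjoint (ol_disj hnd)

theorem Zc_eq : ∀ (t : BT V), t.labels.Nodup →
    cnt_T1 (ol t) (zr t) * 2 ^ t.tops.length = 2 ^ (ol t).card
  | .out w, _ => by
      have : cnt_T1 (ol (BT.out w)) (zr (BT.out w)) = 1 := cnt_notMem w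
      rw [this]; simp [BT.tops, ol]
  | .nd g x b, _ => by
      have := cnt_even (ol_nonempty b)
      have h2 : cnt_T1 (ol (BT.nd g x b)) (zr (BT.nd g x b)) = cnt_T1 (ol b) (fun Y => Even (Y ∩ ol b).card) := rfl
      rw [h2]
      simpa [BT.tops, ol] using this
  | .br s t, hnd => by
      have hd := ol_disj hnd
      have hc := ol_card_br hnd
      have hnd' := hnd
      simp only [BT.labels] at hnd'
      have h1 := Zc_eq s (List.Nodup.of_append_left hnd')
      have h2 := Zc_eq t (List.Nodup.of_append_right hnd')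
      have h3 : cnt_T1 (ol (BT.br s t)) (zr (BT.br s t)) = cnt_T1 (ol s) (zr s) * cnt_T1 (ol t) (zr t) :=
        cnt_prod hd (zr s) (zr t) (zr_congr s) (zr_congr t)
      rw [h3, hc, pow_add, ← h1, ← h2]
      simp only [BT.tops, List.length_append, pow_add]
      ring

theorem rho_mem : ∀ (t : BT V), 0 ≤ rho t ∧ rho t ≤ 1
  | .out w => by simp [rho]
  | .nd g x b => by
      have h := rho_mem b
      simp only [rho]
      have h2 : (1:ℝ) ≤ 2 ^ (b.tops.length - 1) := one_le_pow₀ (by norm_num)
      refine ⟨div_nonneg h.1 (by positivity), ?_⟩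
      rw [div_le_one (by positivity)]
      exact h.2.trans h2
  | .br s t => by
      have h1 := rho_mem s
      have h2 := rho_mem t
      simp only [rho]
      constructor
      · nlinarith [mul_nonneg h1.1 (sub_nonneg.2 h2.2)]
      · nlinarith [mul_nonneg (sub_nonneg.2 h1.2) (sub_nonneg.2 h2.2)]

theorem Ac_eq : ∀ (t : BT V), t.labels.Nodup →
    cnt_T1 (ol t) (fun Y => zr t Y ∧ al t Y) = rho t * cnt_T1 (ol t) (zr t)
  | .out w, _ => by
      simp only [rho, one_mul]
      exact cnt_congr _ (fun Y => by simp only [zr, al]; tauto)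
  | .nd g x b, hnd => by
      simp only [BT.labels, List.nodup_cons] at hnd
      have h1 := Ac_eq b hnd.2
      have h2 := Zc_eq b hnd.2
      have h3 : cnt_T1 (ol (BT.nd g x b)) (fun Y => zr (BT.nd g x b) Y ∧ al (BT.nd g x b) Y) =
          cnt_T1 (ol b) (fun Y => zr b Y ∧ al b Y) := by
        apply cnt_congr
        intro Y
        simp only [zr, al]
        constructor
        · exact fun h => h.2
        · exact fun h => ⟨zr_even b hnd.2 Y h.1, h⟩
      have h4 : cnt_T1 (ol (BT.nd g x b)) (zr (BT.nd g x b)) * 2 = 2 ^ (ol b).card :=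
        cnt_even (ol_nonempty b)
      rw [h3, h1]
      simp only [rho]
      obtain ⟨k, hk⟩ : ∃ k, b.tops.length = k + 1 := ⟨b.tops.length - 1, by have := tops_pos b; omega⟩
      rw [hk] at h2 ⊢
      simp only [Nat.add_sub_cancel]
      have hp : (0:ℝ) < 2 ^ k := by positivity
      rw [div_mul_eq_mul_div, eq_div_iff hp.ne']
      rw [pow_succ] at h2
      have h5 : cnt_T1 (ol b) (zr b) * 2 ^ k = cnt_T1 (ol (BT.nd g x b)) (zr (BT.nd g x b)) := by linarith
      rw [← h5]; ring
  | .br s t, hnd => by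
      have hd := ol_disj hnd
      have hnd' := hnd
      simp only [BT.labels] at hnd'
      have h1 := Ac_eq s (List.Nodup.of_append_left hnd')
      have h2 := Ac_eq t (List.Nodup.of_append_right hnd')
      have hz : cnt_T1 (ol (BT.br s t)) (zr (BT.br s t)) = cnt_T1 (ol s) (zr s) * cnt_T1 (ol t) (zr t) :=
        cnt_prod hd (zr s) (zr t) (zr_congr s) (zr_congr t)
      have ca : ∀ (u : BT V) (Y Y' : Finset V), Y ∩ ol u = Y' ∩ ol u →
          ((zr u Y ∧ al u Y) ↔ (zr u Y' ∧ al u Y')) := by
        intro u Y Y' h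
        rw [zr_congr u Y Y' h, al_congr u Y Y' h]
      have h3 : cnt_T1 (ol (BT.br s t)) (fun Y => zr (BT.br s t) Y ∧ al (BT.br s t) Y) =
          cnt_T1 (ol s ∪ ol t) (fun Y => ((zr s Y ∧ al s Y) ∧ zr t Y) ∨ (zr s Y ∧ (zr t Y ∧ al t Y))) := by
        apply cnt_congr
        intro Y
        simp only [zr, al]
        tauto
      have h4 : cnt_T1 (ol s ∪ ol t) (fun Y => ((zr s Y ∧ al s Y) ∧ zr t Y) ∧
          (zr s Y ∧ (zr t Y ∧ al t Y))) =
          cnt_T1 (ol s ∪ ol t) (fun Y => (zr s Y ∧ al s Y) ∧ (zr t Y ∧ al t Y)) := by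
        apply cnt_congr
        intro Y
        tauto
      rw [h3, cnt_or, h4,
        cnt_prod hd (fun Y => zr s Y ∧ al s Y) (zr t) (ca s) (zr_congr t),
        cnt_prod hd (zr s) (fun Y => zr t Y ∧ al t Y) (zr_congr s) (ca t),
        cnt_prod hd (fun Y => zr s Y ∧ al s Y) (fun Y => zr t Y ∧ al t Y) (ca s) (ca t),
        h1, h2, hz]
      simp only [rho]
      ring

theorem al_nd_le (g : Bool) (x : V) (b : BT V) (hnd : (BT.nd g x b).labels.Nodup) :
    cnt_T1 (ol b) (al (BT.nd g x b)) ≤ rho (BT.nd g x b) * 2 ^ (ol b).card := by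
  simp only [BT.labels, List.nodup_cons] at hnd
  have h1 := Ac_eq b hnd.2
  have h2 := Zc_eq b hnd.2
  have h3 : cnt_T1 (ol b) (al (BT.nd g x b)) = cnt_T1 (ol b) (fun Y => zr b Y ∧ al b Y) := rfl
  rw [h3, h1]
  simp only [rho]
  obtain ⟨k, hk⟩ : ∃ k, b.tops.length = k + 1 := ⟨b.tops.length - 1, by have := tops_pos b; omega⟩
  rw [hk] at h2 ⊢
  simp only [Nat.add_sub_cancel]
  have hp : (0:ℝ) < 2 ^ k := by positivity
  rw [div_mul_eq_mul_div, le_div_iff₀ hp, ← h2, mul_assoc, pow_succ]
  apply mul_le_mul_of_nonneg_left _ (rho_mem b).1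
  have := cnt_nonneg (ol b) (zr b)
  nlinarith [mul_nonneg this hp.le]

theorem count_bd_aux : ∀ (t : BT V) (f : Bool), t.labels.Nodup →
    cnt_T1 (ol t) (bd f t) ≤ Theta f t * 2 ^ (ol t).card
  | .out w, f, _ => by
      cases f
      · have : cnt_T1 (ol (BT.out w)) (bd false (BT.out w)) = 0 := by
          rw [← cnt_false (ol (BT.out w))]
          exact cnt_congr _ (fun Y => by simp [bd])
        rw [this]; simp [Theta]
      · have : cnt_T1 (ol (BT.out w)) (bd true (BT.out w)) = 1 := by
          rw [← cnt_notMem w]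
          exact cnt_congr _ (fun Y => by simp [bd])
        rw [this]; simp [Theta, ol]
  | .nd g x b, f, hnd => by
      have h1 := al_nd_le g x b hnd
      have hnd' := hnd
      simp only [BT.labels, List.nodup_cons] at hnd'
      have h2 := count_bd_aux b g hnd'.2
      have h3 : cnt_T1 (ol (BT.nd g x b)) (bd f (BT.nd g x b)) ≤
          cnt_T1 (ol b) (fun Y => f = true ∧ al (BT.nd g x b) Y) + cnt_T1 (ol b) (bd g b) := by
        have e : cnt_T1 (ol (BT.nd g x b)) (bd f (BT.nd g x b)) =
          cnt_T1 (ol b) (fun Y => (f = true ∧ al (BT.nd g x b) Y) ∨ bd g b Y) := rfl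
        rw [e, cnt_or]
        have := cnt_nonneg (ol b) (fun Y => (f = true ∧ al (BT.nd g x b) Y) ∧ bd g b Y)
        linarith
      have h4 : cnt_T1 (ol b) (fun Y => f = true ∧ al (BT.nd g x b) Y) ≤
          (if f then rho (BT.nd g x b) else 0) * 2 ^ (ol b).card := by
        cases f
        · have : cnt_T1 (ol b) (fun Y => false = true ∧ al (BT.nd g x b) Y) = 0 := by
            rw [← cnt_false (ol b)]
            exact cnt_congr _ (fun Y => by simp)
          rw [this]; simp
        · simpa using h1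
      have h5 : Theta f (BT.nd g x b) * 2 ^ (ol (BT.nd g x b)).card =
        (if f then rho (BT.nd g x b) else 0) * 2 ^ (ol b).card + Theta g b * 2 ^ (ol b).card := by
        simp only [Theta, ol]; ring
      rw [h5]
      linarith
  | .br s t, f, hnd => by
      have hd := ol_disj hnd
      have hc := ol_card_br hnd
      have hnd' := hnd
      simp only [BT.labels] at hnd'
      have h1 := count_bd_aux s f (List.Nodup.of_append_left hnd')
      have h2 := count_bd_aux t f (List.Nodup.of_append_right hnd')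
      have e1 : cnt_T1 (ol s ∪ ol t) (bd f s) = cnt_T1 (ol s) (bd f s) * 2 ^ (ol t).card := by
        rw [← cnt_true (ol t), ← cnt_prod hd (bd f s) (fun _ => True) (bd_congr s f)
          (fun _ _ _ => Iff.rfl)]
        exact cnt_congr _ (fun Y => by simp)
      have e2 : cnt_T1 (ol s ∪ ol t) (bd f t) = 2 ^ (ol s).card * cnt_T1 (ol t) (bd f t) := by
        rw [← cnt_true (ol s), ← cnt_prod hd (fun _ => True) (bd f t) (fun _ _ _ => Iff.rfl)
          (bd_congr t f)]
        exact cnt_congr _ (fun Y => by simp)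
      have h3 : cnt_T1 (ol (BT.br s t)) (bd f (BT.br s t)) ≤
          cnt_T1 (ol s ∪ ol t) (bd f s) + cnt_T1 (ol s ∪ ol t) (bd f t) := by
        have e : cnt_T1 (ol (BT.br s t)) (bd f (BT.br s t)) =
          cnt_T1 (ol s ∪ ol t) (fun Y => bd f s Y ∨ bd f t Y) := rfl
        rw [e, cnt_or]
        have := cnt_nonneg (ol s ∪ ol t) (fun Y => bd f s Y ∧ bd f t Y)
        linarith
      rw [e1, e2] at h3
      have h5 : Theta f (BT.br s t) * 2 ^ (ol (BT.br s t)).card =
        (Theta f s * 2 ^ (ol s).card) * 2 ^ (ol t).card +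
        2 ^ (ol s).card * (Theta f t * 2 ^ (ol t).card) := by
        rw [hc, pow_add]; simp only [Theta]; ring
      rw [h5]
      have p1 : (0:ℝ) < 2 ^ (ol s).card := by positivity
      have p2 : (0:ℝ) < 2 ^ (ol t).card := by positivity
      have := mul_le_mul_of_nonneg_right h1 p2.le
      have := mul_le_mul_of_nonneg_left h2 p1.le
      linarith

open Classical in
/-- counting over leaf patterns -/
theorem count_bd (f : Bool) (t : BT V) (hnd : t.labels.Nodup) :
    (((ol t).powerset.filter (fun Y => bd f t Y)).card : ℝ) ≤ Theta f t * 2 ^ (ol t).card :=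
  count_bd_aux t f hnd

end Jia
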