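import Pool.Agent.Helper826.Jia.T1

set_option autoImplicit false

namespace Jia
open Finset
open scoped symmDiff
variable {V : Type*} [DecidableEq V]


omit [DecidableEq V] in
theorem t2_tops_sublist (t : BT V) : (BT.tops t).Sublist (BT.labels t) := by
  induction t with
  | out w => exact List.Sublist.refl _
  | nd f x b ih => exact List.Sublist.cons_cons x (List.nil_sublist _)
  | br s t ihs iht => exact ihs.append iht

omit [DecidableEq V] in
theorem t2_nodes_sublist (t : BT V) : (BT.nodes t).Sublist (BT.labels t) := by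
  induction t with
  | out w => exact List.nil_sublist _
  | nd f x b ih => exact ih.cons_cons x
  | br s t ihs iht => exact ihs.append iht

omit [DecidableEq V] in
theorem t2_outs_sublist (t : BT V) : ∀ p, ((BT.outs p t).map Prod.snd).Sublist (BT.labels t) := by
  induction t with
  | out w => intro p; exact List.Sublist.refl _
  | nd f x b ih => intro p; exact (ih x).cons x
  | br s t ihs iht =>
    intro p
    show ((BT.outs p s ++ BT.outs p t).map Prod.snd).Sublist (BT.labels s ++ BT.labels t)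
    rw [List.map_append]
    exact (ihs p).append (iht p)

theorem t2_ol_iff (t : BT V) : ∀ p w, w ∈ ol t ↔ ∃ q ∈ BT.outs p t, q.2 = w := by
  induction t with
  | out w =>
    intro p w'
    simp only [ol, BT.outs, mem_singleton, List.mem_singleton]
    constructor
    · rintro rfl; exact ⟨_, rfl, rfl⟩
    · rintro ⟨q, rfl, rfl⟩; rfl
  | nd f x b ih => intro p w'; exact ih x w'
  | br s t ihs iht =>
    intro p w'
    simp only [ol, BT.outs, mem_union, List.mem_append]
    rw [ihs p, iht p]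
    constructor
    · rintro (⟨q, h1, h2⟩ | ⟨q, h1, h2⟩)
      · exact ⟨q, Or.inl h1, h2⟩
      · exact ⟨q, Or.inr h1, h2⟩
    · rintro ⟨q, h1 | h1, h2⟩
      · exact Or.inl ⟨q, h1, h2⟩
      · exact Or.inr ⟨q, h1, h2⟩

theorem t2_ol_labels (t : BT V) {w : V} (h : w ∈ ol t) : w ∈ BT.labels t := by
  obtain ⟨q, hq, hqw⟩ := (t2_ol_iff t w w).1 h
  rw [← hqw]
  exact (t2_outs_sublist t w).subset (List.mem_map_of_mem hq)

theorem t2_ol_nodes (t : BT V) (hnd : (BT.labels t).Nodup) : ∀ w ∈ ol t, w ∉ BT.nodes t := by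
  induction t with
  | out w => intro w' _ h; simp [BT.nodes] at h
  | nd f x b ih =>
    intro w hw h
    have hnd' : (x :: BT.labels b).Nodup := hnd
    rw [List.nodup_cons] at hnd'
    have hw' : w ∈ BT.labels b := t2_ol_labels b hw
    rcases List.mem_cons.1 (show w ∈ x :: BT.nodes b from h) with rfl | h
    · exact hnd'.1 hw'
    · exact ih hnd'.2 w hw h
  | br s t ihs iht =>
    intro w hw h
    have hnd' : (BT.labels s ++ BT.labels t).Nodup := hnd
    rw [List.nodup_append] at hnd'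
    obtain ⟨h1, h2, h3⟩ := hnd'
    rcases mem_union.1 (show w ∈ ol s ∪ ol t from hw) with hws | hwt
    · rcases List.mem_append.1 (show w ∈ BT.nodes s ++ BT.nodes t from h) with h | h
      · exact ihs h1 w hws h
      · exact h3 w (t2_ol_labels s hws) w ((t2_nodes_sublist t).subset h) rfl
    · rcases List.mem_append.1 (show w ∈ BT.nodes s ++ BT.nodes t from h) with h | h
      · exact h3 w ((t2_nodes_sublist s).subset h) w (t2_ol_labels t hwt) rfl
      · exact iht h2 w hwt h

omit [DecidableEq V] in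
theorem t2_owner (t : BT V) : ∀ p, ∀ q ∈ BT.outs p t, q.1 = p ∨ q.1 ∈ BT.nodes t := by
  induction t with
  | out w =>
    intro p q hq
    rw [BT.outs, List.mem_singleton] at hq
    left; rw [hq]
  | nd f x b ih =>
    intro p q hq
    rcases ih x q hq with h | h
    · right; rw [h]; exact List.mem_cons_self
    · right; exact List.mem_cons_of_mem _ h
  | br s t ihs iht =>
    intro p q hq
    rcases List.mem_append.1 (show q ∈ BT.outs p s ++ BT.outs p t from hq) with h | h
    · exact (ihs p q h).imp id fun h' => List.mem_append_left _ h'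
    · exact (iht p q h).imp id fun h' => List.mem_append_right _ h'

/-- number of used top edges -/
def t2tp (z : Finset (Sym2 V)) (p : V) (L : List V) : ℕ := L.countP (fun y => decide (s(p, y) ∈ z))

theorem t2_dg {K z : Finset (Sym2 V)} {x p : V} {L : List V}
    (h : ∀ y, s(x, y) ∈ K ↔ (y = p ∨ y ∈ L)) (hnd : (p :: L).Nodup) (hz : z ⊆ K) :
    dg z x = t2tp z x (p :: L) := by
  unfold dg t2tp
  have h1 : z.filter (fun e => x ∈ e) =
      (((p :: L).filter (fun y => decide (s(x, y) ∈ z))).toFinset).image (fun y => s(x, y)) := by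
    ext e
    simp only [mem_filter, mem_image, List.mem_toFinset, List.mem_filter, decide_eq_true_eq]
    constructor
    · rintro ⟨h1, h2⟩
      obtain ⟨y, rfl⟩ := Sym2.mem_iff_exists.1 h2
      refine ⟨y, ⟨?_, h1⟩, rfl⟩
      rw [List.mem_cons]
      exact (h y).1 (hz h1)
    · rintro ⟨y, ⟨_, h2⟩, rfl⟩
      exact ⟨h2, Sym2.mem_mk_left _ _⟩
  rw [h1, card_image_of_injective _ (fun a b hab => Sym2.congr_right.1 hab),
    List.toFinset_card_of_nodup (hnd.filter _), List.countP_eq_length_filter]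

/-- parity of the used top edges -/
theorem t2_parity {K z : Finset (Sym2 V)} {Y : Finset V} (hz : z ⊆ K) (hev : IsEv z) (t : BT V) :
    ∀ p, BT.Full K p t → (p :: BT.labels t).Nodup →
      (∀ q ∈ BT.outs p t, (q.2 ∈ Y ↔ s(q.1, q.2) ∈ z)) →
      (Even (t2tp z p (BT.tops t)) ↔ Even (Y ∩ ol t).card) := by
  induction t with
  | out w =>
    intro p _ _ hH
    have h1 := hH (p, w) (by rw [BT.outs]; exact List.mem_singleton.2 rfl)
    simp only at h1
    unfold t2tp
    show Even (List.countP (fun y => decide (s(p, y) ∈ z)) [w]) ↔ Even (Y ∩ {w}).card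
    rw [List.countP_singleton]
    by_cases hw : s(p, w) ∈ z
    · have h2 : Y ∩ {w} = {w} := by
        rw [inter_eq_right, singleton_subset_iff]; exact h1.2 hw
      rw [h2]; simp [hw]
    · have h2 : Y ∩ {w} = ∅ := by
        rw [inter_singleton_of_notMem]; exact fun h => hw (h1.1 h)
      rw [h2]; simp [hw]
  | nd f x b ih =>
    intro p hF hnd hH
    have hF' : (∀ y, s(x, y) ∈ K ↔ (y = p ∨ y ∈ BT.tops b)) ∧ BT.Full K x b := hF
    have hnd1 : (p :: x :: BT.labels b).Nodup := hnd
    have hnd2 : (x :: BT.labels b).Nodup := (List.nodup_cons.1 hnd1).2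
    have hnd3 : (p :: BT.tops b).Nodup := hnd1.sublist
      (((t2_tops_sublist b).trans (List.sublist_cons_self x _)).cons_cons p)
    have h1 := t2_dg hF'.1 hnd3 hz
    have h2 := ih x hF'.2 hnd2 hH
    have h3 := hev x
    rw [h1] at h3
    show Even (t2tp z p [x]) ↔ Even (Y ∩ ol b).card
    rw [← h2]
    unfold t2tp at h3 ⊢
    rw [List.countP_cons] at h3
    rw [List.countP_singleton]
    rw [Sym2.eq_swap (a := p) (b := x)]
    by_cases hxp : s(x, p) ∈ z
    · simp only [hxp, decide_true, if_true] at h3 ⊢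
      rw [Nat.even_add_one] at h3
      simp only [Nat.not_even_one, false_iff]
      exact h3
    · simp only [hxp, decide_false, Bool.false_eq_true, if_false, add_zero] at h3 ⊢
      simp [h3]
  | br s t ihs iht =>
    intro p hF hnd hH
    have hF' : BT.Full K p s ∧ BT.Full K p t := hF
    have hnd1 : (p :: (BT.labels s ++ BT.labels t)).Nodup := hnd
    have hnds : (p :: BT.labels s).Nodup := hnd1.sublist
      ((List.sublist_append_left _ _).cons_cons p)
    have hndt : (p :: BT.labels t).Nodup := hnd1.sublist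
      ((List.sublist_append_right _ _).cons_cons p)
    have h1 := ihs p hF'.1 hnds (fun q hq => hH q (List.mem_append_left _ hq))
    have h2 := iht p hF'.2 hndt (fun q hq => hH q (List.mem_append_right _ hq))
    have h3 : t2tp z p (BT.tops (BT.br s t)) = t2tp z p (BT.tops s) + t2tp z p (BT.tops t) := by
      unfold t2tp
      exact List.countP_append
    have hdis : Disjoint (Y ∩ ol s) (Y ∩ ol t) := by
      rw [Finset.disjoint_left]
      intro w hw1 hw2
      have hl := (List.nodup_cons.1 hnd1).2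
      rw [List.nodup_append] at hl
      exact hl.2.2 w (t2_ol_labels s (mem_inter.1 hw1).2) w (t2_ol_labels t (mem_inter.1 hw2).2) rfl
    have h4 : (Y ∩ ol (BT.br s t)).card = (Y ∩ ol s).card + (Y ∩ ol t).card := by
      rw [← card_union_of_disjoint hdis, ← inter_union_distrib_left]; rfl
    rw [h3, h4, Nat.even_add, Nat.even_add, h1, h2]

theorem t2_zr {K z : Finset (Sym2 V)} {Y : Finset V} (hz : z ⊆ K) (hev : IsEv z) (t : BT V) :
    ∀ p, BT.Full K p t → (p :: BT.labels t).Nodup →
      (∀ q ∈ BT.outs p t, (q.2 ∈ Y ↔ s(q.1, q.2) ∈ z)) →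
      t2tp z p (BT.tops t) = 0 → zr t Y := by
  induction t with
  | out w =>
    intro p _ _ hH h0 hw
    have h1 := (hH (p, w) (by rw [BT.outs]; exact List.mem_singleton.2 rfl)).1 hw
    have h2 : t2tp z p [w] = 0 := h0
    unfold t2tp at h2
    rw [List.countP_singleton] at h2
    simp only at h1
    simp [h1] at h2
  | nd f x b ih =>
    intro p hF hnd hH h0
    have h1 := (t2_parity hz hev (BT.nd f x b) p hF hnd hH).1 (by rw [h0]; exact Even.zero)
    exact h1
  | br s t ihs iht =>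
    intro p hF hnd hH h0
    have hF' : BT.Full K p s ∧ BT.Full K p t := hF
    have hnd1 : (p :: (BT.labels s ++ BT.labels t)).Nodup := hnd
    have hnds : (p :: BT.labels s).Nodup := hnd1.sublist
      ((List.sublist_append_left _ _).cons_cons p)
    have hndt : (p :: BT.labels t).Nodup := hnd1.sublist
      ((List.sublist_append_right _ _).cons_cons p)
    have h3 : t2tp z p (BT.tops (BT.br s t)) = t2tp z p (BT.tops s) + t2tp z p (BT.tops t) := by
      unfold t2tp
      exact List.countP_append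
    rw [h3] at h0
    exact ⟨ihs p hF'.1 hnds (fun q hq => hH q (List.mem_append_left _ hq)) (by omega),
      iht p hF'.2 hndt (fun q hq => hH q (List.mem_append_right _ hq)) (by omega)⟩

theorem t2_edge_notMem {z : Finset (Sym2 V)} {x : V} (h : dg z x = 0) {e : Sym2 V} (hx : x ∈ e) :
    e ∉ z := by
  intro he
  unfold dg at h
  rw [card_eq_zero] at h
  have : e ∈ z.filter (fun e => x ∈ e) := mem_filter.2 ⟨he, hx⟩
  rw [h] at this
  exact absurd this (notMem_empty e)

theorem t2_al {K z : Finset (Sym2 V)} {Y S : Finset V} (hz : z ⊆ K) (hev : IsEv z)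
    (hS : ∀ x ∈ S, dg z x = 0) (t : BT V) :
    ∀ f p, BT.Full K p t → (p :: BT.labels t).Nodup →
      (∀ q ∈ BT.outs p t, (q.2 ∈ Y ↔ s(q.1, q.2) ∈ z)) →
      val S f t ≠ none → al t Y := by
  induction t with
  | out w =>
    intro f p _ _ hH h0 hw
    have h1 := (hH (p, w) (by rw [BT.outs]; exact List.mem_singleton.2 rfl)).1 hw
    have hwS : w ∈ S := by
      by_contra hc
      exact h0 (by rw [val, if_neg hc])
    exact t2_edge_notMem (hS w hwS) (Sym2.mem_mk_right p w) h1
  | nd g x b ih =>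
    intro f p hF hnd hH h0
    have hF' : (∀ y, s(x, y) ∈ K ↔ (y = p ∨ y ∈ BT.tops b)) ∧ BT.Full K x b := hF
    have hnd1 : (p :: x :: BT.labels b).Nodup := hnd
    have hnd2 : (x :: BT.labels b).Nodup := (List.nodup_cons.1 hnd1).2
    have hxS : x ∈ S := by
      by_contra hc
      exact h0 (by rw [val, if_neg hc])
    rw [val, if_pos hxS] at h0
    have htp : t2tp z x (BT.tops b) = 0 := by
      unfold t2tp
      rw [List.countP_eq_zero]
      intro y _
      simp only [decide_eq_true_eq]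
      exact t2_edge_notMem (hS x hxS) (Sym2.mem_mk_left x y)
    exact ⟨t2_zr hz hev b x hF'.2 hnd2 hH htp, ih g x hF'.2 hnd2 hH h0⟩
  | br s t ihs iht =>
    intro f p hF hnd hH h0
    have hF' : BT.Full K p s ∧ BT.Full K p t := hF
    have hnd1 : (p :: (BT.labels s ++ BT.labels t)).Nodup := hnd
    have hnds : (p :: BT.labels s).Nodup := hnd1.sublist
      ((List.sublist_append_left _ _).cons_cons p)
    have hndt : (p :: BT.labels t).Nodup := hnd1.sublist
      ((List.sublist_append_right _ _).cons_cons p)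
    have hor : val S f s ≠ none ∨ val S f t ≠ none := by
      by_contra hc
      push Not at hc
      rw [val, hc.1, hc.2] at h0
      exact h0 rfl
    rcases hor with h | h
    · exact Or.inl (ihs f p hF'.1 hnds (fun q hq => hH q (List.mem_append_left _ hq)) h)
    · exact Or.inr (iht f p hF'.2 hndt (fun q hq => hH q (List.mem_append_right _ hq)) h)

theorem t2_bd {K z : Finset (Sym2 V)} {Y S : Finset V} (hz : z ⊆ K) (hev : IsEv z)
    (hS : ∀ x ∈ S, dg z x = 0) (t : BT V) :
    ∀ f p, BT.Full K p t → (p :: BT.labels t).Nodup →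
      (∀ q ∈ BT.outs p t, (q.2 ∈ Y ↔ s(q.1, q.2) ∈ z)) →
      dirt S f t → bd f t Y := by
  induction t with
  | out w =>
    intro f p hF hnd hH h0
    rw [dirt] at h0
    exact ⟨h0.1, t2_al hz hev hS (BT.out w) f p hF hnd hH (by rw [val, if_pos h0.2]; simp)⟩
  | nd g x b ih =>
    intro f p hF hnd hH h0
    have hF' : (∀ y, s(x, y) ∈ K ↔ (y = p ∨ y ∈ BT.tops b)) ∧ BT.Full K x b := hF
    have hnd1 : (p :: x :: BT.labels b).Nodup := hnd
    have hnd2 : (x :: BT.labels b).Nodup := (List.nodup_cons.1 hnd1).2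
    rw [dirt] at h0
    rcases h0 with ⟨h1, h2⟩ | h
    · exact Or.inl ⟨h1, t2_al hz hev hS (BT.nd g x b) f p hF hnd hH h2⟩
    · exact Or.inr (ih g x hF'.2 hnd2 hH h)
  | br s t ihs iht =>
    intro f p hF hnd hH h0
    have hF' : BT.Full K p s ∧ BT.Full K p t := hF
    have hnd1 : (p :: (BT.labels s ++ BT.labels t)).Nodup := hnd
    have hnds : (p :: BT.labels s).Nodup := hnd1.sublist
      ((List.sublist_append_left _ _).cons_cons p)
    have hndt : (p :: BT.labels t).Nodup := hnd1.sublist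
      ((List.sublist_append_right _ _).cons_cons p)
    rw [dirt] at h0
    rcases h0 with h | h
    · exact Or.inl (ihs f p hF'.1 hnds (fun q hq => hH q (List.mem_append_left _ hq)) h)
    · exact Or.inr (iht f p hF'.2 hndt (fun q hq => hH q (List.mem_append_right _ hq)) h)

/-- joins inside the tree -/
theorem t2_path {K : Finset (Sym2 V)} {c : V} {N : List V} (t : BT V) :
    ∀ p (T0 : Finset (Sym2 V)), T0 ⊆ K → (∀ e ∈ T0, ∀ x ∈ e, x = c ∨ x ∈ N) → IsJn T0 c p →
      (p = c ∨ p ∈ N) → (∀ x ∈ BT.nodes t, x ∈ N) →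
      BT.Full K p t → (p :: BT.labels t).Nodup → ∀ q ∈ BT.outs p t,
      ∃ T ⊆ K, (∀ e ∈ T, ∀ x ∈ e, x = c ∨ x ∈ N) ∧ IsJn T c q.1 := by
  induction t with
  | out w =>
    intro p T0 h1 h2 h3 _ _ _ _ q hq
    rw [BT.outs, List.mem_singleton] at hq
    rw [hq]
    exact ⟨T0, h1, h2, h3⟩
  | nd f x b ih =>
    intro p T0 h1 h2 h3 hp hN hF hnd q hq
    have hF' : (∀ y, s(x, y) ∈ K ↔ (y = p ∨ y ∈ BT.tops b)) ∧ BT.Full K x b := hF
    have hnd1 : (p :: x :: BT.labels b).Nodup := hnd
    have hnd2 : (x :: BT.labels b).Nodup := (List.nodup_cons.1 hnd1).2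
    have hpx : p ≠ x := by
      intro h
      exact (List.nodup_cons.1 hnd1).1 (by rw [h]; exact List.mem_cons_self)
    have hxN : x ∈ N := hN x List.mem_cons_self
    refine ih x (T0 ∆ {s(p, x)}) ?_ ?_ (h3.trans (isJn_edge hpx)) (Or.inr hxN)
      (fun y hy => hN y (List.mem_cons_of_mem _ hy)) hF'.2 hnd2 q hq
    · intro e he
      rw [mem_symmDiff, mem_singleton] at he
      rcases he with ⟨h, _⟩ | ⟨h, _⟩
      · exact h1 h
      · rw [h, Sym2.eq_swap]; exact (hF'.1 p).2 (Or.inl rfl)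
    · intro e he y hy
      rw [mem_symmDiff, mem_singleton] at he
      rcases he with ⟨h, _⟩ | ⟨h, _⟩
      · exact h2 e h y hy
      · rw [h, Sym2.mem_iff] at hy
        rcases hy with rfl | rfl
        · exact hp
        · exact Or.inr hxN
  | br s t ihs iht =>
    intro p T0 h1 h2 h3 hp hN hF hnd q hq
    have hF' : BT.Full K p s ∧ BT.Full K p t := hF
    have hnd1 : (p :: (BT.labels s ++ BT.labels t)).Nodup := hnd
    have hnds : (p :: BT.labels s).Nodup := hnd1.sublist
      ((List.sublist_append_left _ _).cons_cons p)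
    have hndt : (p :: BT.labels t).Nodup := hnd1.sublist
      ((List.sublist_append_right _ _).cons_cons p)
    rcases List.mem_append.1 (show q ∈ BT.outs p s ++ BT.outs p t from hq) with h | h
    · exact ihs p T0 h1 h2 h3 hp (fun x hx => hN x (List.mem_append_left _ hx)) hF'.1 hnds q h
    · exact iht p T0 h1 h2 h3 hp (fun x hx => hN x (List.mem_append_right _ hx)) hF'.2 hndt q h

open Classical in
/-- used leaf edges -/
noncomputable def t2Y (c : V) (b : BT V) (z : Finset (Sym2 V)) : Finset V :=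
  (ol b).filter (fun w => ∃ q ∈ BT.outs c b, q.2 = w ∧ s(q.1, q.2) ∈ z)

theorem t2_Y {c : V} {b : BT V} (hnd : (BT.labels b).Nodup) (z : Finset (Sym2 V)) :
    ∀ q ∈ BT.outs c b, (q.2 ∈ t2Y c b z ↔ s(q.1, q.2) ∈ z) := by
  intro q hq
  unfold t2Y
  rw [mem_filter]
  constructor
  · rintro ⟨_, q', hq', h1, h2⟩
    have h3 : ((BT.outs c b).map Prod.snd).Nodup := hnd.sublist (t2_outs_sublist b c)
    have h4 : q' = q := List.inj_on_of_nodup_map h3 hq' hq h1
    rwa [h4] at h2
  · intro h
    exact ⟨(t2_ol_iff b c q.2).2 ⟨q, hq, rfl⟩, q, hq, rfl, h⟩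

theorem t2_C {K : Finset (Sym2 V)} {c o : V} {b : BT V}
    (hnd : (o :: c :: b.labels).Nodup)
    (hroot : ∀ y, s(c, y) ∈ K ↔ (y = o ∨ y ∈ b.tops)) (hfull : b.Full K c)
    (hout : ∀ q ∈ b.outs c, ∃ P ⊆ K, (∀ e ∈ P, ∀ x ∈ e, x ≠ c ∧ x ∉ b.nodes) ∧ IsJn P q.2 o)
    (hoK : ∀ q ∈ b.outs c, s(q.1, q.2) ∈ K) (w : V) (hw : w ∈ ol b) :
    ∃ C ∈ Zf K, ∀ q ∈ b.outs c, (s(q.1, q.2) ∈ C ↔ q.2 = w) := by
  obtain ⟨q, hq, hqw⟩ := (t2_ol_iff b c w).1 hw
  have hndc : (c :: b.labels).Nodup := (List.nodup_cons.1 hnd).2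
  have hndl : b.labels.Nodup := (List.nodup_cons.1 hndc).2
  have hoc : o ≠ c := by
    intro h; exact (List.nodup_cons.1 hnd).1 (by rw [h]; exact List.mem_cons_self)
  have ho : o ∉ b.labels := fun h => (List.nodup_cons.1 hnd).1 (List.mem_cons_of_mem _ h)
  have hc : c ∉ b.labels := (List.nodup_cons.1 hndc).1
  obtain ⟨P, hPK, hPa, hPj⟩ := hout q hq
  obtain ⟨T, hTK, hTa, hTj⟩ := t2_path (K := K) (c := c) (N := b.nodes) b c ∅ (empty_subset _)
    (fun e he => absurd he (notMem_empty e)) (isJn_refl c) (Or.inl rfl) (fun x hx => hx) hfull hndc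
    q hq
  -- facts on leaf labels
  have hleaf : ∀ q' ∈ b.outs c, q'.2 ∈ b.labels ∧ q'.2 ∉ b.nodes ∧ q'.2 ≠ c ∧ q'.2 ≠ o := by
    intro q' hq'
    have h1 : q'.2 ∈ ol b := (t2_ol_iff b c q'.2).2 ⟨q', hq', rfl⟩
    have h2 := t2_ol_labels b h1
    exact ⟨h2, t2_ol_nodes b hndl _ h1, fun h => hc (h ▸ h2), fun h => ho (h ▸ h2)⟩
  have hown : ∀ q' ∈ b.outs c, q'.1 = c ∨ q'.1 ∈ b.nodes := fun q' hq' => t2_owner b c q' hq'
  have hqne : q.1 ≠ q.2 := by
    intro h
    rcases hown q hq with h1 | h1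
    · exact (hleaf q hq).2.2.1 (h ▸ h1)
    · exact (hleaf q hq).2.1 (h ▸ h1)
  refine ⟨(({s(o, c)} ∆ T) ∆ {s(q.1, q.2)}) ∆ P, ?_, ?_⟩
  · rw [mem_Zf]
    constructor
    · intro e he
      simp only [mem_symmDiff, mem_singleton] at he
      have h1 : s(o, c) ∈ K := by rw [Sym2.eq_swap]; exact (hroot o).2 (Or.inl rfl)
      have h2 := hoK q hq
      rcases he with ⟨⟨⟨h, _⟩ | ⟨h, _⟩, _⟩ | ⟨h, _⟩, _⟩ | ⟨h, _⟩
      · rw [h]; exact h1
      · exact hTK h
      · rw [h]; exact h2
      · exact hPK h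
    · have h1 : IsJn (({s(o, c)} ∆ T) ∆ {s(q.1, q.2)}) o q.2 :=
        ((isJn_edge hoc).trans hTj).trans (isJn_edge hqne)
      have h2 := h1.isEv hPj.symm
      exact h2
  · intro q' hq'
    have hl' := hleaf q' hq'
    have n1 : s(q'.1, q'.2) ≠ s(o, c) := by
      intro h
      have : q'.2 ∈ s(o, c) := by rw [← h]; exact Sym2.mem_mk_right _ _
      rw [Sym2.mem_iff] at this
      rcases this with h' | h'
      · exact hl'.2.2.2 h'
      · exact hl'.2.2.1 h'
    have n2 : s(q'.1, q'.2) ∉ T := by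
      intro h
      rcases hTa _ h q'.2 (Sym2.mem_mk_right _ _) with h' | h'
      · exact hl'.2.2.1 h'
      · exact hl'.2.1 h'
    have n3 : s(q'.1, q'.2) ∉ P := by
      intro h
      have := hPa _ h q'.1 (Sym2.mem_mk_left _ _)
      rcases hown q' hq' with h' | h'
      · exact this.1 h'
      · exact this.2 h'
    have n4 : s(q'.1, q'.2) = s(q.1, q.2) ↔ q'.2 = w := by
      constructor
      · intro h
        have : q'.2 ∈ s(q.1, q.2) := by rw [← h]; exact Sym2.mem_mk_right _ _
        rw [Sym2.mem_iff] at this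
        rcases this with h' | h'
        · exfalso
          rcases hown q hq with h1 | h1
          · exact hl'.2.2.1 (h'.trans h1)
          · exact hl'.2.1 (by rw [h']; exact h1)
        · exact h'.trans hqw
      · intro h
        have h3 : ((BT.outs c b).map Prod.snd).Nodup := hndl.sublist (t2_outs_sublist b c)
        have h4 : q' = q := List.inj_on_of_nodup_map h3 hq' hq (h.trans hqw.symm)
        rw [h4]
    simp only [mem_symmDiff, mem_singleton]
    rw [← n4]
    constructor
    · intro h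
      rcases h with ⟨⟨⟨h, _⟩ | ⟨h, _⟩, _⟩ | ⟨h, _⟩, _⟩ | ⟨h, _⟩
      · exact absurd h n1
      · exact absurd h n2
      · exact h
      · exact absurd h n3
    · intro h
      refine Or.inl ⟨Or.inr ⟨h, ?_⟩, n3⟩
      rintro (⟨h', _⟩ | ⟨h', _⟩)
      · exact n1 h'
      · exact n2 h'

theorem t2_Yd {c : V} {b : BT V} (hnd : (BT.labels b).Nodup) {C : Finset (Sym2 V)} {w : V}
    (hw : w ∈ ol b)
    (hC : ∀ q ∈ b.outs c, (s(q.1, q.2) ∈ C ↔ q.2 = w)) (z : Finset (Sym2 V)) :
    t2Y c b (z ∆ C) = t2Y c b z ∆ {w} := by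
  ext v
  rw [mem_symmDiff, mem_singleton]
  by_cases hv : v ∈ ol b
  · obtain ⟨q, hq, rfl⟩ := (t2_ol_iff b c v).1 hv
    rw [t2_Y hnd (z ∆ C) q hq, t2_Y hnd z q hq, mem_symmDiff, hC q hq]
  · have h1 : ∀ z', v ∉ t2Y c b z' := fun z' h => hv (mem_filter.1 h).1
    constructor
    · intro h; exact absurd h (h1 _)
    · rintro (⟨h, _⟩ | ⟨h, _⟩)
      · exact absurd h (h1 _)
      · exact absurd (h ▸ hw) hv

open Classical in
theorem t2_fib {K : Finset (Sym2 V)} {c o : V} {b : BT V}
    (hnd : (o :: c :: b.labels).Nodup)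
    (hroot : ∀ y, s(c, y) ∈ K ↔ (y = o ∨ y ∈ b.tops)) (hfull : b.Full K c)
    (hout : ∀ q ∈ b.outs c, ∃ P ⊆ K, (∀ e ∈ P, ∀ x ∈ e, x ≠ c ∧ x ∉ b.nodes) ∧ IsJn P q.2 o)
    (hoK : ∀ q ∈ b.outs c, s(q.1, q.2) ∈ K) (A : Finset V) (hA : A ⊆ ol b) :
    ((Zf K).filter (fun z => t2Y c b z = A)).card = ((Zf K).filter (fun z => t2Y c b z = ∅)).card := by
  have hndl : b.labels.Nodup := (List.nodup_cons.1 (List.nodup_cons.1 hnd).2).2
  induction A using Finset.induction_on with
  | empty => rfl
  | insert w A hwA ih =>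
    have hw : w ∈ ol b := hA (mem_insert_self w A)
    rw [← ih ((subset_insert w A).trans hA)]
    obtain ⟨C, hCZ, hC⟩ := t2_C hnd hroot hfull hout hoK w hw
    have hY := t2_Yd hndl hw hC
    have hins : insert w A = A ∆ {w} := by
      ext v
      rw [mem_insert, mem_symmDiff, mem_singleton]
      constructor
      · rintro (rfl | h)
        · exact Or.inr ⟨rfl, hwA⟩
        · exact Or.inl ⟨h, fun h' => hwA (h' ▸ h)⟩
      · rintro (⟨h, _⟩ | ⟨h, _⟩)
        · exact Or.inr h
        · exact Or.inl h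
    apply Finset.card_bij (fun z _ => z ∆ C)
    · intro z hz
      rw [mem_filter] at hz ⊢
      refine ⟨Zf_symmDiff hz.1 hCZ, ?_⟩
      rw [hY, hz.2, hins, symmDiff_symmDiff_cancel_right]
    · intro z _ w _ h
      exact symmDiff_left_injective C h
    · intro z hz
      rw [mem_filter] at hz
      refine ⟨z ∆ C, ?_, by simp⟩
      rw [mem_filter]
      exact ⟨Zf_symmDiff hz.1 hCZ, by rw [hY, hz.2, hins]⟩

open Classical in
theorem t2_count {K : Finset (Sym2 V)} {c o : V} {b : BT V}
    (hnd : (o :: c :: b.labels).Nodup)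
    (hroot : ∀ y, s(c, y) ∈ K ↔ (y = o ∨ y ∈ b.tops)) (hfull : b.Full K c)
    (hout : ∀ q ∈ b.outs c, ∃ P ⊆ K, (∀ e ∈ P, ∀ x ∈ e, x ≠ c ∧ x ∉ b.nodes) ∧ IsJn P q.2 o)
    (hoK : ∀ q ∈ b.outs c, s(q.1, q.2) ∈ K) (Q : Finset V → Prop) :
    ((Zf K).filter (fun z => Q (t2Y c b z))).card =
      ((ol b).powerset.filter (fun Y => Q Y)).card *
        ((Zf K).filter (fun z => t2Y c b z = ∅)).card := by
  rw [Finset.card_eq_sum_card_fiberwise (f := fun z => t2Y c b z)
    (t := (ol b).powerset.filter (fun Y => Q Y))]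
  · rw [← smul_eq_mul, ← Finset.sum_const]
    refine Finset.sum_congr rfl fun A hA => ?_
    rw [mem_filter, mem_powerset] at hA
    rw [← t2_fib hnd hroot hfull hout hoK A hA.1]
    congr 1
    ext z
    simp only [mem_filter]
    constructor
    · rintro ⟨⟨h1, _⟩, h3⟩; exact ⟨h1, h3⟩
    · rintro ⟨h1, h3⟩; exact ⟨⟨h1, by rw [h3]; exact hA.2⟩, h3⟩
  · intro z hz
    rw [mem_coe, mem_filter] at hz
    rw [mem_coe, mem_filter, mem_powerset]
    exact ⟨filter_subset _ _, hz.2⟩

open Classical in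
/-- few even sets leave a flagged hanging element alive -/
theorem theta_bound {K : Finset (Sym2 V)} (hK : NL K) {c o : V} {b : BT V}
    (hnd : (o :: c :: b.labels).Nodup)
    (hroot : ∀ y, s(c, y) ∈ K ↔ (y = o ∨ y ∈ b.tops)) (hfull : b.Full K c)
    (hout : ∀ q ∈ b.outs c, ∃ P ⊆ K, (∀ e ∈ P, ∀ x ∈ e, x ≠ c ∧ x ∉ b.nodes) ∧ IsJn P q.2 o)
    (hoK : ∀ q ∈ b.outs c, s(q.1, q.2) ∈ K)
    (S0 : Finset V) :
    (((Zf K).filter (fun z => dirt (S0.filter (fun x => dg z x = 0)) true b)).card : ℝ) ≤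
      Theta true b * (Zf K).card := by
  have hndc : (c :: b.labels).Nodup := (List.nodup_cons.1 hnd).2
  have hndl : b.labels.Nodup := (List.nodup_cons.1 hndc).2
  have h1 : ((Zf K).filter (fun z => dirt (S0.filter (fun x => dg z x = 0)) true b)) ⊆
      ((Zf K).filter (fun z => bd true b (t2Y c b z))) := by
    intro z hz
    rw [mem_filter] at hz ⊢
    have hz1 := mem_Zf.1 hz.1
    exact ⟨hz.1, t2_bd hz1.1 hz1.2 (fun x hx => (mem_filter.1 hx).2) b true c hfull hndc
      (t2_Y hndl z) hz.2⟩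
  have h2 := t2_count hnd hroot hfull hout hoK (fun Y => bd true b Y)
  have h3 := t2_count hnd hroot hfull hout hoK (fun _ => True)
  rw [Finset.filter_true, Finset.filter_true, card_powerset] at h3
  have h4 := count_bd true b hndl
  set N := ((Zf K).filter (fun z => t2Y c b z = ∅)).card with hN
  have h5 : (((Zf K).filter (fun z => bd true b (t2Y c b z))).card : ℝ) ≤
      Theta true b * (Zf K).card := by
    rw [h2, h3]
    push_cast
    have h6 := mul_le_mul_of_nonneg_right h4 (Nat.cast_nonneg (α := ℝ) N)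
    linarith
  exact le_trans (by exact_mod_cast card_le_card h1) h5

end Jia
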