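import Pool.Agent.Helper826.Jia.Defs

set_option autoImplicit false

/-! ### leaf bits -/
namespace Jia
open Finset
open scoped symmDiff

variable {V : Type*} [DecidableEq V]

/-- the out-labels -/
def ol : BT V → Finset V
  | .out w => {w}
  | .nd _ _ b => ol b
  | .br s t => ol s ∪ ol t

/-- no top edge is used, `Y` the set of used leaf edges -/
def zr : BT V → Finset V → Prop
  | .out w, Y => w ∉ Y
  | .nd _ _ b, Y => Even (Y ∩ ol b).card
  | .br s t, Y => zr s Y ∧ zr t Y

/-- there is an unvisited path through the bouquet -/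
def al : BT V → Finset V → Prop
  | .out w, Y => w ∉ Y
  | .nd _ _ b, Y => zr b Y ∧ al b Y
  | .br s t, Y => al s Y ∨ al t Y

/-- some element hanging at a flagged owner is alive -/
def bd : Bool → BT V → Finset V → Prop
  | f, .out w, Y => f = true ∧ w ∉ Y
  | f, .nd g x b, Y => (f = true ∧ al (.nd g x b) Y) ∨ bd g b Y
  | f, .br s t, Y => bd f s Y ∨ bd f t Y

end Jia
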