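import Pool.Agent.Helper826.Jia.G2
import Pool.Agent.Helper826.Jia.T2
import Pool.Agent.Helper826.Jia.C1
import Pool.Agent.Helper826.Jia.C2

set_option autoImplicit false

namespace Jia
open Finset
open scoped symmDiff
variable {V : Type*} [DecidableEq V]

theorem agree_lab {S S' : Finset V} (b : BT V) (h : ∀ x ∈ b.labels, (x ∈ S ↔ x ∈ S')) :
    ∀ f, val S f b = val S' f b ∧ (dirt S f b ↔ dirt S' f b) := by
  induction b with
  | out w =>
    intro f
    have hw := h w (by simp [BT.labels])
    constructor
    · simp only [val, hw]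
    · simp only [dirt, hw]
  | nd g x b ih =>
    intro f
    have hx := h x (by simp [BT.labels])
    have ih' := ih (fun y hy => h y (by simp [BT.labels, hy]))
    have hval : val S f (BT.nd g x b) = val S' f (BT.nd g x b) := by
      simp only [val, hx, (ih' g).1]
    refine ⟨hval, ?_⟩
    simp only [dirt, hval, (ih' g).2]
  | br s t ihs iht =>
    intro f
    have ihs' := ihs (fun y hy => h y (by simp [BT.labels, hy]))
    have iht' := iht (fun y hy => h y (by simp [BT.labels, hy]))
    constructor
    · simp only [val, (ihs' f).1, (iht' f).1]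
    · simp only [dirt, (ihs' f).2, (iht' f).2]

omit [DecidableEq V] in
theorem tops_labels_TH (b : BT V) : ∀ x ∈ b.tops, x ∈ b.labels := by
  induction b with
  | out w => intro x hx; simpa [BT.tops, BT.labels] using hx
  | nd g y b ih => intro x hx; simp [BT.tops] at hx; simp [BT.labels, hx]
  | br s t ihs iht =>
    intro x hx
    simp only [BT.tops, List.mem_append] at hx
    simp only [BT.labels, List.mem_append]
    exact hx.imp (ihs x) (iht x)

omit [DecidableEq V] in
theorem dir_labels_TH {e t : BT V} (hd : Dir e t) : ∀ x ∈ e.labels, x ∈ t.labels := by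
  induction hd with
  | out w => intro x hx; exact hx
  | nd f x b => intro x hx; exact hx
  | left h ih => intro x hx; simp only [BT.labels, List.mem_append]; exact Or.inl (ih x hx)
  | right h ih => intro x hx; simp only [BT.labels, List.mem_append]; exact Or.inr (ih x hx)

omit [DecidableEq V] in
theorem AS_labels {S : Finset V} {c : V} {b : BT V} {p : V} {f : Bool} {t : BT V}
    (h : AS S c b p f t) : (p = c ∨ p ∈ b.labels) ∧ ∀ x ∈ t.labels, x ∈ b.labels := by
  induction h with
  | root h => exact ⟨Or.inl rfl, fun x hx => hx⟩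
  | step h hd hy ih =>
    have h1 := dir_labels_TH hd
    refine ⟨Or.inr (ih.2 _ (h1 _ (by simp [BT.labels]))), fun x hx => ih.2 _ (h1 _ ?_)⟩
    simp [BT.labels, hx]

theorem full_erase {K : Finset (Sym2 V)} {o c : V} (b : BT V) :
    ∀ p, o ∉ b.labels → c ∉ b.labels → b.Full K p → b.Full (K.erase s(o, c)) p := by
  induction b with
  | out w => intro p _ _ _; trivial
  | nd g x b ih =>
    intro p ho hc hf
    simp only [BT.labels, List.mem_cons, not_or] at ho hc
    obtain ⟨h1, h2⟩ := hf
    refine ⟨?_, ih x ho.2 hc.2 h2⟩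
    intro y
    rw [← h1 y, Finset.mem_erase]
    constructor
    · exact fun h => h.2
    · intro h
      refine ⟨?_, h⟩
      intro heq
      have : x ∈ s(o, c) := by rw [← heq]; exact Sym2.mem_mk_left x y
      rw [Sym2.mem_iff] at this
      rcases this with h3 | h3
      · exact ho.1 h3.symm
      · exact hc.1 h3.symm
  | br s t ihs iht =>
    intro p ho hc hf
    simp only [BT.labels, List.mem_append, not_or] at ho hc
    exact ⟨ihs p ho.1 hc.1 hf.1, iht p ho.2 hc.2 hf.2⟩

/-- few cycles pass through the edge `oc` if there is a tree-like neighbourhood -/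
theorem thick_ineq {K : Finset (Sym2 V)} (hK : NL K) {c o : V} {b : BT V}
    (hnd : (o :: c :: b.labels).Nodup)
    (hroot : ∀ y, s(c, y) ∈ K ↔ (y = o ∨ y ∈ b.tops)) (hfull : b.Full K c)
    (hout : ∀ q ∈ b.outs c, ∃ P ⊆ K, (∀ e ∈ P, ∀ x ∈ e, x ≠ c ∧ x ∉ b.nodes) ∧ IsJn P q.2 o)
    (hoK : ∀ q ∈ b.outs c, s(q.1, q.2) ∈ K)
    (S0 : Finset V) (hS0 : ∀ e ∈ K, ∀ x ∈ e, x ∈ S0) :
    (((Cf K).filter (fun C => s(o, c) ∈ C)).card : ℝ) ≤
      ((val S0 true b).getD 0 + Theta true b) * (Zf K).card := by
  classical
  have hnd' := hnd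
  rw [List.nodup_cons, List.nodup_cons, List.mem_cons, not_or] at hnd'
  obtain ⟨⟨hoc, hol⟩, hcl, hbn⟩ := hnd'
  have hcoK : s(c, o) ∈ K := (hroot o).2 (Or.inl rfl)
  have hcS : c ∈ S0 := hS0 _ hcoK c (Sym2.mem_mk_left c o)
  have hoS : o ∈ S0 := hS0 _ hcoK o (Sym2.mem_mk_right c o)
  set K' := K.erase s(o, c) with hK'
  have hroot' : ∀ y, s(c, y) ∈ K' ↔ y ∈ b.tops := by
    intro y
    rw [hK', Finset.mem_erase, hroot y]
    constructor
    · rintro ⟨h1, h2 | h2⟩
      · exfalso
        apply h1
        rw [h2, Sym2.eq_swap]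
      · exact h2
    · intro h
      refine ⟨?_, Or.inr h⟩
      intro heq
      have h2 : y ∈ s(o, c) := by rw [← heq]; exact Sym2.mem_mk_right c y
      rw [Sym2.mem_iff] at h2
      rcases h2 with h3 | h3
      · exact hol (h3 ▸ tops_labels_TH b y h)
      · exact hcl (h3 ▸ tops_labels_TH b y h)
  have hfull' : b.Full K' c := full_erase b c hol hcl hfull
  have hgame := (game (K := K') (List.nodup_cons.2 ⟨hcl, hbn⟩) hroot' hfull' S0.card S0 rfl hcS).1 o hoS
    (by
      intro f t hAS
      rcases (AS_labels hAS).1 with h | h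
      · exact hoc h
      · exact hol h)
  have hv0 : 0 ≤ (val S0 true b).getD 0 := by
    cases hv : val S0 true b with
    | none => simp
    | some a => simpa using (val_bounds S0 true b a hv).1
  have hZ : ((Zf (rs K' S0)).card : ℝ) ≤ (Zf K).card := by
    have : Zf (rs K' S0) ⊆ Zf K :=
      Zf_mono ((Finset.filter_subset _ _).trans (Finset.erase_subset _ _))
    exact_mod_cast Finset.card_le_card this
  have htheta := theta_bound hK hnd hroot hfull hout hoK S0
  -- split
  have hsplit := Finset.card_filter_add_card_filter_not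
    (s := (Cf K).filter (fun C => s(o, c) ∈ C))
    (fun C => dirt (S0.filter (fun x => dg C x = 0)) true b)
  have h1 : ((((Cf K).filter (fun C => s(o, c) ∈ C)).filter
      (fun C => dirt (S0.filter (fun x => dg C x = 0)) true b)).card : ℝ) ≤
      Theta true b * (Zf K).card := by
    refine le_trans ?_ htheta
    have hsub : ((Cf K).filter (fun C => s(o, c) ∈ C)).filter
      (fun C => dirt (S0.filter (fun x => dg C x = 0)) true b) ⊆
      (Zf K).filter (fun z => dirt (S0.filter (fun x => dg z x = 0)) true b) := by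
      intro C hC
      rw [Finset.mem_filter, Finset.mem_filter, mem_Cf] at hC
      rw [Finset.mem_filter, mem_Zf]
      exact ⟨⟨hC.1.1.1, (cyc_ev hC.1.1.2).1⟩, hC.2⟩
    exact_mod_cast Finset.card_le_card hsub
  have h2 : ((((Cf K).filter (fun C => s(o, c) ∈ C)).filter
      (fun C => ¬ dirt (S0.filter (fun x => dg C x = 0)) true b)).card : ℝ) ≤
      (val S0 true b).getD 0 * (Zf K).card := by
    refine le_trans ?_ (hgame.trans (mul_le_mul_of_nonneg_left hZ hv0))
    unfold cnt
    have : (((Cf K).filter (fun C => s(o, c) ∈ C)).filter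
      (fun C => ¬ dirt (S0.filter (fun x => dg C x = 0)) true b)).card ≤
      (K'.powerset.filter (fun P => ∃ R, Pth K' c S0 o P R ∧ ¬ dirt R true b)).card := by
      apply Finset.card_le_card_of_injOn (fun C => C.erase s(o, c))
      · intro C hC
        rw [Finset.mem_coe, Finset.mem_filter, Finset.mem_filter, mem_Cf] at hC
        obtain ⟨⟨⟨hCK, hCc⟩, hCe⟩, hCd⟩ := hC
        rw [Finset.mem_coe, Finset.mem_filter, Finset.mem_powerset]
        refine ⟨Finset.erase_subset_erase _ hCK, ?_⟩
        obtain ⟨R, hR1, hR2⟩ := cyc_path hCc hCK hCe hoc (fun e he => hS0 e (hCK he))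
        refine ⟨R, hR1, ?_⟩
        intro hd
        apply hCd
        refine ((agree_lab b ?_ true).2).1 hd
        intro x hx
        rw [hR2, Finset.mem_filter]
        constructor
        · rintro ⟨h3, h4 | h4⟩
          · exact ⟨h3, h4⟩
          · exact absurd (h4 ▸ hx) hcl
        · rintro ⟨h3, h4⟩
          exact ⟨h3, Or.inl h4⟩
      · intro C hC C' hC' heq
        rw [Finset.mem_coe, Finset.mem_filter, Finset.mem_filter] at hC hC'
        have e1 := Finset.insert_erase hC.1.2
        have e2 := Finset.insert_erase hC'.1.2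
        simp only at heq
        rw [← e1, ← e2, heq]
    exact_mod_cast this
  have h3 : (((Cf K).filter (fun C => s(o, c) ∈ C)).card : ℝ) =
      (((Cf K).filter (fun C => s(o, c) ∈ C)).filter
      (fun C => dirt (S0.filter (fun x => dg C x = 0)) true b)).card +
      (((Cf K).filter (fun C => s(o, c) ∈ C)).filter
      (fun C => ¬ dirt (S0.filter (fun x => dg C x = 0)) true b)).card := by
    exact_mod_cast hsplit.symm
  rw [h3, add_mul]
  linarith

end Jia
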