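import Pool.Agent.Helper826.Jia.Defs

set_option autoImplicit false

/-! ### walker bookkeeping -/
namespace Jia
open Finset
open scoped symmDiff

variable {V : Type*} [DecidableEq V]

omit [DecidableEq V] in
/-- `Dir e t`: the element `e` (an `out` or an `nd`) hangs directly in the bouquet `t` -/
inductive Dir : BT V → BT V → Prop
  | out (w : V) : Dir (.out w) (.out w)
  | nd (f : Bool) (x : V) (b : BT V) : Dir (.nd f x b) (.nd f x b)
  | left {e s t : BT V} (h : Dir e s) : Dir e (.br s t)
  | right {e s t : BT V} (h : Dir e t) : Dir e (.br s t)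

/-- `AS S c b p f t`: `p` is an attached owner (the root `c` or a node all of whose ancestors are in `S`)
with flag `f` and bouquet `t`, inside the tree with root `c` (flag `true`) and bouquet `b`. -/
inductive AS (S : Finset V) (c : V) (b : BT V) : V → Bool → BT V → Prop
  | root (h : c ∈ S) : AS S c b c true b
  | step {p : V} {f : Bool} {t : BT V} {g : Bool} {y : V} {t' : BT V}
      (h : AS S c b p f t) (hd : Dir (.nd g y t') t) (hy : y ∈ S) : AS S c b y g t'

/-- walker results -/
inductive WR where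
  | vv (o : Option ℝ) : WR
  | pd : WR
  | aa (a : ℝ) : WR

noncomputable def ep (f : Bool) : ℝ := if f then 0 else 1

noncomputable def own (f : Bool) : Option ℝ → WR
  | none => .pd
  | some _ => .aa (ep f)

noncomputable def wc (f : Bool) : WR → WR → WR
  | .vv a, .vv b => .vv (cb f a b)
  | .pd, .vv none => .pd
  | .vv none, .pd => .pd
  | .pd, .vv (some _) => .aa (ep f)
  | .vv (some _), .pd => .aa (ep f)
  | .aa a, .vv none => .aa a
  | .vv none, .aa a => .aa a
  | .aa a, .vv (some b) => .aa (FF f a b)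
  | .vv (some b), .aa a => .aa (FF f a b)
  | _, _ => .pd

open Classical in
/-- value of a bouquet when the walker stands at the node `x` -/
noncomputable def Wk (S : Finset V) (x : V) : Bool → BT V → WR
  | _, .out w => .vv (if w ∈ S then some 1 else none)
  | _, .nd g y b => if y ∈ S then (if x = y then own g (val S g b) else Wk S x g b) else .vv none
  | f, .br s t => wc f (Wk S x f s) (Wk S x f t)

open Classical in
noncomputable def Wr (S : Finset V) (c : V) (b : BT V) (p : V) : WR :=
  if p = c then own true (val S true b) else Wk S p true b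

open Classical in
noncomputable def fin' (S : Finset V) (b : BT V) : WR → ℝ
  | .pd => if dirt S true b then 0 else 1
  | .aa a => a
  | .vv _ => 0

def Tri (r : WR) (d s : Option ℝ) : Prop :=
  (r = .pd ∧ d = none ∧ s = some 1) ∨
  ∃ a d' s', r = .aa a ∧ d = some d' ∧ s = some s' ∧ 0 ≤ a ∧ a ≤ s' ∧ s' ≤ 1 ∧ 0 ≤ d' ∧ d' ≤ 1 ∧
    (a + d') / 2 ≤ s'

def TriI (g : Bool) (r : WR) (d : Option ℝ) (s : WR) : Prop :=
  (r = .pd ∧ d = none ∧ s = .aa (ep g)) ∨
  ∃ a d' s', r = .aa a ∧ d = some d' ∧ s = .aa s' ∧ 0 ≤ a ∧ a ≤ s' ∧ s' ≤ 1 ∧ 0 ≤ d' ∧ d' ≤ 1 ∧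
    (a + d') / 2 ≤ s'

end Jia
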